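import Pool.Agent.Run7.h109.Dua2

set_option autoImplicit false
set_option linter.unusedSectionVars false

open AlgebraicGeometry CategoryTheory TopologicalSpace Opposite LaurentPolynomial

noncomputable section

namespace Run7.h109

variable {k : Type} [Field k] [CharZero k]

/-- The restriction of the sections of the pushforward to the intersection of the charts is
injective. -/
theorem R_inj (W : (X k).Opens) (s t : Γ(R k, W))
    (h : rt (R k) (inf_le_left : W ⊓ (U k ⊓ V k) ≤ W) s =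
      rt (R k) (inf_le_left : W ⊓ (U k ⊓ V k) ≤ W) t) : s = t := by
  have e : (iK k) ⁻¹ᵁ W ≤ (iK k) ⁻¹ᵁ (W ⊓ (U k ⊓ V k)) := by
    intro x hx
    have h1 : x ∈ (iK k) ⁻¹ᵁ (U k ⊓ V k) := by rw [pUV]; trivial
    exact ⟨hx, h1⟩
  have h2 : rf ((iK k).preimage_mono (inf_le_left : W ⊓ (U k ⊓ V k) ≤ W)) (toF (iK k) W s) =
    rf ((iK k).preimage_mono (inf_le_left : W ⊓ (U k ⊓ V k) ≤ W)) (toF (iK k) W t) := h
  have h3 := congrArg (rf e) h2
  rw [rf_rf, rf_rf] at h3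
  have h4 : ∀ a : Γ(Spec (.of (K k)), (iK k) ⁻¹ᵁ W),
      rf (e.trans ((iK k).preimage_mono (inf_le_left : W ⊓ (U k ⊓ V k) ≤ W))) a = a := by
    intro a
    have h5 : (Spec (.of (K k))).presheaf.map (homOfLE (le_refl ((iK k) ⁻¹ᵁ W))).op = 𝟙 _ :=
      (Spec (.of (K k))).presheaf.map_id _
    unfold rf
    exact congrArg (fun g => g.hom a) h5
  rw [h4, h4] at h3
  exact h3

/-- The values of a map with the given residues. -/
theorem val_eq {F : (X k).Modules} (hF : F.IsQuasicoherent) (l : Γ(F, U k ⊓ V k) →+ k)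
    (hs : ∀ (c : k) (s : Γ(F, U k ⊓ V k)), l (eK k (algebraMap k (K k) c) • s) = c * l s)
    (hU : ∀ t : Γ(F, U k), l (rt F inf_le_left t) = 0)
    (hV : ∀ t : Γ(F, V k), l (rt F inf_le_right t) = 0)
    (φ : F ⟶ R k) (h : ∀ s, tr k (toK (iK k) (pUV k) ((φ.app (U k ⊓ V k)).hom s)) = l s)
    (s : Γ(F, U k ⊓ V k)) :
    toK (iK k) (pUV k) ((φ.app (U k ⊓ V k)).hom s) = rp F hF l hs hU hV s := by
  apply rp_unique
  intro g
  rw [← h]
  congr 1
  have h1 : (φ.app (U k ⊓ V k)).hom (eK k g • s) = eK k g • (φ.app (U k ⊓ V k)).hom s :=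
    φ.app_smul _ _
  rw [h1, toK_smul, al_eK]

theorem dual_exists {F : (X k).Modules} (hF : F.IsQuasicoherent) (l : Γ(F, U k ⊓ V k) →+ k)
    (hs : ∀ (c : k) (s : Γ(F, U k ⊓ V k)), l (eK k (algebraMap k (K k) c) • s) = c * l s)
    (hU : ∀ t : Γ(F, U k), l (rt F inf_le_left t) = 0)
    (hV : ∀ t : Γ(F, V k), l (rt F inf_le_right t) = 0) :
    ∃ φ : F ⟶ (Pω k).D.S.sheaf, ∀ s : Γ(F, U k ⊓ V k),
      tr k (toK (iK k) (pUV k) ((Pω k).D.S.val ((φ.app (U k ⊓ V k)).hom s))) = l s := by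
  obtain ⟨Φ, hΦ⟩ := exists_Phi F hF l hs hU hV
  have m1 : ∀ t : Γ(F, U k), (Φ.app (U k)).hom t ∈ secU (MA k) := by
    intro t
    have h1 := toK_rt (iK k) (pU k) (pUV k) inf_le_left ((Φ.app (U k)).hom t)
    rw [← hom_rt, hΦ] at h1
    change toK (iK k) (pU k) ((Φ.app (U k)).hom t) ∈ MA k
    rw [← h1]
    exact rp_U F hF l hs hU hV t
  have m2 : ∀ t : Γ(F, V k), (Φ.app (V k)).hom t ∈ secV (NB (k := k) ![4, 4, 4]) := by
    intro t
    have h1 := toK_rt (iK k) (pV k) (pUV k) inf_le_right ((Φ.app (V k)).hom t)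
    rw [← hom_rt, hΦ] at h1
    change toK (iK k) (pV k) ((Φ.app (V k)).hom t) ∈ NB (k := k) ![4, 4, 4]
    rw [← h1]
    exact rp_V F hF l hs hU hV t
  have m3 : ∀ (W : (X k).Opens) (s : Γ(F, W)), (Φ.app W).hom s ∈ (Pω k).D.S.N W := fun W s =>
    ⟨near_of_hom Φ (affU k) (locAt_of_qc F (affU k)) _ m1 W s,
      near_of_hom Φ (affV k) (locAt_of_qc F (affV k)) _ m2 W s⟩
  refine ⟨(Pω k).D.S.lift Φ m3, fun s => ?_⟩
  rw [LocSub.val_lift, hΦ]
  have h1 := rp_spec F hF l hs hU hV s 1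
  rw [one_mul, map_one, one_smul] at h1
  exact h1

theorem dual_unique {F : (X k).Modules} (hF : F.IsQuasicoherent) (l : Γ(F, U k ⊓ V k) →+ k)
    (hs : ∀ (c : k) (s : Γ(F, U k ⊓ V k)), l (eK k (algebraMap k (K k) c) • s) = c * l s)
    (hU : ∀ t : Γ(F, U k), l (rt F inf_le_left t) = 0)
    (hV : ∀ t : Γ(F, V k), l (rt F inf_le_right t) = 0)
    (φ ψ : F ⟶ (Pω k).D.S.sheaf) (h1 : ∀ s : Γ(F, U k ⊓ V k),
      tr k (toK (iK k) (pUV k) ((Pω k).D.S.val ((φ.app (U k ⊓ V k)).hom s))) = l s)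
    (h2 : ∀ s : Γ(F, U k ⊓ V k),
      tr k (toK (iK k) (pUV k) ((Pω k).D.S.val ((ψ.app (U k ⊓ V k)).hom s))) = l s) : φ = ψ := by
  have e1 := val_eq hF l hs hU hV (φ ≫ (Pω k).D.S.ι) h1
  have e2 := val_eq hF l hs hU hV (ψ ≫ (Pω k).D.S.ι) h2
  have e3 : ∀ s : Γ(F, U k ⊓ V k), ((φ ≫ (Pω k).D.S.ι).app (U k ⊓ V k)).hom s =
      ((ψ ≫ (Pω k).D.S.ι).app (U k ⊓ V k)).hom s := by
    intro s
    apply toK_inj (iK k) (pUV k)
    rw [e1, e2]
  have e4 := hom_eq_of_affine (φ ≫ (Pω k).D.S.ι) (ψ ≫ (Pω k).D.S.ι) (affUV k)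
    (locAt_of_qc F (affUV k)) e3
  apply Scheme.Modules.hom_ext
  intro W
  ext s
  apply (Pω k).D.S.val_inj
  have e5 : ((φ ≫ (Pω k).D.S.ι).app W).hom s = ((ψ ≫ (Pω k).D.S.ι).app W).hom s := by
    apply R_inj
    rw [← hom_rt, ← hom_rt]
    exact e4 _ inf_le_right _
  exact e5

/-- The sheaf is dualizing. -/
theorem dualizing : Dualizing (C := crv k) (Pω k).F := by
  refine ⟨coh_A _ rfl _ rfl, (tr k) ∘ₗ (Pω k).E.t (pUV k), ?_, ?_⟩
  · rintro ⟨s, t⟩
    have h1 : (Pω k).E.t (pUV k) (delta (C := crv k) (Pω k).F (s, t)) =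
        (Pω k).E.t (pU k) s - (Pω k).E.t (pV k) t := by
      have h2 : delta (C := crv k) (Pω k).F (s, t) = res (C := crv k) (Pω k).F inf_le_left s -
        res (C := crv k) (Pω k).F inf_le_right t := rfl
      rw [h2]
      refine (map_sub _ _ _).trans ?_
      exact congrArg₂ (fun a b => a - b) ((Pω k).E.t_res (pU k) (pUV k) inf_le_left s)
        ((Pω k).E.t_res (pV k) (pUV k) inf_le_right t)
    change tr k ((Pω k).E.t (pUV k) (delta (C := crv k) (Pω k).F (s, t))) = 0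
    rw [h1, map_sub, tr_A ((Pω k).t_mem_U s), tr_NB ((Pω k).t_mem_V t), sub_zero]
  · intro F₀ hF l hl
    let F : (X k).Modules := F₀
    have hF' : F.IsQuasicoherent := hF.1
    let l' : Γ(F, U k ⊓ V k) →+ k := l.toAddMonoidHom
    have hs : ∀ (c : k) (s : Γ(F, U k ⊓ V k)),
        l' (eK k (algebraMap k (K k) c) • s) = c * l' s := by
      intro c s
      rw [eK_scal]
      exact l.map_smul c s
    have hU : ∀ t : Γ(F, U k), l' (rt F inf_le_left t) = 0 := by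
      intro t
      have h := hl (t, 0)
      have h1 : delta (C := crv k) F (t, 0) = rt F inf_le_left t := by
        change res (C := crv k) F inf_le_left t - res (C := crv k) F inf_le_right 0 = _
        rw [map_zero, sub_zero]
        rfl
      rw [h1] at h
      exact h
    have hV : ∀ t : Γ(F, V k), l' (rt F inf_le_right t) = 0 := by
      intro t
      have h := hl (0, t)
      have h1 : delta (C := crv k) F (0, t) = - rt F inf_le_right t := by
        change res (C := crv k) F inf_le_left 0 - res (C := crv k) F inf_le_right t = _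
        rw [map_zero, zero_sub]
        rfl
      rw [h1] at h
      have h2 : l' (- rt F inf_le_right t) = - l' (rt F inf_le_right t) := map_neg l' _
      exact neg_eq_zero.1 (h2.symm.trans h)
    obtain ⟨φ, hφ⟩ := dual_exists hF' l' hs hU hV
    exact ⟨φ, hφ, fun ψ hψ => dual_unique hF' l' hs hU hV ψ φ hψ hφ⟩

end Run7.h109
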