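import Mathlib

/-!
# Reduced curves with planar singularities, Clifford index and Koszul groups

Everything is over a field `k`. A curve comes with a cover by two affine open subsets `U` and `V`;
the cohomology of a (quasi-coherent) sheaf is computed with this cover.
-/

set_option autoImplicit false

open AlgebraicGeometry CategoryTheory TopologicalSpace Opposite
open scoped TensorProduct

noncomputable section

namespace Run7.h109

/-! ### Curves -/

/-- A connected reduced projective curve with planar singularities over `k`, together with a cover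
by two affine open subsets: a connected reduced scheme `X`, proper over `k`, whose local rings at
all closed points have Krull dimension `1` and a maximal ideal generated by two elements. -/
structure Curve (k : Type) [Field k] where
  /-- the scheme -/
  X : Scheme.{0}
  /-- the structure morphism -/
  f : X ⟶ Spec (.of k)
  proper : IsProper f
  reduced : IsReduced X
  conn : ConnectedSpace X
  dim_one : ∀ x : X, IsClosed ({x} : Set X) → ringKrullDim (X.presheaf.stalk x) = 1
  planar : ∀ x : X, IsClosed ({x} : Set X) → ∃ a b : X.presheaf.stalk x,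
    IsLocalRing.maximalIdeal (X.presheaf.stalk x) = Ideal.span {a, b}
  /-- the first affine open subset -/
  U : X.Opens
  /-- the second affine open subset -/
  V : X.Opens
  affU : IsAffineOpen U
  affV : IsAffineOpen V
  cover : U ⊔ V = ⊤

variable {k : Type} [Field k] (C : Curve k)

/-- The open subset `U ∩ V`. -/
abbrev Curve.UV : C.X.Opens := C.U ⊓ C.V

/-- The whole curve as an open subset. -/
abbrev Curve.all : C.X.Opens := ⊤

/-- The set of points. -/
abbrev Curve.Pt : Type := C.X

theorem Curve.UV_le_U : C.UV ≤ C.U := inf_le_left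

theorem Curve.UV_le_V : C.UV ≤ C.V := inf_le_right

theorem Curve.le_all (W : C.X.Opens) : W ≤ C.all := le_top

/-- The generic points of the irreducible components. A subcurve of `C` is given by a nonempty
subset of this set, a decomposition `C = A ∪ B` without common components by a nonempty subset
and its nonempty complement. -/
def Curve.comps : Set C.Pt := {x | closure {x} ∈ irreducibleComponents C.X}

/-! ### Sections as vector spaces -/

/-- The ring of functions on the open subset `W`. -/
def Fn (W : C.X.Opens) : Type := Γ(C.X, W)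

instance (W : C.X.Opens) : CommRing (Fn C W) := CommRingCat.commRing Γ(C.X, W)

/-- The constants in the ring of functions on `W`. -/
def scal (W : C.X.Opens) : k →+* Fn C W :=
  ((Scheme.ΓSpecIso (.of k)).inv ≫ C.f.appLE ⊤ W le_top).hom

instance (W : C.X.Opens) : Algebra k (Fn C W) := (scal C W).toAlgebra

variable {C}

/-- The sections of the sheaf of modules `F` on the open subset `W`. -/
def Sec (F : C.X.Modules) (W : C.X.Opens) : Type := Γ(F, W)

variable (F : C.X.Modules)

instance (W : C.X.Opens) : AddCommGroup (Sec F W) := AddCommGrpCat.str Γ(F, W)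

instance (W : C.X.Opens) : Module (Fn C W) (Sec F W) :=
  @Scheme.Modules.instModuleCarrierObjOppositeOpensCarrierCarrierCommRingCatPresheafOpOpensCarrierAbPresheaf
    C.X F W

instance (W : C.X.Opens) : Module k (Sec F W) := Module.compHom _ (scal C W)

theorem Sec.smul_assoc' (W : C.X.Opens) (a : k) (b : Fn C W) (s : Sec F W) :
    (a • b) • s = a • b • s := by
  rw [Algebra.smul_def, mul_smul]
  rfl

instance (W : C.X.Opens) : IsScalarTower k (Fn C W) (Sec F W) where
  smul_assoc := Sec.smul_assoc' F W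

/-- Restriction of sections to a smaller open subset. -/
def resA {W W' : C.X.Opens} (h : W' ≤ W) : Sec F W →+ Sec F W' :=
  (F.presheaf.map (homOfLE h).op).hom

theorem resA_smul {W W' : C.X.Opens} (h : W' ≤ W) (a : k) (s : Sec F W) :
    resA F h (a • s) = a • resA F h s := by
  have h1 := F.map_smul (homOfLE h) (scal C W a) s
  have h2 : C.X.presheaf.map (homOfLE h).op (scal C W a) = scal C W' a := by
    change ((((Scheme.ΓSpecIso (.of k)).inv ≫ C.f.appLE ⊤ W le_top) ≫
      C.X.presheaf.map _).hom a) = _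
    rw [Category.assoc, Scheme.Hom.appLE_map]
    rfl
  rw [h2] at h1
  exact h1

/-- Restriction of sections to a smaller open subset. -/
def res {W W' : C.X.Opens} (h : W' ≤ W) : Sec F W →ₗ[k] Sec F W' where
  toFun s := resA F h s
  map_add' := map_add (resA F h)
  map_smul' := resA_smul F h

variable (C) in
/-- The structure sheaf as a sheaf of modules. -/
def strSheaf : C.X.Modules := SheafOfModules.unit C.X.ringCatSheaf

/-! ### Restriction to subcurves -/

/-- The section `s` vanishes near each point of `S`. -/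
def VanishOn (S : Set C.Pt) {W : C.X.Opens} (s : Sec F W) : Prop :=
  ∀ x ∈ S, x ∈ W → ∃ (W' : C.X.Opens) (h : W' ≤ W), x ∈ W' ∧ res F h s = 0

theorem VanishOn.zero (S : Set C.Pt) (W : C.X.Opens) : VanishOn F S (0 : Sec F W) :=
  fun _ _ hx => ⟨W, le_rfl, hx, map_zero _⟩

variable {F} in
theorem VanishOn.add {S : Set C.Pt} {W : C.X.Opens} {s t : Sec F W} (hs : VanishOn F S s)
    (ht : VanishOn F S t) : VanishOn F S (s + t) := by
  intro x hx hxW
  obtain ⟨W₁, h₁, hx₁, e₁⟩ := hs x hx hxW
  obtain ⟨W₂, h₂, hx₂, e₂⟩ := ht x hx hxW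
  refine ⟨W₁ ⊓ W₂, inf_le_left.trans h₁, ⟨hx₁, hx₂⟩, ?_⟩
  have a₁ : res F (inf_le_left.trans h₁ : W₁ ⊓ W₂ ≤ W) s = res F inf_le_left (res F h₁ s) := by
    change F.presheaf.map _ s = (F.presheaf.map _ ≫ F.presheaf.map _) s
    rw [← F.presheaf.map_comp]; rfl
  have a₂ : res F (inf_le_left.trans h₁ : W₁ ⊓ W₂ ≤ W) t = res F inf_le_right (res F h₂ t) := by
    change F.presheaf.map _ t = (F.presheaf.map _ ≫ F.presheaf.map _) t
    rw [← F.presheaf.map_comp]; rfl
  rw [map_add, a₁, a₂, e₁, e₂, map_zero, map_zero, add_zero]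

variable {F} in
theorem VanishOn.smul {S : Set C.Pt} {W : C.X.Opens} (a : Fn C W) {s : Sec F W}
    (hs : VanishOn F S s) : VanishOn F S (a • s) := by
  intro x hx hxW
  obtain ⟨W₁, h₁, hx₁, e₁⟩ := hs x hx hxW
  refine ⟨W₁, h₁, hx₁, ?_⟩
  have h2 := F.map_smul (homOfLE h₁) a s
  refine h2.trans ?_
  have : F.presheaf.map (homOfLE h₁).op s = 0 := e₁
  rw [this]
  exact smul_zero _

/-- The sections of `F` on `W` which vanish near each point of `S` in `W`. -/
def van (S : Set C.Pt) (W : C.X.Opens) : Submodule (Fn C W) (Sec F W) where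
  carrier := {s | VanishOn F S s}
  zero_mem' := VanishOn.zero F S W
  add_mem' := VanishOn.add
  smul_mem' a _ := VanishOn.smul a

variable (C) in
/-- The functions on `W` which vanish on the subcurve with set of generic points `S`. -/
def idl (S : Set C.Pt) (W : C.X.Opens) : Ideal (Fn C W) := van (strSheaf C) S W

/-- The kernel of the restriction of `F` to the subcurve `B` with set of generic points `S`, over
the affine open subset `W`. For `τ = false` this is the ideal of `B` times `F`, so that the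
restriction is `F ⊗ 𝒪_B`. For `τ = true` the restriction is `F ⊗ 𝒪_B` modulo its torsion. -/
def kerRes (τ : Bool) (S : Set C.Pt) (W : C.X.Opens) : Submodule k (Sec F W) :=
  match τ with
  | true => (van F S W).restrictScalars k
  | false => ((idl C S W) • (⊤ : Submodule (Fn C W) (Sec F W))).restrictScalars k

/-! ### Cohomology -/

section Cech

variable {M N P : Type} [AddCommGroup M] [Module k M] [AddCommGroup N] [Module k N]
  [AddCommGroup P] [Module k P]

/-- The map `(x, y) ↦ a x - b y`. -/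
def dif (a : M →ₗ[k] P) (b : N →ₗ[k] P) : (M × N) →ₗ[k] P :=
  a.comp (LinearMap.fst k M N) - b.comp (LinearMap.snd k M N)

/-- For `d : M × N → P` and subspaces `A`, `B`, `D` of `M`, `N`, `P`: the dimension of the space of
the pairs `z` with `d z ∈ D` modulo `A × B`. -/
def cech0 (d : (M × N) →ₗ[k] P) (A : Submodule k M) (B : Submodule k N) (D : Submodule k P) : ℕ :=
  Module.finrank k (↥(D.comap d) ⧸ (A.prod B).comap (D.comap d).subtype)

/-- The dimension of `P` modulo `D` and the range of `d`. -/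
def cech1 (d : (M × N) →ₗ[k] P) (D : Submodule k P) : ℕ :=
  Module.finrank k (P ⧸ (D ⊔ LinearMap.range d))

end Cech

/-- The difference of the restrictions of two sections on `U` and on `V` to `U ∩ V`. -/
def delta : (Sec F C.U × Sec F C.V) →ₗ[k] Sec F C.UV := dif (res F C.UV_le_U) (res F C.UV_le_V)

variable (Q : ∀ W : C.X.Opens, Submodule k (Sec F W))

/-- The dimension of the space of global sections of the quotient of `F` by `Q`: the pairs of
sections of `F` on `U` and on `V` which agree modulo `Q` on `U ∩ V`, modulo the pairs of sections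
of `Q`. -/
def dimH0 : ℕ := cech0 (delta F) (Q C.U) (Q C.V) (Q C.UV)

/-- The dimension of the first cohomology of the quotient of `F` by `Q`: the sections of `F` on
`U ∩ V` modulo those of `Q` and modulo the differences of sections on `U` and on `V`. -/
def dimH1 : ℕ := cech1 (delta F) (Q C.UV)

/-- The Euler characteristic of the quotient of `F` by `Q`. -/
def chi : ℤ := dimH0 F Q - dimH1 F Q

variable {Q}

/-- The dimension of `H⁰(C, F)`. -/
def h0 : ℕ := dimH0 F (fun _ => ⊥)

/-- The dimension of `H¹(C, F)`. -/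
def h1 : ℕ := dimH1 F (fun _ => ⊥)

/-- The degree of the restriction of `F` to the subcurve `B` with generic points `S`:
`χ(F|_B) - χ(𝒪_B)`. -/
def degRes (τ : Bool) (S : Set C.Pt) : ℤ :=
  chi F (kerRes F τ S) - chi (strSheaf C) (kerRes (strSheaf C) true S)

/-- The degree of `F`: `χ(F) - χ(𝒪_C)`. -/
def deg : ℤ := chi F (fun _ => ⊥) - chi (strSheaf C) (fun _ => ⊥)

/-- The Clifford index of `F`. -/
def Cliff : ℤ := deg F - 2 * (h0 F : ℤ) + 2

variable (C) in
/-- The arithmetic genus of the subcurve with generic points `S`. -/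
def paSub (S : Set C.Pt) : ℤ := 1 - chi (strSheaf C) (kerRes (strSheaf C) true S)

variable (C) in
/-- The arithmetic genus of `C`. -/
def pa : ℤ := 1 - chi (strSheaf C) (fun _ => ⊥)

/-! ### Coherent sheaves, torsion free sheaves of rank one and the dualizing sheaf -/

/-- `F` is coherent. -/
def Coh : Prop :=
  F.IsQuasicoherent ∧ Module.Finite (Fn C C.U) (Sec F C.U) ∧ Module.Finite (Fn C C.V) (Sec F C.V)

/-- `F` is a torsion free sheaf of rank one: it is coherent, a section on `U` or on `V` which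
vanishes at all generic points of `C` is zero, and `F` is freely generated by one section near each
generic point. -/
def TorsionFreeRankOne : Prop :=
  Coh F ∧ van F C.comps C.U = ⊥ ∧ van F C.comps C.V = ⊥ ∧
    ∀ x ∈ C.comps, ∃ (W : C.X.Opens) (s : Sec F W), x ∈ W ∧
      ∀ (W' : C.X.Opens) (h : W' ≤ W),
        Function.Bijective (fun a : Fn C W' => a • res F h s)

/-- The map of sections on `W` given by a homomorphism of sheaves. -/
def secMap {F G : C.X.Modules} (φ : F ⟶ G) (W : C.X.Opens) : Sec F W →+ Sec G W :=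
  (φ.app W).hom

/-- `ω` is a dualizing sheaf for `C`: there is a linear form `t` on
`H¹(C, ω) = ω(U ∩ V) / (ω(U) + ω(V))` such that for each coherent sheaf `F` the pairing
`Hom(F, ω) × H¹(C, F) → H¹(C, ω) → k` gives a bijection of `Hom(F, ω)` with the dual of
`H¹(C, F)`. -/
def Dualizing (ω : C.X.Modules) : Prop :=
  Coh ω ∧ ∃ t : Sec ω C.UV →ₗ[k] k, (∀ s, t (delta ω s) = 0) ∧
    ∀ F : C.X.Modules, Coh F → ∀ l : Sec F C.UV →ₗ[k] k, (∀ s, l (delta F s) = 0) →
      ∃! φ : F ⟶ ω, ∀ s, t (secMap φ C.UV s) = l s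

/-- The curve is `m`-connected: for each decomposition `C = A ∪ B` into subcurves without common
components, `A · B = deg_B(ω) - (2 p_a(B) - 2)` is at least `m`. -/
def MConnected (ω : C.X.Modules) (τ : Bool) (m : ℤ) : Prop :=
  ∀ S : Set C.Pt, S ⊆ C.comps → S.Nonempty → S ≠ C.comps →
    m ≤ degRes ω τ S - (2 * paSub C S - 2)

/-- The sheaves which enter in the definition of the Clifford index of `C`: torsion free sheaves of
rank one with `h⁰ ≥ 2` and `h¹ ≥ 2`, with bounds for the degree on each irreducible component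
(`σ = false`) or on each subcurve (`σ = true`). -/
def Admissible (ω : C.X.Modules) (τ σ : Bool) (F : C.X.Modules) : Prop :=
  TorsionFreeRankOne F ∧
    (∀ S : Set C.Pt, S ⊆ C.comps → S.Nonempty → (σ = false → S.Subsingleton) →
      0 ≤ degRes F τ S ∧ degRes F τ S ≤ degRes ω τ S) ∧
    2 ≤ h0 F ∧ 2 ≤ h1 F

/-- The Clifford index of `C`, the infimum of the Clifford indices of the admissible sheaves. -/
def cliffordIndex (ω : C.X.Modules) (τ σ : Bool) : EReal :=
  ⨅ (F : C.X.Modules) (_ : Admissible ω τ σ F), ((Cliff F : ℝ) : EReal)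

/-! ### Hyperelliptic curves -/

section P1

attribute [local instance] MvPolynomial.gradedAlgebra

/-- The projective line over `k`. -/
def P1 (k : Type) [Field k] : Scheme.{0} := Proj (MvPolynomial.homogeneousSubmodule (Fin 2) k)

/-- The structure morphism of the projective line. -/
def P1str (k : Type) [Field k] : P1 k ⟶ Spec (.of k) :=
  Proj.toSpecZero (MvPolynomial.homogeneousSubmodule (Fin 2) k) ≫
    Spec.map (CommRingCat.ofHom (algebraMap k (MvPolynomial.homogeneousSubmodule (Fin 2) k 0)))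

end P1

variable (C) in
/-- There is a finite (flat) morphism from `C` to the projective line of degree `2`. -/
def Hyperelliptic : Prop :=
  ∃ g : C.X ⟶ P1 k, g ≫ P1str k = C.f ∧ IsFinite g ∧ Flat g ∧ ∀ y, Scheme.Hom.finrank g y = 2

/-! ### Koszul groups -/

section Koszul

variable {W M N : Type} [AddCommGroup W] [Module k W] [AddCommGroup M] [Module k M]
  [AddCommGroup N] [Module k N]

/-- For an alternating map `ι` of `n` vectors of `W` to `P` and a bilinear map `W × M → N`: the map
`w ↦ ((w₁, …, wₙ) ↦ (m ↦ ι (w₁, …, wₙ) ⊗ (w · m)))`. -/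
def koszulAux {P : Type} [AddCommGroup P] [Module k P] {n : ℕ} (ι : W [⋀^Fin n]→ₗ[k] P)
    (μ : W →ₗ[k] M →ₗ[k] N) : W →ₗ[k] W [⋀^Fin n]→ₗ[k] (M →ₗ[k] P ⊗[k] N) where
  toFun w := ((TensorProduct.mk k P N).compl₂ (μ w)).compAlternatingMap ι
  map_add' a b := by
    ext v m
    simp [TensorProduct.tmul_add]
  map_smul' c a := by
    ext v m
    simp

/-- The map `⋀^(n+1) W ⊗ M → P ⊗ N` with
`w₀ ∧ … ∧ wₙ ⊗ m ↦ ∑ᵢ (-1)ⁱ ι (w₀, …, ŵᵢ, …, wₙ) ⊗ (wᵢ · m)`. -/
def koszulMap {P : Type} [AddCommGroup P] [Module k P] {n : ℕ} (ι : W [⋀^Fin n]→ₗ[k] P)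
    (μ : W →ₗ[k] M →ₗ[k] N) : (⋀[k]^(n + 1) W) ⊗[k] M →ₗ[k] P ⊗[k] N :=
  TensorProduct.lift (exteriorPower.alternatingMapLinearEquiv (R := k) (M := W)
    (N := M →ₗ[k] P ⊗[k] N) (AlternatingMap.alternatizeUncurryFin (koszulAux ι μ)))

/-- The Koszul differential `⋀^(n+1) W ⊗ M → ⋀^n W ⊗ N` for a bilinear map `W × M → N`:
`w₀ ∧ … ∧ wₙ ⊗ m ↦ ∑ᵢ (-1)ⁱ w₀ ∧ … ŵᵢ … ∧ wₙ ⊗ (wᵢ · m)`. -/
def koszul (μ : W →ₗ[k] M →ₗ[k] N) (n : ℕ) :
    (⋀[k]^(n + 1) W) ⊗[k] M →ₗ[k] (⋀[k]^n W) ⊗[k] N :=
  koszulMap (exteriorPower.ιMulti k n) μ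

variable {N' M₀ : Type} [AddCommGroup N'] [Module k N'] [AddCommGroup M₀] [Module k M₀]

/-- The bilinear map `(w, m) ↦ (μ (w, m), ν (w, m))`. -/
def pairMap (μ : W →ₗ[k] M →ₗ[k] N) (ν : W →ₗ[k] M →ₗ[k] N') : W →ₗ[k] M →ₗ[k] (N × N') :=
  μ.compr₂ (LinearMap.inl k N N') + ν.compr₂ (LinearMap.inr k N N')

/-- The sequence `⋀^(q+2) W ⊗ M₀ → ⋀^(q+1) W ⊗ M → ⋀^q W ⊗ N` of Koszul differentials is exact in
the middle: each element in the kernel of the second map is in the range of the first one. -/
def KoszulExact (μ₀ : W →ₗ[k] M₀ →ₗ[k] M) (μ : W →ₗ[k] M →ₗ[k] N) (q : ℕ) : Prop :=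
  LinearMap.ker (koszul μ q) ≤ LinearMap.range (koszul μ₀ (q + 1))

end Koszul

/-- The product `H⁰(ω) × H⁰(𝒪) → H⁰(ω)`. -/
def mulZero (ω : C.X.Modules) : Sec ω C.all →ₗ[k] Fn C C.all →ₗ[k] Sec ω C.all :=
  (Algebra.lsmul k k (Sec ω C.all)).toLinearMap.flip

/-- The sections of `ω ⊗ ω` on the affine open subset `W`. -/
def Two (ω : C.X.Modules) (W : C.X.Opens) : Type := Sec ω W ⊗[Fn C W] Sec ω W

instance (ω : C.X.Modules) (W : C.X.Opens) : AddCommGroup (Two ω W) :=
  TensorProduct.addCommGroup

instance (ω : C.X.Modules) (W : C.X.Opens) : Module k (Two ω W) := TensorProduct.leftModule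

/-- The product `H⁰(ω) × H⁰(ω) → ω(W) × ω(W) → (ω ⊗ ω)(W)` for an affine open subset `W`. -/
def mulOn (ω : C.X.Modules) (W : C.X.Opens) : Sec ω C.all →ₗ[k] Sec ω C.all →ₗ[k] Two ω W :=
  ((TensorProduct.mk (Fn C W) (Sec ω W) (Sec ω W)).restrictScalars₁₂ k k).compl₁₂
    (res ω (C.le_all W)) (res ω (C.le_all W))

/-- The product `H⁰(ω) × H⁰(ω) → H⁰(ω ⊗ ω)`, where `H⁰(ω ⊗ ω)` is seen as a subspace of the
product of the spaces of sections of `ω ⊗ ω` on `U` and on `V`. -/
def mulOne (ω : C.X.Modules) : Sec ω C.all →ₗ[k] Sec ω C.all →ₗ[k] (Two ω C.U × Two ω C.V) :=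
  pairMap (mulOn ω C.U) (mulOn ω C.V)

/-- `K_{p,1}(C, ω) = 0` for `p = q + 1`: the complex
`⋀^(q+2) H⁰(ω) ⊗ H⁰(𝒪) → ⋀^(q+1) H⁰(ω) ⊗ H⁰(ω) → ⋀^q H⁰(ω) ⊗ H⁰(ω ⊗ ω)` is exact in the middle. -/
def KoszulVanishing (ω : C.X.Modules) (q : ℕ) : Prop :=
  KoszulExact (mulZero ω) (mulOne ω) q

end Run7.h109
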