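import Pool.Agent.Run7.h109.Sch
import Pool.Agent.Run7.h109.Defs

set_option autoImplicit false

open LaurentPolynomial Pool.Agent.Helper395 AlgebraicGeometry CategoryTheory CategoryTheory.Limits

set_option linter.unusedSectionVars false

noncomputable section

namespace Run7.h109

/-! ### Stalks -/

section stalks

variable {X : Scheme.{0}} {R : Type} [CommRing R] (i : Spec (.of R) ⟶ X) [IsOpenImmersion i]
  (p : Spec (.of R))

/-- the stalk at a point of a chart -/
def stalkEquiv : X.presheaf.stalk (i p) ≃+* (Spec (.of R)).presheaf.stalk p :=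
  (asIso (i.stalkMap p)).commRingCatIsoToRingEquiv

theorem stalk_dim : ringKrullDim (X.presheaf.stalk (i p)) = p.asIdeal.height := by
  rw [ringKrullDim_eq_of_ringEquiv (stalkEquiv i p)]
  let al : Algebra R ((Spec (.of R)).presheaf.stalk p) := StructureSheaf.stalkAlgebra R p
  have : IsLocalization.AtPrime ((Spec (.of R)).presheaf.stalk p) p.asIdeal :=
    StructureSheaf.IsLocalization.to_stalk R p
  exact IsLocalization.AtPrime.ringKrullDim_eq_height p.asIdeal ((Spec (.of R)).presheaf.stalk p)

theorem stalk_planar {a b : R} (h : p.asIdeal = Ideal.span {a, b}) :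
    ∃ a b : X.presheaf.stalk (i p),
      IsLocalRing.maximalIdeal (X.presheaf.stalk (i p)) = Ideal.span {a, b} := by
  let al : Algebra R ((Spec (.of R)).presheaf.stalk p) := StructureSheaf.stalkAlgebra R p
  have : IsLocalization.AtPrime ((Spec (.of R)).presheaf.stalk p) p.asIdeal :=
    StructureSheaf.IsLocalization.to_stalk R p
  have h1 := IsLocalization.AtPrime.map_eq_maximalIdeal p.asIdeal
    ((Spec (.of R)).presheaf.stalk p)
  have h2 : (IsLocalRing.maximalIdeal ((Spec (.of R)).presheaf.stalk p)).map
      (stalkEquiv i p).symm.toRingHom = IsLocalRing.maximalIdeal (X.presheaf.stalk (i p)) := by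
    exact IsLocalRing.map_ringEquiv_maximalIdeal _
  refine ⟨(stalkEquiv i p).symm (algebraMap R _ a), (stalkEquiv i p).symm (algebraMap R _ b), ?_⟩
  rw [← h2, ← h1, h, Ideal.map_span, Ideal.map_span, Set.image_pair, Set.image_pair]
  rfl

end stalks

variable {k : Type} [Field k] [CharZero k]

/-! ### Generic points -/

variable (k) in
/-- the coordinate projections of the ring of the intersection of the charts -/
def evK (i : Fin 3) : K k →+* L k := Pi.evalRingHom (fun _ : Fin 3 => L k) i

variable (k) in
/-- the generic points on the intersection of the charts -/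
def gK (i : Fin 3) : Spec (.of (K k)) := ⟨RingHom.ker (evK k i), RingHom.ker_isPrime _⟩

variable (k) in
/-- the generic points of the curve -/
def eta (i : Fin 3) : X k := iK k (gK k i)

theorem gK_spec {i j : Fin 3} (h : gK k i ⤳ gK k j) : i = j := by
  have h1 : (gK k i).asIdeal ≤ (gK k j).asIdeal := (PrimeSpectrum.le_iff_specializes _ _).2 h
  by_contra hij
  have h2 : (Pi.single j 1 : K k) ∈ (gK k i).asIdeal := by
    change (Pi.single j 1 : K k) i = 0
    rw [Pi.single_eq_of_ne hij]
  have h3 : (Pi.single j 1 : K k) j = 0 := h1 h2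
  simp at h3

theorem rA_gK (i : Fin 3) : (rA k (gK k i)).asIdeal = gA k i := rfl

theorem rB_gK (i : Fin 3) : (rB k (gK k i)).asIdeal = gB k i := rfl

theorem exists_gA_le (P : Ideal (A k)) [hP : P.IsPrime] : ∃ i, gA k i ≤ P := by
  by_contra h
  push Not at h
  have h1 : ∀ i, ∃ a, a ∈ gA k i ∧ a ∉ P := fun i => Set.not_subset.1 (h i)
  choose a ha ha' using h1
  have h2 : a 0 * a 1 * a 2 = 0 := by
    apply Subtype.ext
    ext1 j
    change ((a 0 : A k) : K k) j * ((a 1 : A k) : K k) j * ((a 2 : A k) : K k) j = 0
    have h3 : ∀ i, ((a i : A k) : K k) i = 0 := ha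
    fin_cases j
    · change ((a 0 : A k) : K k) 0 * _ * _ = 0
      rw [h3 0]; simp
    · change _ * ((a 1 : A k) : K k) 1 * _ = 0
      rw [h3 1]; simp
    · change _ * ((a 2 : A k) : K k) 2 = 0
      rw [h3 2]; simp
  have h4 : a 0 * a 1 * a 2 ∈ P := by rw [h2]; exact zero_mem _
  rcases hP.mem_or_mem h4 with h5 | h5
  · rcases hP.mem_or_mem h5 with h6 | h6
    · exact ha' 0 h6
    · exact ha' 1 h6
  · exact ha' 2 h5

theorem exists_eta_spec (x : X k) : ∃ i, eta k i ⤳ x := by
  rcases X_surj x with ⟨y, rfl⟩ | ⟨y, rfl⟩
  · obtain ⟨i, hi⟩ := exists_gA_le y.asIdeal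
    refine ⟨i, ?_⟩
    have h1 : rA k (gK k i) ⤳ y := (PrimeSpectrum.le_iff_specializes _ _).1 hi
    exact h1.map (iA k).continuous
  · obtain ⟨i, hi⟩ := exists_eB_notMem y.asIdeal
    refine ⟨i, ?_⟩
    have h1 : rB k (gK k i) ⤳ y := (PrimeSpectrum.le_iff_specializes _ _).1 (gB_le hi)
    have h2 := h1.map (iB k).continuous
    have h3 : eta k i = iB k (rB k (gK k i)) := by
      rw [eta, iK_eq]; rfl
    rw [h3]
    exact h2

theorem eta_spec_eta {i j : Fin 3} (h : eta k i ⤳ eta k j) : i = j := by
  apply gK_spec (k := k)
  exact ((iK k).isOpenEmbedding.isInducing.specializes_iff).1 h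

theorem eta_injective : Function.Injective (eta k) := by
  intro i j h
  exact eta_spec_eta (specializes_of_eq h)

theorem closure_eta_mem (i : Fin 3) : closure {eta k i} ∈ irreducibleComponents (X k) := by
  refine ⟨isIrreducible_singleton.closure, ?_⟩
  intro Z hZ hle
  have hZ' : closure Z ∈ {Z : Set (X k) | IsIrreducible Z} := hZ.closure
  obtain ⟨z, hz⟩ := QuasiSober.sober hZ.closure isClosed_closure
  have h1 : z ⤳ eta k i := by
    rw [specializes_iff_mem_closure, hz]
    exact subset_closure (hle (subset_closure rfl))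
  obtain ⟨j, hj⟩ := exists_eta_spec z
  have h2 := eta_spec_eta (hj.trans h1)
  subst h2
  intro w hw
  rw [← specializes_iff_mem_closure]
  have h3 : z ⤳ w := by
    rw [specializes_iff_mem_closure, hz]
    exact subset_closure hw
  exact hj.trans h3

theorem eta_mem_comps_iff (x : X k) :
    closure {x} ∈ irreducibleComponents (X k) ↔ x ∈ Set.range (eta k) := by
  constructor
  · intro h
    obtain ⟨i, hi⟩ := exists_eta_spec x
    refine ⟨i, ?_⟩
    have h1 : closure {x} ⊆ closure {eta k i} := by
      rw [isClosed_closure.closure_subset_iff, Set.singleton_subset_iff]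
      exact hi.mem_closure
    have h2 := h.2 (closure_eta_mem i).1 h1
    have h3 : x ⤳ eta k i := by
      rw [specializes_iff_mem_closure]
      exact h2 (subset_closure rfl)
    exact (hi.antisymm h3).eq
  · rintro ⟨i, rfl⟩
    exact closure_eta_mem i

/-! ### The singular point -/

variable (k) in
/-- the singular point -/
def x0 : X k := iA k ⟨m0 k, m0_max.isPrime⟩

theorem eta_spec_x0 (i : Fin 3) : eta k i ⤳ x0 k := by
  have h1 : rA k (gK k i) ⤳ (⟨m0 k, m0_max.isPrime⟩ : Spec (.of (A k))) :=
    (PrimeSpectrum.le_iff_specializes _ _).1 (gA_lt_m0 i).le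
  exact h1.map (iA k).continuous

instance : ConnectedSpace (X k) := by
  have : Nonempty (X k) := ⟨x0 k⟩
  have : PreconnectedSpace (X k) := by
    constructor
    apply isPreconnected_of_forall (x0 k)
    intro y _
    obtain ⟨i, hi⟩ := exists_eta_spec y
    exact ⟨closure {eta k i}, Set.subset_univ _, (eta_spec_x0 i).mem_closure, hi.mem_closure,
      isIrreducible_singleton.closure.isPreirreducible.isPreconnected⟩
  exact ConnectedSpace.mk ‹_›

/-! ### Closed points -/

theorem closed_cases (x : X k) (hx : IsClosed ({x} : Set (X k))) :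
    (x = x0 k) ∨ ∃ q : Spec (.of (B k)), iB k q = x ∧ q.asIdeal.IsMaximal := by
  by_cases h : ∃ q, iB k q = x
  · right
    obtain ⟨q, rfl⟩ := h
    refine ⟨q, rfl, ?_⟩
    rw [← PrimeSpectrum.isClosed_singleton_iff_isMaximal]
    have h1 : ({q} : Set (Spec (.of (B k)))) = iB k ⁻¹' {iB k q} := by
      ext y
      constructor
      · rintro rfl; rfl
      · intro hy
        exact (iB k).isOpenEmbedding.injective hy
    have h2 : IsClosed ({q} : Set (Spec (.of (B k)))) := by
      rw [h1]
      exact hx.preimage (iB k).continuous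
    exact h2
  · left
    rcases X_surj x with ⟨y, rfl⟩ | h'
    · have h2 : xA k ∈ y.asIdeal := by
        by_contra h3
        have h4 := PrimeSpectrum.localization_away_comap_range (K k) (xA k)
        have h5 : (y : PrimeSpectrum (A k)) ∈
            (PrimeSpectrum.basicOpen (xA k) : Set (PrimeSpectrum (A k))) := h3
        rw [← h4] at h5
        obtain ⟨w, hw⟩ := h5
        apply h
        refine ⟨rB k w, ?_⟩
        have h6 : rA k w = y := hw
        rw [← h6]
        change (rB k ≫ iB k) w = (rA k ≫ iA k) w
        rw [← iK_eq]; rfl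
      have h7 : y = ⟨m0 k, m0_max.isPrime⟩ := PrimeSpectrum.ext (eq_m0 h2)
      rw [h7]; rfl
    · exact absurd h' h

instance redA : IsReduced (Spec (.of (A k))) := by
  have : _root_.IsReduced (A k) :=
    isReduced_of_injective (A k).val Subtype.val_injective
  infer_instance

instance redB : IsReduced (Spec (.of (B k))) := by
  have : _root_.IsReduced (B k) :=
    isReduced_of_injective (B k).val Subtype.val_injective
  infer_instance

instance : IsReduced (X k) := by
  have : ∀ i, IsReduced ((charts k).cover.X i) := by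
    intro i
    match i with
    | true => exact redA
    | false => exact redB
  exact IsReduced.of_openCover (X k) (charts k).cover

variable (k) in
/-- The curve. -/
def crv : Curve k where
  X := X k
  f := fX k
  proper := inferInstance
  reduced := inferInstance
  conn := inferInstance
  dim_one := by
    intro x hx
    rcases closed_cases x hx with rfl | ⟨q, rfl, hq⟩
    · have := stalk_dim (iA k) ⟨m0 k, m0_max.isPrime⟩
      refine this.trans ?_
      rw [height_m0]
      rfl
    · have := stalk_dim (iB k) q
      refine this.trans ?_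
      rw [height_B q.asIdeal]
      rfl
  planar := by
    intro x hx
    rcases closed_cases x hx with rfl | ⟨q, rfl, hq⟩
    · exact stalk_planar (iA k) ⟨m0 k, m0_max.isPrime⟩ rfl
    · obtain ⟨w, hw⟩ := principal_B q.asIdeal
      apply stalk_planar (iB k) q (a := w) (b := w)
      rw [Set.pair_eq_singleton]
      exact hw
  U := U k
  V := V k
  affU := affU k
  affV := affV k
  cover := UV_top k

theorem comps_eq : (crv k).comps = Set.range (eta k) := by
  ext x
  exact eta_mem_comps_iff x

end Run7.h109
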