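import Pool.Agent.Run7.h109.Fib
import Pool.Agent.Run7.h109.Pts
import Pool.Agent.H19VF.G_P1

set_option autoImplicit false
set_option linter.unusedSectionVars false

open AlgebraicGeometry CategoryTheory TopologicalSpace Limits

noncomputable section

namespace Run7.h109

variable {k : Type} [Field k] [CharZero k]

theorem P1_int (k : Type) [Field k] : IsIntegral (P1 k) := Pool.Agent.H19VF.P1_integral k

theorem not_hyperelliptic : ¬ Hyperelliptic (crv k) := by
  rintro ⟨g, -, hfin, hflat, h2⟩
  have hint := P1_int k
  have hg : ∀ i, g (eta k i) = genericPoint (P1 k) := by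
    intro i
    have h1 : genericPoint (P1 k) ⤳ g (eta k i) := genericPoint_specializes _
    obtain ⟨x', hx', hgx⟩ := Flat.generalizingMap g h1
    obtain ⟨j, hj⟩ := exists_eta_spec (k := k) x'
    have hji : j = i := eta_spec_eta (hj.trans hx')
    subst hji
    have h3 : x' = eta k j := (Specializes.antisymm hx' hj).eq
    rw [← h3, hgx]
  have h3 := three_le_rank g (genericPoint (P1 k)) (eta k) (eta_injective) hg
  rw [h2] at h3
  omega

end Run7.h109
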