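import Pool.Agent.Run7.h109.Kz4
import Pool.Agent.Run7.h109.Dua3
import Pool.Agent.Run7.h109.Hyp

set_option autoImplicit false
set_option linter.unusedSectionVars false

open AlgebraicGeometry CategoryTheory

noncomputable section

namespace Run7.h109

variable (k : Type) [Field k] [CharZero k]

theorem final : ∃ (C : Curve k) (ω : C.X.Modules), Dualizing ω ∧ ¬ Hyperelliptic C ∧
    ∀ τ σ : Bool, MConnected ω τ 4 ∧ ∃ q : ℕ, (q : ℤ) + 1 ≤ pa C - 2 ∧
      ¬ (KoszulVanishing ω q ↔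
        ((pa C : ℝ) : EReal) - cliffordIndex ω τ σ - 1 ≤ ((q + 1 : ℕ) : EReal)) := by
  refine ⟨crv k, (Pω k).F, dualizing, not_hyperelliptic, fun τ σ => ⟨connected τ, 4, ?_, ?_⟩⟩
  · rw [pa_crv]; norm_num
  · intro h
    have h1 := h.1 koszul_vanishing
    have h2 := clifford_le (k := k) τ σ
    rw [pa_crv] at h1
    have h3 : ((6 : ℝ) : EReal) ≤ (((7 : ℤ) : ℝ) : EReal) -
        cliffordIndex (C := crv k) (Pω k).F τ σ - 1 := by
      have h4 : (((7 : ℤ) : ℝ) : EReal) - 0 ≤ (((7 : ℤ) : ℝ) : EReal) -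
          cliffordIndex (C := crv k) (Pω k).F τ σ := EReal.sub_le_sub le_rfl h2
      have h5 := EReal.sub_le_sub h4 (le_refl (1 : EReal))
      refine le_trans (le_of_eq ?_) h5
      rw [sub_zero]
      norm_cast
    have h6 := h3.trans h1
    have h7 : ((4 + 1 : ℕ) : EReal) = ((5 : ℝ) : EReal) := by norm_cast
    rw [h7, EReal.coe_le_coe_iff] at h6
    norm_num at h6

end Run7.h109
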