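import Pool.Agent.Run7.h109.Tab2

set_option autoImplicit false
set_option linter.unusedSectionVars false

open AlgebraicGeometry CategoryTheory TopologicalSpace Opposite LaurentPolynomial

noncomputable section

namespace Run7.h109

variable {k : Type} [Field k] [CharZero k]

/-! ### Coherence -/

theorem finite_of_gens {F : (X k).Modules} (E : Emb F) {W : (X k).Opens}
    (hW : (iK k) ⁻¹ᵁ W = ⊤) (hinj : Function.Injective (E.Φ W))
    (s1 s2 : Sec (C := crv k) F W)
    (h : ∀ s : Sec (C := crv k) F W, ∃ a b : Fn (crv k) W,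
      E.t hW s = al (iK k) hW a * E.t hW s1 + al (iK k) hW b * E.t hW s2) :
    Module.Finite (Fn (crv k) W) (Sec (C := crv k) F W) := by
  classical
  refine ⟨⟨{s1, s2}, ?_⟩⟩
  rw [eq_top_iff]
  rintro s -
  obtain ⟨a, b, hab⟩ := h s
  have h1 : s = a • s1 + b • s2 := by
    apply E.t_inj hW hinj
    rw [map_add, E.t_smul, E.t_smul, hab]
  rw [h1]
  refine add_mem (Submodule.smul_mem _ _ (Submodule.subset_span ?_))
    (Submodule.smul_mem _ _ (Submodule.subset_span ?_))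
  · simp
  · simp

theorem finite_U_A' (P : Pair k) (hP : P.M = MA' k) :
    Module.Finite (Fn (crv k) (U k)) (Sec (C := crv k) P.F (U k)) := by
  obtain ⟨s1, hs1⟩ := P.exists_U (g := 1) (by rw [hP]; exact MA_le (A k).one_mem)
  obtain ⟨s2, hs2⟩ := P.exists_U (g := ![1, 0, 0]) (by
    rw [hP]
    refine ⟨?_, ?_⟩
    · intro i
      fin_cases i
      · exact one_mem_lo
      · exact zero_mem _
      · exact zero_mem _
    · change (0 : L k) - 0 ∈ _
      rw [sub_self]; exact zero_mem _)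
  apply finite_of_gens P.E (pU k) P.E.injU s1 s2
  intro s
  have hg := P.t_mem_U s
  rw [hP] at hg
  set g := P.E.t (pU k) s with hgs
  obtain ⟨w, hw, hw'⟩ := half_L (g 1 + g 2)
  have hw0 : w ∈ lo k 0 := hw' _ (add_mem (hg.1 1) (hg.1 2))
  have ha : (![w, g 1, g 2] : K k) ∈ A k := by
    refine ⟨?_, hg.2, ?_⟩
    · intro i
      fin_cases i
      · exact hw0
      · exact hg.1 1
      · exact hg.1 2
    · change g 1 + g 2 - 2 * w ∈ _
      rw [hw, sub_self]; exact zero_mem _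
  have hb : (fun _ => g 0 - w : K k) ∈ A k := by
    refine ⟨fun _ => sub_mem (hg.1 0) hw0, ?_, ?_⟩
    · change (g 0 - w) - (g 0 - w) ∈ _
      rw [sub_self]; exact zero_mem _
    · change (g 0 - w) + (g 0 - w) - 2 * (g 0 - w) ∈ _
      have : (g 0 - w) + (g 0 - w) - 2 * (g 0 - w) = 0 := by ring
      rw [this]; exact zero_mem _
  refine ⟨eU k ⟨_, ha⟩, eU k ⟨_, hb⟩, ?_⟩
  have e1 : al (iK k) (pU k) (eU k ⟨_, ha⟩) = ![w, g 1, g 2] := al_eU k _
  have e2 : al (iK k) (pU k) (eU k ⟨_, hb⟩) = fun _ => g 0 - w := al_eU k _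
  rw [hs1, hs2]
  refine Eq.trans ?_ (congrArg₂ (fun x y => x * (1 : K k) + y * (![1, 0, 0] : K k))
    e1.symm e2.symm)
  ext1 i
  fin_cases i
  · change g 0 = w * 1 + (g 0 - w) * 1
    ring
  · change g 1 = g 1 * 1 + (g 0 - w) * 0
    ring
  · change g 2 = g 2 * 1 + (g 0 - w) * 0
    ring

theorem finite_U_A (P : Pair k) (hP : P.M = MA k) :
    Module.Finite (Fn (crv k) (U k)) (Sec (C := crv k) P.F (U k)) := by
  obtain ⟨s1, hs1⟩ := P.exists_U (g := 1) (by rw [hP]; exact (A k).one_mem)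
  apply finite_of_gens P.E (pU k) P.E.injU s1 s1
  intro s
  have hg := P.t_mem_U s
  rw [hP] at hg
  set g := P.E.t (pU k) s with hgs
  refine ⟨eU k ⟨g, hg⟩, 0, ?_⟩
  have e1 : al (iK k) (pU k) (eU k ⟨g, hg⟩) = g := al_eU k _
  rw [hs1]
  refine Eq.trans ?_ (congrArg₂ (fun x y => x * (1 : K k) + y * (1 : K k))
    e1.symm (map_zero (al (iK k) (pU k))).symm)
  ring

theorem finite_V (P : Pair k) (a : Fin 3 → ℤ) (hP : P.N = NB a) :
    Module.Finite (Fn (crv k) (V k)) (Sec (C := crv k) P.F (V k)) := by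
  obtain ⟨s1, hs1⟩ := P.exists_V (g := fun i => T (a i)) (by
    rw [hP]; exact fun i => T_mem_hi le_rfl)
  apply finite_of_gens P.E (pV k) P.E.injV s1 s1
  intro s
  have hg := P.t_mem_V s
  rw [hP] at hg
  set g := P.E.t (pV k) s with hgs
  have hb : (fun i => T (- a i) * g i : K k) ∈ B k := by
    intro i
    change T (- a i) * g i ∈ _
    rw [T_mul_mem_hi]
    have := hg i
    simpa using this
  refine ⟨eV k ⟨_, hb⟩, 0, ?_⟩
  have e1 : al (iK k) (pV k) (eV k ⟨_, hb⟩) = fun i => T (- a i) * g i := al_eV k _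
  rw [hs1]
  refine Eq.trans ?_ (congrArg₂ (fun x y => x * (fun i => T (a i) : K k) +
    y * (fun i => T (a i) : K k)) e1.symm (map_zero (al (iK k) (pV k))).symm)
  ext1 i
  change g i = T (- a i) * g i * T (a i) + 0 * T (a i)
  rw [zero_mul, add_zero, mul_comm, ← mul_assoc, ← T_add, add_neg_cancel, T_zero, one_mul]

theorem coh_A' (P : Pair k) (hP : P.M = MA' k) (a : Fin 3 → ℤ) (hP' : P.N = NB a) :
    Coh (C := crv k) P.F := ⟨P.qc, finite_U_A' P hP, finite_V P a hP'⟩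

theorem coh_A (P : Pair k) (hP : P.M = MA k) (a : Fin 3 → ℤ) (hP' : P.N = NB a) :
    Coh (C := crv k) P.F := ⟨P.qc, finite_U_A P hP, finite_V P a hP'⟩

/-! ### Torsion free of rank one -/

theorem van_bot {F : (X k).Modules} (E : Emb F) {W : (X k).Opens}
    (hW : (iK k) ⁻¹ᵁ W = ⊤) (hinj : Function.Injective (E.Φ W)) :
    van (C := crv k) F (crv k).comps W = ⊥ := by
  rw [eq_bot_iff]
  intro s hs
  rw [comps_eq] at hs
  have h1 := (E.mem_van hW (Set.range (eta k)) le_rfl s).1 hs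
  have h2 : E.t hW s = 0 := by
    ext1 i
    exact h1 i ⟨i, rfl⟩
  rw [Submodule.mem_bot]
  apply E.t_inj hW hinj
  rw [h2, map_zero]

theorem Pair.tf (P : Pair k) (hc : Coh (C := crv k) P.F) :
    TorsionFreeRankOne (C := crv k) P.F := by
  refine ⟨hc, van_bot P.E (pU k) P.E.injU, van_bot P.E (pV k) P.E.injV, ?_⟩
  intro x hx
  rw [comps_eq] at hx
  obtain ⟨i, rfl⟩ := hx
  let one : Γ(R k, U k ⊓ V k) := ofF (iK k) _ 1
  let s : Γ(P.D.S.sheaf, U k ⊓ V k) := P.D.S.sec one (P.D.mem_UV le_rfl one)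
  refine ⟨U k ⊓ V k, s, eta_mem_of_pre (pUV k) i, ?_⟩
  intro W' h
  have h' : W' ≤ U k ⊓ V k := h
  have h1 : IsIso ((iK k).app W') := (iK k).isIso_app _ (by rwa [← UV_inf])
  have hb := ConcreteCategory.bijective_of_isIso ((iK k).app W')
  have key : ∀ a : Γ(X k, W'), P.D.S.val (a • rt P.D.S.sheaf h' s) = ofF (iK k) W' (((iK k).app W').hom a) := by
    intro a
    have h2 : toF (iK k) W' (P.D.S.val (a • rt P.D.S.sheaf h' s)) =
      ((iK k).app W').hom a * rf ((iK k).preimage_mono h') 1 := rfl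
    have h3 : toF (iK k) W' (P.D.S.val (a • rt P.D.S.sheaf h' s)) = ((iK k).app W').hom a := by
      rw [h2, map_one, mul_one]
    exact h3
  constructor
  · intro a b hab
    apply hb.1
    have h4 := congrArg P.D.S.val hab
    exact (key a).symm.trans (h4.trans (key b))
  · intro t
    obtain ⟨a, ha⟩ := hb.2 (toF (iK k) W' (P.D.S.val t))
    refine ⟨a, ?_⟩
    apply P.D.S.val_inj
    exact (key a).trans ha

/-! ### Admissible sheaves -/

theorem deg_ω2 (τ : Bool) {i j : Fin 3} (hij : i ≠ j)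
    (hA : (∀ g ∈ A k, p2 i j g ∈ pr (fun l => lo k ((![0, 3] : Fin 2 → ℤ) l))) ∧
    ∀ v ∈ pr (fun l => lo k ((![0, 3] : Fin 2 → ℤ) l)), ∃ g ∈ A k, p2 i j g = v) :
    degRes (C := crv k) (Pω k).F τ (sI k {i, j}) = 8 := by
  unfold degRes
  rw [chi_ω2 τ hij hA]
  have h := chi_O2 (k := k) hij hA
  rw [h]; norm_num

theorem deg_ω3 (τ : Bool) : degRes (C := crv k) (Pω k).F τ (sI k Finset.univ) = 12 := by
  unfold degRes
  have h := chi_O3 (k := k)
  rw [chi_ω3, h]; norm_num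

theorem deg_F1 (i : Fin 3) : degRes (C := crv k) (PF k).F true (sI k {i}) =
    (![4, 0, 0] : Fin 3 → ℤ) i := by
  unfold degRes
  rw [chi_F1, chi_O1]
  fin_cases i <;> rfl

theorem deg_F12 : degRes (C := crv k) (PF k).F true (sI k {1, 2}) = 0 := by
  unfold degRes
  have h := chi_O2 (k := k) (i := 1) (j := 2) (by decide) A2_12
  rw [chi_F12, h]; norm_num

theorem deg_F0 (j : Fin 3) (hj : j ≠ 0)
    (hA : (∀ g ∈ A k, p2 0 j g ∈ pr (fun l => lo k ((![0, 3] : Fin 2 → ℤ) l))) ∧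
    ∀ v ∈ pr (fun l => lo k ((![0, 3] : Fin 2 → ℤ) l)), ∃ g ∈ A k, p2 0 j g = v) :
    degRes (C := crv k) (PF k).F true (sI k {0, j}) = 7 := by
  unfold degRes
  have h := chi_O2 (k := k) (i := 0) (j := j) hj.symm hA
  rw [chi_F0 j hj, h]; norm_num

theorem deg_F3 : degRes (C := crv k) (PF k).F true (sI k Finset.univ) = 10 := by
  unfold degRes
  have h := chi_O3 (k := k)
  rw [chi_F3, h]; norm_num

theorem deg_G1 (i : Fin 3) : degRes (C := crv k) (PG k).F false (sI k {i}) =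
    (![0, 4, 4] : Fin 3 → ℤ) i := by
  unfold degRes
  rw [chi_G1, chi_O1]
  fin_cases i <;> rfl

theorem deg_G12 : degRes (C := crv k) (PG k).F false (sI k {1, 2}) = 8 := by
  unfold degRes
  have h := chi_O2 (k := k) (i := 1) (j := 2) (by decide) A2_12
  rw [chi_G12, h]; norm_num

theorem deg_G0 (j l : Fin 3) (hjl : (j = 1 ∧ l = 2) ∨ (j = 2 ∧ l = 1))
    (hA : (∀ g ∈ A k, p2 0 j g ∈ pr (fun l => lo k ((![0, 3] : Fin 2 → ℤ) l))) ∧
    ∀ v ∈ pr (fun l => lo k ((![0, 3] : Fin 2 → ℤ) l)), ∃ g ∈ A k, p2 0 j g = v) :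
    degRes (C := crv k) (PG k).F false (sI k {0, j}) = 1 := by
  unfold degRes
  have h := chi_O2 (k := k) (i := 0) (j := j) (by omega) hA
  rw [chi_G0 j l hjl, h]; norm_num

theorem deg_G3 : degRes (C := crv k) (PG k).F false (sI k Finset.univ) = 2 := by
  unfold degRes
  have h := chi_O3 (k := k)
  rw [chi_G3, h]; norm_num

/-- The subcurves. -/
theorem exists_sI {S : Set (X k)} (hS : S ⊆ Set.range (eta k)) (hne : S.Nonempty) :
    ∃ I : Finset (Fin 3), S = sI k I ∧ (I = {0} ∨ I = {1} ∨ I = {2} ∨ I = {0, 1} ∨ I = {0, 2} ∨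
      I = {1, 2} ∨ I = Finset.univ) := by
  classical
  let I : Finset (Fin 3) := Finset.univ.filter (fun i => eta k i ∈ S)
  have hI : S = sI k I := by
    ext x
    constructor
    · intro hx
      obtain ⟨i, rfl⟩ := hS hx
      exact ⟨i, Finset.mem_filter.2 ⟨Finset.mem_univ _, hx⟩, rfl⟩
    · rintro ⟨i, hi, rfl⟩
      exact (Finset.mem_filter.1 hi).2
  have hI0 : I ≠ ∅ := by
    intro h
    obtain ⟨x, hx⟩ := hne
    rw [hI, h] at hx
    obtain ⟨i, hi, -⟩ := hx
    simp at hi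
  refine ⟨I, hI, ?_⟩
  have hd : ∀ J : Finset (Fin 3), J ≠ ∅ →
      J = {0} ∨ J = {1} ∨ J = {2} ∨ J = {0, 1} ∨ J = {0, 2} ∨ J = {1, 2} ∨ J = Finset.univ := by
    decide
  exact hd I hI0

theorem bounds_F (S : Set (X k)) (hS : S ⊆ Set.range (eta k)) (hne : S.Nonempty) :
    0 ≤ degRes (C := crv k) (PF k).F true S ∧
      degRes (C := crv k) (PF k).F true S ≤ degRes (C := crv k) (Pω k).F true S := by
  obtain ⟨I, rfl, h⟩ := exists_sI hS hne
  rcases h with rfl | rfl | rfl | rfl | rfl | rfl | rfl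
  · rw [deg_F1, deg_ω1]; decide
  · rw [deg_F1, deg_ω1]; decide
  · rw [deg_F1, deg_ω1]; decide
  · rw [deg_F0 1 (by decide) A2_01, deg_ω2 true (by decide) A2_01]; decide
  · rw [deg_F0 2 (by decide) A2_02, deg_ω2 true (by decide) A2_02]; decide
  · rw [deg_F12, deg_ω2 true (by decide) A2_12]; decide
  · rw [deg_F3, deg_ω3]; decide

theorem bounds_G (S : Set (X k)) (hS : S ⊆ Set.range (eta k)) (hne : S.Nonempty) :
    0 ≤ degRes (C := crv k) (PG k).F false S ∧
      degRes (C := crv k) (PG k).F false S ≤ degRes (C := crv k) (Pω k).F false S := by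
  obtain ⟨I, rfl, h⟩ := exists_sI hS hne
  rcases h with rfl | rfl | rfl | rfl | rfl | rfl | rfl
  · rw [deg_G1, deg_ω1]; decide
  · rw [deg_G1, deg_ω1]; decide
  · rw [deg_G1, deg_ω1]; decide
  · rw [deg_G0 1 2 (by decide) A2_01, deg_ω2 false (by decide) A2_01]; decide
  · rw [deg_G0 2 1 (by decide) A2_02, deg_ω2 false (by decide) A2_02]; decide
  · rw [deg_G12, deg_ω2 false (by decide) A2_12]; decide
  · rw [deg_G3, deg_ω3]; decide

theorem adm_F (σ : Bool) : Admissible (C := crv k) (Pω k).F true σ (PF k).F := by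
  refine ⟨(PF k).tf (coh_A' _ rfl _ rfl), ?_, ?_, ?_⟩
  · intro S hS hne _
    rw [comps_eq] at hS
    exact bounds_F S hS hne
  · rw [h_F.1]; norm_num
  · rw [h_F.2]

theorem adm_G (σ : Bool) : Admissible (C := crv k) (Pω k).F false σ (PG k).F := by
  refine ⟨(PG k).tf (coh_A' _ rfl _ rfl), ?_, ?_, ?_⟩
  · intro S hS hne _
    rw [comps_eq] at hS
    exact bounds_G S hS hne
  · rw [h_G.1]
  · rw [h_G.2]; norm_num

theorem cliff_F : Cliff (C := crv k) (PF k).F = 0 := by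
  have h : Cliff (C := crv k) (PF k).F = (((h0 (C := crv k) (PF k).F : ℤ) -
    (h1 (C := crv k) (PF k).F : ℤ)) - chi (C := crv k) (strSheaf (crv k)) (fun _ => ⊥)) -
      2 * (h0 (C := crv k) (PF k).F : ℤ) + 2 := rfl
  rw [h, h_F.1, h_F.2, chi_O]
  norm_num

theorem cliff_G : Cliff (C := crv k) (PG k).F = 0 := by
  have h : Cliff (C := crv k) (PG k).F = (((h0 (C := crv k) (PG k).F : ℤ) -
    (h1 (C := crv k) (PG k).F : ℤ)) - chi (C := crv k) (strSheaf (crv k)) (fun _ => ⊥)) -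
      2 * (h0 (C := crv k) (PG k).F : ℤ) + 2 := rfl
  rw [h, h_G.1, h_G.2, chi_O]
  norm_num

theorem clifford_le (τ σ : Bool) : cliffordIndex (C := crv k) (Pω k).F τ σ ≤ 0 := by
  cases τ
  · refine (iInf₂_le (PG k).F (adm_G σ)).trans ?_
    rw [cliff_G]; norm_num
  · refine (iInf₂_le (PF k).F (adm_F σ)).trans ?_
    rw [cliff_F]; norm_num

/-! ### Connectedness -/

theorem connected (τ : Bool) : MConnected (C := crv k) (Pω k).F τ 4 := by
  intro S hS hne hne'
  rw [comps_eq] at hS hne'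
  classical
  let I : Finset (Fin 3) := Finset.univ.filter (fun i => eta k i ∈ S)
  have hI : S = sI k I := by
    ext x
    constructor
    · intro hx
      obtain ⟨i, rfl⟩ := hS hx
      exact ⟨i, Finset.mem_filter.2 ⟨Finset.mem_univ _, hx⟩, rfl⟩
    · rintro ⟨i, hi, rfl⟩
      exact (Finset.mem_filter.1 hi).2
  have hI0 : I ≠ ∅ := by
    intro h
    obtain ⟨x, hx⟩ := hne
    rw [hI, h] at hx
    obtain ⟨i, hi, -⟩ := hx
    simp at hi
  have hI1 : I ≠ Finset.univ := by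
    intro h
    apply hne'
    rw [hI, h]
    simp [sI]
  rw [hI]
  have one : ∀ i : Fin 3, (4 : ℤ) ≤ degRes (C := crv k) (Pω k).F τ (sI k {i}) -
      (2 * paSub (crv k) (sI k {i}) - 2) := by
    intro i
    unfold paSub
    rw [deg_ω1]
    have h := chi_O1 (k := k) i
    rw [h]; norm_num
  have two : ∀ {i j : Fin 3}, i ≠ j →
    ((∀ g ∈ A k, p2 i j g ∈ pr (fun l => lo k ((![0, 3] : Fin 2 → ℤ) l))) ∧
    ∀ v ∈ pr (fun l => lo k ((![0, 3] : Fin 2 → ℤ) l)), ∃ g ∈ A k, p2 i j g = v) →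
    (4 : ℤ) ≤ degRes (C := crv k) (Pω k).F τ (sI k {i, j}) -
      (2 * paSub (crv k) (sI k {i, j}) - 2) := by
    intro i j hij hA
    unfold paSub degRes
    rw [chi_ω2 τ hij hA]
    have h := chi_O2 (k := k) hij hA
    rw [h]; norm_num
  have cases : I = {0} ∨ I = {1} ∨ I = {2} ∨ I = {0, 1} ∨ I = {0, 2} ∨ I = {1, 2} := by
    have hd : ∀ J : Finset (Fin 3), J ≠ ∅ → J ≠ Finset.univ →
        J = {0} ∨ J = {1} ∨ J = {2} ∨ J = {0, 1} ∨ J = {0, 2} ∨ J = {1, 2} := by decide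
    exact hd I hI0 hI1
  rcases cases with h | h | h | h | h | h <;> rw [h]
  · exact one 0
  · exact one 1
  · exact one 2
  · exact two (by decide) A2_01
  · exact two (by decide) A2_02
  · exact two (by decide) A2_12

end Run7.h109
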