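import Mathlib

set_option autoImplicit false

open LaurentPolynomial

noncomputable section

namespace Run7.h109

variable (k : Type) [Field k]

/-- Laurent polynomials in one variable. -/
abbrev L : Type := LaurentPolynomial k

/-- Laurent polynomials of order at least `d`. -/
def lo (d : ℤ) : Submodule k (L k) where
  carrier := {p | ∀ e < d, p.coeff e = 0}
  zero_mem' := by intro e _; rfl
  add_mem' := by
    intro a b ha hb e he
    simp [AddMonoidAlgebra.coeff_add, ha e he, hb e he]
  smul_mem' := by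
    intro c a ha e he
    simp [AddMonoidAlgebra.coeff_smul, ha e he]

/-- Laurent polynomials of degree at most `d`. -/
def hi (d : ℤ) : Submodule k (L k) where
  carrier := {p | ∀ e > d, p.coeff e = 0}
  zero_mem' := by intro e _; rfl
  add_mem' := by
    intro a b ha hb e he
    simp [AddMonoidAlgebra.coeff_add, ha e he, hb e he]
  smul_mem' := by
    intro c a ha e he
    simp [AddMonoidAlgebra.coeff_smul, ha e he]

variable {k}

theorem mem_lo {d : ℤ} {p : L k} : p ∈ lo k d ↔ ∀ e < d, p.coeff e = 0 := Iff.rfl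

theorem mem_hi {d : ℤ} {p : L k} : p ∈ hi k d ↔ ∀ e > d, p.coeff e = 0 := Iff.rfl

theorem coeff_T_mul (n : ℤ) (p : L k) (e : ℤ) : (T n * p).coeff e = p.coeff (e - n) := by
  rw [T, AddMonoidAlgebra.coeff_single_mul_apply, one_mul, neg_add_eq_sub]

theorem lo_mono {a b : ℤ} (h : a ≤ b) : lo k b ≤ lo k a := fun _ hp e he => hp e (by omega)

theorem hi_mono {a b : ℤ} (h : a ≤ b) : hi k a ≤ hi k b := fun _ hp e he => hp e (by omega)

theorem T_mul_mem_lo {n d : ℤ} {p : L k} : T n * p ∈ lo k d ↔ p ∈ lo k (d - n) := by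
  simp only [mem_lo, coeff_T_mul]
  constructor
  · intro h e he
    have := h (e + n) (by omega)
    simpa using this
  · intro h e he
    exact h _ (by omega)

theorem T_mul_mem_hi {n d : ℤ} {p : L k} : T n * p ∈ hi k d ↔ p ∈ hi k (d - n) := by
  simp only [mem_hi, coeff_T_mul]
  constructor
  · intro h e he
    have := h (e + n) (by omega)
    simpa using this
  · intro h e he
    exact h _ (by omega)

theorem T_mem_lo {n d : ℤ} (h : d ≤ n) : (T n : L k) ∈ lo k d := by
  intro e he
  rw [T_apply, if_neg (by omega)]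

theorem T_mem_hi {n d : ℤ} (h : n ≤ d) : (T n : L k) ∈ hi k d := by
  intro e he
  rw [T_apply, if_neg (by omega)]

theorem exists_lo (p : L k) : ∃ n : ℕ, p ∈ lo k (-n) := by
  refine ⟨p.coeff.support.sup Int.natAbs, fun e he => ?_⟩
  by_contra h
  have h1 : e.natAbs ≤ p.coeff.support.sup Int.natAbs :=
    Finset.le_sup (f := Int.natAbs) (Finsupp.mem_support_iff.2 h)
  omega

theorem exists_hi (p : L k) : ∃ n : ℕ, p ∈ hi k n := by
  refine ⟨p.coeff.support.sup Int.natAbs, fun e he => ?_⟩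
  by_contra h
  have h1 : e.natAbs ≤ p.coeff.support.sup Int.natAbs :=
    Finset.le_sup (f := Int.natAbs) (Finsupp.mem_support_iff.2 h)
  omega

theorem toLaurent_mem_lo (f : Polynomial k) : f.toLaurent ∈ lo k 0 := by
  intro e he
  by_contra h
  have h1 := Finsupp.mem_support_iff.2 h
  rw [support_coeff_toLaurent] at h1
  simp only [Finset.mem_map] at h1
  obtain ⟨n, -, hn⟩ := h1
  have : (n : ℤ) = e := hn
  omega

theorem exists_toLaurent {p : L k} (hp : p ∈ lo k 0) : ∃ f : Polynomial k, f.toLaurent = p := by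
  refine ⟨∑ e ∈ p.coeff.support, Polynomial.C (p.coeff e) * Polynomial.X ^ e.toNat, ?_⟩
  rw [map_sum]
  refine Eq.trans ?_ (AddMonoidAlgebra.sum_coeff_single p)
  refine Finset.sum_congr rfl fun e he => ?_
  have h0 : 0 ≤ e := by
    by_contra h
    exact (Finsupp.mem_support_iff.1 he) (hp e (by omega))
  rw [Polynomial.toLaurent_C_mul_X_pow, Int.toNat_of_nonneg h0, single_eq_C_mul_T]

theorem mem_lo_iff {p : L k} {d : ℤ} : p ∈ lo k d ↔ ∃ f : Polynomial k, p = T d * f.toLaurent := by
  constructor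
  · intro h
    have h1 : T (-d) * p ∈ lo k 0 := by rw [T_mul_mem_lo]; simpa using h
    obtain ⟨f, hf⟩ := exists_toLaurent h1
    refine ⟨f, ?_⟩
    rw [hf, ← mul_assoc, ← T_add, add_neg_cancel, T_zero, one_mul]
  · rintro ⟨f, rfl⟩
    rw [T_mul_mem_lo, sub_self]
    exact toLaurent_mem_lo f

theorem lo_mul {a b : ℤ} {p q : L k} (hp : p ∈ lo k a) (hq : q ∈ lo k b) :
    p * q ∈ lo k (a + b) := by
  obtain ⟨f, rfl⟩ := mem_lo_iff.1 hp
  obtain ⟨g, rfl⟩ := mem_lo_iff.1 hq
  refine mem_lo_iff.2 ⟨f * g, ?_⟩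
  rw [map_mul, T_add]; ring

theorem mem_hi_iff_invert {p : L k} {d : ℤ} : p ∈ hi k d ↔ invert p ∈ lo k (-d) := by
  simp only [mem_hi, mem_lo, invert_apply]
  constructor
  · intro h e he
    exact h _ (by omega)
  · intro h e he
    have := h (-e) (by omega)
    simpa using this

theorem hi_mul {a b : ℤ} {p q : L k} (hp : p ∈ hi k a) (hq : q ∈ hi k b) :
    p * q ∈ hi k (a + b) := by
  rw [mem_hi_iff_invert] at *
  rw [map_mul, neg_add]
  exact lo_mul hp hq

theorem one_mem_lo : (1 : L k) ∈ lo k 0 := by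
  rw [← T_zero]; exact T_mem_lo le_rfl

theorem one_mem_hi : (1 : L k) ∈ hi k 0 := by
  rw [← T_zero]; exact T_mem_hi le_rfl

theorem algebraMap_mem_lo (c : k) : algebraMap k (L k) c ∈ lo k 0 := by
  rw [Algebra.algebraMap_eq_smul_one]
  exact Submodule.smul_mem _ _ one_mem_lo

theorem algebraMap_mem_hi (c : k) : algebraMap k (L k) c ∈ hi k 0 := by
  rw [Algebra.algebraMap_eq_smul_one]
  exact Submodule.smul_mem _ _ one_mem_hi

theorem lo_mul' {a b c : ℤ} {p q : L k} (hp : p ∈ lo k a) (hq : q ∈ lo k b) (h : a + b = c) :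
    p * q ∈ lo k c := h ▸ lo_mul hp hq

theorem hi_mul' {a b c : ℤ} {p q : L k} (hp : p ∈ hi k a) (hq : q ∈ hi k b) (h : a + b = c) :
    p * q ∈ hi k c := h ▸ hi_mul hp hq

/-! ### The rings -/

variable (k) in
/-- Triples of Laurent polynomials. -/
abbrev K : Type := Fin 3 → L k

section

variable [CharZero k]

theorem two_smul_mem {S : Submodule k (L k)} {p : L k} (h : (2 : L k) * p ∈ S) : p ∈ S := by
  have h1 : p = (2⁻¹ : k) • ((2 : L k) * p) := by
    have h2 : (2 : L k) * p = (2 : k) • p := by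
      rw [two_mul, two_smul]
    rw [h2, smul_smul, inv_mul_cancel₀ two_ne_zero, one_smul]
  rw [h1]
  exact S.smul_mem _ h

variable (k) in
/-- The ring of the singular chart: the triples `g` with `g₀, g₁, g₂` polynomials, `g₁ - g₂`
divisible by `x³` and `g₁ + g₂ - 2 g₀` divisible by `x⁶`. -/
def A : Subalgebra k (K k) where
  carrier := {g | (∀ i, g i ∈ lo k 0) ∧ g 1 - g 2 ∈ lo k 3 ∧ g 1 + g 2 - 2 * g 0 ∈ lo k 6}
  mul_mem' := by
    rintro g h ⟨hg, hg1, hg2⟩ ⟨hh, hh1, hh2⟩
    refine ⟨fun i => ?_, ?_, ?_⟩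
    · have := lo_mul (hg i) (hh i)
      simpa using this
    · have e : (g * h) 1 - (g * h) 2 = g 1 * (h 1 - h 2) + (g 1 - g 2) * h 2 := by
        simp only [Pi.mul_apply]; ring
      rw [e]
      exact add_mem (lo_mul' (hg 1) hh1 (by norm_num)) (lo_mul' hg1 (hh 2) (by norm_num))
    · apply two_smul_mem
      have e : 2 * ((g * h) 1 + (g * h) 2 - 2 * (g * h) 0) =
          2 * (g 0 * (h 1 + h 2 - 2 * h 0)) + 2 * ((g 1 + g 2 - 2 * g 0) * h 0) +
          (g 1 + g 2 - 2 * g 0) * (h 1 + h 2 - 2 * h 0) + (g 1 - g 2) * (h 1 - h 2) := by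
        simp only [Pi.mul_apply]; ring
      rw [e]
      have h2 : (2 : L k) ∈ lo k 0 := by
        rw [← one_add_one_eq_two]
        exact add_mem one_mem_lo one_mem_lo
      refine add_mem (add_mem (add_mem ?_ ?_) ?_) ?_
      · exact lo_mul' h2 (lo_mul' (hg 0) hh2 (zero_add _)) (by norm_num)
      · exact lo_mul' h2 (lo_mul' hg2 (hh 0) (add_zero _)) (by norm_num)
      · exact lo_mono (by norm_num) (lo_mul hg2 hh2)
      · exact lo_mul' hg1 hh1 (by norm_num)
  add_mem' := by
    rintro g h ⟨hg, hg1, hg2⟩ ⟨hh, hh1, hh2⟩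
    refine ⟨fun i => add_mem (hg i) (hh i), ?_, ?_⟩
    · have e : (g + h) 1 - (g + h) 2 = (g 1 - g 2) + (h 1 - h 2) := by
        simp only [Pi.add_apply]; ring
      rw [e]; exact add_mem hg1 hh1
    · have e : (g + h) 1 + (g + h) 2 - 2 * (g + h) 0 =
          (g 1 + g 2 - 2 * g 0) + (h 1 + h 2 - 2 * h 0) := by
        simp only [Pi.add_apply]; ring
      rw [e]; exact add_mem hg2 hh2
  algebraMap_mem' := by
    intro c
    refine ⟨fun i => algebraMap_mem_lo c, ?_, ?_⟩
    · have e : (algebraMap k (K k) c) 1 - (algebraMap k (K k) c) 2 = 0 := by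
        simp only [Pi.algebraMap_apply]; ring
      rw [e]; exact zero_mem _
    · have e : (algebraMap k (K k) c) 1 + (algebraMap k (K k) c) 2 -
          2 * (algebraMap k (K k) c) 0 = 0 := by
        simp only [Pi.algebraMap_apply]; ring
      rw [e]; exact zero_mem _

variable (k) in
/-- The ring of the smooth chart: triples of polynomials in `x⁻¹`. -/
def B : Subalgebra k (K k) where
  carrier := {g | ∀ i, g i ∈ hi k 0}
  mul_mem' := by
    intro g h hg hh i
    exact hi_mul' (hg i) (hh i) (by norm_num)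
  add_mem' := by
    intro g h hg hh i
    exact add_mem (hg i) (hh i)
  algebraMap_mem' := by
    intro c i
    exact algebraMap_mem_hi c

theorem mem_A {g : K k} : g ∈ A k ↔
    (∀ i, g i ∈ lo k 0) ∧ g 1 - g 2 ∈ lo k 3 ∧ g 1 + g 2 - 2 * g 0 ∈ lo k 6 := Iff.rfl

omit [CharZero k] in
theorem mem_B {g : K k} : g ∈ B k ↔ ∀ i, g i ∈ hi k 0 := Iff.rfl


omit [CharZero k] in
theorem sub_localization (S : Subalgebra k (K k)) (x : S) (hx : IsUnit (x : K k))
    (h : ∀ g : K k, ∃ n : ℕ, (x : K k) ^ n * g ∈ S) : IsLocalization.Away x (K k) where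
  map_units := by
    rintro ⟨_, n, rfl⟩
    rw [map_pow]
    exact hx.pow n
  surj := by
    intro g
    obtain ⟨n, hn⟩ := h g
    refine ⟨(⟨_, hn⟩, ⟨x ^ n, n, rfl⟩), ?_⟩
    rw [mul_comm]
    simp
  exists_of_eq := by
    intro a b hab
    refine ⟨1, ?_⟩
    rw [Subtype.ext hab]

variable (k) in
/-- the coordinate -/
def xA : A k := ⟨fun _ => T 1, fun _ => T_mem_lo (by norm_num), by simp, by
  have : (T 1 + T 1 - 2 * T 1 : L k) = 0 := by ring
  rw [this]; exact zero_mem _⟩

variable (k) in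
/-- the second generator of the maximal ideal of the singular point -/
def yA : A k := ⟨![0, T 3, -T 3], fun i => by fin_cases i <;> simp <;> exact T_mem_lo (by norm_num), by
    simp only [Matrix.cons_val_one, Matrix.cons_val_zero, Matrix.cons_val]
    rw [sub_neg_eq_add]
    exact add_mem (T_mem_lo le_rfl) (T_mem_lo le_rfl), by
    simp⟩

variable (k) in
omit [CharZero k] in
/-- the coordinate at infinity -/
def zB : B k := ⟨fun _ => T (-1), fun _ => T_mem_hi (by norm_num)⟩

omit [CharZero k] in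
theorem isUnit_T' (n : ℤ) : IsUnit (fun _ : Fin 3 => (T n : L k)) := by
  rw [Pi.isUnit_iff]
  intro i
  exact isUnit_T n

omit [CharZero k] in
theorem T_pow' (m : ℤ) (n : ℕ) : (fun _ : Fin 3 => (T m : L k)) ^ n = fun _ => T (n * m) := by
  ext1 i
  rw [Pi.pow_apply, T_pow]

instance locA : IsLocalization.Away (xA k) (K k) := by
  apply sub_localization
  · exact isUnit_T' 1
  · intro g
    obtain ⟨n, hn⟩ : ∃ n : ℕ, ∀ i, g i ∈ lo k (-n) := by
      choose f hf using fun i => exists_lo (g i)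
      refine ⟨f 0 + f 1 + f 2, fun i => ?_⟩
      apply lo_mono _ (hf i)
      fin_cases i <;> simp <;> omega
    refine ⟨n + 6, ?_⟩
    have e : ((xA k : A k) : K k) ^ (n + 6) * g = fun i => T (n + 6) * g i := by
      change (fun _ => T 1) ^ (n + 6) * g = _
      rw [T_pow']
      ext1 i
      simp
    rw [e, mem_A]
    have h6 : ∀ i, T (n + 6) * g i ∈ lo k 6 := by
      intro i
      rw [T_mul_mem_lo]
      exact lo_mono (by omega) (hn i)
    refine ⟨fun i => lo_mono (by norm_num) (h6 i), ?_, ?_⟩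
    · exact sub_mem (lo_mono (by norm_num) (h6 1)) (lo_mono (by norm_num) (h6 2))
    · refine sub_mem (add_mem (h6 1) (h6 2)) ?_
      rw [two_mul]
      exact add_mem (h6 0) (h6 0)

omit [CharZero k] in
instance locB : IsLocalization.Away (zB k) (K k) := by
  apply sub_localization
  · exact isUnit_T' (-1)
  · intro g
    obtain ⟨n, hn⟩ : ∃ n : ℕ, ∀ i, g i ∈ hi k n := by
      choose f hf using fun i => exists_hi (g i)
      refine ⟨f 0 + f 1 + f 2, fun i => ?_⟩
      apply hi_mono _ (hf i)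
      fin_cases i <;> simp <;> omega
    refine ⟨n, ?_⟩
    have e : ((zB k : B k) : K k) ^ n * g = fun i => T (-n) * g i := by
      change (fun _ => T (-1)) ^ n * g = _
      rw [T_pow']
      ext1 i
      simp
    rw [e, mem_B]
    intro i
    rw [T_mul_mem_hi]
    simpa using hn i

end

end Run7.h109
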