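import Pool.Agent.Run7.h109.Alg
import Pool.Agent.Helper395.GlueTwo

set_option autoImplicit false

open LaurentPolynomial Pool.Agent.Helper395

noncomputable section

namespace Run7.h109

variable {k : Type} [Field k]

/-- a polynomial in the coordinate as a diagonal triple -/
def dg (p : Polynomial k) : K k := fun _ => p.toLaurent

section

variable [CharZero k]

theorem aeval_xA (p : Polynomial k) : ((Polynomial.aeval (xA k) p : A k) : K k) = dg p := by
  have h1 : ((Polynomial.aeval (xA k) p : A k) : K k) =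
      Polynomial.aeval ((xA k : A k) : K k) p := by
    exact (Polynomial.aeval_algHom_apply (A k).val (xA k) p).symm
  rw [h1]
  ext1 i
  have h2 := Polynomial.aeval_algHom_apply (Pi.evalAlgHom k (fun _ : Fin 3 => L k) i)
    ((xA k : A k) : K k) p
  refine Eq.trans h2.symm ?_
  change Polynomial.aeval (T 1 : L k) p = p.toLaurent
  have h3 : (Polynomial.aeval (T 1 : L k)) = Polynomial.toLaurentAlg (R := k) := by
    ext; simp
  rw [h3]; rfl

theorem half_mem {S : Submodule k (L k)} {p : L k} (h : p ∈ S) : ∃ q ∈ S, p = 2 * q := by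
  refine ⟨(2⁻¹ : k) • p, S.smul_mem _ h, ?_⟩
  rw [two_mul, ← two_smul k, smul_smul, mul_inv_cancel₀ two_ne_zero, one_smul]

theorem exists_rep {g : K k} (hg : g ∈ A k) : ∃ p q r : Polynomial k,
    g = dg p + dg q * (yA k : A k) + dg r * ((yA k : A k) : K k) ^ 2 := by
  obtain ⟨h0, h1, h2⟩ := hg
  obtain ⟨p, hp⟩ := exists_toLaurent (h0 0)
  obtain ⟨u, hu, hu'⟩ := half_mem h1
  obtain ⟨v, hv, hv'⟩ := half_mem h2
  obtain ⟨q, rfl⟩ := mem_lo_iff.1 hu
  obtain ⟨r, rfl⟩ := mem_lo_iff.1 hv
  refine ⟨p, q, r, ?_⟩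
  have e6 : (T 6 : L k) = T 3 * T 3 := by rw [← T_add]; norm_num
  have e1 : 2 * g 1 = 2 * (p.toLaurent + q.toLaurent * T 3 + r.toLaurent * (T 3) ^ 2) := by
    rw [hp]
    linear_combination hu' + hv' + (2 * r.toLaurent) * e6
  have e2 : 2 * g 2 = 2 * (p.toLaurent + q.toLaurent * (- T 3) + r.toLaurent * (- T 3) ^ 2) := by
    rw [hp]
    linear_combination - hu' + hv' + (2 * r.toLaurent) * e6
  have h20 : (2 : L k) ≠ 0 := by
    have : (2 : L k) = algebraMap k (L k) 2 := (map_ofNat (algebraMap k (L k)) 2).symm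
    rw [this]
    exact fun h => two_ne_zero (α := k) ((algebraMap k (L k)).injective (by rw [h, map_zero]))
  ext1 i
  fin_cases i
  · change g 0 = p.toLaurent + q.toLaurent * 0 + r.toLaurent * 0 ^ 2
    rw [hp]; ring
  · exact mul_left_cancel₀ h20 e1
  · exact mul_left_cancel₀ h20 e2

theorem rep_A (a : A k) : ∃ p q r : Polynomial k,
    a = Polynomial.aeval (xA k) p + Polynomial.aeval (xA k) q * yA k +
      Polynomial.aeval (xA k) r * (yA k) ^ 2 := by
  obtain ⟨p, q, r, h⟩ := exists_rep a.2
  refine ⟨p, q, r, Subtype.ext ?_⟩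
  rw [h]
  simp only [Subalgebra.coe_add, Subalgebra.coe_mul, Subalgebra.coe_pow, aeval_xA]

theorem y_cube : (yA k) ^ 3 = (xA k) ^ 6 * yA k := by
  apply Subtype.ext
  change ((yA k : A k) : K k) ^ 3 = ((xA k : A k) : K k) ^ 6 * (yA k : A k)
  have e : (T 1 : L k) ^ 6 = T 3 ^ 2 := by
    rw [T_pow, T_pow]; norm_num
  ext1 i
  fin_cases i
  · change (0 : L k) ^ 3 = T 1 ^ 6 * 0
    simp
  · change (T 3 : L k) ^ 3 = T 1 ^ 6 * T 3
    rw [e]; ring
  · change (- T 3 : L k) ^ 3 = T 1 ^ 6 * (- T 3)
    rw [e]; ring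

theorem adjoin_A : Algebra.adjoin k {xA k, yA k} = ⊤ := by
  rw [eq_top_iff]
  rintro a -
  obtain ⟨p, q, r, rfl⟩ := rep_A a
  have hx : ∀ p : Polynomial k, Polynomial.aeval (xA k) p ∈ Algebra.adjoin k {xA k, yA k} := by
    intro p
    exact Algebra.adjoin_mono (Set.singleton_subset_iff.2 (Set.mem_insert _ _))
      (Polynomial.aeval_mem_adjoin_singleton k (xA k))
  have hy : yA k ∈ Algebra.adjoin k {xA k, yA k} :=
    Algebra.subset_adjoin (Set.mem_insert_of_mem _ rfl)
  exact add_mem (add_mem (hx p) (mul_mem (hx q) hy)) (mul_mem (hx r) (pow_mem hy 2))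

open Classical in
instance finTypeA : Algebra.FiniteType k (A k) :=
  ⟨⟨{xA k, yA k}, by rw [Finset.coe_pair]; exact adjoin_A⟩⟩

theorem valA : ValCondition (algebraMap k (A k)) (xA k) := by
  intro V K' _ _ _ _ _ _ θ hk hx a
  have h1 : ∀ b : A k, b ∈ Algebra.adjoin k {xA k, yA k} → θ b ∈ Set.range (algebraMap V K') := by
    intro b hb
    induction hb using Algebra.adjoin_induction with
    | mem b hb =>
      rcases hb with rfl | hb
      · exact hx
      · rw [Set.mem_singleton_iff] at hb
        subst hb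
        by_contra hy
        have h0 : θ (yA k) ≠ 0 := by
          intro h0
          exact hy ⟨0, by rw [h0, map_zero]⟩
        have h2 : (θ (yA k))⁻¹ ∈ Set.range (algebraMap V K') := by
          rcases ValuationRing.isInteger_or_isInteger V (θ (yA k)) with h | h
          · exact absurd h hy
          · exact h
        obtain ⟨u, hu⟩ := h2
        obtain ⟨v, hv⟩ := hx
        apply hy
        refine ⟨v ^ 6 * u, ?_⟩
        have h3 := congrArg θ (y_cube (k := k))
        rw [map_pow, map_mul, map_pow, ← hv] at h3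
        have h4 : θ (yA k) ^ 2 = algebraMap V K' v ^ 6 := by
          have : θ (yA k) * (θ (yA k) ^ 2 - algebraMap V K' v ^ 6) = 0 := by
            linear_combination h3
          rcases mul_eq_zero.1 this with h | h
          · exact absurd h h0
          · exact sub_eq_zero.1 h
        rw [map_mul, map_pow, hu, ← h4]
        field_simp
    | algebraMap r => exact hk r
    | add b c _ _ hb hc =>
      obtain ⟨u, hu⟩ := hb
      obtain ⟨v, hv⟩ := hc
      exact ⟨u + v, by rw [map_add, map_add, hu, hv]⟩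
    | mul b c _ _ hb hc =>
      obtain ⟨u, hu⟩ := hb
      obtain ⟨v, hv⟩ := hc
      exact ⟨u * v, by rw [map_mul, map_mul, hu, hv]⟩
  exact h1 a (by rw [adjoin_A]; exact Algebra.mem_top)

end

/-! ### The second chart -/

variable (k) in
/-- the idempotents -/
def eB (i : Fin 3) : B k := ⟨Pi.single i 1, fun j => by
  by_cases h : j = i
  · subst h; simp only [Pi.single_eq_same]; exact one_mem_hi
  · rw [Pi.single_eq_of_ne h]; exact zero_mem _⟩

theorem eB_idem (i : Fin 3) : eB k i * eB k i = eB k i := by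
  apply Subtype.ext
  change (Pi.single i 1 * Pi.single i 1 : K k) = Pi.single i 1
  rw [← Pi.single_mul, one_mul]

theorem aeval_zB (p : Polynomial k) :
    ((Polynomial.aeval (zB k) p : B k) : K k) = fun _ => invert p.toLaurent := by
  have h1 : ((Polynomial.aeval (zB k) p : B k) : K k) =
      Polynomial.aeval ((zB k : B k) : K k) p := by
    exact (Polynomial.aeval_algHom_apply (B k).val (zB k) p).symm
  rw [h1]
  ext1 i
  have h2 := Polynomial.aeval_algHom_apply (Pi.evalAlgHom k (fun _ : Fin 3 => L k) i)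
    ((zB k : B k) : K k) p
  refine Eq.trans h2.symm ?_
  change Polynomial.aeval (T (-1) : L k) p = invert p.toLaurent
  have h3 : (Polynomial.aeval (T (-1) : L k)) =
      (invert (R := k)).toAlgHom.comp (Polynomial.toLaurentAlg (R := k)) := by
    ext; simp
  rw [h3]; rfl

theorem rep_B (b : B k) : ∃ f : Fin 3 → Polynomial k,
    b = ∑ i, eB k i * Polynomial.aeval (zB k) (f i) := by
  have h : ∀ i, ∃ f : Polynomial k, invert f.toLaurent = (b : K k) i := by
    intro i
    have h1 := mem_hi_iff_invert.1 (b.2 i)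
    rw [neg_zero] at h1
    obtain ⟨f, hf⟩ := exists_toLaurent h1
    refine ⟨f, ?_⟩
    rw [hf]
    exact involutive_invert _
  choose f hf using h
  refine ⟨f, Subtype.ext ?_⟩
  have e : ((∑ i, eB k i * Polynomial.aeval (zB k) (f i) : B k) : K k) =
      ∑ i, (Pi.single i 1 : K k) * (fun _ => invert (f i).toLaurent) := by
    rw [AddSubmonoidClass.coe_finsetSum]
    refine Finset.sum_congr rfl fun i _ => ?_
    rw [Subalgebra.coe_mul, aeval_zB]
    rfl
  rw [e]
  ext1 j
  rw [Finset.sum_apply, Finset.sum_eq_single j]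
  · simp [hf]
  · intro i _ hij
    rw [Pi.mul_apply, Pi.single_eq_of_ne (Ne.symm hij), zero_mul]
  · simp

theorem adjoin_B : Algebra.adjoin k (insert (zB k) (Set.range (eB k))) = ⊤ := by
  rw [eq_top_iff]
  rintro b -
  obtain ⟨f, rfl⟩ := rep_B b
  refine sum_mem fun i _ => mul_mem (Algebra.subset_adjoin (Set.mem_insert_of_mem _ ⟨i, rfl⟩)) ?_
  exact Algebra.adjoin_mono (Set.singleton_subset_iff.2 (Set.mem_insert _ _))
      (Polynomial.aeval_mem_adjoin_singleton k (zB k))

open Classical in
instance finTypeB : Algebra.FiniteType k (B k) :=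
  ⟨⟨insert (zB k) (Finset.univ.image (eB k)), by
    rw [Finset.coe_insert, Finset.coe_image, Finset.coe_univ, Set.image_univ]; exact adjoin_B⟩⟩

theorem valB : ValCondition (algebraMap k (B k)) (zB k) := by
  intro V K' _ _ _ _ _ _ θ hk hx a
  have h1 : ∀ b : B k, b ∈ Algebra.adjoin k (insert (zB k) (Set.range (eB k))) →
      θ b ∈ Set.range (algebraMap V K') := by
    intro b hb
    induction hb using Algebra.adjoin_induction with
    | mem b hb =>
      rcases hb with rfl | ⟨i, rfl⟩
      · exact hx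
      · have h2 := congrArg θ (eB_idem (k := k) i)
        rw [map_mul] at h2
        have h3 : θ (eB k i) * (θ (eB k i) - 1) = 0 := by linear_combination h2
        rcases mul_eq_zero.1 h3 with h | h
        · exact ⟨0, by rw [h, map_zero]⟩
        · exact ⟨1, by rw [map_one, sub_eq_zero.1 h]⟩
    | algebraMap r => exact hk r
    | add b c _ _ hb hc =>
      obtain ⟨u, hu⟩ := hb
      obtain ⟨v, hv⟩ := hc
      exact ⟨u + v, by rw [map_add, map_add, hu, hv]⟩
    | mul b c _ _ hb hc =>
      obtain ⟨u, hu⟩ := hb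
      obtain ⟨v, hv⟩ := hc
      exact ⟨u * v, by rw [map_mul, map_mul, hu, hv]⟩
  exact h1 a (by rw [adjoin_B]; exact Algebra.mem_top)

end Run7.h109
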