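import Pool.Agent.Run7.h109.Alg2

set_option autoImplicit false

open LaurentPolynomial Pool.Agent.Helper395

noncomputable section

namespace Run7.h109

variable {k : Type} [Field k]

section
variable [CharZero k]

variable (k) in
/-- the coordinate projections of the first chart -/
def evA (i : Fin 3) : A k →+* L k := (Pi.evalRingHom (fun _ : Fin 3 => L k) i).comp (A k).val.toRingHom

variable (k) in
/-- the generic point of the component `i` on the first chart -/
def gA (i : Fin 3) : Ideal (A k) := RingHom.ker (evA k i)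

instance (i : Fin 3) : (gA k i).IsPrime := RingHom.ker_isPrime _

variable (k) in
/-- the maximal ideal of the singular point -/
def m0 : Ideal (A k) := Ideal.span {xA k, yA k}

theorem mem_m0_coeff {a : A k} (ha : a ∈ m0 k) (i : Fin 3) : ((a : K k) i).coeff 0 = 0 := by
  obtain ⟨u, v, rfl⟩ := Ideal.mem_span_pair.1 ha
  have h1 : ((u * xA k + v * yA k : A k) : K k) i ∈ lo k 1 := by
    change (u : K k) i * T 1 + (v : K k) i * (yA k : K k) i ∈ lo k 1
    refine add_mem (lo_mul' (u.2.1 i) (T_mem_lo le_rfl) (zero_add _))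
      (lo_mul' (v.2.1 i) ?_ (zero_add _))
    fin_cases i
    · exact zero_mem _
    · exact T_mem_lo (by norm_num)
    · exact neg_mem (T_mem_lo (by norm_num))
  exact h1 0 (by norm_num)

theorem m0_ne_top : m0 k ≠ ⊤ := by
  intro h
  have h1 := mem_m0_coeff (k := k) (a := 1) (by rw [h]; trivial) 0
  change (1 : L k).coeff 0 = 0 at h1
  rw [← T_zero, T_apply] at h1
  simp at h1

theorem sub_C_mem_m0 (a : A k) : ∃ c : k, a - algebraMap k (A k) c ∈ m0 k := by
  obtain ⟨p, q, r, rfl⟩ := rep_A a
  refine ⟨p.coeff 0, ?_⟩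
  have hx : xA k ∈ m0 k := Ideal.subset_span (Set.mem_insert _ _)
  have hy : yA k ∈ m0 k := Ideal.subset_span (Set.mem_insert_of_mem _ rfl)
  have h1 : Polynomial.aeval (xA k) p = xA k * Polynomial.aeval (xA k) p.divX +
      algebraMap k (A k) (p.coeff 0) := by
    have h := congrArg (Polynomial.aeval (xA k)) (Polynomial.X_mul_divX_add p).symm
    rw [map_add, map_mul, Polynomial.aeval_X, Polynomial.aeval_C] at h
    exact h
  rw [h1]
  have e : xA k * Polynomial.aeval (xA k) p.divX + algebraMap k (A k) (p.coeff 0) +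
      Polynomial.aeval (xA k) q * yA k + Polynomial.aeval (xA k) r * (yA k) ^ 2 -
      algebraMap k (A k) (p.coeff 0) = Polynomial.aeval (xA k) p.divX * xA k +
      (Polynomial.aeval (xA k) q + Polynomial.aeval (xA k) r * yA k) * yA k := by ring
  rw [e]
  exact add_mem (Ideal.mul_mem_left _ _ hx) (Ideal.mul_mem_left _ _ hy)

instance m0_max : (m0 k).IsMaximal := by
  rw [Ideal.isMaximal_iff]
  refine ⟨fun h => m0_ne_top ((Ideal.eq_top_iff_one _).2 h), ?_⟩
  intro J a hJ ha haJ
  obtain ⟨c, hc⟩ := sub_C_mem_m0 a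
  have h1 : algebraMap k (A k) c ∈ J := by
    have := sub_mem haJ (hJ hc)
    simpa using this
  have hc0 : c ≠ 0 := by
    rintro rfl
    rw [map_zero, sub_zero] at hc
    exact ha hc
  have h2 := J.mul_mem_left (algebraMap k (A k) c⁻¹) h1
  rwa [← map_mul, inv_mul_cancel₀ hc0, map_one] at h2

theorem eq_m0 {P : Ideal (A k)} [hP : P.IsPrime] (h : xA k ∈ P) : P = m0 k := by
  have hy : yA k ∈ P := by
    apply hP.mem_of_pow_mem 3
    rw [y_cube]
    exact P.mul_mem_right _ (P.pow_mem_of_mem h 6 (by norm_num))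
  have h1 : m0 k ≤ P := by
    rw [m0, Ideal.span_le]
    rintro _ (rfl | h)
    · assumption
    · rw [Set.mem_singleton_iff] at h
      rw [h]; exact hy
  exact (m0_max.eq_of_le hP.ne_top h1).symm

theorem gA_lt_m0 (i : Fin 3) : gA k i < m0 k := by
  have hx : xA k ∉ gA k i := by
    intro h
    have h1 : (T 1 : L k) = 0 := h
    have h2 := congrArg (fun p : L k => p.coeff 1) h1
    simp at h2
  refine lt_of_le_of_ne ?_ ?_
  · intro a ha
    obtain ⟨c, hc⟩ := sub_C_mem_m0 a
    have h1 := mem_m0_coeff hc i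
    have h0 : (a : K k) i = 0 := ha
    have h2 : ((a - algebraMap k (A k) c : A k) : K k) i = - algebraMap k (L k) c := by
      change (a : K k) i - _ = _
      rw [h0, zero_sub]; rfl
    rw [h2] at h1
    have h3 : c = 0 := by simpa using h1
    rw [h3, map_zero, sub_zero] at hc
    exact hc
  · intro h
    apply hx
    rw [h]
    exact Ideal.subset_span (Set.mem_insert _ _)

instance noethA : IsNoetherianRing (A k) := Algebra.FiniteType.isNoetherianRing k (A k)

theorem height_m0 : (m0 k).height = 1 := by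
  apply le_antisymm
  · apply Ideal.height_le_one_of_isPrincipal_of_mem_minimalPrimes (Ideal.span {xA k})
    refine ⟨⟨m0_max.isPrime, ?_⟩, ?_⟩
    · rw [Ideal.span_le, Set.singleton_subset_iff]
      exact Ideal.subset_span (Set.mem_insert _ _)
    · rintro P ⟨hP, hxP⟩ -
      have := hP
      rw [eq_m0 (hxP (Ideal.mem_span_singleton_self _))]
  · have := Ideal.height_add_one_le_of_lt_of_isPrime (gA_lt_m0 (k := k) 0)
    exact le_trans (le_add_self) this

end

/-! ### The second chart -/

variable (k) in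
/-- the coordinate projections of the second chart -/
def evB (i : Fin 3) : B k →+* L k := (Pi.evalRingHom (fun _ : Fin 3 => L k) i).comp (B k).val.toRingHom

variable (k) in
/-- the generic point of the component `i` on the second chart -/
def gB (i : Fin 3) : Ideal (B k) := RingHom.ker (evB k i)

instance (i : Fin 3) : (gB k i).IsPrime := RingHom.ker_isPrime _

instance noethB : IsNoetherianRing (B k) := Algebra.FiniteType.isNoetherianRing k (B k)

theorem eB_sum : eB k 0 + eB k 1 + eB k 2 = 1 := by
  apply Subtype.ext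
  change (Pi.single 0 1 + Pi.single 1 1 + Pi.single 2 1 : K k) = 1
  ext1 i
  fin_cases i <;> simp

theorem eB_mul {i j : Fin 3} (h : i ≠ j) : eB k i * eB k j = 0 := by
  apply Subtype.ext
  change (Pi.single i 1 * Pi.single j 1 : K k) = 0
  ext1 l
  by_cases h1 : l = i
  · subst h1; simp [h]
  · simp [h1]

theorem exists_eB_notMem (P : Ideal (B k)) [hP : P.IsPrime] : ∃ i, eB k i ∉ P := by
  by_contra h
  push Not at h
  apply hP.ne_top
  rw [Ideal.eq_top_iff_one, ← eB_sum]
  exact add_mem (add_mem (h 0) (h 1)) (h 2)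

theorem eB_mem_of_ne {P : Ideal (B k)} [hP : P.IsPrime] {i j : Fin 3} (hi : eB k i ∉ P)
    (h : j ≠ i) : eB k j ∈ P := by
  have h1 : eB k i * eB k j ∈ P := by rw [eB_mul h.symm]; exact zero_mem _
  exact (hP.mem_or_mem h1).resolve_left hi

theorem gB_le {P : Ideal (B k)} [hP : P.IsPrime] {i : Fin 3} (hi : eB k i ∉ P) : gB k i ≤ P := by
  intro b hb
  have h0 : (b : K k) i = 0 := hb
  have h1 : b = ∑ j, eB k j * b := by
    rw [← Finset.sum_mul, Fin.sum_univ_three, eB_sum, one_mul]
  rw [h1]
  refine sum_mem fun j _ => ?_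
  by_cases hj : j = i
  · subst hj
    have h2 : eB k j * b = 0 := by
      apply Subtype.ext
      ext1 l
      change (Pi.single j 1 : K k) l * (b : K k) l = 0
      by_cases hl : l = j
      · subst hl; rw [h0, mul_zero]
      · rw [Pi.single_eq_of_ne hl, zero_mul]
    rw [h2]; exact zero_mem _
  · exact P.mul_mem_right _ (eB_mem_of_ne hi hj)

theorem principal_B (P : Ideal (B k)) [hP : P.IsPrime] : ∃ w, P = Ideal.span {w} := by
  obtain ⟨i, hi⟩ := exists_eB_notMem P
  let Q : Ideal (Polynomial k) := P.comap (Polynomial.aeval (zB k)).toRingHom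
  obtain ⟨π, hπ⟩ : ∃ π, Q = Ideal.span {π} := (IsPrincipalIdealRing.principal Q).principal
  have hπP : Polynomial.aeval (zB k) π ∈ P := by
    have : π ∈ Q := by rw [hπ]; exact Ideal.mem_span_singleton_self _
    exact this
  refine ⟨1 - eB k i + eB k i * Polynomial.aeval (zB k) π, le_antisymm ?_ ?_⟩
  · intro b hb
    obtain ⟨f, hf⟩ := rep_B b
    have h1 : eB k i * b = eB k i * Polynomial.aeval (zB k) (f i) := by
      rw [hf, Finset.mul_sum, Finset.sum_eq_single i]
      · rw [← mul_assoc, eB_idem]
      · intro j _ hj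
        rw [← mul_assoc, eB_mul hj.symm, zero_mul]
      · simp
    have h2 : f i ∈ Q := by
      have h3 : eB k i * Polynomial.aeval (zB k) (f i) ∈ P := by
        rw [← h1]; exact P.mul_mem_left _ hb
      exact (hP.mem_or_mem h3).resolve_left hi
    rw [hπ, Ideal.mem_span_singleton] at h2
    obtain ⟨g, hg⟩ := h2
    rw [Ideal.mem_span_singleton]
    refine ⟨(1 - eB k i) * b + eB k i * Polynomial.aeval (zB k) g, ?_⟩
    have hid := eB_idem (k := k) i
    have h4 : eB k i * b = eB k i * Polynomial.aeval (zB k) π * Polynomial.aeval (zB k) g := by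
      rw [h1, hg, map_mul]; ring
    linear_combination h4 + (-b + Polynomial.aeval (zB k) g +
      Polynomial.aeval (zB k) π * b - Polynomial.aeval (zB k) π * Polynomial.aeval (zB k) g) * hid
  · rw [Ideal.span_le, Set.singleton_subset_iff]
    refine add_mem ?_ (P.mul_mem_left _ hπP)
    have h1 : 1 - eB k i = ∑ j ∈ Finset.univ.erase i, eB k j := by
      rw [Finset.sum_erase_eq_sub (Finset.mem_univ i), Fin.sum_univ_three, eB_sum]
    rw [h1]
    refine sum_mem fun j hj => eB_mem_of_ne hi (Finset.ne_of_mem_erase hj)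

theorem gB_not_max (i : Fin 3) : ¬ (gB k i).IsMaximal := by
  intro h
  have hz : zB k ∉ gB k i := by
    intro h
    have h1 : (T (-1) : L k) = 0 := h
    have h2 := congrArg (fun p : L k => p.coeff (-1)) h1
    simp at h2
  have h1 : (1 : B k) ∈ gB k i ⊔ Ideal.span {zB k} := by
    have := h.eq_of_le (J := gB k i ⊔ Ideal.span {zB k})
    by_contra h2
    have h3 : gB k i = gB k i ⊔ Ideal.span {zB k} :=
      this (fun h4 => h2 (by rw [h4]; trivial)) le_sup_left
    apply hz
    rw [h3]
    exact Ideal.mem_sup_right (Ideal.mem_span_singleton_self _)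
  rw [Submodule.mem_sup] at h1
  obtain ⟨u, hu, v, hv, huv⟩ := h1
  obtain ⟨c, rfl⟩ := Ideal.mem_span_singleton.1 hv
  have hu0 : (u : K k) i = 0 := hu
  have h2 := congrArg (fun b : B k => (b : K k) i) huv
  change (u : K k) i + T (-1) * (c : K k) i = 1 at h2
  rw [hu0, zero_add] at h2
  have h3 : T (-1) * (c : K k) i ∈ hi k (-1) := hi_mul' (T_mem_hi le_rfl) (c.2 i) (by norm_num)
  rw [h2] at h3
  have h4 := h3 0 (by norm_num)
  rw [← T_zero, T_apply] at h4
  simp at h4

theorem height_B (P : Ideal (B k)) [hP : P.IsMaximal] : P.height = 1 := by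
  have hPp := hP.isPrime
  apply le_antisymm
  · obtain ⟨w, hw⟩ := principal_B P
    apply Ideal.height_le_one_of_isPrincipal_of_mem_minimalPrimes (Ideal.span {w})
    rw [← hw]
    exact ⟨⟨hPp, le_rfl⟩, fun Q hQ _ => hQ.2⟩
  · obtain ⟨i, hi⟩ := exists_eB_notMem P
    have h1 : gB k i < P := by
      refine lt_of_le_of_ne (gB_le hi) ?_
      rintro rfl
      exact gB_not_max i hP
    exact le_trans (le_add_self) (Ideal.height_add_one_le_of_lt_of_isPrime h1)

end Run7.h109
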