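import Pool.Agent.Run7.h568.DG.Iface

/-!
# The product of the strand powers along a dart
-/

set_option autoImplicit false

open Real Matrix

noncomputable section

namespace Run7.h568.DG

namespace HH

variable {G : Type} [Group G]

lemma prod_succ (f : ℕ → G) (n : ℕ) :
    ((List.range (n + 1)).map f).prod = ((List.range n).map f).prod * f n := by
  rw [List.range_succ, List.map_append, List.prod_append]
  simp

lemma prod_succ' (f : ℕ → G) (n : ℕ) :
    ((List.range (n + 1)).map f).prod = f 0 * ((List.range n).map fun i => f (i + 1)).prod := by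
  rw [List.range_succ_eq_map, List.map_cons, List.prod_cons, List.map_map]
  rfl

lemma prod_add (f : ℕ → G) (n k : ℕ) : ((List.range (n + k)).map f).prod =
    ((List.range n).map f).prod * ((List.range k).map fun i => f (n + i)).prod := by
  induction k with
  | zero => simp
  | succ k ih =>
    rw [← add_assoc, prod_succ, ih, prod_succ, mul_assoc]

lemma prod_conj (g : G) (f : ℕ → G) (n : ℕ) :
    ((List.range n).map fun i => g * f i * g⁻¹).prod = g * ((List.range n).map f).prod * g⁻¹ := by
  induction n with
  | zero => simp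
  | succ n ih =>
    rw [prod_succ, prod_succ, ih]
    group

lemma prod_rev (f : ℕ → G) (n : ℕ) : ((List.range n).map fun i => (f (n - 1 - i))⁻¹).prod =
    (((List.range n).map f).prod)⁻¹ := by
  induction n with
  | zero => simp
  | succ n ih =>
    rw [prod_succ', prod_succ f n, _root_.mul_inv_rev, ← ih]
    congr 1
    congr 1
    apply List.map_congr_left
    intro i _
    congr 2
    omega

lemma congr_range {f g : ℕ → G} {n : ℕ} (h : ∀ i, i < n → f i = g i) :
    ((List.range n).map f).prod = ((List.range n).map g).prod := by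
  congr 1
  exact List.map_congr_left fun i hi => h i (List.mem_range.mp hi)

/-- product of the inverses of conjugates in the opposite order -/
lemma key (g : G) (f h : ℕ → G) (n : ℕ) (H : ∀ i, i < n → f i = g * (h (n - 1 - i))⁻¹ * g⁻¹) :
    ((List.range n).map f).prod = g * (((List.range n).map h).prod)⁻¹ * g⁻¹ := by
  rw [congr_range H, prod_conj g (fun i => (h (n - 1 - i))⁻¹), prod_rev]

end HH

open HH

theorem H : S_str → S_H := by
  intro hS D _ _ T t x hx d
  have hN : T.num t.c (T.io d) = T.num t.c d := t.hc d
  constructor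
  · have h1 : t.H x d = t.Pd x d (t.c d) *
        ((List.range (t.c (T.sg d))).map fun j =>
          t.str x (d, t.c d + j) ^ t.m (d, t.c d + j)).prod :=
      prod_add (fun i => t.str x (d, i) ^ t.m (d, i)) (t.c d) (t.c (T.sg d))
    rw [h1]
    congr 1
    apply key W _ (fun j => t.str x (T.sg d, j) ^ t.m (T.sg d, j))
    intro j hj
    have hlt : t.c d + j < T.num t.c d := by
      unfold Tri.num
      omega
    obtain ⟨h2, h3⟩ := (hS T t x hx d (t.c d + j) hlt).2.2.2 (Nat.le_add_right _ _)
    have h4 : T.num t.c d - 1 - (t.c d + j) = t.c (T.sg d) - 1 - j := by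
      unfold Tri.num
      omega
    rw [h4] at h2 h3
    rw [h2, h3, conj_zpow, _root_.inv_zpow]
  · have h1 : t.H x (T.io d) = ((List.range (T.num t.c d)).map fun j =>
        t.str x (T.io d, j) ^ t.m (T.io d, j)).prod := by
      unfold TD.H TD.Pd
      rw [hN]
    have h5 : t.H x (T.io d) = (E (x d))⁻¹ * (t.H x d)⁻¹ * ((E (x d))⁻¹)⁻¹ := by
      rw [h1]
      apply key (E (x d))⁻¹ _ (fun j => t.str x (d, j) ^ t.m (d, j))
      intro j hj
      have hlt : T.num t.c d - 1 - j < T.num t.c d := by omega
      have h2 := (hS T t x hx d (T.num t.c d - 1 - j) hlt).2.2.1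
      have h3 := t.m_rev d (T.num t.c d - 1 - j) hlt
      have h4 : T.num t.c d - 1 - (T.num t.c d - 1 - j) = j := by omega
      rw [h4] at h2 h3
      rw [h2, h3]
      have h6 : (E (x d))⁻¹ * (t.str x (d, T.num t.c d - 1 - j))⁻¹ * E (x d) =
          (E (x d))⁻¹ * (t.str x (d, T.num t.c d - 1 - j))⁻¹ * ((E (x d))⁻¹)⁻¹ := by
        rw [inv_inv]
      rw [h6, conj_zpow, _root_.inv_zpow]
    rw [h5, inv_inv]

end Run7.h568.DG
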