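import Pool.Agent.Run7.h568.DG.Iface

/-!
# Strands: holonomy of a strand, of its successor and of its reverse
-/

set_option autoImplicit false

open Real Matrix

noncomputable section

namespace Run7.h568.DG

namespace Str

lemma stepT (s : ℝ) : step true s = W * E s := by
  apply Subtype.ext
  ext i j
  fin_cases i <;> fin_cases j <;>
    simp [step, U, Del, W, E, Matrix.mul_apply, Fin.sum_univ_two]

lemma stepF (s : ℝ) : step false s = W * W * E s := by
  apply Subtype.ext
  ext i j
  fin_cases i <;> fin_cases j <;>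
    simp [step, U, Del, W, E, Matrix.mul_apply, Fin.sum_univ_two]

lemma EE (s : ℝ) : E s * E s = -1 := by
  have h : exp (s / 2) * exp (-s / 2) = 1 := by
    rw [← exp_add]
    simp [neg_div]
  apply Subtype.ext
  ext i j
  fin_cases i <;> fin_cases j <;>
    simp [E, Matrix.mul_apply, Fin.sum_univ_two, h, mul_comm]

lemma WWW : W * W * W = -1 := by
  apply Subtype.ext
  ext i j
  fin_cases i <;> fin_cases j <;>
    simp [W, Matrix.mul_apply, Fin.sum_univ_two]

lemma key (b : Bool) (s r : ℝ) : step b s * E s * step (!b) r = E r := by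
  cases b
  · rw [Bool.not_false, stepF, stepT]
    calc W * W * E s * E s * (W * E r) = W * W * (E s * E s) * W * E r := by
          simp only [mul_assoc]
      _ = E r := by
          rw [EE, mul_neg, mul_one, neg_mul, WWW, neg_neg, one_mul]
  · rw [Bool.not_true, stepF, stepT]
    calc W * E s * E s * (W * W * E r) = W * (E s * E s) * W * W * E r := by
          simp only [mul_assoc]
      _ = E r := by
          rw [EE, mul_neg, mul_one, neg_mul, neg_mul, WWW, neg_neg, one_mul]

variable {D : Type} [Fintype D] [DecidableEq D] (T : Tri D)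

/-- the reverse strand -/
def rev (c : D → ℕ) (v : D × ℕ) : D × ℕ := (T.io v.1, T.num c v.1 - 1 - v.2)

/-- the step of a strand -/
def st (c : D → ℕ) (x : D → ℝ) (v : D × ℕ) : SL :=
  step (Tri.sbit c v) (x (T.turn (Tri.sbit c v) v.1))

/-- the holonomy of a strand -/
def hn (c : D → ℕ) (x : D → ℝ) (n : ℕ) (v : D × ℕ) : SL := T.hol x (T.itin c n v) v.1

lemma snext_fst (c : D → ℕ) (v : D × ℕ) :
    (T.snext c v).1 = T.io (T.turn (Tri.sbit c v) v.1) := by
  by_cases h : v.2 < c v.1
  · have h' : ¬ c v.1 ≤ v.2 := by omega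
    simp [Tri.snext, Tri.sbit, Tri.turn, h, h']
  · have h' : c v.1 ≤ v.2 := by omega
    simp [Tri.snext, Tri.sbit, Tri.turn, h, h']

lemma hn_succ (c : D → ℕ) (x : D → ℝ) (n : ℕ) (v : D × ℕ) :
    hn T c x (n + 1) v = st T c x v * hn T c x n (T.snext c v) := by
  unfold hn st
  rw [Tri.itin, Tri.hol, snext_fst]
  rfl

lemma hn_succ' (c : D → ℕ) (x : D → ℝ) (n : ℕ) : ∀ v : D × ℕ,
    hn T c x (n + 1) v = hn T c x n v * st T c x ((T.snext c)^[n] v) := by
  induction n with
  | zero =>
    intro v
    rw [hn_succ]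
    simp [hn, Tri.itin, Tri.hol]
  | succ n ih =>
    intro v
    rw [hn_succ, ih, hn_succ T c x n v, mul_assoc, Function.iterate_succ_apply]

lemma valid (c : D → ℕ) (hc : T.Match c) (v : D × ℕ) (hv : v.2 < T.num c v.1) :
    (T.snext c v).2 < T.num c (T.snext c v).1 := by
  obtain ⟨d, i⟩ := v
  by_cases h : i < c d
  · simp only [Tri.snext, h, if_true]
    rw [hc, Tri.num, T.sg3]
    omega
  · simp only [Tri.snext, h, if_false]
    rw [hc, Tri.num]
    simp only [Tri.num] at hv
    omega

lemma rev_snext (c : D → ℕ) (hc : T.Match c) (v : D × ℕ) (hv : v.2 < T.num c v.1) :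
    T.snext c (rev T c (T.snext c v)) = rev T c v ∧
    (rev T c (T.snext c v)).1 = T.turn (Tri.sbit c v) v.1 ∧
    Tri.sbit c (rev T c (T.snext c v)) = !(Tri.sbit c v) ∧
    (c v.1 ≤ v.2 → rev T c (T.snext c v) = (T.sg v.1, T.num c v.1 - 1 - v.2)) := by
  obtain ⟨d, i⟩ := v
  simp only [Tri.num] at hv
  by_cases h : i < c d
  · have h' : ¬ c d ≤ i := by omega
    have e1 : T.snext c (d, i) = (T.io (T.sg (T.sg d)), i) := by simp [Tri.snext, h]
    have e2 : rev T c (T.snext c (d, i)) = (T.sg (T.sg d), c (T.sg (T.sg d)) + c d - 1 - i) := by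
      rw [e1, rev]
      simp only [T.io_io]
      rw [hc, Tri.num, T.sg3]
    have e3 : Tri.sbit c (d, i) = false := by simp [Tri.sbit, h']
    have e4 : Tri.sbit c (rev T c (T.snext c (d, i))) = true := by
      rw [e2]
      simp only [Tri.sbit, decide_eq_true_eq]
      omega
    refine ⟨?_, ?_, ?_, fun h6 => absurd h6 h'⟩
    · rw [e2]
      have h5 : ¬ (c (T.sg (T.sg d)) + c d - 1 - i < c (T.sg (T.sg d))) := by omega
      simp only [Tri.snext, h5, if_false, T.sg3, rev, Tri.num, Prod.mk.injEq, true_and]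
      omega
    · rw [e2, e3]
      rfl
    · rw [e4, e3]
      rfl
  · have h' : c d ≤ i := by omega
    have e1 : T.snext c (d, i) = (T.io (T.sg d), i - c d + c (T.sg (T.sg d))) := by
      simp [Tri.snext, h]
    have e2 : rev T c (T.snext c (d, i)) = (T.sg d, T.num c d - 1 - i) := by
      rw [e1, rev]
      simp only [T.io_io]
      rw [hc]
      simp only [Tri.num, Prod.mk.injEq, true_and]
      omega
    have e3 : Tri.sbit c (d, i) = true := by simp [Tri.sbit, h']
    have h5 : T.num c d - 1 - i < c (T.sg d) := by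
      simp only [Tri.num]
      omega
    have e4 : Tri.sbit c (rev T c (T.snext c (d, i))) = false := by
      rw [e2]
      simp only [Tri.sbit, decide_eq_false_iff_not]
      omega
    refine ⟨?_, ?_, ?_, fun _ => e2⟩
    · rw [e2]
      simp only [Tri.snext, h5, if_true, T.sg3, rev]
    · rw [e2, e3]
      rfl
    · rw [e4, e3]
      rfl

lemma turn_turn (b : Bool) (d : D) : T.turn (!b) (T.turn b d) = d := by
  cases b
  · simp [Tri.turn, T.sg3]
  · simp [Tri.turn, T.sg3]

lemma st_key (c : D → ℕ) (hc : T.Match c) (x : D → ℝ) (hx : ∀ d, x (T.io d) = x d) (v : D × ℕ)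
    (hv : v.2 < T.num c v.1) :
    st T c x v * E (x (T.snext c v).1) * st T c x (rev T c (T.snext c v)) = E (x v.1) := by
  obtain ⟨h1, h2, h3, h4⟩ := rev_snext T c hc v hv
  rw [snext_fst, hx]
  unfold st
  rw [h3, h2, turn_turn]
  exact key _ _ _

lemma valid_iter (c : D → ℕ) (hc : T.Match c) (n : ℕ) : ∀ v : D × ℕ, v.2 < T.num c v.1 →
    ((T.snext c)^[n] v).2 < T.num c ((T.snext c)^[n] v).1 := by
  induction n with
  | zero => exact fun v hv => hv
  | succ n ih =>
    intro v hv
    rw [Function.iterate_succ_apply]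
    exact ih _ (valid T c hc v hv)

lemma tele (c : D → ℕ) (hc : T.Match c) (x : D → ℝ) (hx : ∀ d, x (T.io d) = x d) (v : D × ℕ)
    (hv : v.2 < T.num c v.1) (n : ℕ) :
    hn T c x n v * E (x ((T.snext c)^[n] v).1) * hn T c x n (rev T c ((T.snext c)^[n] v)) =
      E (x v.1) := by
  induction n with
  | zero => simp [hn, Tri.itin, Tri.hol]
  | succ n ih =>
    set u := (T.snext c)^[n] v with hu
    have e1 : (T.snext c)^[n + 1] v = T.snext c u := Function.iterate_succ_apply' _ _ _
    have hval : u.2 < T.num c u.1 := valid_iter T c hc n v hv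
    rw [e1, hn_succ', ← hu, hn_succ T c x n (rev T c (T.snext c u)),
      (rev_snext T c hc u hval).1]
    have e2 := st_key T c hc x hx u hval
    calc hn T c x n v * st T c x u * E (x (T.snext c u).1) *
          (st T c x (rev T c (T.snext c u)) * hn T c x n (rev T c u)) =
        hn T c x n v * (st T c x u * E (x (T.snext c u).1) * st T c x (rev T c (T.snext c u))) *
          hn T c x n (rev T c u) := by simp only [mul_assoc]
      _ = E (x v.1) := by rw [e2, ih]

end Str

open Str

theorem str : S_str := by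
  intro D _ _ T t x hx d i hi
  have comm : ∀ v : D × ℕ, v.2 < T.num t.c v.1 →
      t.str x v * st T t.c x v = st T t.c x v * t.str x (T.snext t.c v) := by
    intro v hv
    have h1 := hn_succ T t.c x t.P v
    have h2 := hn_succ' T t.c x t.P v
    have hper : (T.snext t.c)^[t.P] v = v := t.per v.1 v.2 hv
    rw [hper] at h2
    exact h2.symm.trans h1
  have revs : ∀ v : D × ℕ, v.2 < T.num t.c v.1 →
      t.str x (rev T t.c v) = (E (x v.1))⁻¹ * (t.str x v)⁻¹ * E (x v.1) := by
    intro v hv
    have h1 := tele T t.c t.hc x hx v hv t.P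
    have hper : (T.snext t.c)^[t.P] v = v := t.per v.1 v.2 hv
    rw [hper] at h1
    have h2 : t.str x v * E (x v.1) * t.str x (rev T t.c v) = E (x v.1) := h1
    calc t.str x (rev T t.c v) = (E (x v.1))⁻¹ * (t.str x v)⁻¹ *
          (t.str x v * E (x v.1) * t.str x (rev T t.c v)) := by group
      _ = _ := by rw [h2]
  refine ⟨valid T t.c t.hc (d, i) hi, comm (d, i) hi, revs (d, i) hi, fun hci => ?_⟩
  have hval := valid T t.c t.hc (d, i) hi
  have hrev := (rev_snext T t.c t.hc (d, i) hi).2.2.2 hci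
  have e1 := revs (T.snext t.c (d, i)) hval
  have e2 := comm (d, i) hi
  have hs : Tri.sbit t.c (d, i) = true := by simp [Tri.sbit, hci]
  have e3 : st T t.c x (d, i) = W * E (x (T.sg d)) := by
    unfold st
    rw [hs, stepT]
    rfl
  have e4 : x (T.snext t.c (d, i)).1 = x (T.sg d) := by
    rw [snext_fst, hx, hs]
    rfl
  rw [hrev, e4] at e1
  rw [e3] at e2
  simp only at e1
  constructor
  · have e5 : t.str x (T.snext t.c (d, i)) =
        E (x (T.sg d)) * (t.str x (T.sg d, T.num t.c d - 1 - i))⁻¹ * (E (x (T.sg d)))⁻¹ := by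
      rw [e1]
      group
    have e6 : t.str x (d, i) = W * E (x (T.sg d)) * t.str x (T.snext t.c (d, i)) *
        (W * E (x (T.sg d)))⁻¹ := by
      rw [← e2]
      group
    rw [e6, e5]
    have e7 := EE (x (T.sg d))
    have e8 : (E (x (T.sg d)))⁻¹ * (E (x (T.sg d)))⁻¹ = -1 := by
      rw [← _root_.mul_inv_rev, e7]
      exact inv_eq_of_mul_eq_one_left (by simp)
    calc W * E (x (T.sg d)) *
          (E (x (T.sg d)) * (t.str x (T.sg d, T.num t.c d - 1 - i))⁻¹ * (E (x (T.sg d)))⁻¹) *
          (W * E (x (T.sg d)))⁻¹ =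
        W * (E (x (T.sg d)) * E (x (T.sg d))) * (t.str x (T.sg d, T.num t.c d - 1 - i))⁻¹ *
          ((E (x (T.sg d)))⁻¹ * (E (x (T.sg d)))⁻¹) * W⁻¹ := by
          rw [_root_.mul_inv_rev]
          simp only [mul_assoc]
      _ = _ := by
          rw [e7, e8]
          simp only [mul_neg, neg_mul, mul_one, neg_neg]
  · have e5 := t.m_next d i hi
    have e6 := t.m_rev (T.snext t.c (d, i)).1 (T.snext t.c (d, i)).2 hval
    have e7 : rev T t.c (T.snext t.c (d, i)) = (T.io (T.snext t.c (d, i)).1,
      T.num t.c (T.snext t.c (d, i)).1 - 1 - (T.snext t.c (d, i)).2) := rfl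
    rw [← e7, hrev] at e6
    exact (e6.trans e5).symm

end Run7.h568.DG
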