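import Pool.Agent.Run7.h109.Alg

set_option autoImplicit false
set_option linter.unusedSectionVars false

open LaurentPolynomial

noncomputable section

namespace Run7.h109

/-! ### Abstract Čech dimensions -/

section cech

variable {k : Type} [Field k]
variable {MU MV MW E E' : Type} [AddCommGroup MU] [Module k MU] [AddCommGroup MV] [Module k MV]
  [AddCommGroup MW] [Module k MW] [AddCommGroup E] [Module k E] [AddCommGroup E'] [Module k E']

theorem cech_dim (a : MU →ₗ[k] MW) (b : MV →ₗ[k] MW) (tU : MU →ₗ[k] E) (tV : MV →ₗ[k] E)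
    (tW : MW →ₗ[k] E) (ha : ∀ s, tW (a s) = tU s) (hb : ∀ s, tW (b s) = tV s)
    (p : E →ₗ[k] E')
    (QU : Submodule k MU) (QV : Submodule k MV) (QW : Submodule k MW)
    (hQU : ∀ s ∈ QU, p (tU s) = 0) (hQV : ∀ s, s ∈ QV ↔ p (tV s) = 0)
    (hQW : ∀ s, s ∈ QW ↔ p (tW s) = 0)
    (hf1 : Module.Finite k (↥(LinearMap.ker (p.comp tU)) ⧸
      QU.comap (LinearMap.ker (p.comp tU)).subtype))
    (hf2 : Module.Finite k ↥((LinearMap.range tU).map p ⊓ (LinearMap.range tV).map p)) :
    Module.finrank k (↥(QW.comap (a.comp (LinearMap.fst k MU MV) - b.comp (LinearMap.snd k MU MV))) ⧸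
      (QU.prod QV).comap (QW.comap (a.comp (LinearMap.fst k MU MV) -
        b.comp (LinearMap.snd k MU MV))).subtype) =
    Module.finrank k (↥(LinearMap.ker (p.comp tU)) ⧸
      QU.comap (LinearMap.ker (p.comp tU)).subtype) +
    Module.finrank k ↥((LinearMap.range tU).map p ⊓ (LinearMap.range tV).map p) := by
  set δ := a.comp (LinearMap.fst k MU MV) - b.comp (LinearMap.snd k MU MV) with hδ
  set Z := QW.comap δ with hZ
  set D := (QU.prod QV).comap Z.subtype with hD
  have hδ' : ∀ z : MU × MV, tW (δ z) = tU z.1 - tV z.2 := by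
    intro z
    rw [hδ]
    simp [ha, hb]
  have hZ' : ∀ z : MU × MV, z ∈ Z ↔ p (tU z.1) = p (tV z.2) := by
    intro z
    rw [hZ, Submodule.mem_comap, hQW, hδ', map_sub, sub_eq_zero]
  -- the map to the target
  let ψ : ↥Z →ₗ[k] E' := (p.comp tU).comp ((LinearMap.fst k MU MV).comp Z.subtype)
  have hψ : D ≤ LinearMap.ker ψ := by
    intro z hz
    exact hQU _ hz.1
  let ψ' : (↥Z ⧸ D) →ₗ[k] E' := D.liftQ ψ hψ
  have hr : LinearMap.range ψ' = (LinearMap.range tU).map p ⊓ (LinearMap.range tV).map p := by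
    rw [Submodule.range_liftQ]
    apply le_antisymm
    · rintro _ ⟨z, rfl⟩
      refine ⟨⟨_, ⟨z.1.1, rfl⟩, rfl⟩, ⟨_, ⟨z.1.2, rfl⟩, ?_⟩⟩
      exact ((hZ' z.1).1 z.2).symm
    · rintro _ ⟨⟨_, ⟨s, rfl⟩, hs⟩, ⟨_, ⟨t, rfl⟩, ht⟩⟩
      refine ⟨⟨(s, t), (hZ' _).2 (hs.trans ht.symm)⟩, hs⟩
  -- the kernel
  let χ : ↥(LinearMap.ker (p.comp tU)) →ₗ[k] (↥Z ⧸ D) :=
    D.mkQ.comp (LinearMap.codRestrict Z ((LinearMap.inl k MU MV).comp
      (LinearMap.ker (p.comp tU)).subtype) (by
        intro s
        rw [hZ']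
        change p (tU s.1) = p (tV 0)
        rw [map_zero, map_zero]
        exact s.2))
  have hχk : LinearMap.ker χ = QU.comap (LinearMap.ker (p.comp tU)).subtype := by
    ext s
    rw [LinearMap.mem_ker, LinearMap.comp_apply, Submodule.mkQ_apply,
      Submodule.Quotient.mk_eq_zero]
    change (s.1 ∈ QU ∧ (0 : MV) ∈ QV) ↔ s.1 ∈ QU
    exact and_iff_left (zero_mem _)
  have hχr : LinearMap.range χ = LinearMap.ker ψ' := by
    apply le_antisymm
    · rintro _ ⟨s, rfl⟩
      exact s.2
    · intro z hz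
      obtain ⟨z, rfl⟩ := D.mkQ_surjective z
      have hz1 : p (tU z.1.1) = 0 := hz
      refine ⟨⟨z.1.1, hz1⟩, ?_⟩
      rw [LinearMap.comp_apply, Submodule.mkQ_apply, Submodule.mkQ_apply, Submodule.Quotient.eq]
      refine ⟨?_, ?_⟩
      · change z.1.1 - z.1.1 ∈ QU
        rw [sub_self]; exact zero_mem _
      · change 0 - z.1.2 ∈ QV
        rw [zero_sub, neg_mem_iff, hQV, ← (hZ' z.1).1 z.2]
        exact hz1
  have e1 : (↥(LinearMap.ker (p.comp tU)) ⧸
      QU.comap (LinearMap.ker (p.comp tU)).subtype) ≃ₗ[k] ↥(LinearMap.ker ψ') := by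
    rw [← hχk, ← hχr]
    exact χ.quotKerEquivRange
  have hfk : Module.Finite k ↥(LinearMap.ker ψ') := Module.Finite.equiv e1
  have hfr : Module.Finite k ↥(LinearMap.range ψ') := by rw [hr]; exact hf2
  have e2 := LinearMap.rank_range_add_rank_ker ψ'
  rw [← Module.finrank_eq_rank k ↥(LinearMap.range ψ'),
    ← Module.finrank_eq_rank k ↥(LinearMap.ker ψ')] at e2
  have e3 : Module.finrank k (↥Z ⧸ D) = Module.finrank k ↥(LinearMap.range ψ') +
      Module.finrank k ↥(LinearMap.ker ψ') := by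
    rw [Module.finrank, ← e2, ← Nat.cast_add, Cardinal.toNat_natCast]
  rw [e3, hr, ← e1.finrank_eq, add_comm]

theorem cech_dim' (a : MU →ₗ[k] MW) (b : MV →ₗ[k] MW) (tU : MU →ₗ[k] E) (tV : MV →ₗ[k] E)
    (tW : MW →ₗ[k] E) (ha : ∀ s, tW (a s) = tU s) (hb : ∀ s, tW (b s) = tV s)
    (hW' : Function.Surjective tW)
    (p : E →ₗ[k] E') (hp : Function.Surjective p)
    (QW : Submodule k MW) (hQW : ∀ s, s ∈ QW ↔ p (tW s) = 0) :
    Module.finrank k (MW ⧸ (QW ⊔ LinearMap.range (a.comp (LinearMap.fst k MU MV) -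
      b.comp (LinearMap.snd k MU MV)))) =
    Module.finrank k (E' ⧸ ((LinearMap.range tU).map p ⊔ (LinearMap.range tV).map p)) := by
  set δ := a.comp (LinearMap.fst k MU MV) - b.comp (LinearMap.snd k MU MV) with hδ
  have hδ' : ∀ z : MU × MV, tW (δ z) = tU z.1 - tV z.2 := by
    intro z
    rw [hδ]
    simp [ha, hb]
  set T := (LinearMap.range tU).map p ⊔ (LinearMap.range tV).map p with hT
  let f : MW →ₗ[k] (E' ⧸ T) := T.mkQ.comp (p.comp tW)
  have hf : Function.Surjective f := T.mkQ_surjective.comp (hp.comp hW')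
  have hk : LinearMap.ker f = QW ⊔ LinearMap.range δ := by
    apply le_antisymm
    · intro w hw
      have h1 : p (tW w) ∈ T := by
        rw [LinearMap.mem_ker, LinearMap.comp_apply, Submodule.mkQ_apply,
          Submodule.Quotient.mk_eq_zero] at hw
        exact hw
      obtain ⟨_, ⟨_, ⟨s, rfl⟩, rfl⟩, _, ⟨_, ⟨t, rfl⟩, rfl⟩, hst⟩ := Submodule.mem_sup.1 h1
      have h2 : w - δ (s, -t) ∈ QW := by
        rw [hQW, map_sub, hδ', map_sub]
        change p (tW w) - p (tU s - tV (-t)) = 0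
        rw [← hst, map_neg, sub_neg_eq_add, map_add, sub_self]
      have h3 : w = (w - δ (s, -t)) + δ (s, -t) := by abel
      rw [h3]
      exact Submodule.add_mem_sup h2 ⟨_, rfl⟩
    · rw [sup_le_iff]
      constructor
      · intro w hw
        rw [LinearMap.mem_ker, LinearMap.comp_apply, LinearMap.comp_apply, (hQW w).1 hw, map_zero]
      · rintro _ ⟨z, rfl⟩
        rw [LinearMap.mem_ker, LinearMap.comp_apply, LinearMap.comp_apply, hδ', Submodule.mkQ_apply,
          Submodule.Quotient.mk_eq_zero, map_sub]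
        exact sub_mem (Submodule.mem_sup_left ⟨_, ⟨z.1, rfl⟩, rfl⟩)
          (Submodule.mem_sup_right ⟨_, ⟨z.2, rfl⟩, rfl⟩)
  rw [← hk]
  exact (f.quotKerEquivOfSurjective hf).finrank_eq

end cech

/-! ### Dimensions for Laurent polynomials -/

variable (k : Type) [Field k]

/-- the coefficients in a finite set -/
def coe (S : Finset ℤ) : L k →ₗ[k] (S → k) where
  toFun p := fun e => p.coeff e
  map_add' p q := by
    ext e
    simp [AddMonoidAlgebra.coeff_add]
  map_smul' c p := by
    ext e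
    simp [AddMonoidAlgebra.coeff_smul]

variable {k} in
theorem coeff_C_T (a : k) (n e : ℤ) [Decidable (n = e)] :
    (C a * T n : L k).coeff e = if n = e then a else 0 := by
  rw [← single_eq_C_mul_T, AddMonoidAlgebra.coeff_single, Finsupp.single_apply]

theorem coe_surj' (S : Finset ℤ) (v : S → k) : ∃ p : L k, coe k S p = v ∧
    ∀ e, e ∉ S → p.coeff e = 0 := by
  classical
  refine ⟨∑ e : S, C (v e) * T (e : ℤ), ?_, ?_⟩
  · ext e
    change (∑ e : S, C (v e) * T (e : ℤ) : L k).coeff e = v e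
    rw [AddMonoidAlgebra.coeff_sum, Finsupp.finsetSum_apply, Finset.sum_eq_single e]
    · rw [coeff_C_T, if_pos rfl]
    · intro f _ hf
      rw [coeff_C_T, if_neg (Subtype.coe_ne_coe.2 hf)]
    · simp
  · intro e he
    rw [AddMonoidAlgebra.coeff_sum, Finsupp.finsetSum_apply]
    apply Finset.sum_eq_zero
    intro f _
    have : (f : ℤ) ≠ e := by rintro rfl; exact he f.2
    rw [coeff_C_T, if_neg this]

theorem finrank_lo_hi (p q : ℤ) : Module.finrank k ↥(lo k p ⊓ hi k q) = (q + 1 - p).toNat ∧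
    Module.Finite k ↥(lo k p ⊓ hi k q) := by
  let f : ↥(lo k p ⊓ hi k q) →ₗ[k] (Finset.Icc p q → k) := (coe k (Finset.Icc p q)).comp
    (lo k p ⊓ hi k q).subtype
  have hf : Function.Bijective f := by
    constructor
    · rw [← LinearMap.ker_eq_bot, LinearMap.ker_eq_bot']
      rintro ⟨g, hg⟩ h
      apply Subtype.ext
      ext e
      by_cases he : e ∈ Finset.Icc p q
      · exact congrFun h ⟨e, he⟩
      · rw [Finset.mem_Icc] at he
        by_cases h1 : e < p
        · exact hg.1 e h1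
        · exact hg.2 e (by omega)
    · intro v
      obtain ⟨g, hg, hg'⟩ := coe_surj' k (Finset.Icc p q) v
      refine ⟨⟨g, ⟨?_, ?_⟩⟩, hg⟩
      · intro e he
        exact hg' e (by rw [Finset.mem_Icc]; omega)
      · intro e he
        exact hg' e (by rw [Finset.mem_Icc]; omega)
  let e := LinearEquiv.ofBijective f hf
  refine ⟨?_, Module.Finite.equiv e.symm⟩
  rw [e.finrank_eq, Module.finrank_fintype_fun_eq_card, Fintype.card_coe, Int.card_Icc]

theorem finrank_quot_lo_hi (p q : ℤ) :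
    Module.finrank k (L k ⧸ (lo k p ⊔ hi k q)) = (p - q - 1).toNat ∧
    Module.Finite k (L k ⧸ (lo k p ⊔ hi k q)) := by
  let f := coe k (Finset.Ioo q p)
  have hf : Function.Surjective f := fun v => by
    obtain ⟨g, hg, -⟩ := coe_surj' k (Finset.Ioo q p) v
    exact ⟨g, hg⟩
  have hk : LinearMap.ker f = lo k p ⊔ hi k q := by
    apply le_antisymm
    · intro g hg
      have hg' : ∀ e, q < e → e < p → g.coeff e = 0 := by
        intro e h1 h2
        exact congrFun hg ⟨e, Finset.mem_Ioo.2 ⟨h1, h2⟩⟩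
      classical
      let g1 : L k := .ofCoeff (g.coeff.filter (fun e => p ≤ e))
      let g2 : L k := .ofCoeff (g.coeff.filter (fun e => ¬ p ≤ e))
      have h0 : g = g1 + g2 := by
        ext e
        change g.coeff e = (g.coeff.filter (fun e => p ≤ e)) e +
          (g.coeff.filter (fun e => ¬ p ≤ e)) e
        rw [Finsupp.filter_apply, Finsupp.filter_apply]
        by_cases h : p ≤ e <;> simp [h]
      rw [h0]
      apply Submodule.add_mem_sup
      · intro e he
        change (g.coeff.filter (fun e => p ≤ e)) e = 0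
        rw [Finsupp.filter_apply, if_neg (by omega)]
      · intro e he
        change (g.coeff.filter (fun e => ¬ p ≤ e)) e = 0
        rw [Finsupp.filter_apply]
        by_cases h : p ≤ e
        · rw [if_neg (not_not.2 h)]
        · rw [if_pos h]
          exact hg' e he (by omega)
    · rw [sup_le_iff]
      constructor
      · intro g hg
        ext ⟨e, he⟩
        rw [Finset.mem_Ioo] at he
        exact hg e (by omega)
      · intro g hg
        ext ⟨e, he⟩
        rw [Finset.mem_Ioo] at he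
        exact hg e (by omega)
  rw [← hk, (f.quotKerEquivOfSurjective hf).finrank_eq, Module.finrank_fintype_fun_eq_card,
    Fintype.card_coe, Int.card_Ioo]
  exact ⟨rfl, Module.Finite.equiv (f.quotKerEquivOfSurjective hf).symm⟩

/-! ### Products -/

variable {k}

/-- a product of subspaces -/
abbrev pr {m : ℕ} (S : Fin m → Submodule k (L k)) : Submodule k (Fin m → L k) :=
  Submodule.pi Set.univ S

theorem finrank_pr {m : ℕ} (S : Fin m → Submodule k (L k)) (hS : ∀ i, Module.Finite k (S i)) :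
    Module.finrank k ↥(pr S) = ∑ i, Module.finrank k (S i) ∧ Module.Finite k ↥(pr S) := by
  let e : ↥(pr S) ≃ₗ[k] (∀ i, S i) :=
    { toFun := fun g i => ⟨g.1 i, g.2 i trivial⟩
      map_add' := fun _ _ => rfl
      map_smul' := fun _ _ => rfl
      invFun := fun g => ⟨fun i => g i, fun i _ => (g i).2⟩
      left_inv := fun _ => rfl
      right_inv := fun _ => rfl }
  refine ⟨?_, Module.Finite.equiv e.symm⟩
  rw [e.finrank_eq, Module.finrank_pi_fintype]

theorem finrank_pr_inf {m : ℕ} (P Q : Fin m → ℤ) :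
    Module.finrank k ↥(pr (fun i => lo k (P i)) ⊓ pr (fun i => hi k (Q i))) =
      ∑ i, (Q i + 1 - P i).toNat ∧
    Module.Finite k ↥(pr (fun i => lo k (P i)) ⊓ pr (fun i => hi k (Q i))) := by
  have h : pr (fun i => lo k (P i)) ⊓ pr (fun i => hi k (Q i)) =
      pr (fun i => lo k (P i) ⊓ hi k (Q i)) := by
    ext g
    simp only [Submodule.mem_inf, Submodule.mem_pi, Set.mem_univ, true_implies]
    exact forall_and.symm
  rw [h]
  obtain ⟨h1, h2⟩ := finrank_pr (fun i => lo k (P i) ⊓ hi k (Q i))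
    (fun i => (finrank_lo_hi k (P i) (Q i)).2)
  refine ⟨?_, h2⟩
  rw [h1]
  exact Finset.sum_congr rfl fun i _ => (finrank_lo_hi k (P i) (Q i)).1

theorem finrank_pr_sup {m : ℕ} (P Q : Fin m → ℤ) :
    Module.finrank k ((Fin m → L k) ⧸ (pr (fun i => lo k (P i)) ⊔ pr (fun i => hi k (Q i)))) =
      ∑ i, (P i - Q i - 1).toNat := by
  classical
  have h : pr (fun i => lo k (P i)) ⊔ pr (fun i => hi k (Q i)) =
      pr (fun i => lo k (P i) ⊔ hi k (Q i)) := by
    apply le_antisymm
    · rw [sup_le_iff]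
      exact ⟨fun g hg i hi => Submodule.mem_sup_left (hg i hi),
        fun g hg i hi => Submodule.mem_sup_right (hg i hi)⟩
    · intro g hg
      have h1 : ∀ i, ∃ a b : L k, a ∈ lo k (P i) ∧ b ∈ hi k (Q i) ∧ a + b = g i := by
        intro i
        obtain ⟨a, ha, b, hb, hab⟩ := Submodule.mem_sup.1 (hg i trivial)
        exact ⟨a, b, ha, hb, hab⟩
      choose a b ha hb hab using h1
      refine Submodule.mem_sup.2 ⟨a, fun i _ => ha i, b, fun i _ => hb i, ?_⟩
      ext1 i
      exact hab i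
  rw [h]
  have e := Submodule.quotientPi (fun i => lo k (P i) ⊔ hi k (Q i))
  have := fun i => (finrank_quot_lo_hi k (P i) (Q i)).2
  have e2 := e.finrank_eq
  rw [Module.finrank_pi_fintype] at e2
  refine e2.trans (Finset.sum_congr rfl fun i _ => (finrank_quot_lo_hi k (P i) (Q i)).1)

end Run7.h109
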