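import Pool.Agent.Run7.h109.Rk

set_option autoImplicit false
set_option linter.unusedSectionVars false

open AlgebraicGeometry CategoryTheory TopologicalSpace Opposite

noncomputable section

namespace Run7.h109

/-- the global sections of a quasi-coherent sheaf on an affine scheme determine the maps -/
theorem exists_hom_of_sections {R : CommRingCat.{0}} (M N : (Spec R).Modules)
    (hM : M.IsQuasicoherent)
    (f : moduleSpecΓFunctor.obj M ⟶ moduleSpecΓFunctor.obj N) :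
    ∃ ψ : M ⟶ N, moduleSpecΓFunctor.map ψ = f := by
  have hi : IsIso ((tilde.adjunction (R := R)).counit.app M) :=
    inferInstanceAs (IsIso M.fromTildeΓ)
  let adj := tilde.adjunction (R := R)
  refine ⟨inv (adj.counit.app M) ≫ (adj.homEquiv _ _).symm f, ?_⟩
  have h1 : adj.unit.app (moduleSpecΓFunctor.obj M) ≫ moduleSpecΓFunctor.map (adj.counit.app M) =
    𝟙 _ := adj.right_triangle_components M
  have h2 : moduleSpecΓFunctor.map (inv (adj.counit.app M)) =
      adj.unit.app (moduleSpecΓFunctor.obj M) := by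
    rw [Functor.map_inv]
    rw [IsIso.inv_eq_of_inv_hom_id]
    exact h1
  rw [Functor.map_comp, h2]
  have h3 := (adj.homEquiv _ _).apply_symm_apply f
  rw [adj.homEquiv_unit] at h3
  exact h3

theorem exists_hom_of_fun {R : CommRingCat.{0}} (M N : (Spec R).Modules)
    (hM : M.IsQuasicoherent) (f : Γ(M, ⊤) →+ Γ(N, ⊤))
    (hf : ∀ (r : Γ(Spec R, ⊤)) (s : Γ(M, ⊤)), f (r • s) = r • f s) :
    ∃ ψ : M ⟶ N, ∀ s : Γ(M, ⊤), (ψ.app ⊤).hom s = f s := by
  let g : moduleSpecΓFunctor.obj M ⟶ moduleSpecΓFunctor.obj N :=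
    ModuleCat.ofHom (X := Γ(M, ⊤)) (Y := Γ(N, ⊤))
      { toFun := f
        map_add' := f.map_add
        map_smul' := fun r s =>
          hf (((Spec R).presheaf.map (⊤ : (Spec R).Opens).leTop.op)
            ((Scheme.ΓSpecIso R).inv r)) s }
  obtain ⟨ψ, hψ⟩ := exists_hom_of_sections M N hM g
  refine ⟨ψ, fun s => ?_⟩
  have h1 := congrArg (fun h => h.hom s) hψ
  exact h1

theorem hom_rt {X : Scheme.{0}} {M N : X.Modules} (ψ : M ⟶ N) {W W' : X.Opens} (h : W' ≤ W)
    (s : Γ(M, W)) : (ψ.app W').hom (rt M h s) = rt N h ((ψ.app W).hom s) := by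
  have := ψ.mapPresheaf.naturality (homOfLE h).op
  exact congrArg (fun g => g.hom s) this

section

variable {X : Scheme.{0}} {K : Type} [CommRing K] (j : Spec (.of K) ⟶ X) [IsOpenImmersion j]

theorem image_top' : j ''ᵁ (⊤ : (Spec (.of K)).Opens) = j.opensRange :=
  Scheme.Hom.image_top_eq_opensRange j

theorem smul_restrict (F : X.Modules) (O : (Spec (.of K)).Opens) (r : Γ(Spec (.of K), O))
    (s : Γ(F.restrict j, O)) : (show Γ(F, j ''ᵁ O) from r • s) =
      (j.appIso O).inv.hom r • (show Γ(F, j ''ᵁ O) from s) := rfl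

/-- a map to the pushforward of the structure sheaf from a map of sections -/
theorem exists_hom_pR (F : X.Modules) (hF : F.IsQuasicoherent) {W : X.Opens}
    (hW : j.opensRange = W) (hW' : j ⁻¹ᵁ W = ⊤)
    (φ : Γ(F, W) →+ K) (hφ : ∀ (a : Γ(X, W)) (s : Γ(F, W)), φ (a • s) = al j hW' a * φ s) :
    ∃ Φ : F ⟶ pR j, ∀ s : Γ(F, W), toK j hW' ((Φ.app W).hom s) = φ s := by
  have e1 : W ≤ j ''ᵁ (⊤ : (Spec (.of K)).Opens) := by rw [image_top', hW]
  have e2 : j ''ᵁ (⊤ : (Spec (.of K)).Opens) ≤ W := by rw [image_top', hW]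
  have hF' : (F.restrict j).IsQuasicoherent := inferInstance
  -- the map of global sections
  let f : Γ(F.restrict j, ⊤) →+ Γ(Spec (.of K), ⊤) :=
    ((Scheme.ΓSpecIso (.of K)).inv.hom.toAddMonoidHom.comp φ).comp (rt F e1)
  have hf : ∀ (r : Γ(Spec (.of K), ⊤)) (s : Γ(F.restrict j, ⊤)), f (r • s) = r * f s := by
    intro r s
    have h1 : f (r • s) = (Scheme.ΓSpecIso (.of K)).inv.hom (φ (rt F e1
      ((j.appIso ⊤).inv.hom r • (show Γ(F, j ''ᵁ ⊤) from s)))) := rfl
    rw [h1, rt_smul, hφ, map_mul]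
    congr 1
    obtain ⟨g, rfl⟩ := (ConcreteCategory.bijective_of_isIso (Scheme.ΓSpecIso (.of K)).inv).2 r
    have h2 : al j hW' (rf e1 ((j.appIso ⊤).inv.hom ((Scheme.ΓSpecIso (.of K)).inv.hom g))) = g := by
      apply al_eq
      rw [app_rf j e1]
      have h3 : (j.app (j ''ᵁ ⊤)).hom ((j.appIso ⊤).inv.hom
          ((Scheme.ΓSpecIso (.of K)).inv.hom g)) =
          rf (le_top : j ⁻¹ᵁ j ''ᵁ ⊤ ≤ ⊤) ((Scheme.ΓSpecIso (.of K)).inv.hom g) := by
        have h4 := j.appIso_inv_app ⊤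
        exact congrArg (fun h => h.hom ((Scheme.ΓSpecIso (.of K)).inv.hom g)) h4
      rw [h3, rf_rf]
      rfl
    exact congrArg (Scheme.ΓSpecIso (.of K)).inv.hom h2
  obtain ⟨ψ, hψ⟩ := exists_hom_of_fun (F.restrict j)
    (SheafOfModules.unit (Spec (.of K)).ringCatSheaf) hF' f hf
  refine ⟨(Scheme.Modules.restrictAdjunction j).homEquiv _ _ ψ, fun s => ?_⟩
  apply toK_eq
  have h1 : (Scheme.Modules.restrictAdjunction j).homEquiv _ _ ψ =
      (Scheme.Modules.restrictAdjunction j).unit.app F ≫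
        (Scheme.Modules.pushforward j).map ψ :=
    (Scheme.Modules.restrictAdjunction j).homEquiv_unit _ _ _
  have h2 : ((((Scheme.Modules.restrictAdjunction j).homEquiv _ _ ψ).app W).hom s) =
      (ψ.app (j ⁻¹ᵁ W)).hom (rt (F.restrict j) (le_top : j ⁻¹ᵁ W ≤ ⊤)
        (show Γ(F.restrict j, ⊤) from rt F e2 s)) := by
    rw [h1]
    have h3 : rt F (j.image_mono (le_top : j ⁻¹ᵁ W ≤ ⊤)) (rt F e2 s) =
      rt F (j.image_preimage_le W) s := rt_rt F _ _ s
    have h4 : (((Scheme.Modules.restrictAdjunction j).unit.app F ≫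
        (Scheme.Modules.pushforward j).map ψ).app W).hom s =
        (ψ.app (j ⁻¹ᵁ W)).hom (show Γ(F.restrict j, j ⁻¹ᵁ W) from
          rt F (j.image_preimage_le W) s) := rfl
    rw [h4, ← h3]
    rfl
  have h5 := h2.trans (hom_rt ψ (le_top : j ⁻¹ᵁ W ≤ ⊤) _)
  have h6 : (ψ.app ⊤).hom (show Γ(F.restrict j, ⊤) from rt F e2 s) =
      (Scheme.ΓSpecIso (.of K)).inv.hom (φ s) := by
    rw [hψ]
    have h7 : rt F e1 (rt F e2 s) = s := by rw [rt_rt, rt_self]
    have h8 : f (rt F e2 s) = (Scheme.ΓSpecIso (.of K)).inv.hom (φ (rt F e1 (rt F e2 s))) := rfl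
    exact h8.trans (by rw [h7])
  refine Eq.trans ?_ h5.symm
  rw [h6]
  rfl

end

end Run7.h109
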