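import Pool.Agent.Run7.h109.Tr
import Pool.Agent.Run7.h109.Adm
import Pool.Agent.Run7.h109.Hm

set_option autoImplicit false
set_option linter.unusedSectionVars false

open AlgebraicGeometry CategoryTheory TopologicalSpace Opposite LaurentPolynomial

noncomputable section

namespace Run7.h109

variable {k : Type} [Field k] [CharZero k]

/-! ### Basic open subsets -/

theorem eU_app (a : A k) : ((iA k).app (U k)).hom (eU k a) = kap (iA k) (U k) a := by
  obtain ⟨e, h1, h2⟩ := al_chart' (iK k) (iA k) rfl rfl (pU k)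
  have h3 : eU k a = e a := by
    apply al_U_inj k
    exact (al_eU k a).trans (h1 a).symm
  rw [h3]
  exact h2 a

theorem eV_app (a : B k) : ((iB k).app (V k)).hom (eV k a) = kap (iB k) (V k) a := by
  obtain ⟨e, h1, h2⟩ := al_chart' (iK k) (iB k) (iK_eq k) rfl (pV k)
  have h3 : eV k a = e a := by
    apply al_V_inj k
    exact (al_eV k a).trans (h1 a).symm
  rw [h3]
  exact h2 a

theorem bo_xA : (X k).basicOpen (eU k (xA k)) = U k ⊓ V k := by
  have hp : (iA k) ⁻¹ᵁ (U k) = ⊤ := (iA k).preimage_opensRange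
  ext x
  constructor
  · intro hx
    have hxU : x ∈ U k := (X k).basicOpen_le _ hx
    obtain ⟨p, rfl⟩ := hxU
    have h1 := (chart_basicOpen (iA k) (eU k (xA k)) (xA k) (eU_app _) hp p).1 hx
    have h4 := PrimeSpectrum.localization_away_comap_range (K k) (xA k)
    have h5 : (p : PrimeSpectrum (A k)) ∈
        (PrimeSpectrum.basicOpen (xA k) : Set (PrimeSpectrum (A k))) := h1
    rw [← h4] at h5
    obtain ⟨w, hw⟩ := h5
    have h6 : rA k w = p := hw
    refine ⟨⟨p, rfl⟩, ⟨rB k w, ?_⟩⟩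
    rw [← h6]
    change (rB k ≫ iB k) w = (rA k ≫ iA k) w
    rw [← iK_eq]; rfl
  · intro hx
    have hx' : x ∈ U k ⊓ V k := hx
    rw [UV_inf] at hx'
    obtain ⟨w, rfl⟩ := hx'
    have h1 : xA k ∉ (rA k w).asIdeal := by
      intro h2
      have h3 : algebraMap (A k) (K k) (xA k) ∈ w.asIdeal := h2
      apply w.2.ne_top
      exact Ideal.eq_top_of_isUnit_mem _ h3 (IsLocalization.Away.algebraMap_isUnit (xA k))
    exact (chart_basicOpen (iA k) (eU k (xA k)) (xA k) (eU_app _) hp (rA k w)).2 h1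

theorem bo_zB : (X k).basicOpen (eV k (zB k)) = U k ⊓ V k := by
  have hp : (iB k) ⁻¹ᵁ (V k) = ⊤ := (iB k).preimage_opensRange
  ext x
  constructor
  · intro hx
    have hxU : x ∈ V k := (X k).basicOpen_le _ hx
    obtain ⟨p, rfl⟩ := hxU
    have h1 := (chart_basicOpen (iB k) (eV k (zB k)) (zB k) (eV_app _) hp p).1 hx
    have h4 := PrimeSpectrum.localization_away_comap_range (K k) (zB k)
    have h5 : (p : PrimeSpectrum (B k)) ∈
        (PrimeSpectrum.basicOpen (zB k) : Set (PrimeSpectrum (B k))) := h1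
    rw [← h4] at h5
    obtain ⟨w, hw⟩ := h5
    have h6 : rB k w = p := hw
    refine ⟨⟨rA k w, ?_⟩, ⟨p, rfl⟩⟩
    rw [← h6]
    change (rA k ≫ iA k) w = (rB k ≫ iB k) w
    rw [← iK_eq]; rfl
  · intro hx
    have hx' : x ∈ U k ⊓ V k := hx
    rw [UV_inf] at hx'
    obtain ⟨w, hw⟩ := hx'
    rw [iK_eq] at hw
    have hw' : iB k (rB k w) = x := hw
    rw [← hw']
    have h1 : zB k ∉ (rB k w).asIdeal := by
      intro h2
      have h3 : algebraMap (B k) (K k) (zB k) ∈ w.asIdeal := h2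
      apply w.2.ne_top
      exact Ideal.eq_top_of_isUnit_mem _ h3 (IsLocalization.Away.algebraMap_isUnit (zB k))
    exact (chart_basicOpen (iB k) (eV k (zB k)) (zB k) (eV_app _) hp (rB k w)).2 h1

/-! ### Scalars -/

theorem al_UV_inj : Function.Injective (al (iK k) (pUV k)) := by
  intro a b h
  obtain ⟨a, rfl⟩ := (eK k).surjective a
  obtain ⟨b, rfl⟩ := (eK k).surjective b
  rw [al_eK, al_eK] at h
  rw [h]

theorem rf_eU (a : A k) : rf (inf_le_left : U k ⊓ V k ≤ U k) (eU k a) = eK k a := by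
  apply al_UV_inj
  rw [al_rf (iK k) (pU k) (pUV k), al_eU, al_eK]

theorem rf_eV (b : B k) : rf (inf_le_right : U k ⊓ V k ≤ V k) (eV k b) = eK k b := by
  apply al_UV_inj
  rw [al_rf (iK k) (pV k) (pUV k), al_eV, al_eK]

theorem eK_scal (c : k) : eK k (algebraMap k (K k) c) = scal (crv k) (U k ⊓ V k) c := by
  apply al_UV_inj
  rw [al_eK]
  exact (al_scal k (pUV k) c).symm

/-! ### Poles -/

section poles

variable (F : (X k).Modules) (hF : F.IsQuasicoherent)

include hF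

theorem pole_U (s : Γ(F, U k ⊓ V k)) : ∃ N : ℕ, ∀ n ≥ N, ∃ t : Γ(F, U k),
    rt F (inf_le_left : U k ⊓ V k ≤ U k) t = eK k (((xA k : A k) : K k) ^ n) • s := by
  obtain ⟨N, t, ht⟩ := (locAt_of_qc F (affU k)).1 (eU k (xA k)) (rt F bo_xA.le s)
  refine ⟨N, fun n hn => ⟨eU k (xA k) ^ (n - N) • t, ?_⟩⟩
  have h1 := congrArg (rt F bo_xA.ge) ht
  rw [rt_rt, rt_smul, rt_rt, rt_self, rf_rf] at h1
  have h2 : rt F (inf_le_left : U k ⊓ V k ≤ U k) t =
      rf (inf_le_left : U k ⊓ V k ≤ U k) (eU k (xA k) ^ N) • s := h1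
  rw [rt_smul, h2, smul_smul, ← map_mul, ← pow_add, Nat.sub_add_cancel hn, map_pow, rf_eU,
    ← map_pow]

theorem pole_V (s : Γ(F, U k ⊓ V k)) : ∃ N : ℕ, ∀ n ≥ N, ∃ t : Γ(F, V k),
    rt F (inf_le_right : U k ⊓ V k ≤ V k) t = eK k (((zB k : B k) : K k) ^ n) • s := by
  obtain ⟨N, t, ht⟩ := (locAt_of_qc F (affV k)).1 (eV k (zB k)) (rt F bo_zB.le s)
  refine ⟨N, fun n hn => ⟨eV k (zB k) ^ (n - N) • t, ?_⟩⟩
  have h1 := congrArg (rt F bo_zB.ge) ht
  rw [rt_rt, rt_smul, rt_rt, rt_self, rf_rf] at h1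
  have h2 : rt F (inf_le_right : U k ⊓ V k ≤ V k) t =
      rf (inf_le_right : U k ⊓ V k ≤ V k) (eV k (zB k) ^ N) • s := h1
  rw [rt_smul, h2, smul_smul, ← map_mul, ← pow_add, Nat.sub_add_cancel hn, map_pow, rf_eV,
    ← map_pow]

end poles

end Run7.h109
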