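import Pool.Agent.Run7.h109.Dua

set_option autoImplicit false
set_option linter.unusedSectionVars false

open AlgebraicGeometry CategoryTheory TopologicalSpace Opposite LaurentPolynomial

noncomputable section

namespace Run7.h109

variable {k : Type} [Field k] [CharZero k]

theorem mono_neg (n : ℕ) (i : Fin 3) :
    (mono (-n) i : K k) = mono 0 i * ((zB k : B k) : K k) ^ n := by
  have h1 : ((zB k : B k) : K k) ^ n = fun _ => T (n * (-1)) := T_pow' (-1) n
  rw [h1]
  ext1 j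
  rw [Pi.mul_apply, mono, mono]
  by_cases h : j = i
  · subst h
    rw [Pi.single_eq_same, Pi.single_eq_same, ← T_add]
    congr 1
    ring
  · rw [Pi.single_eq_of_ne h, Pi.single_eq_of_ne h, zero_mul]

theorem mono_pos (n : ℕ) (i : Fin 3) :
    (mono (n + 6) i : K k) = mono 6 i * ((xA k : A k) : K k) ^ n := by
  have h1 : ((xA k : A k) : K k) ^ n = fun _ => T (n * 1) := T_pow' 1 n
  rw [h1]
  ext1 j
  rw [Pi.mul_apply, mono, mono]
  by_cases h : j = i
  · subst h
    rw [Pi.single_eq_same, Pi.single_eq_same, ← T_add]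
    congr 1
    ring
  · rw [Pi.single_eq_of_ne h, Pi.single_eq_of_ne h, zero_mul]

theorem mono_six_mem (i : Fin 3) : (mono 6 i : K k) ∈ A k := by
  have h6 : ∀ j, (mono 6 i : K k) j ∈ lo k 6 := by
    intro j
    rw [mono]
    by_cases h : j = i
    · subst h; rw [Pi.single_eq_same]; exact T_mem_lo le_rfl
    · rw [Pi.single_eq_of_ne h]; exact zero_mem _
  refine ⟨fun j => lo_mono (by norm_num) (h6 j), ?_, ?_⟩
  · exact sub_mem (lo_mono (by norm_num) (h6 1)) (lo_mono (by norm_num) (h6 2))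
  · refine sub_mem (add_mem (h6 1) (h6 2)) ?_
    rw [two_mul]
    exact add_mem (h6 0) (h6 0)

section form

variable (F : (X k).Modules) (hF : F.IsQuasicoherent) (l : Γ(F, U k ⊓ V k) →+ k)
  (hs : ∀ (c : k) (s : Γ(F, U k ⊓ V k)), l (eK k (algebraMap k (K k) c) • s) = c * l s)

/-- the values of the form on the multiples of a section -/
def evl (s : Γ(F, U k ⊓ V k)) : K k →ₗ[k] k where
  toFun g := l (eK k g • s)
  map_add' g h := by
    rw [map_add, add_smul, map_add]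
  map_smul' c g := by
    have h1 : eK k (c • g) = eK k (algebraMap k (K k) c) * eK k g := by
      rw [← map_mul, Algebra.smul_def]
    rw [h1, mul_smul, hs]
    rfl

variable (hU : ∀ t : Γ(F, U k), l (rt F inf_le_left t) = 0)
  (hV : ∀ t : Γ(F, V k), l (rt F inf_le_right t) = 0)

include hU in
theorem l_smul_U (a : A k) (t : Γ(F, U k)) : l (eK k a • rt F inf_le_left t) = 0 := by
  have h1 : eK k a • rt F (inf_le_left : U k ⊓ V k ≤ U k) t =
    rt F (inf_le_left : U k ⊓ V k ≤ U k) (eU k a • t) := by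
    rw [rt_smul, rf_eU]
  rw [h1]
  exact hU _

include hV in
theorem l_smul_V (a : B k) (t : Γ(F, V k)) : l (eK k a • rt F inf_le_right t) = 0 := by
  have h1 : eK k a • rt F (inf_le_right : U k ⊓ V k ≤ V k) t =
    rt F (inf_le_right : U k ⊓ V k ≤ V k) (eV k a • t) := by
    rw [rt_smul, rf_eV]
  rw [h1]
  exact hV _

include hF hU in
theorem evl_pos (s : Γ(F, U k ⊓ V k)) : ∃ N : ℕ, ∀ n : ℕ, N ≤ n → ∀ i,
    evl F l hs s (mono (n + 6) i) = 0 := by
  obtain ⟨N, hN⟩ := pole_U F hF s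
  refine ⟨N, fun n hn i => ?_⟩
  obtain ⟨t, ht⟩ := hN n hn
  change l (eK k (mono (n + 6) i) • s) = 0
  rw [mono_pos, map_mul, mul_smul, ← ht]
  exact l_smul_U F l hU ⟨_, mono_six_mem i⟩ t

include hF hV in
theorem evl_neg (s : Γ(F, U k ⊓ V k)) : ∃ N : ℕ, ∀ n : ℕ, N ≤ n → ∀ i,
    evl F l hs s (mono (-n) i) = 0 := by
  obtain ⟨N, hN⟩ := pole_V F hF s
  refine ⟨N, fun n hn i => ?_⟩
  obtain ⟨t, ht⟩ := hN n hn
  change l (eK k (mono (-n) i) • s) = 0
  rw [mono_neg, map_mul, mul_smul, ← ht]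
  exact l_smul_V F l hV ⟨_, mono_mem_B le_rfl i⟩ t

include hF hU hV

theorem exists_rp (s : Γ(F, U k ⊓ V k)) : ∃ h : K k, ∀ g, tr k (g * h) = evl F l hs s g := by
  obtain ⟨N, hN⟩ := evl_pos F hF l hs hU s
  obtain ⟨M, hM⟩ := evl_neg F hF l hs hV s
  have h1 : ∀ i, ∃ p : L k, ∀ m, p.coeff m = (cc k i)⁻¹ * evl F l hs s (mono (5 - m) i) := by
    intro i
    apply exists_lau _ (-N - 1) (M + 5)
    intro m hm
    rcases hm with hm | hm
    · have h2 := hN (5 - m - 6).toNat (by omega) i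
      have h3 : ((5 - m - 6).toNat : ℤ) + 6 = 5 - m := by omega
      rw [h3] at h2
      rw [h2, mul_zero]
    · have h2 := hM (m - 5).toNat (by omega) i
      have h3 : -((m - 5).toNat : ℤ) = 5 - m := by omega
      rw [h3] at h2
      rw [h2, mul_zero]
  choose p hp using h1
  refine ⟨p, fun g => ?_⟩
  have h4 : (tr k) ∘ₗ (LinearMap.mulRight k p) = evl F l hs s := by
    apply lin_ext
    intro n i
    change tr k (mono n i * p) = _
    rw [tr_mono, hp, ← mul_assoc, mul_inv_cancel₀ (cc_ne i), one_mul, sub_sub_cancel]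
  have h5 := LinearMap.congr_fun h4 g
  exact h5

/-- the value of the map -/
def rp (s : Γ(F, U k ⊓ V k)) : K k := (exists_rp F hF l hs hU hV s).choose

theorem rp_spec (s : Γ(F, U k ⊓ V k)) (g : K k) :
    tr k (g * rp F hF l hs hU hV s) = l (eK k g • s) :=
  (exists_rp F hF l hs hU hV s).choose_spec g

theorem rp_unique (s : Γ(F, U k ⊓ V k)) (h : K k) (hh : ∀ g, tr k (g * h) = l (eK k g • s)) :
    h = rp F hF l hs hU hV s := by
  have h1 : h - rp F hF l hs hU hV s = 0 := by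
    apply K_perp
    intro a
    rw [mul_sub, map_sub, hh, rp_spec, sub_self]
  exact sub_eq_zero.1 h1

theorem rp_add (s t : Γ(F, U k ⊓ V k)) :
    rp F hF l hs hU hV (s + t) = rp F hF l hs hU hV s + rp F hF l hs hU hV t := by
  symm
  apply rp_unique
  intro g
  rw [mul_add, map_add, rp_spec, rp_spec, smul_add, map_add]

theorem rp_smul (a : Γ(X k, U k ⊓ V k)) (s : Γ(F, U k ⊓ V k)) :
    rp F hF l hs hU hV (a • s) = al (iK k) (pUV k) a * rp F hF l hs hU hV s := by
  symm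
  apply rp_unique
  intro g
  rw [← mul_assoc, rp_spec]
  have h1 : eK k (al (iK k) (pUV k) a) = a := by
    apply al_UV_inj
    rw [al_eK]
  rw [map_mul, h1, mul_smul]

theorem rp_U (t : Γ(F, U k)) : rp F hF l hs hU hV (rt F inf_le_left t) ∈ A k := by
  apply A_perp
  intro a ha
  rw [rp_spec]
  exact l_smul_U F l hU ⟨a, ha⟩ t

theorem rp_V (t : Γ(F, V k)) :
    rp F hF l hs hU hV (rt F inf_le_right t) ∈ NB (k := k) ![4, 4, 4] := by
  apply B_perp
  intro a ha
  rw [rp_spec]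
  exact l_smul_V F l hV ⟨a, ha⟩ t

theorem exists_Phi : ∃ Φ : F ⟶ R k, ∀ s : Γ(F, U k ⊓ V k),
    toK (iK k) (pUV k) ((Φ.app (U k ⊓ V k)).hom s) = rp F hF l hs hU hV s := by
  let φ : Γ(F, U k ⊓ V k) →+ K k :=
    { toFun := rp F hF l hs hU hV
      map_zero' := by
        have h := rp_add F hF l hs hU hV 0 0
        rw [add_zero] at h
        exact left_eq_add.1 h
      map_add' := rp_add F hF l hs hU hV }
  exact exists_hom_pR (iK k) F hF (UV_inf k).symm (pUV k) φ (rp_smul F hF l hs hU hV)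

end form

/-! ### Maps with values in a subsheaf -/

theorem near_of_hom {X : Scheme.{0}} {F R : X.Modules} (ψ : F ⟶ R) {U : X.Opens}
    (hU : IsAffineOpen U) (hF : LocAt F U) (𝒜 : Submodule Γ(X, U) Γ(R, U))
    (h : ∀ t : Γ(F, U), (ψ.app U).hom t ∈ 𝒜) (W : X.Opens) (s : Γ(F, W)) :
    Near R 𝒜 W ((ψ.app W).hom s) := by
  intro x hx hxU
  obtain ⟨g, hg, hxg⟩ := hU.exists_basicOpen_le (⟨x, hx⟩ : W) hxU
  refine ⟨X.basicOpen g, hg, X.basicOpen_le g, hxg, ?_⟩
  obtain ⟨n, t, ht⟩ := hF.1 g (rt F hg s)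
  have h2 : rt R (X.basicOpen_le g) ((ψ.app U).hom t) =
      rf (X.basicOpen_le g) (g ^ n) • rt R hg ((ψ.app W).hom s) := by
    rw [← hom_rt, ht]
    refine (ψ.app_smul _ _).trans ?_
    rw [← hom_rt]
  have h3 : rt R (X.basicOpen_le g) ((ψ.app U).hom t) ∈ spanOn R 𝒜 (X.basicOpen_le g) :=
    Submodule.subset_span ⟨_, h t, rfl⟩
  rw [h2] at h3
  have h4 : IsUnit (rf (X.basicOpen_le g) (g ^ n)) := by
    rw [map_pow]
    apply IsUnit.pow
    exact X.toRingedSpace.isUnit_res_basicOpen g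
  obtain ⟨w, hw⟩ := h4
  rw [← hw] at h3
  have h5 := (spanOn R 𝒜 (X.basicOpen_le g)).smul_mem ((w⁻¹ : _ˣ) : Γ(X, _)) h3
  rw [smul_smul, Units.inv_mul, one_smul] at h5
  exact h5

/-- Two maps which agree on an affine open subset agree on its open subsets. -/
theorem hom_eq_of_affine {X : Scheme.{0}} {F R : X.Modules} (ψ ψ' : F ⟶ R) {O : X.Opens}
    (hO : IsAffineOpen O) (hF : LocAt F O) (h : ∀ t : Γ(F, O), (ψ.app O).hom t = (ψ'.app O).hom t)
    (W : X.Opens) (hW : W ≤ O) (s : Γ(F, W)) : (ψ.app W).hom s = (ψ'.app W).hom s := by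
  refine TopCat.Presheaf.IsSheaf.section_ext (A := Ab) R.isSheaf (U := op W)
    (s := (ψ.app W).hom s) (t := (ψ'.app W).hom s) ?_
  intro x hx
  obtain ⟨g, hg, hxg⟩ := hO.exists_basicOpen_le (⟨x, hx⟩ : W) (hW hx)
  refine ⟨X.basicOpen g, hg, hxg, ?_⟩
  obtain ⟨n, t, ht⟩ := hF.1 g (rt F hg s)
  have h2 : rt R (X.basicOpen_le g) ((ψ.app O).hom t) =
      rf (X.basicOpen_le g) (g ^ n) • rt R hg ((ψ.app W).hom s) := by
    rw [← hom_rt, ht]
    refine (ψ.app_smul _ _).trans ?_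
    rw [← hom_rt]
  have h2' : rt R (X.basicOpen_le g) ((ψ'.app O).hom t) =
      rf (X.basicOpen_le g) (g ^ n) • rt R hg ((ψ'.app W).hom s) := by
    rw [← hom_rt, ht]
    refine (ψ'.app_smul _ _).trans ?_
    rw [← hom_rt]
  rw [h, h2'] at h2
  have h4 : IsUnit (rf (X.basicOpen_le g) (g ^ n)) := by
    rw [map_pow]
    apply IsUnit.pow
    exact X.toRingedSpace.isUnit_res_basicOpen g
  exact (h4.smul_left_cancel.1 h2).symm

end Run7.h109
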