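import Pool.Agent.Run7.h109.Mod

set_option autoImplicit false
set_option linter.unusedSectionVars false

open AlgebraicGeometry CategoryTheory TopologicalSpace Opposite LaurentPolynomial

noncomputable section

namespace Run7.h109

variable {k : Type} [Field k] [CharZero k]

theorem eta_mem_iff {W : (X k).Opens} (i : Fin 3) : eta k i ∈ W ↔ gK k i ∈ (iK k) ⁻¹ᵁ W := Iff.rfl

theorem eta_mem_of_pre {W : (X k).Opens} (hW : (iK k) ⁻¹ᵁ W = ⊤) (i : Fin 3) : eta k i ∈ W := by
  rw [eta_mem_iff, hW]; trivial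

theorem R_van_imp {W : (X k).Opens} (hW : (iK k) ⁻¹ᵁ W = ⊤) (s : Γ(R k, W)) (i : Fin 3)
    {W' : (X k).Opens} (h : W' ≤ W) (hi : eta k i ∈ W') (h0 : rt (R k) h s = 0) :
    toK (iK k) hW s i = 0 := by
  set g := toK (iK k) hW s with hg
  have h1 : kap (iK k) W' g = 0 := by
    have h2 : toF (iK k) W' (rt (R k) h s) = 0 := h0
    rw [toF_rt, ← kap_toK (iK k) hW, rf_kap (iK k) h] at h2
    exact h2
  obtain ⟨f, hf, hif⟩ := (isAffineOpen_top (Spec (.of (K k)))).exists_basicOpen_le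
    (⟨gK k i, hi⟩ : ((iK k) ⁻¹ᵁ W' : (Spec (.of (K k))).Opens)) trivial
  obtain ⟨r, rfl⟩ : ∃ r : K k, (Scheme.ΓSpecIso (.of (K k))).inv.hom r = f :=
    (ConcreteCategory.bijective_of_isIso (Scheme.ΓSpecIso (.of (K k))).inv).2 f
  have hr : r i ≠ 0 := by
    have h3 : gK k i ∈ (Spec (.of (K k))).basicOpen ((Scheme.ΓSpecIso (.of (K k))).inv r) := hif
    have h4 := basicOpen_eq_of_affine (R := .of (K k)) r
    exact (SetLike.ext_iff.1 h4 (gK k i)).1 h3
  have hl := (isAffineOpen_top (Spec (.of (K k)))).isLocalization_basicOpen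
    ((Scheme.ΓSpecIso (.of (K k))).inv.hom r)
  have h4 : algebraMap Γ(Spec (.of (K k)), ⊤) Γ(Spec (.of (K k)),
      (Spec (.of (K k))).basicOpen ((Scheme.ΓSpecIso (.of (K k))).inv.hom r))
      ((Scheme.ΓSpecIso (.of (K k))).inv.hom g) = algebraMap Γ(Spec (.of (K k)), ⊤)
      Γ(Spec (.of (K k)),
      (Spec (.of (K k))).basicOpen ((Scheme.ΓSpecIso (.of (K k))).inv.hom r)) 0 := by
    rw [map_zero]
    have h5 := congrArg (rf hf) h1
    rw [map_zero] at h5
    unfold kap at h5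
    rw [RingHom.comp_apply, rf_rf] at h5
    exact h5
  obtain ⟨⟨_, n, rfl⟩, hn⟩ := IsLocalization.exists_of_eq
      (M := Submonoid.powers ((Scheme.ΓSpecIso (.of (K k))).inv.hom r)) h4
  have h6 : (Scheme.ΓSpecIso (.of (K k))).inv.hom (r ^ n * g) = 0 := by
    rw [map_mul, map_pow]
    rw [mul_zero] at hn
    exact hn
  have h7 : r ^ n * g = 0 := by
    apply (ConcreteCategory.bijective_of_isIso (Scheme.ΓSpecIso (.of (K k))).inv).1
    exact h6.trans (map_zero (Scheme.ΓSpecIso (.of (K k))).inv.hom).symm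
  have h8 : r i ^ n * g i = 0 := congrFun h7 i
  exact (mul_eq_zero.1 h8).resolve_left (pow_ne_zero _ hr)

theorem R_van_of {W : (X k).Opens} (hW : (iK k) ⁻¹ᵁ W = ⊤) (s : Γ(R k, W)) (i : Fin 3)
    (h0 : toK (iK k) hW s i = 0) : ∃ (W' : (X k).Opens) (h : W' ≤ W), W' ≤ U k ⊓ V k ∧
      eta k i ∈ W' ∧ rt (R k) h s = 0 := by
  set g := toK (iK k) hW s with hg
  let ε : K k := Pi.single i 1
  let D : (Spec (.of (K k))).Opens :=
    (Spec (.of (K k))).basicOpen ((Scheme.ΓSpecIso (.of (K k))).inv ε)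
  have hD : gK k i ∈ D := by
    have h4 := basicOpen_eq_of_affine (R := .of (K k)) ε
    refine (SetLike.ext_iff.1 h4 (gK k i)).2 ?_
    intro h
    have h1 : ε i = 0 := h
    simp [ε] at h1
  refine ⟨(iK k) ''ᵁ D ⊓ W, inf_le_right, ?_, ⟨⟨gK k i, hD, rfl⟩, eta_mem_of_pre hW i⟩, ?_⟩
  · refine inf_le_left.trans ?_
    rw [UV_inf]
    rintro _ ⟨y, -, rfl⟩
    exact ⟨y, rfl⟩
  · have h1 : kap (iK k) ((iK k) ''ᵁ D ⊓ W) g = 0 := by
      have hle : (iK k) ⁻¹ᵁ ((iK k) ''ᵁ D ⊓ W) ≤ D := by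
        intro y hy
        obtain ⟨z, hz, hzy⟩ := hy.1
        have : z = y := (iK k).isOpenEmbedding.injective hzy
        rw [← this]; exact hz
      have h2 : IsUnit (kap (iK k) ((iK k) ''ᵁ D ⊓ W) ε) := by
        have h3 : IsUnit (rf ((Spec (.of (K k))).basicOpen_le
          ((Scheme.ΓSpecIso (.of (K k))).inv.hom ε)) ((Scheme.ΓSpecIso (.of (K k))).inv.hom ε)) :=
          (Spec (.of (K k))).toRingedSpace.isUnit_res_basicOpen _
        have h4 := h3.map (rf hle)
        rw [rf_rf] at h4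
        exact h4
      have h5 : kap (iK k) ((iK k) ''ᵁ D ⊓ W) ε * kap (iK k) ((iK k) ''ᵁ D ⊓ W) g = 0 := by
        rw [← map_mul]
        have h6 : ε * g = 0 := by
          ext1 l
          change (Pi.single i 1 : K k) l * g l = 0
          by_cases hl : l = i
          · subst hl; rw [h0, mul_zero]
          · rw [Pi.single_eq_of_ne hl, zero_mul]
        rw [h6, map_zero]
      exact (h2.mul_right_eq_zero).1 h5
    have h2 : toF (iK k) ((iK k) ''ᵁ D ⊓ W) (rt (R k) inf_le_right s) = 0 := by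
      rw [toF_rt, ← kap_toK (iK k) hW, rf_kap (iK k) inf_le_right]
      exact h1
    exact h2

/-- An embedding of a sheaf in the sheaf of functions on the intersection of the charts. -/
structure Emb (F : (X k).Modules) where
  /-- the maps -/
  Φ : ∀ W : (X k).Opens, Γ(F, W) →+ Γ(R k, W)
  smul : ∀ (W : (X k).Opens) (a : Γ(X k, W)) (s : Γ(F, W)), Φ W (a • s) = a • Φ W s
  nat : ∀ {W W' : (X k).Opens} (h : W' ≤ W) (s : Γ(F, W)), Φ W' (rt F h s) = rt (R k) h (Φ W s)
  inj : ∀ W : (X k).Opens, W ≤ U k ⊓ V k → Function.Injective (Φ W)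
  injU : Function.Injective (Φ (U k))
  injV : Function.Injective (Φ (V k))

namespace Emb

variable {F : (X k).Modules} (E : Emb F)

/-- the model of the sections -/
def t {W : (X k).Opens} (hW : (iK k) ⁻¹ᵁ W = ⊤) : Sec (C := crv k) F W →ₗ[k] K k where
  toFun s := toK (iK k) hW (E.Φ W s)
  map_add' s t := by
    have h := E.Φ W |>.map_add s t
    refine (congrArg _ h).trans ?_
    exact toK_add _ _ _ _
  map_smul' c s := by
    have h := E.smul W (scal (crv k) W c) s
    refine (congrArg (toK (iK k) hW) h).trans ?_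
    rw [toK_smul, al_scal]
    ext1 i
    change algebraMap k (L k) c * _ = c • _
    rw [Algebra.smul_def]

theorem t_smul {W : (X k).Opens} (hW : (iK k) ⁻¹ᵁ W = ⊤) (a : Fn (crv k) W)
    (s : Sec (C := crv k) F W) : E.t hW (a • s) = al (iK k) hW a * E.t hW s := by
  have h := E.smul W a s
  refine (congrArg (toK (iK k) hW) h).trans ?_
  rw [toK_smul]; rfl

theorem t_res {W W' : (X k).Opens} (hW : (iK k) ⁻¹ᵁ W = ⊤) (hW' : (iK k) ⁻¹ᵁ W' = ⊤)
    (h : W' ≤ W) (s : Sec (C := crv k) F W) : E.t hW' (res (C := crv k) F h s) = E.t hW s := by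
  have h1 := E.nat h s
  refine (congrArg (toK (iK k) hW') h1).trans ?_
  rw [toK_rt (iK k) hW hW' h]; rfl

theorem t_inj {W : (X k).Opens} (hW : (iK k) ⁻¹ᵁ W = ⊤) (hi : Function.Injective (E.Φ W)) :
    Function.Injective (E.t hW) := fun _ _ h => hi (toK_inj _ _ h)

theorem mem_van {W : (X k).Opens} (hW : (iK k) ⁻¹ᵁ W = ⊤) (S : Set (X k))
    (hS : S ⊆ Set.range (eta k)) (s : Sec (C := crv k) F W) :
    s ∈ van (C := crv k) F S W ↔ ∀ i, eta k i ∈ S → E.t hW s i = 0 := by
  constructor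
  · intro hs i hi
    obtain ⟨W', h, hiW, h0⟩ := hs (eta k i) hi (eta_mem_of_pre hW i)
    apply R_van_imp hW (E.Φ W s) i h hiW
    rw [← E.nat h]
    have h1 : rt F h s = 0 := h0
    rw [h1, map_zero]
  · intro hs x hx _
    obtain ⟨i, rfl⟩ := hS hx
    obtain ⟨W', h, hle, hiW, h0⟩ := R_van_of hW (E.Φ W s) i (hs i hx)
    refine ⟨W', h, hiW, ?_⟩
    apply E.inj W' hle
    exact (E.nat h s).trans (h0.trans (map_zero (E.Φ W')).symm)

end Emb

/-- the embedding of the sheaf of a pair -/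
def Pair.E (P : Pair k) : Emb P.F where
  Φ W :=
    { toFun := fun s => P.D.S.val s
      map_zero' := rfl
      map_add' := fun _ _ => rfl }
  smul _ _ _ := rfl
  nat _ _ := rfl
  inj _ _ _ _ h := P.D.S.val_inj h
  injU _ _ h := P.D.S.val_inj h
  injV _ _ h := P.D.S.val_inj h

/-- the embedding of the structure sheaf -/
def strE : Emb (strSheaf (crv k)) where
  Φ W :=
    { toFun := fun s => ofF (iK k) W (((iK k).app W).hom (show Γ(X k, W) from s))
      map_zero' := map_zero ((iK k).app W).hom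
      map_add' := fun s t => map_add ((iK k).app W).hom (show Γ(X k, W) from s) t }
  smul W a s := map_mul ((iK k).app W).hom a (show Γ(X k, W) from s)
  nat {W W'} h s := app_rf (iK k) h (show Γ(X k, W) from s)
  inj W hW := by
    have h1 : IsIso ((iK k).app W) := (iK k).isIso_app _ (by rwa [← UV_inf])
    exact (ConcreteCategory.bijective_of_isIso ((iK k).app W)).1
  injU := by
    intro s t h
    apply al_U_inj k
    apply (kap_bij (iK k) (pU k)).1
    rw [kap_al, kap_al]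
    exact h
  injV := by
    intro s t h
    apply al_V_inj k
    apply (kap_bij (iK k) (pV k)).1
    rw [kap_al, kap_al]
    exact h

theorem strE_t {W : (X k).Opens} (hW : (iK k) ⁻¹ᵁ W = ⊤) (s : Fn (crv k) W) :
    strE.t hW s = al (iK k) hW s := rfl

end Run7.h109
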