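import Mathlib

set_option autoImplicit false
set_option linter.unusedSectionVars false

open AlgebraicGeometry CategoryTheory TopologicalSpace Limits

noncomputable section

namespace Run7.h109

/-- in a finite-dimensional algebra the number of primes is at most the dimension -/
theorem three_le_finrank {κ R : Type} [Field κ] [CommRing R] [Algebra κ R] [Module.Finite κ R]
    (p : Fin 3 → PrimeSpectrum R) (hp : Function.Injective p) : 3 ≤ Module.finrank κ R := by
  have hA : IsArtinianRing R := IsArtinianRing.of_finite κ R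
  have hmax : ∀ i, (p i).asIdeal.IsMaximal := fun i =>
    IsArtinianRing.isMaximal_of_isPrime (p i).asIdeal
  have hco : Pairwise fun i j => IsCoprime (p i).asIdeal (p j).asIdeal := by
    intro i j hij
    rw [Ideal.isCoprime_iff_sup_eq]
    exact (hmax i).coprime_of_ne (hmax j) (fun h => hij (hp (PrimeSpectrum.ext h)))
  let f : R →ₗ[κ] (∀ i, R ⧸ (p i).asIdeal) :=
    LinearMap.pi (fun i => (Ideal.Quotient.mkₐ κ (p i).asIdeal).toLinearMap)
  have hf : Function.Surjective f := fun x => by
    obtain ⟨r, hr⟩ := Ideal.pi_quotient_surjective hco x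
    exact ⟨r, funext hr⟩
  have hfin : ∀ i, Module.Finite κ (R ⧸ (p i).asIdeal) := fun i =>
    Module.Finite.of_surjective (Ideal.Quotient.mkₐ κ (p i).asIdeal).toLinearMap
      Ideal.Quotient.mk_surjective
  have h1 : Module.finrank κ (∀ i, R ⧸ (p i).asIdeal) ≤ Module.finrank κ R := by
    have h0 := LinearMap.finrank_range_le f
    rw [LinearMap.range_eq_top.2 hf, finrank_top] at h0
    exact h0
  rw [Module.finrank_pi_fintype] at h1
  refine le_trans ?_ h1
  have h2 : ∀ i, 1 ≤ Module.finrank κ (R ⧸ (p i).asIdeal) := by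
    intro i
    have : Nontrivial (R ⧸ (p i).asIdeal) := Ideal.Quotient.nontrivial_iff.2 (hmax i).ne_top
    exact Module.finrank_pos
  calc 3 = ∑ _i : Fin 3, 1 := by simp
    _ ≤ _ := Finset.sum_le_sum (fun i _ => h2 i)

/-- the number of points of a fibre is at most the rank -/
theorem three_le_rank {X Y : Scheme.{0}} (f : X ⟶ Y) [Flat f] [IsFinite f] (y : Y)
    (e : Fin 3 → X) (he : Function.Injective e) (hy : ∀ i, f (e i) = y) :
    3 ≤ Scheme.Hom.finrank f y := by
  let g := Y.fromSpecResidueField y
  let P := pullback f g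
  let pt : Spec (Y.residueField y) := default
  have hpt : g pt = y := Y.fromSpecResidueField_apply y pt
  have h1 : Scheme.Hom.finrank (pullback.snd f g) pt = Scheme.Hom.finrank f y := by
    rw [Scheme.Hom.finrank_pullback_snd, hpt]
  rw [← h1]
  have hz : ∀ i, ∃ z : P, pullback.fst f g z = e i := by
    intro i
    obtain ⟨z, hz, -⟩ := Scheme.Pullback.exists_preimage_pullback (f := f) (g := g) (e i) pt
      (by rw [hy, hpt])
    exact ⟨z, hz⟩
  choose z hz using hz
  have hzi : Function.Injective z := by
    intro i j hij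
    apply he
    rw [← hz i, ← hz j, hij]
  have hP : IsAffine P := isAffine_of_isAffineHom (pullback.snd f g)
  obtain ⟨φ, hφ⟩ := Spec.map_surjective (P.isoSpec.inv ≫ pullback.snd f g)
  have h2 : Scheme.Hom.finrank (Spec.map φ) pt = Scheme.Hom.finrank (pullback.snd f g) pt := by
    rw [hφ, Scheme.Hom.finrank_comp_left_of_isIso]
  rw [← h2]
  have hfin : IsFinite (Spec.map φ) := by rw [hφ]; infer_instance
  have hflat : Flat (Spec.map φ) := by rw [hφ]; infer_instance
  rw [IsFinite.SpecMap_iff] at hfin
  rw [Flat.SpecMap_iff] at hflat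
  rw [Scheme.Hom.finrank_SpecMap_eq_finrank hfin hflat]
  algebraize [φ.hom]
  rw [← RingHom.algebraMap_toAlgebra φ.hom, RingHom.finrank_algebraMap,
    Module.rankAtStalk_eq_finrank_of_free]
  exact three_le_finrank (κ := Y.residueField y) (R := Γ(P, ⊤)) (fun i => P.isoSpec.hom (z i))
    (fun i j hij => hzi (P.isoSpec.hom.homeomorph.injective hij))

end Run7.h109
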