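import Pool.Agent.Run7.h109.Sub

set_option autoImplicit false

open AlgebraicGeometry CategoryTheory TopologicalSpace Opposite

noncomputable section

namespace Run7.h109

variable {X : Scheme.{0}}

theorem rf_rf {W W' W'' : X.Opens} (h : W' ≤ W) (h' : W'' ≤ W') (s : Γ(X, W)) :
    rf h' (rf h s) = rf (h'.trans h) s := by
  unfold rf
  change (X.presheaf.map _ ≫ X.presheaf.map _).hom s = _
  rw [← X.presheaf.map_comp]
  rfl

/-- sections over basic opens of the affine open `U` are fractions -/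
def LocAt (M : X.Modules) (U : X.Opens) : Prop :=
  (∀ (f : Γ(X, U)) (s : Γ(M, X.basicOpen f)), ∃ (n : ℕ) (t : Γ(M, U)),
    rt M (X.basicOpen_le f) t = rf (X.basicOpen_le f) (f ^ n) • s) ∧
  (∀ (f : Γ(X, U)) (t : Γ(M, U)), rt M (X.basicOpen_le f) t = 0 → ∃ n : ℕ, f ^ n • t = 0)

variable (R : X.Modules) {U V : X.Opens}

/-- the span of the restrictions of the elements of a submodule -/
def spanOn (𝒜 : Submodule Γ(X, U) Γ(R, U)) {W : X.Opens} (h : W ≤ U) :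
    Submodule Γ(X, W) Γ(R, W) := Submodule.span _ (rt R h '' 𝒜)

theorem spanOn_res (𝒜 : Submodule Γ(X, U) Γ(R, U)) {W W' : X.Opens} (h : W ≤ U) (h' : W' ≤ W)
    {s : Γ(R, W)} (hs : s ∈ spanOn R 𝒜 h) : rt R h' s ∈ spanOn R 𝒜 (h'.trans h) := by
  induction hs using Submodule.span_induction with
  | mem s hs =>
    obtain ⟨t, ht, rfl⟩ := hs
    rw [rt_rt]
    exact Submodule.subset_span ⟨t, ht, rfl⟩
  | zero => rw [map_zero]; exact zero_mem _
  | add s t _ _ hs ht => rw [map_add]; exact add_mem hs ht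
  | smul a s _ hs => rw [rt_smul]; exact Submodule.smul_mem _ _ hs

theorem spanOn_clear (𝒜 : Submodule Γ(X, U) Γ(R, U)) (hU : IsAffineOpen U) (f : Γ(X, U))
    {s : Γ(R, X.basicOpen f)} (hs : s ∈ spanOn R 𝒜 (X.basicOpen_le f)) :
    ∃ (n : ℕ) (t : Γ(R, U)), t ∈ 𝒜 ∧ rt R (X.basicOpen_le f) t =
      rf (X.basicOpen_le f) (f ^ n) • s := by
  have := hU.isLocalization_basicOpen f
  induction hs using Submodule.span_induction with
  | mem s hs =>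
    obtain ⟨t, ht, rfl⟩ := hs
    exact ⟨0, t, ht, by simp⟩
  | zero => exact ⟨0, 0, zero_mem _, by simp⟩
  | add s t _ _ hs ht =>
    obtain ⟨n, s', hs', es⟩ := hs
    obtain ⟨m, t', ht', et⟩ := ht
    refine ⟨n + m, f ^ m • s' + f ^ n • t', add_mem (𝒜.smul_mem _ hs') (𝒜.smul_mem _ ht'), ?_⟩
    rw [map_add, rt_smul, rt_smul, es, et, smul_add, smul_smul, smul_smul, ← map_mul, ← map_mul,
      ← pow_add, ← pow_add, add_comm m n]
  | smul a s _ hs =>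
    obtain ⟨n, s', hs', es⟩ := hs
    obtain ⟨⟨b, ⟨_, m, rfl⟩⟩, hb⟩ := IsLocalization.surj (Submonoid.powers f) a
    refine ⟨n + m, b • s', 𝒜.smul_mem _ hs', ?_⟩
    have hb' : a * rf (X.basicOpen_le f) (f ^ m) = rf (X.basicOpen_le f) b := hb
    rw [rt_smul, es, ← hb', smul_smul, smul_smul, pow_add, map_mul]
    congr 1
    ring

/-- `s` is near each point of `U` in the span of `𝒜` -/
def Near (𝒜 : Submodule Γ(X, U) Γ(R, U)) (W : X.Opens) (s : Γ(R, W)) : Prop :=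
  ∀ x ∈ W, x ∈ U → ∃ (W' : X.Opens) (h : W' ≤ W) (h' : W' ≤ U), x ∈ W' ∧ rt R h s ∈ spanOn R 𝒜 h'

variable {R}

theorem Near.res {𝒜 : Submodule Γ(X, U) Γ(R, U)} {W W' : X.Opens} (h : W' ≤ W) {s : Γ(R, W)}
    (hs : Near R 𝒜 W s) : Near R 𝒜 W' (rt R h s) := by
  intro x hx hxU
  obtain ⟨W'', h1, h2, hx', h3⟩ := hs x (h hx) hxU
  refine ⟨W'' ⊓ W', inf_le_right, inf_le_left.trans h2, ⟨hx', hx⟩, ?_⟩
  have := spanOn_res R 𝒜 h2 (inf_le_left : W'' ⊓ W' ≤ W'') h3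
  rw [rt_rt] at this ⊢
  exact this

theorem Near.of_loc {𝒜 : Submodule Γ(X, U) Γ(R, U)} {W : X.Opens} {s : Γ(R, W)}
    (h : ∀ x ∈ W, ∃ (W' : X.Opens) (h : W' ≤ W), x ∈ W' ∧ Near R 𝒜 W' (rt R h s)) :
    Near R 𝒜 W s := by
  intro x hx hxU
  obtain ⟨W', h1, hx1, h2⟩ := h x hx
  obtain ⟨W'', h3, h4, hx2, h5⟩ := h2 x hx1 hxU
  refine ⟨W'', h3.trans h1, h4, hx2, ?_⟩
  rw [rt_rt] at h5
  exact h5

variable (R) in
/-- the subsheaf of the sections which near the points of `U` are in the span of `𝒜` and near the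
points of `V` are in the span of `ℬ` -/
def gl (𝒜 : Submodule Γ(X, U) Γ(R, U)) (ℬ : Submodule Γ(X, V) Γ(R, V)) : LocSub R where
  N W :=
    { carrier := {s | Near R 𝒜 W s ∧ Near R ℬ W s}
      zero_mem' := by
        constructor <;> intro x hx hxU
        · exact ⟨W ⊓ U, inf_le_left, inf_le_right, ⟨hx, hxU⟩, by rw [map_zero]; exact zero_mem _⟩
        · exact ⟨W ⊓ V, inf_le_left, inf_le_right, ⟨hx, hxU⟩, by rw [map_zero]; exact zero_mem _⟩
      add_mem' := by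
        rintro s t ⟨hs, hs'⟩ ⟨ht, ht'⟩
        constructor <;> intro x hx hxU
        · obtain ⟨W₁, a₁, b₁, x₁, c₁⟩ := hs x hx hxU
          obtain ⟨W₂, a₂, b₂, x₂, c₂⟩ := ht x hx hxU
          refine ⟨W₁ ⊓ W₂, inf_le_left.trans a₁, inf_le_left.trans b₁, ⟨x₁, x₂⟩, ?_⟩
          have e₁ := spanOn_res R 𝒜 b₁ (inf_le_left : W₁ ⊓ W₂ ≤ W₁) c₁
          have e₂ := spanOn_res R 𝒜 b₂ (inf_le_right : W₁ ⊓ W₂ ≤ W₂) c₂
          rw [rt_rt] at e₁ e₂
          rw [map_add]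
          exact add_mem e₁ e₂
        · obtain ⟨W₁, a₁, b₁, x₁, c₁⟩ := hs' x hx hxU
          obtain ⟨W₂, a₂, b₂, x₂, c₂⟩ := ht' x hx hxU
          refine ⟨W₁ ⊓ W₂, inf_le_left.trans a₁, inf_le_left.trans b₁, ⟨x₁, x₂⟩, ?_⟩
          have e₁ := spanOn_res R ℬ b₁ (inf_le_left : W₁ ⊓ W₂ ≤ W₁) c₁
          have e₂ := spanOn_res R ℬ b₂ (inf_le_right : W₁ ⊓ W₂ ≤ W₂) c₂
          rw [rt_rt] at e₁ e₂
          rw [map_add]
          exact add_mem e₁ e₂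
      smul_mem' := by
        rintro a s ⟨hs, hs'⟩
        constructor <;> intro x hx hxU
        · obtain ⟨W₁, a₁, b₁, x₁, c₁⟩ := hs x hx hxU
          refine ⟨W₁, a₁, b₁, x₁, ?_⟩
          rw [rt_smul]
          exact Submodule.smul_mem _ _ c₁
        · obtain ⟨W₁, a₁, b₁, x₁, c₁⟩ := hs' x hx hxU
          refine ⟨W₁, a₁, b₁, x₁, ?_⟩
          rw [rt_smul]
          exact Submodule.smul_mem _ _ c₁ }
  res h s hs := ⟨hs.1.res h, hs.2.res h⟩
  loc W s h := by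
    constructor
    · apply Near.of_loc
      intro x hx
      obtain ⟨W', h1, h2, h3⟩ := h x hx
      exact ⟨W', h1, h2, h3.1⟩
    · apply Near.of_loc
      intro x hx
      obtain ⟨W', h1, h2, h3⟩ := h x hx
      exact ⟨W', h1, h2, h3.2⟩

theorem mem_gl (𝒜 : Submodule Γ(X, U) Γ(R, U)) (ℬ : Submodule Γ(X, V) Γ(R, V)) {W : X.Opens}
    {s : Γ(R, W)} : s ∈ (gl R 𝒜 ℬ).N W ↔ Near R 𝒜 W s ∧ Near R ℬ W s := Iff.rfl

/-- clearing denominators -/
theorem near_core (hU : IsAffineOpen U) (hR : LocAt R U) (𝒜 : Submodule Γ(X, U) Γ(R, U))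
    (f : Γ(X, U)) (u : Γ(R, U)) (hu : Near R 𝒜 (X.basicOpen f) (rt R (X.basicOpen_le f) u)) :
    ∃ n : ℕ, f ^ n • u ∈ 𝒜 := by
  let I : Ideal Γ(X, U) :=
    { carrier := {a | a • u ∈ 𝒜}
      zero_mem' := by change (0 : Γ(X, U)) • u ∈ 𝒜; rw [zero_smul]; exact zero_mem _
      add_mem' := by
        intro a b ha hb
        change (a + b) • u ∈ 𝒜
        rw [add_smul]; exact add_mem ha hb
      smul_mem' := by
        intro a b hb
        change (a • b) • u ∈ 𝒜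
        rw [smul_eq_mul, mul_smul]; exact 𝒜.smul_mem _ hb }
  suffices h : f ∈ I.radical by
    obtain ⟨n, hn⟩ := h
    exact ⟨n, hn⟩
  rw [Ideal.radical_eq_sInf, Ideal.mem_sInf]
  rintro P ⟨hIP, hP⟩
  by_contra hf
  let x : X := hU.fromSpec ⟨P, hP⟩
  have hx : ∀ g : Γ(X, U), x ∈ X.basicOpen g ↔ g ∉ P := by
    intro g
    have h1 := hU.fromSpec_preimage_basicOpen g
    have h2 : x ∈ X.basicOpen g ↔ (⟨P, hP⟩ : Spec Γ(X, U)) ∈ hU.fromSpec ⁻¹ᵁ X.basicOpen g :=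
      Iff.rfl
    rw [h2, h1]
    rfl
  have hxf : x ∈ X.basicOpen f := (hx f).2 hf
  have hxU : x ∈ U := X.basicOpen_le f hxf
  obtain ⟨W', h1, h2, hxW, h3⟩ := hu x hxf hxU
  obtain ⟨g, hg, hxg⟩ := hU.exists_basicOpen_le (⟨x, hxW⟩ : W') hxU
  have h4 := spanOn_res R 𝒜 h2 hg h3
  rw [rt_rt, rt_rt] at h4
  obtain ⟨n, t, ht, e⟩ := spanOn_clear R 𝒜 hU g h4
  have h5 : rt R (X.basicOpen_le g) (g ^ n • u - t) = 0 := by
    rw [map_sub, rt_smul, e, sub_self]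
  obtain ⟨m, hm⟩ := hR.2 g _ h5
  rw [smul_sub, sub_eq_zero, smul_smul, ← pow_add] at hm
  have h6 : g ^ (m + n) ∈ I := by
    change g ^ (m + n) • u ∈ 𝒜
    rw [hm]
    exact 𝒜.smul_mem _ ht
  exact (hx g).1 hxg (hP.mem_of_pow_mem _ (hIP h6))

theorem near_self (𝒜 : Submodule Γ(X, U) Γ(R, U)) {s : Γ(R, U)} (hs : s ∈ 𝒜) :
    Near R 𝒜 U s := by
  intro x hx hxU
  refine ⟨U, le_rfl, le_rfl, hx, ?_⟩
  exact Submodule.subset_span ⟨s, hs, rfl⟩

theorem near_top (hU : IsAffineOpen U) (hR : LocAt R U) (𝒜 : Submodule Γ(X, U) Γ(R, U))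
    {s : Γ(R, U)} : Near R 𝒜 U s ↔ s ∈ 𝒜 := by
  constructor
  · intro h
    obtain ⟨n, hn⟩ := near_core hU hR 𝒜 1 s (h.res _)
    simpa using hn
  · exact near_self 𝒜

/-- near the points of `O`, the span of `𝒜` is everything -/
theorem near_of_gen {O : X.Opens} (hO : IsAffineOpen O) (hOU : O ≤ U) (hR : LocAt R O)
    (𝒜 : Submodule Γ(X, U) Γ(R, U)) (hA : spanOn R 𝒜 hOU = ⊤) {W : X.Opens}
    (hW : ∀ x ∈ W, x ∈ U → x ∈ O) (s : Γ(R, W)) : Near R 𝒜 W s := by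
  intro x hx hxU
  have hxUV : x ∈ O := hW x hx hxU
  obtain ⟨g, hg, hxg⟩ := hO.exists_basicOpen_le (⟨x, hx⟩ : W) hxUV
  refine ⟨X.basicOpen g, hg, (X.basicOpen_le g).trans hOU, hxg, ?_⟩
  obtain ⟨n, t, ht⟩ := hR.1 g (rt R hg s)
  have h1 : t ∈ spanOn R 𝒜 hOU := by rw [hA]; trivial
  have h2 := spanOn_res R 𝒜 _ (X.basicOpen_le g) h1
  rw [ht] at h2
  have h3 : IsUnit (rf (X.basicOpen_le g) (g ^ n)) := by
    rw [map_pow]
    apply IsUnit.pow
    exact X.toRingedSpace.isUnit_res_basicOpen g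
  obtain ⟨w, hw⟩ := h3
  rw [← hw] at h2
  have h4 := (spanOn R 𝒜 ((X.basicOpen_le g).trans hOU)).smul_mem ((w⁻¹ : _ˣ) : Γ(X, _)) h2
  rw [smul_smul, Units.inv_mul, one_smul] at h4
  exact h4

/-- The data for a subsheaf of `R` on a scheme covered by two affine open subsets. -/
structure GlData (R : X.Modules) (U V : X.Opens) where
  /-- the sections on `U` -/
  𝒜 : Submodule Γ(X, U) Γ(R, U)
  /-- the sections on `V` -/
  ℬ : Submodule Γ(X, V) Γ(R, V)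
  hU : IsAffineOpen U
  hV : IsAffineOpen V
  hUV : IsAffineOpen (U ⊓ V)
  cov : U ⊔ V = ⊤
  RU : LocAt R U
  RV : LocAt R V
  RUV : LocAt R (U ⊓ V)
  hA : spanOn R 𝒜 (inf_le_left : U ⊓ V ≤ U) = ⊤
  hB : spanOn R ℬ (inf_le_right : U ⊓ V ≤ V) = ⊤

namespace GlData

variable (D : GlData R U V)

/-- the subsheaf -/
abbrev S : LocSub R := gl R D.𝒜 D.ℬ

theorem near_U {W : X.Opens} (hW : W ≤ V) (s : Γ(R, W)) : Near R D.𝒜 W s :=
  near_of_gen D.hUV inf_le_left D.RUV D.𝒜 D.hA (fun _ hx hxU => ⟨hxU, hW hx⟩) s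

theorem near_V {W : X.Opens} (hW : W ≤ U) (s : Γ(R, W)) : Near R D.ℬ W s :=
  near_of_gen D.hUV inf_le_right D.RUV D.ℬ D.hB (fun _ hx hxV => ⟨hW hx, hxV⟩) s

/-- the sections of the subsheaf on `U` -/
theorem mem_U {s : Γ(R, U)} : s ∈ D.S.N U ↔ s ∈ D.𝒜 := by
  rw [mem_gl, near_top D.hU D.RU]
  exact and_iff_left (D.near_V le_rfl s)

/-- the sections of the subsheaf on `V` -/
theorem mem_V {s : Γ(R, V)} : s ∈ D.S.N V ↔ s ∈ D.ℬ := by
  rw [mem_gl, near_top D.hV D.RV]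
  exact and_iff_right (D.near_U le_rfl s)

/-- the sections of the subsheaf on open subsets of the intersection -/
theorem mem_UV {W : X.Opens} (hW : W ≤ U ⊓ V) (s : Γ(R, W)) : s ∈ D.S.N W :=
  ⟨D.near_U (hW.trans inf_le_right) s, D.near_V (hW.trans inf_le_left) s⟩

/-- global sections -/
theorem mem_top {s : Γ(R, ⊤)} : s ∈ D.S.N ⊤ ↔ rt R le_top s ∈ D.𝒜 ∧ rt R le_top s ∈ D.ℬ := by
  constructor
  · intro h
    exact ⟨D.mem_U.1 (D.S.res le_top s h), D.mem_V.1 (D.S.res le_top s h)⟩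
  · rintro ⟨h1, h2⟩
    apply D.S.loc
    intro x _
    have hx : x ∈ U ⊔ V := by rw [D.cov]; trivial
    rcases hx with hx | hx
    · exact ⟨U, le_top, hx, D.mem_U.2 h1⟩
    · exact ⟨V, le_top, hx, D.mem_V.2 h2⟩

theorem locAt_U : LocAt D.S.sheaf U := by
  constructor
  · intro f s
    obtain ⟨n, u, hu⟩ := D.RU.1 f (D.S.val s)
    have h1 : Near R D.𝒜 (X.basicOpen f) (rt R (X.basicOpen_le f) u) := by
      rw [hu]
      exact ((D.S.N _).smul_mem _ (D.S.val_mem s)).1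
    obtain ⟨m, hm⟩ := near_core D.hU D.RU D.𝒜 f u h1
    refine ⟨m + n, D.S.sec (f ^ m • u) (D.mem_U.2 hm), ?_⟩
    apply D.S.val_inj
    rw [LocSub.val_rt, LocSub.val_sec, LocSub.val_smul, rt_smul, hu, smul_smul, ← map_mul,
      ← pow_add]
  · intro f t ht
    have h1 : rt R (X.basicOpen_le f) (D.S.val t) = 0 := by
      rw [← LocSub.val_rt, ht, LocSub.val_zero]
    obtain ⟨n, hn⟩ := D.RU.2 f _ h1
    exact ⟨n, D.S.val_inj hn⟩

theorem locAt_V : LocAt D.S.sheaf V := by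
  constructor
  · intro f s
    obtain ⟨n, u, hu⟩ := D.RV.1 f (D.S.val s)
    have h1 : Near R D.ℬ (X.basicOpen f) (rt R (X.basicOpen_le f) u) := by
      rw [hu]
      exact ((D.S.N _).smul_mem _ (D.S.val_mem s)).2
    obtain ⟨m, hm⟩ := near_core D.hV D.RV D.ℬ f u h1
    refine ⟨m + n, D.S.sec (f ^ m • u) (D.mem_V.2 hm), ?_⟩
    apply D.S.val_inj
    rw [LocSub.val_rt, LocSub.val_sec, LocSub.val_smul, rt_smul, hu, smul_smul, ← map_mul,
      ← pow_add]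
  · intro f t ht
    have h1 : rt R (X.basicOpen_le f) (D.S.val t) = 0 := by
      rw [← LocSub.val_rt, ht, LocSub.val_zero]
    obtain ⟨n, hn⟩ := D.RV.2 f _ h1
    exact ⟨n, D.S.val_inj hn⟩

end GlData

end Run7.h109
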