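import Pool.Agent.Run7.h109.Prs

set_option autoImplicit false
set_option linter.unusedSectionVars false

open AlgebraicGeometry CategoryTheory TopologicalSpace Opposite LaurentPolynomial

noncomputable section

namespace Run7.h109

variable {k : Type} [Field k] [CharZero k]

variable (k) in
/-- the subcurve with components in `I` -/
def sI (I : Finset (Fin 3)) : Set (X k) := eta k '' I

theorem eta_mem_sI {I : Finset (Fin 3)} {i : Fin 3} : eta k i ∈ sI k I ↔ i ∈ I :=
  eta_injective.mem_set_image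

theorem sI_sub (I : Finset (Fin 3)) : sI k I ⊆ Set.range (eta k) := Set.image_subset_range _ _

theorem ker_true {F : (X k).Modules} (E : Emb F) {W : (X k).Opens} (hW : (iK k) ⁻¹ᵁ W = ⊤)
    (I : Finset (Fin 3)) (s : Sec (C := crv k) F W) :
    s ∈ kerRes (C := crv k) F true (sI k I) W ↔ ∀ i ∈ I, E.t hW s i = 0 := by
  have h1 := E.mem_van hW (sI k I) (sI_sub I) s
  have h2 : s ∈ kerRes (C := crv k) F true (sI k I) W ↔ s ∈ van (C := crv k) F (sI k I) W := Iff.rfl
  refine h2.trans (h1.trans ?_)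
  exact forall_congr' fun i => by rw [eta_mem_sI]

theorem mem_idl {W : (X k).Opens} (hW : (iK k) ⁻¹ᵁ W = ⊤)
    (I : Finset (Fin 3)) (a : Fn (crv k) W) :
    a ∈ idl (crv k) (sI k I) W ↔ ∀ i ∈ I, al (iK k) hW a i = 0 := by
  have h1 := strE.mem_van hW (sI k I) (sI_sub I) a
  have h2 : a ∈ idl (crv k) (sI k I) W ↔
    a ∈ van (C := crv k) (strSheaf (crv k)) (sI k I) W := Iff.rfl
  refine h2.trans (h1.trans ?_)
  exact forall_congr' fun i => by rw [eta_mem_sI]; rfl

theorem ker_false_iff {F : (X k).Modules} {W : (X k).Opens} {S : Set (X k)}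
    (s : Sec (C := crv k) F W) : s ∈ kerRes (C := crv k) F false S W ↔
    s ∈ idl (crv k) S W • (⊤ : Submodule (Fn (crv k) W) (Sec (C := crv k) F W)) := Iff.rfl

/-- elements of the product of the ideal with the sections, in terms of the model -/
theorem ker_false_ind {F : (X k).Modules} (E : Emb F) {W : (X k).Opens}
    (hW : (iK k) ⁻¹ᵁ W = ⊤) {I : Finset (Fin 3)} (T : Submodule k (K k))
    (hT : ∀ a : Fn (crv k) W, (∀ i ∈ I, al (iK k) hW a i = 0) → ∀ s : Sec (C := crv k) F W,
      al (iK k) hW a * E.t hW s ∈ T) {s : Sec (C := crv k) F W}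
    (hs : s ∈ kerRes (C := crv k) F false (sI k I) W) : E.t hW s ∈ T := by
  rw [ker_false_iff] at hs
  refine Submodule.smul_induction_on hs ?_ ?_
  · intro a ha s _
    rw [E.t_smul]
    exact hT a ((mem_idl hW I a).1 ha) s
  · intro s t hs ht
    rw [map_add]
    exact add_mem hs ht

/-- the triples which vanish in `I` -/
def zI (I : Finset (Fin 3)) : Submodule k (K k) where
  carrier := {g | ∀ i ∈ I, g i = 0}
  zero_mem' := fun i _ => rfl
  add_mem' := by
    intro g h hg hh i hi
    rw [Pi.add_apply, hg i hi, hh i hi, add_zero]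
  smul_mem' := by
    intro c g hg i hi
    rw [Pi.smul_apply, hg i hi, smul_zero]

theorem ker_false_sub {F : (X k).Modules} (E : Emb F) {W : (X k).Opens}
    (hW : (iK k) ⁻¹ᵁ W = ⊤) {I : Finset (Fin 3)} {s : Sec (C := crv k) F W}
    (hs : s ∈ kerRes (C := crv k) F false (sI k I) W) : ∀ i ∈ I, E.t hW s i = 0 := by
  apply ker_false_ind E hW (zI I) _ hs
  intro a ha s i hi
  rw [Pi.mul_apply, ha i hi, zero_mul]

theorem ker_false_of {F : (X k).Modules} (E : Emb F) {W : (X k).Opens}
    (hW : (iK k) ⁻¹ᵁ W = ⊤) (hinj : Function.Injective (E.Φ W)) {I : Finset (Fin 3)}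
    (a : Fn (crv k) W) (ha : ∀ i ∈ I, al (iK k) hW a i = 0) (s t : Sec (C := crv k) F W)
    (h : E.t hW s = al (iK k) hW a * E.t hW t) :
    s ∈ kerRes (C := crv k) F false (sI k I) W := by
  have h1 : s = a • t := by
    apply E.t_inj hW hinj
    rw [E.t_smul, h]
  rw [ker_false_iff, h1]
  exact Submodule.smul_mem_smul ((mem_idl hW I a).2 ha) trivial

/-- the idempotent of the complement of `I` -/
def eI (I : Finset (Fin 3)) : K k := fun i => if i ∈ I then 0 else 1

theorem eI_mem_B (I : Finset (Fin 3)) : eI I ∈ B k := by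
  intro i
  rw [eI]
  split_ifs
  · exact zero_mem _
  · exact one_mem_hi

theorem ker_false_V {F : (X k).Modules} (E : Emb F) {I : Finset (Fin 3)}
    (s : Sec (C := crv k) F (V k)) :
    s ∈ kerRes (C := crv k) F false (sI k I) (V k) ↔ ∀ i ∈ I, E.t (pV k) s i = 0 := by
  refine ⟨ker_false_sub E (pV k), fun h => ?_⟩
  apply ker_false_of E (pV k) E.injV (eV k ⟨eI I, eI_mem_B I⟩) _ s s
  · have h1 : al (iK k) (pV k) (eV k ⟨eI I, eI_mem_B I⟩) = eI I := al_eV k _
    refine Eq.trans ?_ (congrArg (fun e => e * E.t (pV k) s) h1.symm)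
    ext1 i
    rw [Pi.mul_apply, eI]
    split_ifs with hi
    · rw [h i hi, mul_zero]
    · rw [one_mul]
  · intro i hi
    have h1 : al (iK k) (pV k) (eV k ⟨eI I, eI_mem_B I⟩) = eI I := al_eV k _
    refine (congrFun h1 i).trans ?_
    rw [eI, if_pos hi]

theorem ker_false_UV {F : (X k).Modules} (E : Emb F) {I : Finset (Fin 3)}
    (s : Sec (C := crv k) F (U k ⊓ V k)) :
    s ∈ kerRes (C := crv k) F false (sI k I) (U k ⊓ V k) ↔ ∀ i ∈ I, E.t (pUV k) s i = 0 := by
  refine ⟨ker_false_sub E (pUV k), fun h => ?_⟩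
  apply ker_false_of E (pUV k) (E.inj _ le_rfl) (eK k (eI I)) _ s s
  · have h1 : al (iK k) (pUV k) (eK k (eI I)) = eI I := al_eK k _
    refine Eq.trans ?_ (congrArg (fun e => e * E.t (pUV k) s) h1.symm)
    ext1 i
    rw [Pi.mul_apply, eI]
    split_ifs with hi
    · rw [h i hi, mul_zero]
    · rw [one_mul]
  · intro i hi
    have h1 : al (iK k) (pUV k) (eK k (eI I)) = eI I := al_eK k _
    refine (congrFun h1 i).trans ?_
    rw [eI, if_pos hi]

/-- the kernel of the restriction of the dualizing sheaf on the first chart -/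
theorem ker_ω_U (τ : Bool) {I : Finset (Fin 3)} (s : Sec (C := crv k) (Pω k).F (U k)) :
    s ∈ kerRes (C := crv k) (Pω k).F τ (sI k I) (U k) ↔ ∀ i ∈ I, (Pω k).E.t (pU k) s i = 0 := by
  cases τ
  · refine ⟨ker_false_sub (Pω k).E (pU k), fun h => ?_⟩
    obtain ⟨t, ht⟩ := (Pω k).exists_U (g := 1) (A k).one_mem
    have hs : (Pω k).E.t (pU k) s ∈ A k := (Pω k).t_mem_U s
    have h1 : al (iK k) (pU k) (eU k ⟨_, hs⟩) = (Pω k).E.t (pU k) s := al_eU k _
    apply ker_false_of (Pω k).E (pU k) (Pω k).E.injU (eU k ⟨_, hs⟩) _ s t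
    · rw [ht, mul_one]
      exact h1.symm
    · intro i hi
      refine (congrFun h1 i).trans (h i hi)
  · exact ker_true (Pω k).E (pU k) I s

theorem ker_V {F : (X k).Modules} (E : Emb F) (τ : Bool) {I : Finset (Fin 3)}
    (s : Sec (C := crv k) F (V k)) :
    s ∈ kerRes (C := crv k) F τ (sI k I) (V k) ↔ ∀ i ∈ I, E.t (pV k) s i = 0 := by
  cases τ
  · exact ker_false_V E s
  · exact ker_true E (pV k) I s

theorem ker_UV {F : (X k).Modules} (E : Emb F) (τ : Bool) {I : Finset (Fin 3)}
    (s : Sec (C := crv k) F (U k ⊓ V k)) :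
    s ∈ kerRes (C := crv k) F τ (sI k I) (U k ⊓ V k) ↔ ∀ i ∈ I, E.t (pUV k) s i = 0 := by
  cases τ
  · exact ker_false_UV E s
  · exact ker_true E (pUV k) I s

/-! ### Kernels of the projections -/

theorem p1_ker (i : Fin 3) (g : K k) : p1 i g = 0 ↔ ∀ j ∈ ({i} : Finset (Fin 3)), g j = 0 := by
  constructor
  · intro h j hj
    rw [Finset.mem_singleton] at hj
    subst hj
    exact congrFun h 0
  · intro h
    ext1 j
    exact h i (Finset.mem_singleton_self _)

theorem p2_ker (i j : Fin 3) (g : K k) : p2 i j g = 0 ↔ ∀ l ∈ ({i, j} : Finset (Fin 3)), g l = 0 := by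
  rw [p2_apply]
  constructor
  · intro h l hl
    have h0 : g i = 0 := congrFun h 0
    have h1 : g j - g i = 0 := congrFun h 1
    rw [h0, sub_zero] at h1
    rw [Finset.mem_insert, Finset.mem_singleton] at hl
    rcases hl with rfl | rfl
    · exact h0
    · exact h1
  · intro h
    have h0 : g i = 0 := h i (by simp)
    have h1 : g j = 0 := h j (by simp)
    ext1 l
    fin_cases l
    · exact h0
    · change g j - g i = 0
      rw [h0, h1, sub_zero]

theorem p3_ker (g : K k) : p3 k g = 0 ↔ g = 0 := by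
  rw [p3_apply]
  constructor
  · intro h
    have h0 : g 0 = 0 := congrFun h 0
    have h1 : g 1 - g 2 = 0 := congrFun h 1
    have h2 : g 1 + g 2 - 2 * g 0 = 0 := congrFun h 2
    have h3 : g 2 = 0 := by
      apply two_cancel
      linear_combination h2 - h1 + 2 * h0
    have h4 : g 1 = 0 := by linear_combination h1 + h3
    ext1 l
    fin_cases l
    · exact h0
    · exact h4
    · exact h3
  · rintro rfl
    ext1 l
    fin_cases l <;> simp

theorem p4_ker (g : K k) : p4 k g = 0 ↔ g = 0 := by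
  rw [p4_apply]
  constructor
  · intro h
    have h0 : g 0 = 0 := congrFun h 0
    have h1 : g 1 = 0 := congrFun h 1
    have h2 : g 2 - g 1 = 0 := congrFun h 2
    have h3 : g 2 = 0 := by linear_combination h2 + h1
    ext1 l
    fin_cases l
    · exact h0
    · exact h1
    · exact h3
  · rintro rfl
    ext1 l
    fin_cases l <;> simp

theorem p1_surj (i : Fin 3) : Function.Surjective (p1 (k := k) i) := by
  intro v
  refine ⟨fun _ => v 0, ?_⟩
  ext1 j
  rw [p1_apply]
  fin_cases j; rfl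

theorem p2_surj {i j : Fin 3} (hij : i ≠ j) : Function.Surjective (p2 (k := k) i j) := by
  intro v
  refine ⟨Pi.single i (v 0) + Pi.single j (v 0 + v 1), ?_⟩
  rw [p2_apply]
  simp only [Pi.add_apply, Pi.single_eq_same, Pi.single_eq_of_ne hij, Pi.single_eq_of_ne hij.symm]
  ext1 l
  fin_cases l
  · change v 0 + 0 = v 0
    ring
  · change 0 + (v 0 + v 1) - (v 0 + 0) = v 1
    ring

theorem p3_surj : Function.Surjective (p3 k) := by
  intro v
  obtain ⟨w, hw, -⟩ := half_L (v 1)
  obtain ⟨u, hu, -⟩ := half_L (v 2)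
  refine ⟨![v 0, v 0 + u + w, v 0 + u - w], ?_⟩
  rw [p3_apply]
  ext1 j
  fin_cases j
  · rfl
  · change (v 0 + u + w) - (v 0 + u - w) = v 1
    rw [hw]; ring
  · change (v 0 + u + w) + (v 0 + u - w) - 2 * v 0 = v 2
    rw [hu]; ring

theorem p4_surj : Function.Surjective (p4 k) := by
  intro v
  refine ⟨![v 0, v 1, v 1 + v 2], ?_⟩
  rw [p4_apply]
  ext1 j
  fin_cases j
  · rfl
  · rfl
  · change v 1 + v 2 - v 1 = v 2
    ring

end Run7.h109
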