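import Pool.Agent.Run7.h109.Defs

set_option autoImplicit false
set_option linter.unusedSectionVars false

open scoped TensorProduct
open Module

noncomputable section

namespace Run7.h109

variable {k : Type} [Field k]

/-! ### The exterior algebra with coefficients -/

section ext

variable {W M N : Type} [AddCommGroup W] [Module k W] [AddCommGroup M] [Module k M]
  [AddCommGroup N] [Module k N]

variable (k W) in
/-- the exterior algebra -/
abbrev EA : Type := ExteriorAlgebra k W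

/-- the contraction -/
def ct (φ : Dual k W) : EA k W →ₗ[k] EA k W := CliffordAlgebra.contractLeft (Q := 0) φ

theorem ct_mul (φ : Dual k W) (u : W) (e : EA k W) :
    ct φ (ExteriorAlgebra.ι k u * e) = φ u • e - ExteriorAlgebra.ι k u * ct φ e :=
  CliffordAlgebra.contractLeft_ι_mul (Q := (0 : QuadraticForm k W)) φ u e

theorem ct_one (φ : Dual k W) : ct φ (1 : EA k W) = 0 :=
  CliffordAlgebra.contractLeft_one (Q := (0 : QuadraticForm k W)) φ

variable (M) in
/-- multiplication by a vector -/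
def Lu (u : W) : EA k W ⊗[k] M →ₗ[k] EA k W ⊗[k] M :=
  LinearMap.rTensor M (LinearMap.mulLeft k (ExteriorAlgebra.ι k u))

theorem Lu_tmul (u : W) (e : EA k W) (m : M) :
    Lu M u (e ⊗ₜ[k] m) = (ExteriorAlgebra.ι k u * e) ⊗ₜ m := rfl

theorem Lu_Lu_swap (u v : W) (ξ : EA k W ⊗[k] M) : Lu M u (Lu M v ξ) = - Lu M v (Lu M u ξ) := by
  induction ξ using TensorProduct.induction_on with
  | zero => simp only [map_zero, neg_zero]
  | add a b ha hb =>
    simp only [map_add, ha, hb, neg_add]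
  | tmul e m =>
    rw [Lu_tmul, Lu_tmul, Lu_tmul, Lu_tmul, ← TensorProduct.neg_tmul]
    congr 1
    rw [← mul_assoc, ← mul_assoc, ← neg_mul]
    congr 1
    exact eq_neg_of_add_eq_zero_left (ExteriorAlgebra.ι_add_mul_swap u v)

theorem Lu_Lu_self (u : W) (ξ : EA k W ⊗[k] M) : Lu M u (Lu M u ξ) = 0 := by
  induction ξ using TensorProduct.induction_on with
  | zero => simp only [map_zero]
  | add a b ha hb => simp only [map_add, ha, hb, add_zero]
  | tmul e m =>
    rw [Lu_tmul, Lu_tmul, ← mul_assoc, ExteriorAlgebra.ι_sq_zero, zero_mul,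
      TensorProduct.zero_tmul]

/-- multiplication of the coefficients -/
def Mu (f : M →ₗ[k] N) : EA k W ⊗[k] M →ₗ[k] EA k W ⊗[k] N := LinearMap.lTensor (EA k W) f

theorem Mu_tmul (f : M →ₗ[k] N) (e : EA k W) (m : M) : Mu f (e ⊗ₜ[k] m) = e ⊗ₜ f m := rfl

theorem Lu_Mu (u : W) (f : M →ₗ[k] N) (ξ : EA k W ⊗[k] M) :
    Lu N u (Mu f ξ) = Mu f (Lu M u ξ) := by
  induction ξ using TensorProduct.induction_on with
  | zero => simp only [map_zero]
  | add a b ha hb => simp only [map_add, ha, hb]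
  | tmul e m => rfl

variable {I : Type} [Fintype I] (b : Basis I k W)

/-- the Koszul differential -/
def Dm (μ : W →ₗ[k] M →ₗ[k] N) : EA k W ⊗[k] M →ₗ[k] EA k W ⊗[k] N :=
  ∑ i, TensorProduct.map (ct (b.coord i)) (μ (b i))

theorem Dm_tmul (μ : W →ₗ[k] M →ₗ[k] N) (e : EA k W) (m : M) :
    Dm b μ (e ⊗ₜ m) = ∑ i, ct (b.coord i) e ⊗ₜ[k] μ (b i) m := by
  rw [Dm, LinearMap.sum_apply]
  rfl

theorem Dm_Lu (μ : W →ₗ[k] M →ₗ[k] N) (u : W) (ξ : EA k W ⊗[k] M) :
    Dm b μ (Lu M u ξ) = Mu (μ u) ξ - Lu N u (Dm b μ ξ) := by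
  induction ξ using TensorProduct.induction_on with
  | zero => simp only [map_zero, sub_zero]
  | add x y hx hy =>
    simp only [map_add, hx, hy]
    abel
  | tmul e m =>
    rw [Lu_tmul, Dm_tmul, Dm_tmul, Mu_tmul, map_sum]
    have h1 : ∀ i, ct (b.coord i) (ExteriorAlgebra.ι k u * e) ⊗ₜ[k] μ (b i) m =
        e ⊗ₜ (b.coord i u • μ (b i) m) - Lu N u (ct (b.coord i) e ⊗ₜ[k] μ (b i) m) := by
      intro i
      rw [ct_mul, TensorProduct.sub_tmul, Lu_tmul, TensorProduct.smul_tmul]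
    rw [Finset.sum_congr rfl (fun i _ => h1 i), Finset.sum_sub_distrib, ← TensorProduct.tmul_sum]
    congr 2
    have h2 : u = ∑ i, b.coord i u • b i := (b.sum_repr u).symm
    conv_rhs => rw [h2]
    rw [map_sum, LinearMap.sum_apply]
    refine Finset.sum_congr rfl (fun i _ => ?_)
    rw [map_smul, LinearMap.smul_apply]

theorem Dm_one (μ : W →ₗ[k] M →ₗ[k] N) (m : M) : Dm b μ (1 ⊗ₜ m) = 0 := by
  rw [Dm_tmul]
  apply Finset.sum_eq_zero
  intro i _
  rw [ct_one, TensorProduct.zero_tmul]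

theorem Dm_ιMulti (μ : W →ₗ[k] M →ₗ[k] N) (n : ℕ) (w : Fin (n + 1) → W) (m : M) :
    Dm b μ (ExteriorAlgebra.ιMulti k (n + 1) w ⊗ₜ m) =
      ∑ p : Fin (n + 1), (-1 : ℤ) ^ (p : ℕ) •
        (ExteriorAlgebra.ιMulti k n (p.removeNth w) ⊗ₜ[k] μ (w p) m) := by
  induction n with
  | zero =>
    have h1 : ExteriorAlgebra.ιMulti k 1 w ⊗ₜ[k] m = Lu M (w 0) (1 ⊗ₜ m) := by
      rw [Lu_tmul, ExteriorAlgebra.ιMulti_succ_apply, ExteriorAlgebra.ιMulti_zero_apply]
    rw [h1, Dm_Lu, Dm_one, map_zero, sub_zero, Mu_tmul, Fin.sum_univ_one]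
    simp only [Fin.val_zero, pow_zero, one_smul]
    rw [ExteriorAlgebra.ιMulti_zero_apply]
  | succ n ih =>
    have h1 : ExteriorAlgebra.ιMulti k (n + 2) w ⊗ₜ[k] m =
        Lu M (w 0) (ExteriorAlgebra.ιMulti k (n + 1) (Matrix.vecTail w) ⊗ₜ m) := by
      rw [Lu_tmul, ExteriorAlgebra.ιMulti_succ_apply]
    rw [h1, Dm_Lu, ih, Mu_tmul, map_sum, sub_eq_add_neg, ← Finset.sum_neg_distrib]
    conv_rhs => rw [Fin.sum_univ_succ]
    congr 1
    · simp only [Fin.val_zero, pow_zero, one_smul]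
      rw [Fin.removeNth_zero]
      rfl
    · refine Finset.sum_congr rfl (fun p _ => ?_)
      have h2 : ExteriorAlgebra.ιMulti k (n + 1) (p.succ.removeNth w) =
          ExteriorAlgebra.ι k (w 0) *
            ExteriorAlgebra.ιMulti k n (p.removeNth (Matrix.vecTail w)) := by
        rw [ExteriorAlgebra.ιMulti_succ_apply]
        congr 2
        funext j
        change w (p.succ.succAbove j.succ) = w ((p.succAbove j).succ)
        rw [Fin.succ_succAbove_succ]
      rw [map_zsmul, Lu_tmul, h2, Fin.val_succ, pow_succ, mul_neg_one, neg_smul]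
      rfl

/-- the exterior power with coefficients in the exterior algebra with coefficients -/
def inc (n : ℕ) (M : Type) [AddCommGroup M] [Module k M] :
    (⋀[k]^n W) ⊗[k] M →ₗ[k] EA k W ⊗[k] M :=
  LinearMap.rTensor M (⋀[k]^n W).subtype

theorem inc_tmul (n : ℕ) (x : ⋀[k]^n W) (m : M) :
    inc n M (x ⊗ₜ[k] m) = (x : EA k W) ⊗ₜ m := rfl

theorem inc_inj (n : ℕ) : Function.Injective (inc (k := k) (W := W) n M) :=
  Module.Flat.rTensor_preserves_injective_linearMap _ (Submodule.subtype_injective _)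

theorem koszulMap_apply {P : Type} [AddCommGroup P] [Module k P] {n : ℕ}
    (ι : W [⋀^Fin n]→ₗ[k] P) (μ : W →ₗ[k] M →ₗ[k] N) (w : Fin (n + 1) → W) (m : M) :
    koszulMap ι μ (exteriorPower.ιMulti k (n + 1) w ⊗ₜ m) =
      ∑ p : Fin (n + 1), (-1 : ℤ) ^ (p : ℕ) • (ι (p.removeNth w) ⊗ₜ[k] μ (w p) m) := by
  have h2 : koszulMap ι μ (exteriorPower.ιMulti k (n + 1) w ⊗ₜ m) =
      (exteriorPower.alternatingMapLinearEquiv (AlternatingMap.alternatizeUncurryFin
        (koszulAux ι μ)) (exteriorPower.ιMulti k (n + 1) w)) m := rfl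
  rw [h2, exteriorPower.alternatingMapLinearEquiv_apply_ιMulti,
    AlternatingMap.alternatizeUncurryFin_apply, LinearMap.sum_apply]
  rfl

theorem inc_koszul (μ : W →ₗ[k] M →ₗ[k] N) (n : ℕ) (z : (⋀[k]^(n + 1) W) ⊗[k] M) :
    inc n N (koszul μ n z) = Dm b μ (inc (n + 1) M z) := by
  induction z using TensorProduct.induction_on with
  | zero => simp only [map_zero]
  | add x y hx hy => simp only [map_add, hx, hy]
  | tmul x m =>
    have h : ((inc n N) ∘ₗ (koszul μ n)) ∘ₗ ((TensorProduct.mk k (⋀[k]^(n + 1) W) M).flip m) =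
        ((Dm b μ) ∘ₗ (inc (n + 1) M)) ∘ₗ ((TensorProduct.mk k (⋀[k]^(n + 1) W) M).flip m) := by
      apply exteriorPower.linearMap_ext
      ext w
      change inc n N (koszul μ n (exteriorPower.ιMulti k (n + 1) w ⊗ₜ m)) =
        Dm b μ (inc (n + 1) M (exteriorPower.ιMulti k (n + 1) w ⊗ₜ m))
      rw [inc_tmul, exteriorPower.ιMulti_apply_coe, Dm_ιMulti]
      have h1 : koszul μ n (exteriorPower.ιMulti k (n + 1) w ⊗ₜ m) =
          ∑ p : Fin (n + 1), (-1 : ℤ) ^ (p : ℕ) •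
            (exteriorPower.ιMulti k n (p.removeNth w) ⊗ₜ[k] μ (w p) m) :=
        koszulMap_apply _ _ _ _
      rw [h1, map_sum]
      refine Finset.sum_congr rfl (fun p _ => ?_)
      rw [map_zsmul, inc_tmul]
      rfl
    exact LinearMap.congr_fun h x

end ext

end Run7.h109
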