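import Pool.Agent.Run7.h109.Kz

set_option autoImplicit false
set_option linter.unusedSectionVars false

open scoped TensorProduct
open Module

noncomputable section

namespace Run7.h109

variable {k : Type} [Field k]

section ext

variable {W M N : Type} [AddCommGroup W] [Module k W] [AddCommGroup M] [Module k M]
  [AddCommGroup N] [Module k N]

/-! ### Degrees -/

theorem mem_zero {e : EA k W} (he : e ∈ ⋀[k]^0 W) : ∃ c : k, e = algebraMap k _ c := by
  have h : e ∈ (1 : Submodule k (EA k W)) := he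
  rw [Submodule.mem_one] at h
  obtain ⟨c, hc⟩ := h
  exact ⟨c, hc.symm⟩

theorem ι_mul_mem {n : ℕ} (u : W) {e : EA k W} (he : e ∈ ⋀[k]^n W) :
    ExteriorAlgebra.ι k u * e ∈ ⋀[k]^(n + 1) W := by
  change _ ∈ LinearMap.range (ExteriorAlgebra.ι k) ^ (n + 1)
  rw [pow_succ']
  exact Submodule.mul_mem_mul ⟨u, rfl⟩ he

theorem deg_induction {n : ℕ} {C : EA k W → Prop} {e : EA k W} (he : e ∈ ⋀[k]^(n + 1) W)
    (hm : ∀ (u : W) (e : EA k W), e ∈ ⋀[k]^n W → C (ExteriorAlgebra.ι k u * e))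
    (ha : ∀ x y, C x → C y → C (x + y)) : C e := by
  have h : e ∈ LinearMap.range (ExteriorAlgebra.ι k) * (⋀[k]^n W) := by
    have h1 : e ∈ LinearMap.range (ExteriorAlgebra.ι k) ^ (n + 1) := he
    rw [pow_succ'] at h1
    exact h1
  refine Submodule.mul_induction_on h ?_ ha
  rintro _ ⟨u, rfl⟩ e he
  exact hm u e he

theorem ct_zero {φ : Dual k W} {e : EA k W} (he : e ∈ ⋀[k]^0 W) : ct φ e = 0 := by
  obtain ⟨c, rfl⟩ := mem_zero he
  exact CliffordAlgebra.contractLeft_algebraMap (Q := (0 : QuadraticForm k W)) φ c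

theorem ct_mem {n : ℕ} (φ : Dual k W) {e : EA k W} (he : e ∈ ⋀[k]^(n + 1) W) :
    ct φ e ∈ ⋀[k]^n W := by
  induction n generalizing e with
  | zero =>
    refine deg_induction (C := fun e => ct φ e ∈ ⋀[k]^0 W) he ?_ ?_
    · intro u e he
      rw [ct_mul, ct_zero he, mul_zero, sub_zero]
      exact Submodule.smul_mem _ _ he
    · intro x y hx hy
      rw [map_add]; exact add_mem hx hy
  | succ n ih =>
    refine deg_induction (C := fun e => ct φ e ∈ ⋀[k]^(n + 1) W) he ?_ ?_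
    · intro u e he
      rw [ct_mul]
      exact sub_mem (Submodule.smul_mem _ _ he) (ι_mul_mem u (ih he))
    · intro x y hx hy
      rw [map_add]; exact add_mem hx hy

variable {I : Type} [Fintype I] (b : Basis I k W)

theorem euler (n : ℕ) {e : EA k W} (he : e ∈ ⋀[k]^n W) :
    ∑ i, ExteriorAlgebra.ι k (b i) * ct (b.coord i) e = (n : k) • e := by
  induction n generalizing e with
  | zero =>
    rw [Nat.cast_zero, zero_smul]
    apply Finset.sum_eq_zero
    intro i _
    rw [ct_zero he, mul_zero]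
  | succ n ih =>
    refine deg_induction (C := fun e => ∑ i, ExteriorAlgebra.ι k (b i) * ct (b.coord i) e =
      ((n + 1 : ℕ) : k) • e) he ?_ ?_
    · intro u e he
      have h1 : ∀ i, ExteriorAlgebra.ι k (b i) * ct (b.coord i) (ExteriorAlgebra.ι k u * e) =
          ExteriorAlgebra.ι k (b.coord i u • b i) * e +
            ExteriorAlgebra.ι k u * (ExteriorAlgebra.ι k (b i) * ct (b.coord i) e) := by
        intro i
        rw [ct_mul, mul_sub, ← mul_assoc, ← mul_assoc, map_smul, mul_smul_comm, smul_mul_assoc,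
          eq_neg_of_add_eq_zero_left (ExteriorAlgebra.ι_add_mul_swap (b i) u), neg_mul, sub_neg_eq_add]
      rw [Finset.sum_congr rfl (fun i _ => h1 i), Finset.sum_add_distrib, ← Finset.mul_sum, ih he,
        ← Finset.sum_mul, ← map_sum]
      have h2 : ∑ i, b.coord i u • b i = u := b.sum_repr u
      rw [h2, mul_smul_comm, Nat.cast_succ, add_smul, one_smul, add_comm]
    · intro x y hx hy
      simp only [map_add, mul_add, smul_add, Finset.sum_add_distrib, hx, hy]

theorem euler' (n : ℕ) {e : EA k W} (he : e ∈ ⋀[k]^n W) :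
    ∑ i, ct (b.coord i) (ExteriorAlgebra.ι k (b i) * e) = ((Fintype.card I : k) - n) • e := by
  have h1 : ∀ i, ct (b.coord i) (ExteriorAlgebra.ι k (b i) * e) =
      e - ExteriorAlgebra.ι k (b i) * ct (b.coord i) e := by
    intro i
    rw [ct_mul, Basis.coord_apply, Basis.repr_self, Finsupp.single_eq_same, one_smul]
  rw [Finset.sum_congr rfl (fun i _ => h1 i), Finset.sum_sub_distrib, euler b n he,
    Finset.sum_const, sub_smul, Finset.card_univ]
  simp only [Nat.cast_smul_eq_nsmul]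

theorem euler_inc (n : ℕ) (z : (⋀[k]^n W) ⊗[k] M) :
    ∑ i, LinearMap.rTensor M (ct (b.coord i)) (Lu M (b i) (inc n M z)) =
      ((Fintype.card I : k) - n) • inc n M z := by
  induction z using TensorProduct.induction_on with
  | zero => simp only [map_zero, Finset.sum_const_zero, smul_zero]
  | add x y hx hy => simp only [map_add, Finset.sum_add_distrib, hx, hy, smul_add]
  | tmul x m =>
    rw [inc_tmul, TensorProduct.smul_tmul', ← euler' b n x.2, TensorProduct.sum_tmul]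
    rfl

include b in
theorem nondeg [CharZero k] {n : ℕ} (hn : n < Fintype.card I) (z : (⋀[k]^n W) ⊗[k] M)
    (h : ∀ u, Lu M u (inc n M z) = 0) : z = 0 := by
  have h1 := euler_inc b n z
  have h2 : ∑ i, LinearMap.rTensor M (ct (b.coord i)) (Lu M (b i) (inc n M z)) = 0 := by
    apply Finset.sum_eq_zero
    intro i _
    rw [h, map_zero]
  rw [h2] at h1
  have h3 : ((Fintype.card I : k) - n) ≠ 0 := by
    rw [sub_ne_zero]
    intro h4
    have := Nat.cast_injective h4
    omega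
  have h4 : inc n M z = 0 := (smul_eq_zero.1 h1.symm).resolve_left h3
  apply inc_inj n
  rw [h4, map_zero]

theorem exists_inc (n : ℕ) (u : W) (z : (⋀[k]^n W) ⊗[k] M) :
    ∃ z', inc (n + 1) M z' = Lu M u (inc n M z) := by
  induction z using TensorProduct.induction_on with
  | zero => exact ⟨0, by simp only [map_zero]⟩
  | add x y hx hy =>
    obtain ⟨x', hx'⟩ := hx
    obtain ⟨y', hy'⟩ := hy
    exact ⟨x' + y', by rw [map_add, hx', hy', map_add, map_add]⟩
  | tmul x m => exact ⟨⟨_, ι_mul_mem u x.2⟩ ⊗ₜ m, rfl⟩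

include b in
theorem nondeg2 [CharZero k] {n : ℕ} (hn : n + 1 < Fintype.card I) (z : (⋀[k]^n W) ⊗[k] M)
    (h : ∀ u v, Lu M u (Lu M v (inc n M z)) = 0) : z = 0 := by
  apply nondeg b (by omega) z
  intro v
  obtain ⟨z', hz'⟩ := exists_inc n v z
  have h1 : z' = 0 := by
    apply nondeg b hn z'
    intro u
    rw [hz', h]
  rw [← hz', h1, map_zero]

/-! ### Top degree -/

include b in
theorem vanish {n : ℕ} (hn : Fintype.card I < n) {e : EA k W} (he : e ∈ ⋀[k]^n W) : e = 0 := by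
  have hf : Module.Finite k W := Module.Finite.of_basis b
  have h1 : finrank k (⋀[k]^n W) = 0 := by
    rw [exteriorPower.finrank_eq, Module.finrank_eq_card_basis b, Nat.choose_eq_zero_of_lt hn]
  have h2 : Subsingleton (⋀[k]^n W) := Module.finrank_zero_iff.1 h1
  have h3 : (⟨e, he⟩ : ⋀[k]^n W) = 0 := Subsingleton.elim _ _
  exact congrArg Subtype.val h3

include b in
theorem inc_vanish {n : ℕ} (hn : Fintype.card I < n) (z : (⋀[k]^n W) ⊗[k] M) :
    inc n M z = 0 := by
  induction z using TensorProduct.induction_on with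
  | zero => exact map_zero _
  | add x y hx hy => rw [map_add, hx, hy, add_zero]
  | tmul x m => rw [inc_tmul, vanish b hn x.2, TensorProduct.zero_tmul]

include b in
theorem exists_top : ∃ (Ω : EA k W) (l : EA k W →ₗ[k] k), Ω ∈ ⋀[k]^(Fintype.card I) W ∧
    l Ω = 1 ∧ ∀ e ∈ ⋀[k]^(Fintype.card I) W, e = l e • Ω := by
  have hf : Module.Finite k W := Module.Finite.of_basis b
  have h1 : finrank k (⋀[k]^(Fintype.card I) W) = 1 := by
    rw [exteriorPower.finrank_eq, Module.finrank_eq_card_basis b, Nat.choose_self]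
  obtain ⟨v, hv, hw⟩ := finrank_eq_one_iff'.1 h1
  have hv' : (v : EA k W) ≠ 0 := fun h => hv (Subtype.ext h)
  obtain ⟨l, hl⟩ := Projective.exists_dual_eq_one k hv'
  refine ⟨v, l, v.2, hl, ?_⟩
  intro e he
  obtain ⟨c, hc⟩ := hw ⟨e, he⟩
  have h2 : e = c • (v : EA k W) := (congrArg Subtype.val hc).symm
  have h3 : l e = c := by rw [h2, map_smul, hl, smul_eq_mul, mul_one]
  rw [h3, ← h2]

/-- apply a linear form -/
def Lam (l : EA k W →ₗ[k] k) (M : Type) [AddCommGroup M] [Module k M] : EA k W ⊗[k] M →ₗ[k] M :=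
  (TensorProduct.lid k M).toLinearMap ∘ₗ LinearMap.rTensor M l

theorem Lam_tmul (l : EA k W →ₗ[k] k) (e : EA k W) (m : M) : Lam l M (e ⊗ₜ m) = l e • m := rfl

theorem Lam_Mu (l : EA k W →ₗ[k] k) (f : M →ₗ[k] N) (ξ : EA k W ⊗[k] M) :
    Lam l N (Mu f ξ) = f (Lam l M ξ) := by
  induction ξ using TensorProduct.induction_on with
  | zero => simp only [map_zero]
  | add x y hx hy => simp only [map_add, hx, hy]
  | tmul x m => rw [Mu_tmul, Lam_tmul, Lam_tmul, map_smul]

theorem top_eq {r : ℕ} {Ω : EA k W} {l : EA k W →ₗ[k] k}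
    (hl : ∀ e ∈ ⋀[k]^r W, e = l e • Ω) (z : (⋀[k]^r W) ⊗[k] M) :
    inc r M z = Ω ⊗ₜ Lam l M (inc r M z) := by
  induction z using TensorProduct.induction_on with
  | zero => simp only [map_zero, TensorProduct.tmul_zero]
  | add x y hx hy =>
    rw [map_add, map_add, TensorProduct.tmul_add, ← hx, ← hy]
  | tmul x m =>
    rw [inc_tmul, Lam_tmul, TensorProduct.tmul_smul, TensorProduct.smul_tmul']
    congr 1
    exact hl x x.2

theorem Lu_add (u v : W) (ξ : EA k W ⊗[k] M) : Lu M (u + v) ξ = Lu M u ξ + Lu M v ξ := by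
  induction ξ using TensorProduct.induction_on with
  | zero => simp only [map_zero, add_zero]
  | add x y hx hy =>
    simp only [map_add, hx, hy]
    abel
  | tmul e m => rw [Lu_tmul, Lu_tmul, Lu_tmul, map_add, add_mul, TensorProduct.add_tmul]

theorem Lu_smul (c : k) (u : W) (ξ : EA k W ⊗[k] M) : Lu M (c • u) ξ = c • Lu M u ξ := by
  induction ξ using TensorProduct.induction_on with
  | zero => simp only [map_zero, smul_zero]
  | add x y hx hy => simp only [map_add, hx, hy, smul_add]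
  | tmul e m => rw [Lu_tmul, Lu_tmul, map_smul, smul_mul_assoc, TensorProduct.smul_tmul']

end ext

/-! ### The criterion -/

section main

variable [CharZero k] {W M₀ K : Type} [AddCommGroup W] [Module k W] [AddCommGroup M₀] [Module k M₀]
  [CommRing K] [Algebra k K] {q : ℕ}

/-- The complex is exact if the alternating solutions of the Koszul relation are trivial. -/
theorem koszul_ker_le (b : Basis (Fin (q + 3)) k W) (t : W →ₗ[k] K) (μ : W →ₗ[k] W →ₗ[k] K)
    (hμ : ∀ u v, μ u v = t u * t v) (μ0 : W →ₗ[k] M₀ →ₗ[k] W) (e0 : M₀)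
    (he0 : ∀ w, μ0 w e0 = w)
    (hyp : ∀ a : W →ₗ[k] W →ₗ[k] W, (∀ u, a u u = 0) →
      (∀ u v w, t u * t (a v w) - t v * t (a u w) + t w * t (a u v) = 0) →
      ∃ γ : W →ₗ[k] k, ∀ u v, a u v = γ u • v - γ v • u) :
    LinearMap.ker (koszul μ q) ≤ LinearMap.range (koszul μ0 (q + 1)) := by
  intro z hz
  have hc : Fintype.card (Fin (q + 3)) = q + 3 := Fintype.card_fin _
  obtain ⟨Ω, l, hΩ, hlΩ, hl⟩ := exists_top b
  rw [hc] at hΩ hl
  set α := inc (q + 1) W z with hα
  have hD : Dm b μ α = 0 := by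
    rw [hα, ← inc_koszul, LinearMap.mem_ker.1 hz, map_zero]
  -- the bilinear map
  let a : W →ₗ[k] W →ₗ[k] W := LinearMap.mk₂ k (fun u v => Lam l W (Lu W u (Lu W v α)))
    (fun u u' v => by rw [Lu_add, map_add])
    (fun c u v => by rw [Lu_smul, map_smul])
    (fun u v v' => by rw [Lu_add, map_add, map_add])
    (fun c u v => by rw [Lu_smul, map_smul, map_smul])
  have ha : ∀ u v, a u v = Lam l W (Lu W u (Lu W v α)) := fun u v => rfl
  have h3 : ∀ u v w, Lu W u (Lu W v (Lu W w α)) = 0 := by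
    intro u v w
    obtain ⟨z1, hz1⟩ := exists_inc (q + 1) w z
    obtain ⟨z2, hz2⟩ := exists_inc (q + 1 + 1) v z1
    obtain ⟨z3, hz3⟩ := exists_inc (q + 1 + 1 + 1) u z2
    rw [hα, ← hz1, ← hz2, ← hz3]
    exact inc_vanish b (by rw [hc]; omega) z3
  have h2 : ∀ u v, Lu W u (Lu W v α) = Ω ⊗ₜ a u v := by
    intro u v
    obtain ⟨z1, hz1⟩ := exists_inc (q + 1) v z
    obtain ⟨z2, hz2⟩ := exists_inc (q + 1 + 1) u z1
    have h := top_eq hl z2
    rw [hz2, hz1] at h
    exact h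
  have h4 : ∀ u v w, Mu (μ u) (Lu W v (Lu W w α)) - Mu (μ v) (Lu W u (Lu W w α)) +
      Mu (μ w) (Lu W u (Lu W v α)) = 0 := by
    intro u v w
    have e1 := Dm_Lu b μ u (Lu W v (Lu W w α))
    rw [h3, map_zero, Dm_Lu, Dm_Lu, hD, map_zero, sub_zero, map_sub, Lu_Mu, Lu_Mu, Lu_Mu] at e1
    rw [e1]
    abel
  obtain ⟨γ, hγ⟩ := hyp a (fun u => by rw [ha, Lu_Lu_self, map_zero]) (by
    intro u v w
    have e := congrArg (Lam l K) (h4 u v w)
    rw [map_add, map_sub, Lam_Mu, Lam_Mu, Lam_Mu, map_zero, hμ, hμ, hμ] at e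
    exact e)
  -- the preimage
  have hβ : ct γ Ω ∈ ⋀[k]^(q + 2) W := ct_mem γ hΩ
  have hvan : ∀ v, ExteriorAlgebra.ι k v * Ω = 0 := fun v =>
    vanish b (by rw [hc]; omega) (ι_mul_mem v hΩ)
  have h5 : ∀ v, Lu M₀ v (ct γ Ω ⊗ₜ[k] e0) = γ v • (Ω ⊗ₜ[k] e0) := by
    intro v
    have e1 := ct_mul γ v Ω
    rw [hvan, map_zero] at e1
    rw [Lu_tmul, ← sub_eq_zero.1 e1.symm, TensorProduct.smul_tmul']
  have h6 : ∀ u, Lu W u (Dm b μ0 (Ω ⊗ₜ[k] e0)) = Ω ⊗ₜ[k] u := by
    intro u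
    have e1 := Dm_Lu b μ0 u (Ω ⊗ₜ[k] e0)
    rw [Lu_tmul, hvan, TensorProduct.zero_tmul, map_zero, Mu_tmul, he0] at e1
    exact (sub_eq_zero.1 e1.symm).symm
  have h7 : ∀ u v, Lu W u (Lu W v (Dm b μ0 (ct γ Ω ⊗ₜ[k] e0))) = Ω ⊗ₜ[k] a u v := by
    intro u v
    have e1 := Dm_Lu b μ0 v (ct γ Ω ⊗ₜ[k] e0)
    rw [h5, map_smul, Mu_tmul, he0] at e1
    have e2 : Lu W v (Dm b μ0 (ct γ Ω ⊗ₜ[k] e0)) =
        ct γ Ω ⊗ₜ[k] v - γ v • Dm b μ0 (Ω ⊗ₜ[k] e0) := by
      rw [e1, sub_sub_cancel]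
    rw [e2, map_sub, map_smul, h6, Lu_tmul]
    have e3 := ct_mul γ u Ω
    rw [hvan, map_zero] at e3
    rw [← sub_eq_zero.1 e3.symm, hγ, TensorProduct.tmul_sub, TensorProduct.tmul_smul,
      TensorProduct.tmul_smul, TensorProduct.smul_tmul', TensorProduct.smul_tmul']
  refine ⟨⟨ct γ Ω, hβ⟩ ⊗ₜ e0, ?_⟩
  symm
  rw [← sub_eq_zero]
  apply nondeg2 b (by rw [hc]; omega)
  intro u v
  rw [map_sub, map_sub, map_sub, inc_koszul b μ0, inc_tmul, h7, ← hα, h2, sub_self]

end main

end Run7.h109
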