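import Pool.Agent.Run7.h109.Prs

set_option autoImplicit false
set_option linter.unusedSectionVars false

open LaurentPolynomial

noncomputable section

namespace Run7.h109

variable {k : Type} [Field k] [CharZero k]

variable (k) in
/-- the trace -/
def tr : K k →ₗ[k] k where
  toFun g := (g 1 + g 2 - 2 * g 0).coeff 5
  map_add' g h := by
    have e : (g + h) 1 + (g + h) 2 - 2 * (g + h) 0 =
      (g 1 + g 2 - 2 * g 0) + (h 1 + h 2 - 2 * h 0) := by
      simp only [Pi.add_apply]; ring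
    rw [e]
    rfl
  map_smul' c g := by
    have e : (c • g) 1 + (c • g) 2 - 2 * (c • g) 0 = c • (g 1 + g 2 - 2 * g 0) := by
      simp only [Pi.smul_apply]
      rw [smul_sub, smul_add, mul_smul_comm]
    rw [e]
    rfl

theorem tr_apply (g : K k) : tr k g = (g 1 + g 2 - 2 * g 0).coeff 5 := rfl

/-- monomials -/
def mono (n : ℤ) (i : Fin 3) : K k := Pi.single i (T n)

variable (k) in
/-- the coefficients of the trace -/
def cc : Fin 3 → k := ![-2, 1, 1]

theorem cc_ne (i : Fin 3) : cc k i ≠ 0 := by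
  fin_cases i
  · exact neg_ne_zero.2 two_ne_zero
  · exact one_ne_zero
  · exact one_ne_zero

theorem coeff_two_mul (p : L k) (e : ℤ) : (2 * p).coeff e = 2 * p.coeff e := by
  rw [two_mul, two_mul]; rfl

theorem tr_mono (n : ℤ) (i : Fin 3) (h : K k) :
    tr k (mono n i * h) = cc k i * (h i).coeff (5 - n) := by
  rw [tr_apply]
  have hc : ∀ j, ((mono n i : K k) * h) j = if j = i then T n * h i else 0 := by
    intro j
    rw [Pi.mul_apply, mono]
    by_cases hj : j = i
    · subst hj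
      rw [Pi.single_eq_same, if_pos rfl]
    · rw [Pi.single_eq_of_ne hj, zero_mul, if_neg hj]
  rw [hc, hc, hc]
  fin_cases i
  · change ((0 : L k) + 0 - 2 * (T n * h 0)).coeff 5 = -2 * (h 0).coeff (5 - n)
    have e : ((0 : L k) + 0 - 2 * (T n * h 0)) = - (2 * (T n * h 0)) := by ring
    rw [e]
    change - ((2 * (T n * h 0)).coeff 5) = _
    rw [coeff_two_mul, coeff_T_mul, neg_mul]
  · change ((T n * h 1) + 0 - 2 * 0 : L k).coeff 5 = 1 * (h 1).coeff (5 - n)
    have e : ((T n * h 1) + 0 - 2 * 0 : L k) = T n * h 1 := by ring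
    rw [e, coeff_T_mul, one_mul]
  · change (0 + (T n * h 2) - 2 * 0 : L k).coeff 5 = 1 * (h 2).coeff (5 - n)
    have e : (0 + (T n * h 2) - 2 * 0 : L k) = T n * h 2 := by ring
    rw [e, coeff_T_mul, one_mul]

theorem tr_A {g : K k} (hg : g ∈ A k) : tr k g = 0 := hg.2.2 5 (by norm_num)

theorem tr_NB {g : K k} (hg : g ∈ NB (k := k) ![4, 4, 4]) : tr k g = 0 := by
  have h : ∀ i, g i ∈ hi k 4 := by
    intro i
    have := hg i
    fin_cases i <;> exact this
  have h1 : g 1 + g 2 - 2 * g 0 ∈ hi k 4 := by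
    rw [two_mul]
    exact sub_mem (add_mem (h 1) (h 2)) (add_mem (h 0) (h 0))
  exact h1 5 (by norm_num)

theorem dg_T (n : ℕ) : (fun _ : Fin 3 => (T n : L k)) = ((xA k : A k) : K k) ^ n := by
  have : ((xA k : A k) : K k) ^ n = fun _ => T (n * 1) := T_pow' 1 n
  rw [this]; simp

theorem A_perp {g : K k} (h : ∀ a ∈ A k, tr k (a * g) = 0) : g ∈ A k := by
  have h6 : g 1 + g 2 - 2 * g 0 ∈ lo k 6 := by
    intro e he
    have h1 := h (((xA k : A k) : K k) ^ (5 - e).toNat) ((A k).pow_mem (xA k).2 _)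
    rw [← dg_T, tr_apply] at h1
    have e1 : ((fun _ => T ((5 - e).toNat : ℤ) : K k) * g) 1 +
      ((fun _ => T ((5 - e).toNat : ℤ) : K k) * g) 2 -
        2 * ((fun _ => T ((5 - e).toNat : ℤ) : K k) * g) 0 =
        T ((5 - e).toNat : ℤ) * (g 1 + g 2 - 2 * g 0) := by
      simp only [Pi.mul_apply]; ring
    rw [e1, coeff_T_mul] at h1
    have e2 : 5 - ((5 - e).toNat : ℤ) = e := by omega
    rw [e2] at h1
    exact h1
  have h3 : g 1 - g 2 ∈ lo k 3 := by
    intro e he
    have h1 := h (((xA k : A k) : K k) ^ (2 - e).toNat * (yA k : A k))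
      ((A k).mul_mem ((A k).pow_mem (xA k).2 _) (yA k).2)
    rw [← dg_T, tr_apply] at h1
    have e1 : ((fun _ => T ((2 - e).toNat : ℤ) : K k) * ((yA k : A k) : K k) * g) 1 +
      ((fun _ => T ((2 - e).toNat : ℤ) : K k) * ((yA k : A k) : K k) * g) 2 -
        2 * ((fun _ => T ((2 - e).toNat : ℤ) : K k) * ((yA k : A k) : K k) * g) 0 =
        T ((2 - e).toNat : ℤ) * (T 3 * (g 1 - g 2)) := by
      change T ((2 - e).toNat : ℤ) * T 3 * g 1 + T ((2 - e).toNat : ℤ) * (- T 3) * g 2 -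
        2 * (T ((2 - e).toNat : ℤ) * 0 * g 0) = _
      ring
    rw [e1, coeff_T_mul, coeff_T_mul] at h1
    have e2 : 5 - ((2 - e).toNat : ℤ) - 3 = e := by omega
    rw [e2] at h1
    exact h1
  have h0 : g 1 + g 2 ∈ lo k 0 := by
    intro e he
    have h1 := h (((xA k : A k) : K k) ^ (- 1 - e).toNat * ((yA k : A k) : K k) ^ 2)
      ((A k).mul_mem ((A k).pow_mem (xA k).2 _) ((A k).pow_mem (yA k).2 _))
    rw [← dg_T, tr_apply] at h1
    have e6 : (T 6 : L k) = T 3 * T 3 := by rw [← T_add]; norm_num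
    have e1 : ((fun _ => T ((- 1 - e).toNat : ℤ) : K k) * ((yA k : A k) : K k) ^ 2 * g) 1 +
      ((fun _ => T ((- 1 - e).toNat : ℤ) : K k) * ((yA k : A k) : K k) ^ 2 * g) 2 -
        2 * ((fun _ => T ((- 1 - e).toNat : ℤ) : K k) * ((yA k : A k) : K k) ^ 2 * g) 0 =
        T ((- 1 - e).toNat : ℤ) * (T 6 * (g 1 + g 2)) := by
      change T ((- 1 - e).toNat : ℤ) * (T 3) ^ 2 * g 1 +
        T ((- 1 - e).toNat : ℤ) * (- T 3) ^ 2 * g 2 -
        2 * (T ((- 1 - e).toNat : ℤ) * 0 ^ 2 * g 0) = _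
      rw [e6]
      ring
    rw [e1, coeff_T_mul, coeff_T_mul] at h1
    have e2 : 5 - ((- 1 - e).toNat : ℤ) - 6 = e := by omega
    rw [e2] at h1
    exact h1
  have h3' := lo_mono (k := k) (show (0 : ℤ) ≤ 3 by norm_num) h3
  have h6' := lo_mono (k := k) (show (0 : ℤ) ≤ 6 by norm_num) h6
  refine ⟨?_, h3, h6⟩
  intro i
  fin_cases i
  · apply two_smul_mem
    have e : 2 * g 0 = (g 1 + g 2) - (g 1 + g 2 - 2 * g 0) := by ring
    change 2 * g 0 ∈ _
    rw [e]; exact sub_mem h0 h6'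
  · apply two_smul_mem
    have e : 2 * g 1 = (g 1 + g 2) + (g 1 - g 2) := by ring
    change 2 * g 1 ∈ _
    rw [e]; exact add_mem h0 h3'
  · apply two_smul_mem
    have e : 2 * g 2 = (g 1 + g 2) - (g 1 - g 2) := by ring
    change 2 * g 2 ∈ _
    rw [e]; exact sub_mem h0 h3'

theorem mono_mem_B {n : ℤ} (hn : n ≤ 0) (i : Fin 3) : (mono n i : K k) ∈ B k := by
  intro j
  rw [mono]
  by_cases h : j = i
  · subst h; rw [Pi.single_eq_same]; exact T_mem_hi hn
  · rw [Pi.single_eq_of_ne h]; exact zero_mem _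

theorem B_perp {g : K k} (h : ∀ b ∈ B k, tr k (b * g) = 0) : g ∈ NB (k := k) ![4, 4, 4] := by
  have key : ∀ i, g i ∈ hi k 4 := by
    intro i e he
    have h1 := h (mono (5 - e) i) (mono_mem_B (by omega) i)
    rw [tr_mono] at h1
    have h2 := (mul_eq_zero.1 h1).resolve_left (cc_ne i)
    rw [sub_sub_cancel] at h2
    exact h2
  intro i
  have := key i
  fin_cases i <;> exact this

theorem K_perp {g : K k} (h : ∀ a : K k, tr k (a * g) = 0) : g = 0 := by
  ext1 i
  ext e
  have h1 := h (mono (5 - e) i)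
  rw [tr_mono] at h1
  have h2 := (mul_eq_zero.1 h1).resolve_left (cc_ne i)
  rw [sub_sub_cancel] at h2
  exact h2

omit [CharZero k] in
theorem exists_lau (c : ℤ → k) (a b : ℤ) (h : ∀ m, m < a ∨ b < m → c m = 0) :
    ∃ p : L k, ∀ m, p.coeff m = c m := by
  obtain ⟨p, hp, hp'⟩ := coe_surj' k (Finset.Icc a b) (fun e => c e)
  refine ⟨p, fun m => ?_⟩
  by_cases hm : m ∈ Finset.Icc a b
  · exact congrFun hp ⟨m, hm⟩
  · rw [hp' m hm, h m (by rw [Finset.mem_Icc] at hm; omega)]

/-- linear forms which agree on monomials agree -/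
theorem lin_ext {V : Type} [AddCommGroup V] [Module k V] (f g : K k →ₗ[k] V)
    (h : ∀ n i, f (mono n i) = g (mono n i)) : f = g := by
  apply LinearMap.pi_ext
  intro i x
  induction x using LaurentPolynomial.induction_on' with
  | add p q hp hq => rw [Pi.single_add, map_add, map_add, hp, hq]
  | C_mul_T n a =>
    have e : (Pi.single i (C a * T n) : K k) = a • mono n i := by
      rw [mono, ← Pi.single_smul, ← LaurentPolynomial.smul_eq_C_mul]
    rw [e, map_smul, map_smul, h]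

end Run7.h109
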