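import Pool.Agent.Run7.h109.Kz2
import Pool.Agent.Run7.h109.Tr

set_option autoImplicit false
set_option linter.unusedSectionVars false

open AlgebraicGeometry CategoryTheory TopologicalSpace Opposite LaurentPolynomial Module

noncomputable section

namespace Run7.h109

variable {k : Type} [Field k] [CharZero k]

/-! ### The Koszul relation -/

section rel

variable {W : Type} [AddCommGroup W] [Module k W] (t : W →ₗ[k] K k)
  (ht : Function.Injective t)
  (h04 : ∀ w i, t w i ∈ lo k 0 ∧ t w i ∈ hi k 4)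
  (hd : ∀ w, t w 1 - t w 2 ∈ lo k 3)
  (hs : ∀ w, t w 1 + t w 2 = 2 * t w 0)
  (one x4 y3 y4 : W) (h1 : t one = 1) (hx4 : t x4 = fun _ => T 4)
  (hy3 : t y3 = ![0, T 3, - T 3]) (hy4 : t y4 = ![0, T 4, - T 4])

theorem coeff_sub' (p q : L k) (e : ℤ) : (p - q).coeff e = p.coeff e - q.coeff e := rfl

theorem coeff_add' (p q : L k) (e : ℤ) : (p + q).coeff e = p.coeff e + q.coeff e := rfl

theorem coeff_smul' (c : k) (p : L k) (e : ℤ) : (c • p).coeff e = c * p.coeff e := rfl

theorem two_inj {p q : L k} (h : 2 * p = 2 * q) : p = q := by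
  ext e
  have h1 := congrArg (fun r : L k => r.coeff e) h
  simp only [coeff_two_mul] at h1
  exact mul_left_cancel₀ two_ne_zero h1

include hs hd h04 in
/-- the first step -/
theorem step_y {n : ℤ} (hn : n = 3 ∨ n = 4) {f u v : W}
    (h : t u + (fun _ => T 4) * t v = ![0, T n, - T n] * t f) :
    t f 1 = t f 2 ∧ (t f 0).coeff (5 - n) = 0 ∧ (t f 0).coeff (6 - n) = 0 := by
  have e0 : t u 0 + T 4 * t v 0 = 0 := by
    have := congrFun h 0
    change t u 0 + T 4 * t v 0 = 0 * t f 0 at this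
    rw [zero_mul] at this
    exact this
  have e1 : t u 1 + T 4 * t v 1 = T n * t f 1 := congrFun h 1
  have e2 : t u 2 + T 4 * t v 2 = - T n * t f 2 := congrFun h 2
  have h12 : t f 1 = t f 2 := by
    have e3 : T n * (t f 1 - t f 2) = 0 := by
      have : T n * (t f 1 - t f 2) = (t u 1 + t u 2) + T 4 * (t v 1 + t v 2) := by
        rw [mul_sub, ← e1, sub_eq_add_neg, ← neg_mul, ← e2]; ring
      rw [this, hs, hs]
      have : 2 * t u 0 + T 4 * (2 * t v 0) = 2 * (t u 0 + T 4 * t v 0) := by ring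
      rw [this, e0, mul_zero]
    have e4 : t f 1 - t f 2 = 0 := by
      have : T (-n) * (T n * (t f 1 - t f 2)) = T (-n) * 0 := congrArg (fun p => T (-n) * p) e3
      rw [← mul_assoc, ← T_add, neg_add_cancel, T_zero, one_mul, mul_zero] at this
      exact this
    exact sub_eq_zero.1 e4
  have hf0 : 2 * t f 0 = 2 * t f 1 := by rw [← hs, ← h12, two_mul]
  have hf0' : t f 0 = t f 1 := two_inj hf0
  have e5 : (t u 1 - t u 2) + T 4 * (t v 1 - t v 2) = T n * (2 * t f 0) := by
    have : (t u 1 - t u 2) + T 4 * (t v 1 - t v 2) =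
      (t u 1 + T 4 * t v 1) - (t u 2 + T 4 * t v 2) := by ring
    rw [this, e1, e2, ← h12, hf0']; ring
  have e6 : ∀ e : ℤ, e = 5 ∨ e = 6 → (t f 0).coeff (e - n) = 0 := by
    intro e he
    have e7 := congrArg (fun p : L k => p.coeff e) e5
    simp only [coeff_add', coeff_T_mul, coeff_two_mul] at e7
    have e8 : (t u 1 - t u 2).coeff e = 0 := by
      have : t u 1 - t u 2 ∈ hi k 4 := sub_mem (h04 u 1).2 (h04 u 2).2
      exact this e (by omega)
    have e9 : (t v 1 - t v 2).coeff (e - 4) = 0 := hd v _ (by omega)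
    rw [e8, e9, add_zero] at e7
    exact (mul_eq_zero.1 e7.symm).resolve_left two_ne_zero
  exact ⟨h12, e6 5 (Or.inl rfl), e6 6 (Or.inr rfl)⟩

include hs hd h04 ht h1 hx4 in
/-- the second step -/
theorem step_f {f : W} (h12 : t f 1 = t f 2) (c1 : (t f 0).coeff 1 = 0)
    (c2 : (t f 0).coeff 2 = 0) (c3 : (t f 0).coeff 3 = 0) :
    ∃ α β : k, f = α • one + β • x4 := by
  refine ⟨(t f 0).coeff 0, (t f 0).coeff 4, ht ?_⟩
  rw [map_add, map_smul, map_smul, h1, hx4]
  have hf0 : 2 * t f 0 = 2 * t f 1 := by rw [← hs, ← h12, two_mul]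
  have hf0' : t f 0 = t f 1 := two_inj hf0
  have key : t f 0 = (t f 0).coeff 0 • (1 : L k) + (t f 0).coeff 4 • (T 4 : L k) := by
    ext e
    rw [coeff_add', coeff_smul', coeff_smul', ← T_zero, T_apply, T_apply]
    by_cases he : e < 0
    · rw [(h04 f 0).1 e he, if_neg (by omega), if_neg (by omega), mul_zero, mul_zero, add_zero]
    · by_cases he' : 4 < e
      · rw [(h04 f 0).2 e he', if_neg (by omega), if_neg (by omega), mul_zero, mul_zero, add_zero]
      · have : e = 0 ∨ e = 1 ∨ e = 2 ∨ e = 3 ∨ e = 4 := by omega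
        rcases this with rfl | rfl | rfl | rfl | rfl
        · simp
        · rw [c1]; simp
        · rw [c2]; simp
        · rw [c3]; simp
        · simp
  ext1 i
  change t f i = (t f 0).coeff 0 • (1 : L k) + (t f 0).coeff 4 • (T 4 : L k)
  rw [← key]
  fin_cases i
  · rfl
  · exact hf0'.symm
  · exact (hf0'.trans h12).symm

include hs hd h04 ht h1 in
/-- the third step -/
theorem step_g {g h : W} (e : (fun _ => T 4) * t g = t h) :
    g = (t g 0).coeff 0 • one := by
  apply ht
  rw [map_smul, h1]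
  have e0 : ∀ i, t g i ∈ hi k 0 := by
    intro i
    have e1 : T 4 * t g i = t h i := congrFun e i
    have e2 := (h04 h i).2
    rw [← e1, T_mul_mem_hi] at e2
    simpa using e2
  have e12 : t g 1 = t g 2 := by
    have e3 : t g 1 - t g 2 = 0 := by
      ext m
      by_cases hm : m < 3
      · exact hd g m hm
      · exact (sub_mem (e0 1) (e0 2)) m (by omega)
    exact sub_eq_zero.1 e3
  have hf0 : 2 * t g 0 = 2 * t g 1 := by rw [← hs, ← e12, two_mul]
  have hf0' : t g 0 = t g 1 := two_inj hf0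
  have key : t g 0 = (t g 0).coeff 0 • (1 : L k) := by
    ext m
    rw [coeff_smul', ← T_zero, T_apply]
    rcases lt_trichotomy m 0 with hm | hm | hm
    · rw [(h04 g 0).1 m hm, if_neg (by omega), mul_zero]
    · subst hm; simp
    · rw [e0 0 m hm, if_neg (by omega), mul_zero]
  ext1 i
  change t g i = (t g 0).coeff 0 • (1 : L k)
  rw [← key]
  fin_cases i
  · rfl
  · exact hf0'.symm
  · exact (hf0'.trans e12).symm

include hs hd h04 ht h1 hx4 hy3 hy4 in
theorem relation (a : W →ₗ[k] W →ₗ[k] W)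
    (ha : ∀ u v w, t u * t (a v w) - t v * t (a u w) + t w * t (a u v) = 0) :
    ∃ γ : W →ₗ[k] k, ∀ u v, a u v = γ u • v - γ v • u := by
  have r : ∀ v w, t (a v w) = t v * t (a one w) - t w * t (a one v) := by
    intro v w
    have h := ha one v w
    rw [h1, one_mul] at h
    have h2 : t (a v w) - (t v * t (a one w) - t w * t (a one v)) = 0 := by
      rw [← h]; ring
    exact sub_eq_zero.1 h2
  have hy : ∀ (n : ℤ) (y : W), t y = ![0, T n, - T n] →
      t (a y x4) + (fun _ => T 4) * t (a one y) = ![0, T n, - T n] * t (a one x4) := by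
    intro n y hy
    rw [r y x4, hy, hx4]; ring
  obtain ⟨s1, s2, s3⟩ := step_y t h04 hd hs (Or.inl rfl) (hy 3 y3 hy3)
  obtain ⟨-, s4, s5⟩ := step_y t h04 hd hs (Or.inr rfl) (hy 4 y4 hy4)
  norm_num at s2 s3 s4 s5
  obtain ⟨α, β, hf⟩ := step_f t ht h04 hd hs one x4 h1 hx4 s1 s4 s2 s3
  have hb : ∀ w, a one w - β • w = (t (a one w - β • w) 0).coeff 0 • one := by
    intro w
    apply step_g t ht h04 hd hs one h1 (h := α • w - a w x4)
    rw [map_sub, map_sub, r w x4, hf, map_smul, map_smul, map_add, map_smul, map_smul, h1, hx4,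
      Algebra.smul_def, Algebra.smul_def, Algebra.smul_def, Algebra.smul_def]
    ring
  let cf : K k →ₗ[k] k :=
    { toFun := fun g => (g 0).coeff 0
      map_add' := fun _ _ => rfl
      map_smul' := fun _ _ => rfl }
  let γ : W →ₗ[k] k := - ((cf ∘ₗ t) ∘ₗ (a one - β • LinearMap.id))
  have hγ : ∀ w, a one w = β • w - γ w • one := by
    intro w
    have h2 : γ w = - (t (a one w - β • w) 0).coeff 0 := rfl
    rw [h2, neg_smul, ← hb w]
    abel
  refine ⟨γ, fun u v => ht ?_⟩
  rw [r u v, hγ u, hγ v]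
  simp only [map_sub, map_smul, h1, Algebra.smul_def]
  ring

end rel

end Run7.h109
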