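import Pool.Agent.Run7.h109.Kz3
import Pool.Agent.Run7.h109.Adm

set_option autoImplicit false
set_option linter.unusedSectionVars false

open AlgebraicGeometry CategoryTheory TopologicalSpace Opposite LaurentPolynomial Module
open scoped TensorProduct

noncomputable section

namespace Run7.h109

variable {k : Type} [Field k] [CharZero k]

/-! ### Change of the target -/

section

omit [CharZero k]

variable {W M N N' : Type} [AddCommGroup W] [Module k W] [AddCommGroup M] [Module k M]
  [AddCommGroup N] [Module k N] [AddCommGroup N'] [Module k N'] {I : Type} [Fintype I]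
  (b : Basis I k W)

include b in
theorem koszul_compr (μ : W →ₗ[k] M →ₗ[k] N) (π : N →ₗ[k] N') (n : ℕ)
    (z : (⋀[k]^(n + 1) W) ⊗[k] M) (h : koszul μ n z = 0) : koszul (μ.compr₂ π) n z = 0 := by
  apply inc_inj n
  rw [inc_koszul b, map_zero]
  have h1 : ∀ ξ : EA k W ⊗[k] M, Dm b (μ.compr₂ π) ξ = Mu π (Dm b μ ξ) := by
    intro ξ
    induction ξ using TensorProduct.induction_on with
    | zero => simp only [map_zero]
    | add x y hx hy => simp only [map_add, hx, hy]
    | tmul e m =>
      rw [Dm_tmul, Dm_tmul, map_sum]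
      rfl
  rw [h1, ← inc_koszul b, h, map_zero, map_zero]

end

variable (k) in
/-- the space of global sections -/
abbrev HH : Type := Sec (C := crv k) (Pω k).F ⊤

variable (k) in
/-- the model of the global sections -/
def tH : HH k →ₗ[k] K k := (Pω k).E.t (pT k)

theorem tH_inj : Function.Injective (tH k) := by
  apply (Pω k).E.t_inj (pT k)
  intro s t h
  exact (Pω k).D.S.val_inj h

theorem tH_mem (w : HH k) : tH k w ∈ A k ∧ tH k w ∈ NB (k := k) ![4, 4, 4] := (Pω k).t_top w

theorem tH_04 (w : HH k) (i : Fin 3) : tH k w i ∈ lo k 0 ∧ tH k w i ∈ hi k 4 := by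
  refine ⟨(tH_mem w).1.1 i, ?_⟩
  have := (tH_mem w).2 i
  fin_cases i <;> exact this

theorem tH_d (w : HH k) : tH k w 1 - tH k w 2 ∈ lo k 3 := (tH_mem w).1.2.1

theorem tH_s (w : HH k) : tH k w 1 + tH k w 2 = 2 * tH k w 0 := by
  have h1 : tH k w 1 + tH k w 2 - 2 * tH k w 0 ∈ lo k 6 := (tH_mem w).1.2.2
  have h2 : tH k w 1 + tH k w 2 - 2 * tH k w 0 ∈ hi k 4 := by
    rw [two_mul]
    exact sub_mem (add_mem (tH_04 w 1).2 (tH_04 w 2).2) (add_mem (tH_04 w 0).2 (tH_04 w 0).2)
  have h3 : tH k w 1 + tH k w 2 - 2 * tH k w 0 = 0 := by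
    ext e
    by_cases he : e < 6
    · exact h1 e he
    · exact h2 e (by omega)
  exact sub_eq_zero.1 h3

theorem exists_tH {g : K k} (h : ∀ i, g i ∈ lo k 0 ∧ g i ∈ hi k 4) (hd : g 1 - g 2 ∈ lo k 3)
    (hs : g 1 + g 2 = 2 * g 0) : ∃ w : HH k, tH k w = g := by
  apply (Pω k).exists_top
  · refine ⟨fun i => (h i).1, hd, ?_⟩
    rw [hs, sub_self]; exact zero_mem _
  · intro i
    have := (h i).2
    fin_cases i <;> exact this

theorem finrank_HH : finrank k (HH k) = 7 ∧ Module.Finite k (HH k) := by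
  let f : HH k →ₗ[k] (↥(lo k 0 ⊓ hi k 4) × ↥(lo k 3 ⊓ hi k 4)) :=
    { toFun := fun w => (⟨tH k w 0, tH_04 w 0⟩, ⟨tH k w 1 - tH k w 2,
        tH_d w, sub_mem (tH_04 w 1).2 (tH_04 w 2).2⟩)
      map_add' := by
        intro v w
        refine Prod.ext (Subtype.ext ?_) (Subtype.ext ?_)
        · change tH k (v + w) 0 = tH k v 0 + tH k w 0
          rw [map_add]; rfl
        · change tH k (v + w) 1 - tH k (v + w) 2 = (tH k v 1 - tH k v 2) + (tH k w 1 - tH k w 2)
          rw [map_add]
          change (tH k v 1 + tH k w 1) - (tH k v 2 + tH k w 2) = _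
          abel
      map_smul' := by
        intro c w
        refine Prod.ext (Subtype.ext ?_) (Subtype.ext ?_)
        · change tH k (c • w) 0 = c • tH k w 0
          rw [map_smul]; rfl
        · change tH k (c • w) 1 - tH k (c • w) 2 = c • (tH k w 1 - tH k w 2)
          rw [map_smul, smul_sub]; rfl }
  have hf : Function.Bijective f := by
    constructor
    · rw [← LinearMap.ker_eq_bot, LinearMap.ker_eq_bot']
      intro w hw
      apply tH_inj
      rw [map_zero]
      have h0 : tH k w 0 = 0 := congrArg (fun x => (x.1 : L k)) hw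
      have h1 : tH k w 1 - tH k w 2 = 0 := congrArg (fun x => (x.2 : L k)) hw
      have h2 := tH_s w
      rw [h0, mul_zero] at h2
      have h3 : 2 * tH k w 1 = 2 * 0 := by
        have : 2 * tH k w 1 = (tH k w 1 + tH k w 2) + (tH k w 1 - tH k w 2) := by ring
        rw [this, h2, h1, add_zero, mul_zero]
      have h4 := two_inj h3
      rw [h4, zero_sub, neg_eq_zero] at h1
      ext1 i
      fin_cases i
      · exact h0
      · exact h4
      · exact h1
    · rintro ⟨⟨p, hp⟩, ⟨d, hd⟩⟩
      obtain ⟨e, he, he'⟩ := half_L d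
      have hle : lo k 3 ≤ lo k 0 := lo_mono (by norm_num)
      have hg : ∀ i, (![p, p + e, p - e] : K k) i ∈ lo k 0 ∧ (![p, p + e, p - e] : K k) i ∈ hi k 4 := by
        intro i
        fin_cases i
        · exact hp
        · exact ⟨add_mem hp.1 (hle (he' _ hd.1)), add_mem hp.2 (he' _ hd.2)⟩
        · exact ⟨sub_mem hp.1 (hle (he' _ hd.1)), sub_mem hp.2 (he' _ hd.2)⟩
      obtain ⟨w, hw⟩ := exists_tH hg (by
        change (p + e) - (p - e) ∈ _
        have : (p + e) - (p - e) = 2 * e := by ring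
        rw [this, ← he]; exact hd.1) (by
        change (p + e) + (p - e) = 2 * p
        ring)
      refine ⟨w, Prod.ext (Subtype.ext ?_) (Subtype.ext ?_)⟩
      · change tH k w 0 = p
        rw [hw]; rfl
      · change tH k w 1 - tH k w 2 = d
        rw [hw]
        change (p + e) - (p - e) = d
        have : (p + e) - (p - e) = 2 * e := by ring
        rw [this, ← he]
  let e := LinearEquiv.ofBijective f hf
  obtain ⟨a1, a2⟩ := finrank_lo_hi (k := k) 0 4
  obtain ⟨b1, b2⟩ := finrank_lo_hi (k := k) 3 4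
  refine ⟨?_, Module.Finite.equiv e.symm⟩
  rw [e.finrank_eq, Module.finrank_prod, a1, b1]
  rfl

/-! ### The products -/

section

omit [CharZero k]

variable {R S Q : Type} [CommRing R] [Algebra k R] [AddCommGroup S] [Module R S] [Module k S]
  [IsScalarTower k R S] [CommRing Q] [Algebra k Q]

/-- the product of values -/
def prd (t : S →ₗ[k] Q) (σ : R →+* Q) (h : ∀ (a : R) (s : S), t (a • s) = σ a * t s) :
    (S ⊗[R] S) →ₗ[k] Q where
  toFun := TensorProduct.liftAddHom
    ((AddMonoidHom.mul.comp t.toAddMonoidHom).compl₂ t.toAddMonoidHom)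
    (by
      intro a s u
      change t (a • s) * t u = t s * t (a • u)
      rw [h, h]
      ring)
  map_add' x y := map_add _ _ _
  map_smul' c x := by
    induction x using TensorProduct.induction_on with
    | zero => simp only [smul_zero, map_zero]
    | add x y hx hy => simp only [smul_add, map_add, hx, hy]
    | tmul s u =>
      rw [TensorProduct.smul_tmul']
      change t (c • s) * t u = c • (t s * t u)
      rw [map_smul, smul_mul_assoc]

theorem prd_tmul (t : S →ₗ[k] Q) (σ : R →+* Q) (h : ∀ (a : R) (s : S), t (a • s) = σ a * t s)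
    (s u : S) : prd t σ h (s ⊗ₜ u) = t s * t u := rfl

end

/-- the product of two sections on the first chart -/
def pi1 : (Sec (C := crv k) (Pω k).F (U k) ⊗[Fn (crv k) (U k)] Sec (C := crv k) (Pω k).F (U k))
    →ₗ[k] K k :=
  prd (R := Fn (crv k) (U k)) (S := Sec (C := crv k) (Pω k).F (U k)) ((Pω k).E.t (pU k))
    (al (iK k) (pU k)) (fun a s => (Pω k).E.t_smul (pU k) a s)

/-- the product of two sections on the first chart -/
def pi1' : Two (C := crv k) (Pω k).F (crv k).U →ₗ[k] K k := pi1

/-- the product of two sections -/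
def pi2 : (Two (C := crv k) (Pω k).F (crv k).U × Two (C := crv k) (Pω k).F (crv k).V) →ₗ[k] K k :=
  pi1'.comp (LinearMap.fst k _ _)

theorem mul_t (s t : HH k) : ((mulOne (C := crv k) (Pω k).F).compr₂ pi2) s t =
    tH k s * tH k t := by
  have h0 : ((mulOne (C := crv k) (Pω k).F).compr₂ pi2) s t =
    pi1' (mulOn (C := crv k) (Pω k).F (crv k).U s t + 0) := rfl
  have h1 : pi1' (mulOn (C := crv k) (Pω k).F (crv k).U s t) =
    (Pω k).E.t (pU k) (res (C := crv k) (Pω k).F le_top s) *
      (Pω k).E.t (pU k) (res (C := crv k) (Pω k).F le_top t) := rfl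
  rw [h0, add_zero, h1]
  exact congrArg₂ (fun a b => a * b) ((Pω k).E.t_res (pT k) (pU k) le_top s)
    ((Pω k).E.t_res (pT k) (pU k) le_top t)

theorem koszul_vanishing : KoszulVanishing (C := crv k) (Pω k).F 4 := by
  obtain ⟨h7, hfin⟩ := finrank_HH (k := k)
  let b : Basis (Fin (4 + 3)) k (HH k) := finBasisOfFinrankEq k _ h7
  have hle : lo k 3 ≤ lo k 0 := lo_mono (by norm_num)
  obtain ⟨one, h1⟩ : ∃ w : HH k, tH k w = 1 := exists_tH
    (fun i => ⟨one_mem_lo, hi_mono (by norm_num) one_mem_hi⟩)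
    (by change (1 : L k) - 1 ∈ _; rw [sub_self]; exact zero_mem _)
    (by change (1 : L k) + 1 = 2 * 1; ring)
  obtain ⟨x4, hx4⟩ : ∃ w : HH k, tH k w = fun _ => T 4 := exists_tH
    (fun i => ⟨T_mem_lo (by norm_num), T_mem_hi (by norm_num)⟩)
    (by rw [sub_self]; exact zero_mem _) (by ring)
  have hy : ∀ n : ℤ, 3 ≤ n → n ≤ 4 → ∃ w : HH k, tH k w = ![0, T n, - T n] := by
    intro n hn hn'
    apply exists_tH
    · intro i
      fin_cases i
      · exact ⟨zero_mem _, zero_mem _⟩
      · exact ⟨T_mem_lo (by omega), T_mem_hi hn'⟩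
      · exact ⟨neg_mem (T_mem_lo (by omega)), neg_mem (T_mem_hi hn')⟩
    · change T n - - T n ∈ lo k 3
      rw [sub_neg_eq_add]
      exact add_mem (T_mem_lo hn) (T_mem_lo hn)
    · change T n + - T n = 2 * (0 : L k)
      ring
  obtain ⟨y3, hy3⟩ := hy 3 (by norm_num) (by norm_num)
  obtain ⟨y4, hy4⟩ := hy 4 (by norm_num) (by norm_num)
  intro z hz
  have hz' : z ∈ LinearMap.ker (koszul ((mulOne (C := crv k) (Pω k).F).compr₂ pi2) 4) := by
    rw [LinearMap.mem_ker]
    exact koszul_compr b _ _ _ _ (LinearMap.mem_ker.1 hz)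
  exact koszul_ker_le b (tH k) _ mul_t (mulZero (C := crv k) (Pω k).F) (1 : Fn (crv k) ⊤)
    (fun w => one_smul (Fn (crv k) ⊤) w)
    (fun a _ ha => relation (tH k) tH_inj tH_04 tH_d tH_s one x4 y3 y4 h1 hx4 hy3 hy4 a ha) hz'

end Run7.h109
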