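import Pool.Agent.Run7.h109.Rk

set_option autoImplicit false
set_option linter.unusedSectionVars false

open AlgebraicGeometry CategoryTheory TopologicalSpace Opposite LaurentPolynomial

noncomputable section

namespace Run7.h109

variable (k : Type) [Field k] [CharZero k]

/-- the functions on the intersection of the charts as a sheaf on the curve -/
abbrev R : (X k).Modules := pR (iK k)

theorem pU : (iK k) ⁻¹ᵁ (U k) = ⊤ := by
  rw [eq_top_iff]
  intro x _
  exact ⟨rA k x, rfl⟩

theorem pV : (iK k) ⁻¹ᵁ (V k) = ⊤ := by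
  rw [eq_top_iff]
  intro x _
  change iK k x ∈ (iB k).opensRange
  rw [iK_eq]
  exact ⟨rB k x, rfl⟩

theorem pUV : (iK k) ⁻¹ᵁ (U k ⊓ V k) = ⊤ := by
  rw [eq_top_iff]
  intro x _
  have h1 : x ∈ (iK k) ⁻¹ᵁ (U k) := by rw [pU]; trivial
  have h2 : x ∈ (iK k) ⁻¹ᵁ (V k) := by rw [pV]; trivial
  exact ⟨h1, h2⟩

theorem pT : (iK k) ⁻¹ᵁ (⊤ : (X k).Opens) = ⊤ := rfl

theorem affUV : IsAffineOpen (U k ⊓ V k) := by
  rw [UV_inf]
  exact isAffineOpen_opensRange _

theorem loc_of_pre {W : (X k).Opens} (h : (iK k) ⁻¹ᵁ W = ⊤) : LocAt (R k) W := by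
  apply locAt_pR
  rw [h]
  exact isAffineOpen_top _

theorem exists_eU : ∃ e : A k ≃+* Γ(X k, U k), ∀ a, al (iK k) (pU k) (e a) = algebraMap (A k) (K k) a :=
  al_chart (iK k) (iA k) rfl rfl (pU k)

theorem exists_eV : ∃ e : B k ≃+* Γ(X k, V k), ∀ a, al (iK k) (pV k) (e a) = algebraMap (B k) (K k) a :=
  al_chart (iK k) (iB k) (iK_eq k) rfl (pV k)

theorem exists_eK : ∃ e : K k ≃+* Γ(X k, U k ⊓ V k), ∀ a, al (iK k) (pUV k) (e a) = a := by
  obtain ⟨e, he⟩ := al_chart (A := K k) (iK k) (iK k) (by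
    have : CommRingCat.ofHom (algebraMap (K k) (K k)) = 𝟙 _ := rfl
    rw [this, Spec.map_id, Category.id_comp]) (UV_inf k).symm (pUV k)
  exact ⟨e, he⟩

/-- functions on the first chart -/
def eU : A k ≃+* Γ(X k, U k) := (exists_eU k).choose

theorem al_eU (a : A k) : al (iK k) (pU k) (eU k a) = a := (exists_eU k).choose_spec a

/-- functions on the second chart -/
def eV : B k ≃+* Γ(X k, V k) := (exists_eV k).choose

theorem al_eV (a : B k) : al (iK k) (pV k) (eV k a) = a := (exists_eV k).choose_spec a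

/-- functions on the intersection of the charts -/
def eK : K k ≃+* Γ(X k, U k ⊓ V k) := (exists_eK k).choose

theorem al_eK (a : K k) : al (iK k) (pUV k) (eK k a) = a := (exists_eK k).choose_spec a

theorem al_U_mem (a : Γ(X k, U k)) : al (iK k) (pU k) a ∈ A k := by
  obtain ⟨b, rfl⟩ := (eU k).surjective a
  rw [al_eU]; exact b.2

theorem al_V_mem (a : Γ(X k, V k)) : al (iK k) (pV k) a ∈ B k := by
  obtain ⟨b, rfl⟩ := (eV k).surjective a
  rw [al_eV]; exact b.2

theorem al_U_inj : Function.Injective (al (iK k) (pU k)) := by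
  intro a b h
  obtain ⟨a, rfl⟩ := (eU k).surjective a
  obtain ⟨b, rfl⟩ := (eU k).surjective b
  rw [al_eU, al_eU] at h
  rw [Subtype.ext h]

theorem al_V_inj : Function.Injective (al (iK k) (pV k)) := by
  intro a b h
  obtain ⟨a, rfl⟩ := (eV k).surjective a
  obtain ⟨b, rfl⟩ := (eV k).surjective b
  rw [al_eV, al_eV] at h
  rw [Subtype.ext h]

/-- The constants are constants. -/
theorem al_scal {W : (X k).Opens} (hW : (iK k) ⁻¹ᵁ W = ⊤) (c : k) :
    al (iK k) hW (scal (crv k) W c) = algebraMap k (K k) c := by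
  have h0 : scal (crv k) W c = rf (le_top : W ≤ ⊤)
    ((fX k).appTop.hom ((Scheme.ΓSpecIso (.of k)).inv.hom c)) := rfl
  rw [h0, al_rf (iK k) (pT k) hW le_top]
  apply al_eq
  have h1 : (iK k) ≫ fX k = Spec.map (CommRingCat.ofHom (algebraMap k (K k))) := by
    rw [iK, Category.assoc, iA_f, ← Spec.map_comp]
    rfl
  have h2 : ((iK k).app ⊤).hom ((fX k).appTop.hom ((Scheme.ΓSpecIso (.of k)).inv.hom c)) =
      ((iK k ≫ fX k).appTop).hom ((Scheme.ΓSpecIso (.of k)).inv.hom c) := rfl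
  rw [h2, h1]
  have h4 := Scheme.ΓSpecIso_inv_naturality (CommRingCat.ofHom (algebraMap k (K k)))
  have h5 := congrArg (fun g => g.hom c) h4
  have h6 : (Scheme.ΓSpecIso (.of (K k))).inv.hom (algebraMap k (K k) c) =
    ((Spec.map (CommRingCat.ofHom (algebraMap k (K k)))).appTop).hom
      ((Scheme.ΓSpecIso (.of k)).inv.hom c) := h5
  rw [← h6]
  unfold kap
  rw [RingHom.comp_apply]
  have h7 : (Spec (.of (K k))).presheaf.map (homOfLE (le_refl (⊤ : (Spec (.of (K k))).Opens))).op =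
    𝟙 _ := (Spec (.of (K k))).presheaf.map_id _
  unfold rf
  exact congrArg (fun g => g.hom ((Scheme.ΓSpecIso (.of (K k))).inv.hom (algebraMap k (K k) c))) h7

/-! ### The sheaves -/

variable {k}

/-- the sections on the first chart given by a module -/
def secU (M : Submodule (A k) (K k)) : Submodule Γ(X k, U k) Γ(R k, U k) where
  carrier := {s | toK (iK k) (pU k) s ∈ M}
  zero_mem' := by
    change toK (iK k) (pU k) 0 ∈ M
    rw [toK_zero]; exact zero_mem _
  add_mem' := by
    intro s t hs ht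
    change toK (iK k) (pU k) (s + t) ∈ M
    rw [toK_add]; exact add_mem hs ht
  smul_mem' := by
    intro a s hs
    change toK (iK k) (pU k) (a • s) ∈ M
    rw [toK_smul]
    exact M.smul_mem (⟨_, al_U_mem k a⟩ : A k) hs

/-- the sections on the second chart given by a module -/
def secV (M : Submodule (B k) (K k)) : Submodule Γ(X k, V k) Γ(R k, V k) where
  carrier := {s | toK (iK k) (pV k) s ∈ M}
  zero_mem' := by
    change toK (iK k) (pV k) 0 ∈ M
    rw [toK_zero]; exact zero_mem _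
  add_mem' := by
    intro s t hs ht
    change toK (iK k) (pV k) (s + t) ∈ M
    rw [toK_add]; exact add_mem hs ht
  smul_mem' := by
    intro a s hs
    change toK (iK k) (pV k) (a • s) ∈ M
    rw [toK_smul]
    exact M.smul_mem (⟨_, al_V_mem k a⟩ : B k) hs

theorem span_secU (M : Submodule (A k) (K k)) (hM : ∀ g : K k, ∃ n : ℕ, xA k ^ n • g ∈ M) :
    spanOn (R k) (secU M) (inf_le_left : U k ⊓ V k ≤ U k) = ⊤ := by
  rw [eq_top_iff]
  rintro s -
  obtain ⟨n, hn⟩ := hM (toK (iK k) (pUV k) s)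
  obtain ⟨t, ht⟩ := toK_surj (iK k) (pU k) (xA k ^ n • (toK (iK k) (pUV k) s))
  have h1 : t ∈ secU M := by
    change toK (iK k) (pU k) t ∈ M
    rw [ht]; exact hn
  have h2 : s = eK k (((zB k : B k) : K k) ^ n) • rt (R k) (inf_le_left : U k ⊓ V k ≤ U k) t := by
    apply toK_inj (iK k) (pUV k)
    rw [toK_smul, al_eK, toK_rt (iK k) (pU k) (pUV k), ht]
    change _ = _ * (((xA k : A k) : K k) ^ n * _)
    rw [← mul_assoc, ← mul_pow, mul_comm ((zB k : B k) : K k), xz, one_pow, one_mul]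
  rw [h2]
  exact Submodule.smul_mem _ _ (Submodule.subset_span ⟨t, h1, rfl⟩)

theorem span_secV (M : Submodule (B k) (K k)) (hM : ∀ g : K k, ∃ n : ℕ, zB k ^ n • g ∈ M) :
    spanOn (R k) (secV M) (inf_le_right : U k ⊓ V k ≤ V k) = ⊤ := by
  rw [eq_top_iff]
  rintro s -
  obtain ⟨n, hn⟩ := hM (toK (iK k) (pUV k) s)
  obtain ⟨t, ht⟩ := toK_surj (iK k) (pV k) (zB k ^ n • (toK (iK k) (pUV k) s))
  have h1 : t ∈ secV M := by
    change toK (iK k) (pV k) t ∈ M
    rw [ht]; exact hn
  have h2 : s = eK k (((xA k : A k) : K k) ^ n) • rt (R k) (inf_le_right : U k ⊓ V k ≤ V k) t := by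
    apply toK_inj (iK k) (pUV k)
    rw [toK_smul, al_eK, toK_rt (iK k) (pV k) (pUV k), ht]
    change _ = _ * (((zB k : B k) : K k) ^ n * _)
    rw [← mul_assoc, ← mul_pow, xz, one_pow, one_mul]
  rw [h2]
  exact Submodule.smul_mem _ _ (Submodule.subset_span ⟨t, h1, rfl⟩)

/-- A pair of modules on the charts. -/
structure Pair (k : Type) [Field k] [CharZero k] where
  /-- on the first chart -/
  M : Submodule (A k) (K k)
  /-- on the second chart -/
  N : Submodule (B k) (K k)
  hM : ∀ g : K k, ∃ n : ℕ, xA k ^ n • g ∈ M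
  hN : ∀ g : K k, ∃ n : ℕ, zB k ^ n • g ∈ N

variable (P : Pair k)

/-- the data of the sheaf of a pair -/
def Pair.D : GlData (R k) (U k) (V k) where
  𝒜 := secU P.M
  ℬ := secV P.N
  hU := affU k
  hV := affV k
  hUV := affUV k
  cov := UV_top k
  RU := loc_of_pre k (pU k)
  RV := loc_of_pre k (pV k)
  RUV := loc_of_pre k (pUV k)
  hA := span_secU P.M P.hM
  hB := span_secV P.N P.hN

/-- the sheaf of a pair -/
def Pair.F : (crv k).X.Modules := P.D.S.sheaf

theorem Pair.qc : P.F.IsQuasicoherent := by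
  apply qc_of_cover (ι := Bool) (fun b => if b then U k else V k)
  · intro b
    cases b
    · exact affV k
    · exact affU k
  · rw [iSup_bool_eq]
    exact UV_top k
  · intro b
    cases b
    · exact P.D.locAt_V
    · exact P.D.locAt_U

end Run7.h109
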