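import Pool.Agent.Run7.h109.Emb
import Pool.Agent.Run7.h109.Dim

set_option autoImplicit false
set_option linter.unusedSectionVars false

open AlgebraicGeometry CategoryTheory TopologicalSpace Opposite LaurentPolynomial

noncomputable section

namespace Run7.h109

variable {k : Type} [Field k] [CharZero k]

/-! ### Ranges of the models -/

namespace Pair

variable (P : Pair k)

theorem t_mem_U (s : Sec (C := crv k) P.F (U k)) : P.E.t (pU k) s ∈ P.M :=
  (P.D.mem_U).1 (P.D.S.val_mem s)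

theorem exists_U {g : K k} (hg : g ∈ P.M) : ∃ s : Sec (C := crv k) P.F (U k),
    P.E.t (pU k) s = g := by
  obtain ⟨t, ht⟩ := toK_surj (iK k) (pU k) g
  have h1 : t ∈ P.D.S.N (U k) := by
    rw [P.D.mem_U]
    change toK (iK k) (pU k) t ∈ P.M
    rw [ht]; exact hg
  exact ⟨P.D.S.sec t h1, ht⟩

theorem t_mem_V (s : Sec (C := crv k) P.F (V k)) : P.E.t (pV k) s ∈ P.N :=
  (P.D.mem_V).1 (P.D.S.val_mem s)

theorem exists_V {g : K k} (hg : g ∈ P.N) : ∃ s : Sec (C := crv k) P.F (V k),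
    P.E.t (pV k) s = g := by
  obtain ⟨t, ht⟩ := toK_surj (iK k) (pV k) g
  have h1 : t ∈ P.D.S.N (V k) := by
    rw [P.D.mem_V]
    change toK (iK k) (pV k) t ∈ P.N
    rw [ht]; exact hg
  exact ⟨P.D.S.sec t h1, ht⟩

theorem exists_UV (g : K k) : ∃ s : Sec (C := crv k) P.F (U k ⊓ V k),
    P.E.t (pUV k) s = g := by
  obtain ⟨t, ht⟩ := toK_surj (iK k) (pUV k) g
  exact ⟨P.D.S.sec t (P.D.mem_UV le_rfl t), ht⟩

theorem t_top (s : Sec (C := crv k) P.F ⊤) : P.E.t (pT k) s ∈ P.M ∧ P.E.t (pT k) s ∈ P.N := by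
  have h1 := P.D.mem_top.1 (P.D.S.val_mem s)
  have h2 : toK (iK k) (pU k) (rt (R k) le_top (P.D.S.val s)) ∈ P.M := h1.1
  have h3 : toK (iK k) (pV k) (rt (R k) le_top (P.D.S.val s)) ∈ P.N := h1.2
  rw [toK_rt (iK k) (pT k)] at h2 h3
  exact ⟨h2, h3⟩

theorem exists_top {g : K k} (h1 : g ∈ P.M) (h2 : g ∈ P.N) :
    ∃ s : Sec (C := crv k) P.F ⊤, P.E.t (pT k) s = g := by
  obtain ⟨t, ht⟩ := toK_surj (iK k) (pT k) g
  have h1 : t ∈ P.D.S.N ⊤ := by
    rw [P.D.mem_top]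
    constructor
    · change toK (iK k) (pU k) _ ∈ P.M
      rw [toK_rt (iK k) (pT k), ht]; exact h1
    · change toK (iK k) (pV k) _ ∈ P.N
      rw [toK_rt (iK k) (pT k), ht]; exact h2
  exact ⟨P.D.S.sec t h1, ht⟩

end Pair

theorem str_mem_U (s : Fn (crv k) (U k)) : strE.t (pU k) s ∈ A k := al_U_mem k s

theorem str_exists_U {g : K k} (hg : g ∈ A k) : ∃ s : Sec (C := crv k) (strSheaf (crv k)) (U k),
    strE.t (pU k) s = g := ⟨eU k ⟨g, hg⟩, al_eU k ⟨g, hg⟩⟩

theorem str_mem_V (s : Fn (crv k) (V k)) : strE.t (pV k) s ∈ B k := al_V_mem k s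

theorem str_exists_V {g : K k} (hg : g ∈ B k) : ∃ s : Sec (C := crv k) (strSheaf (crv k)) (V k),
    strE.t (pV k) s = g := ⟨eV k ⟨g, hg⟩, al_eV k ⟨g, hg⟩⟩

theorem str_exists_UV (g : K k) : ∃ s : Sec (C := crv k) (strSheaf (crv k)) (U k ⊓ V k),
    strE.t (pUV k) s = g := ⟨eK k g, al_eK k g⟩

/-! ### The dimensions -/

/-- The dimensions of the cohomology in terms of bounds for orders and degrees. -/
theorem dims {F : (X k).Modules} (E : Emb F)
    (hr : Function.Surjective (E.t (pUV k)))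
    (Q : ∀ W, Submodule k (Sec (C := crv k) F W)) {m : ℕ} (p : K k →ₗ[k] (Fin m → L k))
    (hp : Function.Surjective p) (P N : Fin m → ℤ)
    (hM : (LinearMap.range (E.t (pU k))).map p = pr (fun i => lo k (P i)))
    (hN : (LinearMap.range (E.t (pV k))).map p = pr (fun i => hi k (N i)))
    (hQU : ∀ s ∈ Q (U k), p (E.t (pU k) s) = 0) (hQV : ∀ s, s ∈ Q (V k) ↔ p (E.t (pV k) s) = 0)
    (hQW : ∀ s, s ∈ Q (U k ⊓ V k) ↔ p (E.t (pUV k) s) = 0)
    (hf : Module.Finite k (↥(LinearMap.ker (p.comp (E.t (pU k)))) ⧸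
      (Q (U k)).comap (LinearMap.ker (p.comp (E.t (pU k)))).subtype)) :
    (dimH0 (C := crv k) F Q = Module.finrank k (↥(LinearMap.ker (p.comp (E.t (pU k)))) ⧸
      (Q (U k)).comap (LinearMap.ker (p.comp (E.t (pU k)))).subtype) +
        ∑ i, (N i + 1 - P i).toNat) ∧
    dimH1 (C := crv k) F Q = ∑ i, (P i - N i - 1).toNat := by
  constructor
  · have h1 := cech_dim (res (C := crv k) F (inf_le_left : U k ⊓ V k ≤ U k))
      (res (C := crv k) F (inf_le_right : U k ⊓ V k ≤ V k)) (E.t (pU k)) (E.t (pV k))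
      (E.t (pUV k)) (fun s => E.t_res (pU k) (pUV k) _ s) (fun s => E.t_res (pV k) (pUV k) _ s)
      p (Q (U k)) (Q (V k)) (Q (U k ⊓ V k)) hQU hQV hQW hf (by
        rw [hM, hN]; exact (finrank_pr_inf P N).2)
    rw [hM, hN, (finrank_pr_inf P N).1] at h1
    exact h1
  · have h1 := cech_dim' (res (C := crv k) F (inf_le_left : U k ⊓ V k ≤ U k))
      (res (C := crv k) F (inf_le_right : U k ⊓ V k ≤ V k)) (E.t (pU k)) (E.t (pV k))
      (E.t (pUV k)) (fun s => E.t_res (pU k) (pUV k) _ s) (fun s => E.t_res (pV k) (pUV k) _ s)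
      hr p hp (Q (U k ⊓ V k)) hQW
    rw [hM, hN, finrank_pr_sup] at h1
    exact h1

/-- The dimensions of the cohomology when there is no torsion. -/
theorem dims' {F : (X k).Modules} (E : Emb F)
    (hr : Function.Surjective (E.t (pUV k)))
    (Q : ∀ W, Submodule k (Sec (C := crv k) F W)) {m : ℕ} (p : K k →ₗ[k] (Fin m → L k))
    (hp : Function.Surjective p) (P N : Fin m → ℤ)
    (hM : (LinearMap.range (E.t (pU k))).map p = pr (fun i => lo k (P i)))
    (hN : (LinearMap.range (E.t (pV k))).map p = pr (fun i => hi k (N i)))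
    (hQU : ∀ s, s ∈ Q (U k) ↔ p (E.t (pU k) s) = 0)
    (hQV : ∀ s, s ∈ Q (V k) ↔ p (E.t (pV k) s) = 0)
    (hQW : ∀ s, s ∈ Q (U k ⊓ V k) ↔ p (E.t (pUV k) s) = 0) :
    (dimH0 (C := crv k) F Q = ∑ i, (N i + 1 - P i).toNat) ∧
    dimH1 (C := crv k) F Q = ∑ i, (P i - N i - 1).toNat := by
  have h0 : (Q (U k)).comap (LinearMap.ker (p.comp (E.t (pU k)))).subtype = ⊤ := by
    rw [eq_top_iff]
    intro s _
    exact (hQU s.1).2 s.2
  have hs : Subsingleton (↥(LinearMap.ker (p.comp (E.t (pU k)))) ⧸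
      (Q (U k)).comap (LinearMap.ker (p.comp (E.t (pU k)))).subtype) :=
    Submodule.Quotient.subsingleton_iff.2 h0
  obtain ⟨h1, h2⟩ := dims E hr Q p hp P N hM hN (fun s hs => (hQU s).1 hs) hQV hQW inferInstance
  refine ⟨?_, h2⟩
  rw [h1, Module.finrank_zero_of_subsingleton, zero_add]

end Run7.h109
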