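import Pool.Agent.Run7.h109.Num

set_option autoImplicit false
set_option linter.unusedSectionVars false

open AlgebraicGeometry CategoryTheory TopologicalSpace Opposite LaurentPolynomial

noncomputable section

namespace Run7.h109

variable {k : Type} [Field k] [CharZero k]

/-! ### Modules on the charts -/

variable (k) in
/-- the ring of the first chart as a module -/
def MA : Submodule (A k) (K k) where
  carrier := {g | g ∈ A k}
  zero_mem' := (A k).zero_mem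
  add_mem' := by
    intro a b ha hb
    exact (A k).add_mem ha hb
  smul_mem' := by
    intro a g hg
    exact (A k).mul_mem a.2 hg

theorem mem_MA {g : K k} : g ∈ MA k ↔ g ∈ A k := Iff.rfl

variable (k) in
/-- the module of a partial normalization -/
def MA' : Submodule (A k) (K k) where
  carrier := {g | (∀ i, g i ∈ lo k 0) ∧ g 1 - g 2 ∈ lo k 3}
  zero_mem' := by
    refine ⟨fun i => zero_mem _, ?_⟩
    simp
  add_mem' := by
    rintro g h ⟨hg, hg1⟩ ⟨hh, hh1⟩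
    refine ⟨fun i => add_mem (hg i) (hh i), ?_⟩
    have e : (g + h) 1 - (g + h) 2 = (g 1 - g 2) + (h 1 - h 2) := by
      simp only [Pi.add_apply]; ring
    rw [e]; exact add_mem hg1 hh1
  smul_mem' := by
    rintro a h ⟨hh, hh1⟩
    have ha := a.2
    obtain ⟨hg, hg1, -⟩ := ha
    refine ⟨fun i => lo_mul' (hg i) (hh i) (by norm_num), ?_⟩
    have e : (a • h) 1 - (a • h) 2 = (a : K k) 1 * (h 1 - h 2) +
        ((a : K k) 1 - (a : K k) 2) * h 2 := by
      change (a : K k) 1 * h 1 - (a : K k) 2 * h 2 = _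
      ring
    rw [e]
    exact add_mem (lo_mul' (hg 1) hh1 (by norm_num)) (lo_mul' hg1 (hh 2) (by norm_num))

/-- the module on the second chart with bounds for the degrees -/
def NB (a : Fin 3 → ℤ) : Submodule (B k) (K k) where
  carrier := {g | ∀ i, g i ∈ hi k (a i)}
  zero_mem' := fun i => zero_mem _
  add_mem' := fun hg hh i => add_mem (hg i) (hh i)
  smul_mem' := fun b g hg i => hi_mul' (b.2 i) (hg i) (by norm_num)

theorem MA_le {g : K k} (hg : g ∈ A k) : g ∈ MA' k := ⟨hg.1, hg.2.1⟩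

theorem MA_gen (g : K k) : ∃ n : ℕ, xA k ^ n • g ∈ MA k := by
  obtain ⟨⟨a, ⟨_, n, rfl⟩⟩, ha⟩ := IsLocalization.surj (Submonoid.powers (xA k)) g
  refine ⟨n, ?_⟩
  have h1 : xA k ^ n • g = (a : K k) := by
    rw [Algebra.smul_def, mul_comm]
    exact ha
  rw [h1, mem_MA]
  exact a.2

theorem MA'_gen (g : K k) : ∃ n : ℕ, xA k ^ n • g ∈ MA' k := by
  obtain ⟨n, hn⟩ := MA_gen g
  exact ⟨n, MA_le hn⟩

theorem NB_gen (a : Fin 3 → ℤ) (g : K k) : ∃ n : ℕ, zB k ^ n • g ∈ NB a := by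
  choose f hf using fun i => exists_hi (g i)
  refine ⟨f 0 + f 1 + f 2 + (a 0).natAbs + (a 1).natAbs + (a 2).natAbs, fun i => ?_⟩
  set N := f 0 + f 1 + f 2 + (a 0).natAbs + (a 1).natAbs + (a 2).natAbs with hN
  have e : (zB k ^ N • g) i = T (-N) * g i := by
    change (((zB k : B k) : K k) ^ N * g) i = _
    have : ((zB k : B k) : K k) ^ N = fun _ => T (N * (-1)) := T_pow' (-1) N
    rw [this]
    simp
  rw [e, T_mul_mem_hi]
  refine hi_mono ?_ (hf i)
  have h1 : f i ≤ f 0 + f 1 + f 2 := by fin_cases i <;> simp <;> omega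
  have h2 : (a i).natAbs ≤ (a 0).natAbs + (a 1).natAbs + (a 2).natAbs := by
    fin_cases i <;> simp <;> omega
  omega

variable (k) in
/-- the pair of the dualizing sheaf -/
def Pω : Pair k := ⟨MA k, NB ![4, 4, 4], MA_gen, NB_gen _⟩

variable (k) in
/-- the pair of the first test sheaf -/
def PF : Pair k := ⟨MA' k, NB ![4, 0, 0], MA'_gen, NB_gen _⟩

variable (k) in
/-- the pair of the second test sheaf -/
def PG : Pair k := ⟨MA' k, NB ![-6, 1, 1], MA'_gen, NB_gen _⟩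

/-! ### Projections -/

/-- the coordinates -/
abbrev cd (i : Fin 3) : K k →ₗ[k] L k := LinearMap.proj i

/-- one coordinate -/
def p1 (i : Fin 3) : K k →ₗ[k] (Fin 1 → L k) := LinearMap.pi (fun _ => cd i)

/-- two coordinates -/
def p2 (i j : Fin 3) : K k →ₗ[k] (Fin 2 → L k) :=
  LinearMap.pi ![cd i, cd j - cd i]

variable (k) in
/-- three coordinates -/
def p3 : K k →ₗ[k] (Fin 3 → L k) :=
  LinearMap.pi ![cd 0, cd 1 - cd 2, cd 1 + cd 2 - (2 : k) • cd 0]

variable (k) in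
/-- three coordinates -/
def p4 : K k →ₗ[k] (Fin 3 → L k) :=
  LinearMap.pi ![cd 0, cd 1, cd 2 - cd 1]

theorem two_smul_L (p : L k) : (2 : k) • p = 2 * p := by rw [two_smul, two_mul]

theorem half_L (p : L k) : ∃ q : L k, p = 2 * q ∧ ∀ S : Submodule k (L k), p ∈ S → q ∈ S := by
  refine ⟨(2⁻¹ : k) • p, ?_, fun S h => S.smul_mem _ h⟩
  rw [two_mul, ← two_smul k, smul_smul, mul_inv_cancel₀ two_ne_zero, one_smul]

theorem two_cancel {p q : L k} (h : 2 * p = 2 * q) : p = q := by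
  have h1 : (2 : k) • p = (2 : k) • q := by rw [two_smul_L, two_smul_L, h]
  exact smul_right_injective _ (two_ne_zero (α := k)) h1

theorem p1_apply (i : Fin 3) (g : K k) (j : Fin 1) : p1 i g j = g i := rfl

theorem p2_apply (i j : Fin 3) (g : K k) : p2 i j g = ![g i, g j - g i] := by
  ext1 l
  fin_cases l <;> rfl

theorem p3_apply (g : K k) : p3 k g = ![g 0, g 1 - g 2, g 1 + g 2 - 2 * g 0] := by
  ext1 l
  fin_cases l
  · rfl
  · rfl
  · change g 1 + g 2 - (2 : k) • g 0 = _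
    rw [two_smul_L]; rfl

theorem p4_apply (g : K k) : p4 k g = ![g 0, g 1, g 2 - g 1] := by
  ext1 l
  fin_cases l <;> rfl

theorem mem_pr1 {S : Fin 1 → Submodule k (L k)} {v : Fin 1 → L k} : v ∈ pr S ↔ v 0 ∈ S 0 := by
  simp [Submodule.mem_pi]

theorem mem_pr2 {S : Fin 2 → Submodule k (L k)} {v : Fin 2 → L k} :
    v ∈ pr S ↔ v 0 ∈ S 0 ∧ v 1 ∈ S 1 := by
  simp [Submodule.mem_pi, Fin.forall_fin_two]

theorem mem_pr3 {S : Fin 3 → Submodule k (L k)} {v : Fin 3 → L k} :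
    v ∈ pr S ↔ v 0 ∈ S 0 ∧ v 1 ∈ S 1 ∧ v 2 ∈ S 2 := by
  simp [Submodule.mem_pi, Fin.forall_fin_succ]

theorem map_range_eq {S : Type} [AddCommGroup S] [Module k S] (t : S →ₗ[k] K k) (M : Set (K k))
    (h1 : ∀ s, t s ∈ M) (h2 : ∀ g ∈ M, ∃ s, t s = g) {m : ℕ} (p : K k →ₗ[k] (Fin m → L k))
    (T : Submodule k (Fin m → L k)) (h3 : ∀ g ∈ M, p g ∈ T) (h4 : ∀ v ∈ T, ∃ g ∈ M, p g = v) :
    (LinearMap.range t).map p = T := by
  apply le_antisymm
  · rintro _ ⟨_, ⟨s, rfl⟩, rfl⟩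
    exact h3 _ (h1 s)
  · intro v hv
    obtain ⟨g, hg, rfl⟩ := h4 v hv
    obtain ⟨s, rfl⟩ := h2 g hg
    exact ⟨_, ⟨s, rfl⟩, rfl⟩

/-! ### Images of the ring of the first chart -/

theorem A1 (i : Fin 3) : (∀ g ∈ A k, p1 i g ∈ pr (fun j => lo k ((![0] : Fin 1 → ℤ) j))) ∧
    ∀ v ∈ pr (fun j => lo k ((![0] : Fin 1 → ℤ) j)), ∃ g ∈ A k, p1 i g = v := by
  constructor
  · intro g hg
    rw [mem_pr1]
    exact hg.1 i
  · intro v hv
    rw [mem_pr1] at hv
    refine ⟨fun _ => v 0, ⟨fun _ => hv, ?_, ?_⟩, ?_⟩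
    · change v 0 - v 0 ∈ _
      rw [sub_self]; exact zero_mem _
    · change v 0 + v 0 - 2 * v 0 ∈ _
      have : v 0 + v 0 - 2 * v 0 = 0 := by ring
      rw [this]; exact zero_mem _
    · ext1 j
      rw [p1_apply]
      fin_cases j; rfl

theorem A_diff {g : K k} (hg : g ∈ A k) : g 1 - g 0 ∈ lo k 3 ∧ g 2 - g 0 ∈ lo k 3 := by
  obtain ⟨-, h1, h2⟩ := hg
  have h2' := lo_mono (k := k) (show (3 : ℤ) ≤ 6 by norm_num) h2
  constructor
  · apply two_smul_mem
    have e : 2 * (g 1 - g 0) = (g 1 + g 2 - 2 * g 0) + (g 1 - g 2) := by ring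
    rw [e]; exact add_mem h2' h1
  · apply two_smul_mem
    have e : 2 * (g 2 - g 0) = (g 1 + g 2 - 2 * g 0) - (g 1 - g 2) := by ring
    rw [e]; exact sub_mem h2' h1

theorem A2_12 : (∀ g ∈ A k, p2 1 2 g ∈ pr (fun j => lo k ((![0, 3] : Fin 2 → ℤ) j))) ∧
    ∀ v ∈ pr (fun j => lo k ((![0, 3] : Fin 2 → ℤ) j)), ∃ g ∈ A k, p2 1 2 g = v := by
  constructor
  · intro g hg
    rw [mem_pr2, p2_apply]
    refine ⟨hg.1 1, ?_⟩
    have := neg_mem hg.2.1
    rw [neg_sub] at this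
    exact this
  · intro v hv
    obtain ⟨h0, h1⟩ := mem_pr2.1 hv
    obtain ⟨w, hw, hw'⟩ := half_L (v 1)
    have hw3 : w ∈ lo k 3 := hw' _ h1
    refine ⟨![v 0 + w, v 0, v 0 + v 1], ⟨?_, ?_, ?_⟩, ?_⟩
    · intro i
      fin_cases i
      · exact add_mem h0 (lo_mono (by norm_num) hw3)
      · exact h0
      · exact add_mem h0 (lo_mono (by norm_num) h1)
    · change v 0 - (v 0 + v 1) ∈ _
      have e : v 0 - (v 0 + v 1) = - v 1 := by ring
      rw [e]; exact neg_mem h1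
    · change v 0 + (v 0 + v 1) - 2 * (v 0 + w) ∈ _
      have e : v 0 + (v 0 + v 1) - 2 * (v 0 + w) = 0 := by rw [hw]; ring
      rw [e]; exact zero_mem _
    · rw [p2_apply]
      ext1 j
      fin_cases j
      · rfl
      · change v 0 + v 1 - v 0 = v 1
        ring

theorem A2_01 : (∀ g ∈ A k, p2 0 1 g ∈ pr (fun j => lo k ((![0, 3] : Fin 2 → ℤ) j))) ∧
    ∀ v ∈ pr (fun j => lo k ((![0, 3] : Fin 2 → ℤ) j)), ∃ g ∈ A k, p2 0 1 g = v := by
  constructor
  · intro g hg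
    rw [mem_pr2, p2_apply]
    exact ⟨hg.1 0, (A_diff hg).1⟩
  · intro v hv
    obtain ⟨h0, h1⟩ := mem_pr2.1 hv
    refine ⟨![v 0, v 0 + v 1, v 0 - v 1], ⟨?_, ?_, ?_⟩, ?_⟩
    · intro i
      fin_cases i
      · exact h0
      · exact add_mem h0 (lo_mono (by norm_num) h1)
      · exact sub_mem h0 (lo_mono (by norm_num) h1)
    · change (v 0 + v 1) - (v 0 - v 1) ∈ _
      have e : (v 0 + v 1) - (v 0 - v 1) = v 1 + v 1 := by ring
      rw [e]; exact add_mem h1 h1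
    · change (v 0 + v 1) + (v 0 - v 1) - 2 * v 0 ∈ _
      have e : (v 0 + v 1) + (v 0 - v 1) - 2 * v 0 = 0 := by ring
      rw [e]; exact zero_mem _
    · rw [p2_apply]
      ext1 j
      fin_cases j
      · rfl
      · change v 0 + v 1 - v 0 = v 1
        ring

theorem A2_02 : (∀ g ∈ A k, p2 0 2 g ∈ pr (fun j => lo k ((![0, 3] : Fin 2 → ℤ) j))) ∧
    ∀ v ∈ pr (fun j => lo k ((![0, 3] : Fin 2 → ℤ) j)), ∃ g ∈ A k, p2 0 2 g = v := by
  constructor
  · intro g hg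
    rw [mem_pr2, p2_apply]
    exact ⟨hg.1 0, (A_diff hg).2⟩
  · intro v hv
    obtain ⟨h0, h1⟩ := mem_pr2.1 hv
    refine ⟨![v 0, v 0 - v 1, v 0 + v 1], ⟨?_, ?_, ?_⟩, ?_⟩
    · intro i
      fin_cases i
      · exact h0
      · exact sub_mem h0 (lo_mono (by norm_num) h1)
      · exact add_mem h0 (lo_mono (by norm_num) h1)
    · change (v 0 - v 1) - (v 0 + v 1) ∈ _
      have e : (v 0 - v 1) - (v 0 + v 1) = - (v 1 + v 1) := by ring
      rw [e]; exact neg_mem (add_mem h1 h1)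
    · change (v 0 - v 1) + (v 0 + v 1) - 2 * v 0 ∈ _
      have e : (v 0 - v 1) + (v 0 + v 1) - 2 * v 0 = 0 := by ring
      rw [e]; exact zero_mem _
    · rw [p2_apply]
      ext1 j
      fin_cases j
      · rfl
      · change v 0 + v 1 - v 0 = v 1
        ring

theorem A3 : (∀ g ∈ A k, p3 k g ∈ pr (fun j => lo k ((![0, 3, 6] : Fin 3 → ℤ) j))) ∧
    ∀ v ∈ pr (fun j => lo k ((![0, 3, 6] : Fin 3 → ℤ) j)), ∃ g ∈ A k, p3 k g = v := by
  constructor
  · intro g hg
    rw [mem_pr3, p3_apply]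
    exact ⟨hg.1 0, hg.2.1, hg.2.2⟩
  · intro v hv
    obtain ⟨h0, h1, h2⟩ := mem_pr3.1 hv
    obtain ⟨w, hw, hw'⟩ := half_L (v 1)
    have hw3 : w ∈ lo k 3 := hw' _ h1
    obtain ⟨u, hu, hu'⟩ := half_L (v 2)
    have hu6 : u ∈ lo k 6 := hu' _ h2
    refine ⟨![v 0, v 0 + u + w, v 0 + u - w], ⟨?_, ?_, ?_⟩, ?_⟩
    · intro i
      fin_cases i
      · exact h0
      · exact add_mem (add_mem h0 (lo_mono (by norm_num) hu6)) (lo_mono (by norm_num) hw3)
      · exact sub_mem (add_mem h0 (lo_mono (by norm_num) hu6)) (lo_mono (by norm_num) hw3)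
    · change (v 0 + u + w) - (v 0 + u - w) ∈ _
      have e : (v 0 + u + w) - (v 0 + u - w) = v 1 := by rw [hw]; ring
      rw [e]; exact h1
    · change (v 0 + u + w) + (v 0 + u - w) - 2 * v 0 ∈ _
      have e : (v 0 + u + w) + (v 0 + u - w) - 2 * v 0 = v 2 := by rw [hu]; ring
      rw [e]; exact h2
    · rw [p3_apply]
      ext1 j
      fin_cases j
      · rfl
      · change (v 0 + u + w) - (v 0 + u - w) = v 1
        rw [hw]; ring
      · change (v 0 + u + w) + (v 0 + u - w) - 2 * v 0 = v 2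
        rw [hu]; ring

/-! ### Images of the module of the partial normalization -/

theorem A'1 (i : Fin 3) : (∀ g ∈ MA' k, p1 i g ∈ pr (fun j => lo k ((![0] : Fin 1 → ℤ) j))) ∧
    ∀ v ∈ pr (fun j => lo k ((![0] : Fin 1 → ℤ) j)), ∃ g ∈ MA' k, p1 i g = v := by
  constructor
  · intro g hg
    rw [mem_pr1]
    exact hg.1 i
  · intro v hv
    obtain ⟨g, hg, h⟩ := (A1 (k := k) i).2 v hv
    exact ⟨g, MA_le hg, h⟩

theorem A'4 : (∀ g ∈ MA' k, p4 k g ∈ pr (fun j => lo k ((![0, 0, 3] : Fin 3 → ℤ) j))) ∧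
    ∀ v ∈ pr (fun j => lo k ((![0, 0, 3] : Fin 3 → ℤ) j)), ∃ g ∈ MA' k, p4 k g = v := by
  constructor
  · intro g hg
    rw [mem_pr3, p4_apply]
    refine ⟨hg.1 0, hg.1 1, ?_⟩
    have := neg_mem hg.2
    rw [neg_sub] at this
    exact this
  · intro v hv
    obtain ⟨h0, h1, h2⟩ := mem_pr3.1 hv
    refine ⟨![v 0, v 1, v 1 + v 2], ⟨?_, ?_⟩, ?_⟩
    · intro i
      fin_cases i
      · exact h0
      · exact h1
      · exact add_mem h1 (lo_mono (show (0 : ℤ) ≤ 3 by norm_num) h2)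
    · change v 1 - (v 1 + v 2) ∈ _
      have e : v 1 - (v 1 + v 2) = - v 2 := by ring
      rw [e]; exact neg_mem h2
    · rw [p4_apply]
      ext1 j
      fin_cases j
      · rfl
      · rfl
      · change v 1 + v 2 - v 1 = v 2
        ring

/-! ### Images of the modules on the second chart -/

theorem B1 (a : Fin 3 → ℤ) (i : Fin 3) :
    (∀ g ∈ NB (k := k) a, p1 i g ∈ pr (fun j => hi k ((![a i] : Fin 1 → ℤ) j))) ∧
    ∀ v ∈ pr (fun j => hi k ((![a i] : Fin 1 → ℤ) j)), ∃ g ∈ NB (k := k) a, p1 i g = v := by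
  constructor
  · intro g hg
    rw [mem_pr1]
    exact hg i
  · intro v hv
    rw [mem_pr1] at hv
    refine ⟨Pi.single i (v 0), ?_, ?_⟩
    · intro j
      by_cases h : j = i
      · subst h; rw [Pi.single_eq_same]; exact hv
      · rw [Pi.single_eq_of_ne h]; exact zero_mem _
    · ext1 j
      rw [p1_apply, Pi.single_eq_same]
      fin_cases j; rfl

theorem B2 (a : Fin 3 → ℤ) (i j : Fin 3) (hij : i ≠ j) (ha : a i = a j) :
    (∀ g ∈ NB (k := k) a, p2 i j g ∈ pr (fun l => hi k ((![a i, a i] : Fin 2 → ℤ) l))) ∧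
    ∀ v ∈ pr (fun l => hi k ((![a i, a i] : Fin 2 → ℤ) l)), ∃ g ∈ NB (k := k) a, p2 i j g = v := by
  constructor
  · intro g hg
    rw [mem_pr2, p2_apply]
    refine ⟨hg i, sub_mem ?_ (hg i)⟩
    have := hg j
    rw [← ha] at this
    exact this
  · intro v hv
    obtain ⟨h0, h1⟩ := mem_pr2.1 hv
    refine ⟨Pi.single i (v 0) + Pi.single j (v 0 + v 1), ?_, ?_⟩
    · refine add_mem ?_ ?_
      · intro l
        by_cases h : l = i
        · subst h; rw [Pi.single_eq_same]; exact h0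
        · rw [Pi.single_eq_of_ne h]; exact zero_mem _
      · intro l
        by_cases h : l = j
        · subst h; rw [Pi.single_eq_same, ← ha]; exact add_mem h0 h1
        · rw [Pi.single_eq_of_ne h]; exact zero_mem _
    · rw [p2_apply]
      simp only [Pi.add_apply, Pi.single_eq_same, Pi.single_eq_of_ne hij,
        Pi.single_eq_of_ne hij.symm]
      ext1 l
      fin_cases l
      · change v 0 + 0 = v 0
        ring
      · change 0 + (v 0 + v 1) - (v 0 + 0) = v 1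
        ring

theorem B3 (a : Fin 3 → ℤ) (c : ℤ) (ha : ∀ i, a i = c) :
    (∀ g ∈ NB (k := k) a, p3 k g ∈ pr (fun l => hi k ((![c, c, c] : Fin 3 → ℤ) l))) ∧
    ∀ v ∈ pr (fun l => hi k ((![c, c, c] : Fin 3 → ℤ) l)), ∃ g ∈ NB (k := k) a, p3 k g = v := by
  constructor
  · intro g hg
    have h : ∀ i, g i ∈ hi k c := fun i => by rw [← ha i]; exact hg i
    rw [mem_pr3, p3_apply]
    refine ⟨h 0, sub_mem (h 1) (h 2), ?_⟩
    have e : g 1 + g 2 - 2 * g 0 = g 1 + g 2 - (g 0 + g 0) := by ring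
    change g 1 + g 2 - 2 * g 0 ∈ _
    rw [e]
    exact sub_mem (add_mem (h 1) (h 2)) (add_mem (h 0) (h 0))
  · intro v hv
    obtain ⟨h0, h1, h2⟩ := mem_pr3.1 hv
    obtain ⟨w, hw, hw'⟩ := half_L (v 1)
    have hw3 : w ∈ hi k c := hw' _ h1
    obtain ⟨u, hu, hu'⟩ := half_L (v 2)
    have hu6 : u ∈ hi k c := hu' _ h2
    refine ⟨![v 0, v 0 + u + w, v 0 + u - w], ?_, ?_⟩
    · intro i
      rw [ha i]
      fin_cases i
      · exact h0
      · exact add_mem (add_mem h0 hu6) hw3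
      · exact sub_mem (add_mem h0 hu6) hw3
    · rw [p3_apply]
      ext1 j
      fin_cases j
      · rfl
      · change (v 0 + u + w) - (v 0 + u - w) = v 1
        rw [hw]; ring
      · change (v 0 + u + w) + (v 0 + u - w) - 2 * v 0 = v 2
        rw [hu]; ring

theorem B4 (a : Fin 3 → ℤ) (ha : a 1 = a 2) :
    (∀ g ∈ NB (k := k) a, p4 k g ∈ pr (fun l => hi k ((![a 0, a 1, a 1] : Fin 3 → ℤ) l))) ∧
    ∀ v ∈ pr (fun l => hi k ((![a 0, a 1, a 1] : Fin 3 → ℤ) l)),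
      ∃ g ∈ NB (k := k) a, p4 k g = v := by
  constructor
  · intro g hg
    rw [mem_pr3, p4_apply]
    refine ⟨hg 0, hg 1, sub_mem ?_ (hg 1)⟩
    have := hg 2
    rw [← ha] at this
    exact this
  · intro v hv
    obtain ⟨h0, h1, h2⟩ := mem_pr3.1 hv
    refine ⟨![v 0, v 1, v 1 + v 2], ?_, ?_⟩
    · intro i
      fin_cases i
      · exact h0
      · exact h1
      · change v 1 + v 2 ∈ hi k (a 2)
        rw [← ha]
        exact add_mem h1 h2
    · rw [p4_apply]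
      ext1 j
      fin_cases j
      · rfl
      · rfl
      · change v 1 + v 2 - v 1 = v 2
        ring

end Run7.h109
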