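import Pool.Agent.Run7.h109.Gl
import Pool.Agent.Helper345_Quot.Qc

set_option autoImplicit false

open AlgebraicGeometry CategoryTheory TopologicalSpace Opposite
open Pool.Agent.Helper345_Quot

noncomputable section

namespace Run7.h109

variable {X : Scheme.{0}}

theorem locAt_of_qc (M : X.Modules) [M.IsQuasicoherent] {U : X.Opens} (hU : IsAffineOpen U) :
    LocAt M U :=
  ⟨fun f s => loc_surj hU f s, fun f t h => loc_inj hU f t h⟩

theorem isLocalizing_of_locAt {M : X.Modules} {U : X.Opens} (hU : IsAffineOpen U)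
    (h : LocAt M U) : IsLocalizing (modulesSpecToSheaf.obj (M.restrict hU.fromSpec)) := by
  intro f
  have e1 : hU.fromSpec ''ᵁ (bO f) = X.basicOpen f := hU.fromSpec_image_basicOpen f
  have e2 := image_top hU
  refine { map_units := ?_, surj := ?_, exists_of_eq := ?_ }
  · rintro ⟨_, n, rfl⟩
    have h1 : IsUnit ((algebraMap _ (Module.End Γ(X, U)
        Γ(M.restrict hU.fromSpec, PrimeSpectrum.basicOpen f))) f) :=
      Scheme.Modules.isUnit_algebraMap_end_of_le_basicOpen f le_rfl
    have h2 := h1.pow n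
    rw [← map_pow] at h2
    exact h2
  · intro t
    obtain ⟨n, s, hs⟩ := h.1 f (rs M e1.ge t)
    refine ⟨⟨rs M e2.le s, ⟨f ^ n, n, rfl⟩⟩, ?_⟩
    have h3 := act_eq (G := M) hU (bO f) (f ^ n) t
    refine h3.trans ?_
    apply rs_inj_of_eq e1.ge e1.le
    have hs' : rs M (X.basicOpen_le f) s = rsX (X.basicOpen_le f) (f ^ n) • rs M e1.ge t := hs
    rw [rs_smul, rsX_rsX]
    refine hs'.symm.trans ?_
    change _ = rs M e1.ge (rs M (hU.fromSpec.image_mono le_top) (rs M e2.le s))
    rw [rs_rs, rs_rs]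
  · intro s t hst
    have hst' : rs M (hU.fromSpec.image_mono (le_top : bO f ≤ ⊤)) (show Γ(M, hU.fromSpec ''ᵁ ⊤) from s) =
        rs M (hU.fromSpec.image_mono (le_top : bO f ≤ ⊤)) (show Γ(M, hU.fromSpec ''ᵁ ⊤) from t) := hst
    have h1 : rs M (X.basicOpen_le f) (rs M e2.ge (show Γ(M, hU.fromSpec ''ᵁ ⊤) from s) -
        rs M e2.ge (show Γ(M, hU.fromSpec ''ᵁ ⊤) from t)) = 0 := by
      have h2 := congrArg (rs M e1.ge) hst'
      rw [rs_rs, rs_rs] at h2
      rw [map_sub, rs_rs, rs_rs, h2, sub_self]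
    obtain ⟨n, hn⟩ := h.2 f _ h1
    refine ⟨⟨f ^ n, n, rfl⟩, ?_⟩
    have a1 := act_eq (G := M) hU ⊤ (f ^ n) s
    have a2 := act_eq (G := M) hU ⊤ (f ^ n) t
    refine a1.trans (Eq.trans ?_ a2.symm)
    apply rs_inj_of_eq e2.ge e2.le
    rw [smul_sub, sub_eq_zero] at hn
    rw [rs_smul, rs_smul, rsX_rsX]
    have e3 : rsX (e2.ge.trans (image_le hU ⊤)) (f ^ n) = f ^ n := by
      have : X.presheaf.map (homOfLE (le_refl U)).op = 𝟙 _ := X.presheaf.map_id _
      unfold rsX
      rw [this]; rfl
    rw [e3]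
    exact hn

theorem qc_restrict_of_locAt {M : X.Modules} {U : X.Opens} (hU : IsAffineOpen U)
    (h : LocAt M U) : IsIso (Scheme.Modules.fromTildeΓ (M.restrict hU.fromSpec)) := by
  rw [isIso_fromTildeΓ_iff_isLocalizing]
  exact isLocalizing_of_locAt hU h

set_option backward.isDefEq.respectTransparency false in
/-- a presentation on the spectrum -/
def presSpec {R : CommRingCat.{0}} (N : (Spec R).Modules) (h : IsIso N.fromTildeΓ) :
    SheafOfModules.Presentation N :=
  SheafOfModules.Presentation.ofIsIso.{0, 0, 0} N.fromTildeΓ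
    (presentationTilde _ Set.univ (by simp) _ (Submodule.span_eq _))

/-- a presentation on an affine open subset -/
def presι (M : X.Modules) {U : X.Opens} (hU : IsAffineOpen U) (h : LocAt M U) :
    SheafOfModules.Presentation (M.restrict U.ι) :=
  let p := presSpec (M.restrict hU.fromSpec) (qc_restrict_of_locAt hU h)
  let q := Scheme.Modules.presentationRestrict hU.isoSpec.hom p
  let e : (M.restrict hU.fromSpec).restrict hU.isoSpec.hom ≅ M.restrict U.ι :=
    ((Scheme.Modules.restrictFunctorComp hU.isoSpec.hom hU.fromSpec).symm ≪≫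
      Scheme.Modules.restrictFunctorCongr (by simp)).app M
  SheafOfModules.Presentation.ofIsIso.{0, 0, 0} e.hom q

/-- a presentation over an affine open subset -/
def presOver (M : X.Modules) {U : X.Opens} (hU : IsAffineOpen U) (h : LocAt M U) :
    SheafOfModules.Presentation (SheafOfModules.over M U) :=
  let p := presι M hU h
  let E := Scheme.Modules.overEquiv U
  let q := p.map E.inverse ((E.unitIso.app (SheafOfModules.unit _)))
  SheafOfModules.Presentation.ofIsIso.{0, 0, 0}
    (E.inverse.map ((Scheme.Modules.overFunctorEquiv U).inv.app M) ≫ (E.unitIso.inv.app _)) q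

theorem qc_of_cover {M : X.Modules} {ι : Type} (U : ι → X.Opens) (hU : ∀ i, IsAffineOpen (U i))
    (hc : iSup U = ⊤) (h : ∀ i, LocAt M (U i)) : M.IsQuasicoherent := by
  have : ∀ i, SheafOfModules.IsQuasicoherent (SheafOfModules.over M (U i)) :=
    fun i => (presOver M (hU i) (h i)).isQuasicoherent
  exact SheafOfModules.IsQuasicoherent.of_coversTop M U ((Opens.coversTop_iff _ _).2 hc)

end Run7.h109
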