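import Pool.Agent.Run7.h109.Qco
import Pool.Agent.Run7.h109.Pts

set_option autoImplicit false
set_option linter.unusedSectionVars false

open AlgebraicGeometry CategoryTheory TopologicalSpace Opposite LaurentPolynomial

noncomputable section

namespace Run7.h109

/-! ### Functions of the intersection of the charts -/

section general

variable {X : Scheme.{0}} {K : Type} [CommRing K] (j : Spec (.of K) ⟶ X)

/-- the pushforward of the structure sheaf -/
def pR : X.Modules :=
  (Scheme.Modules.pushforward j).obj (SheafOfModules.unit (Spec (.of K)).ringCatSheaf)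

/-- sections of the pushforward as functions -/
def toF (W : X.Opens) (s : Γ(pR j, W)) : Γ(Spec (.of K), j ⁻¹ᵁ W) := s

/-- functions as sections of the pushforward -/
def ofF (W : X.Opens) (s : Γ(Spec (.of K), j ⁻¹ᵁ W)) : Γ(pR j, W) := s

theorem toF_add (W : X.Opens) (s t : Γ(pR j, W)) : toF j W (s + t) = toF j W s + toF j W t := rfl

theorem toF_smul (W : X.Opens) (a : Γ(X, W)) (s : Γ(pR j, W)) :
    toF j W (a • s) = (j.app W).hom a * toF j W s := rfl

theorem toF_rt {W W' : X.Opens} (h : W' ≤ W) (s : Γ(pR j, W)) :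
    toF j W' (rt (pR j) h s) = rf (j.preimage_mono h) (toF j W s) := rfl

theorem app_rf {W W' : X.Opens} (h : W' ≤ W) (a : Γ(X, W)) :
    (j.app W').hom (rf h a) = rf (j.preimage_mono h) ((j.app W).hom a) := by
  have := j.naturality (homOfLE h).op
  exact congrArg (fun g => g.hom a) this

/-- the elements of the ring as functions -/
def kap (W : X.Opens) : K →+* Γ(Spec (.of K), j ⁻¹ᵁ W) :=
  (rf (le_top : j ⁻¹ᵁ W ≤ ⊤)).comp (Scheme.ΓSpecIso (.of K)).inv.hom

theorem rf_kap {W W' : X.Opens} (h : W' ≤ W) (g : K) :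
    rf (j.preimage_mono h) (kap j W g) = kap j W' g := by
  unfold kap
  rw [RingHom.comp_apply, rf_rf]
  rfl

theorem kap_bij {W : X.Opens} (hW : j ⁻¹ᵁ W = ⊤) : Function.Bijective (kap j W) := by
  have h1 : Function.Bijective (Scheme.ΓSpecIso (.of K)).inv.hom :=
    ConcreteCategory.bijective_of_isIso _
  have h2 : Function.Bijective (rf (le_top : j ⁻¹ᵁ W ≤ ⊤)) := by
    have h3 : IsIso ((Spec (.of K)).presheaf.map (homOfLE (le_top : j ⁻¹ᵁ W ≤ ⊤)).op) := by
      have : homOfLE (le_top : j ⁻¹ᵁ W ≤ ⊤) = eqToHom hW := rfl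
      rw [this, eqToHom_op]
      infer_instance
    exact ConcreteCategory.bijective_of_isIso _
  exact h2.comp h1

/-- the identification of the functions with the ring -/
def kapE {W : X.Opens} (hW : j ⁻¹ᵁ W = ⊤) : K ≃+* Γ(Spec (.of K), j ⁻¹ᵁ W) :=
  RingEquiv.ofBijective (kap j W) (kap_bij j hW)

/-- a section as an element of the ring -/
def toK {W : X.Opens} (hW : j ⁻¹ᵁ W = ⊤) (s : Γ(pR j, W)) : K := (kapE j hW).symm (toF j W s)

/-- a function as an element of the ring -/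
def al {W : X.Opens} (hW : j ⁻¹ᵁ W = ⊤) : Γ(X, W) →+* K :=
  (kapE j hW).symm.toRingHom.comp (j.app W).hom

theorem kap_toK {W : X.Opens} (hW : j ⁻¹ᵁ W = ⊤) (s : Γ(pR j, W)) :
    kap j W (toK j hW s) = toF j W s := (kapE j hW).apply_symm_apply _

theorem kap_al {W : X.Opens} (hW : j ⁻¹ᵁ W = ⊤) (a : Γ(X, W)) :
    kap j W (al j hW a) = (j.app W).hom a := (kapE j hW).apply_symm_apply _

theorem toK_ofF {W : X.Opens} (hW : j ⁻¹ᵁ W = ⊤) (g : K) : toK j hW (ofF j W (kap j W g)) = g :=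
  (kapE j hW).symm_apply_apply _

theorem toK_inj {W : X.Opens} (hW : j ⁻¹ᵁ W = ⊤) : Function.Injective (toK j hW) :=
  fun _ _ h => (kapE j hW).symm.injective h

theorem toK_surj {W : X.Opens} (hW : j ⁻¹ᵁ W = ⊤) : Function.Surjective (toK j hW) :=
  fun g => ⟨_, toK_ofF j hW g⟩

theorem toK_eq {W : X.Opens} (hW : j ⁻¹ᵁ W = ⊤) {s : Γ(pR j, W)} {g : K}
    (h : kap j W g = toF j W s) : toK j hW s = g := by
  apply (kap_bij j hW).1
  rw [kap_toK, h]

theorem al_eq {W : X.Opens} (hW : j ⁻¹ᵁ W = ⊤) {a : Γ(X, W)} {g : K}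
    (h : kap j W g = (j.app W).hom a) : al j hW a = g := by
  apply (kap_bij j hW).1
  rw [kap_al, h]

theorem toK_add {W : X.Opens} (hW : j ⁻¹ᵁ W = ⊤) (s t : Γ(pR j, W)) :
    toK j hW (s + t) = toK j hW s + toK j hW t := by
  apply toK_eq
  rw [map_add, kap_toK, kap_toK]
  rfl

theorem toK_zero {W : X.Opens} (hW : j ⁻¹ᵁ W = ⊤) : toK j hW (0 : Γ(pR j, W)) = 0 := by
  apply toK_eq
  rw [map_zero]
  rfl

theorem toK_smul {W : X.Opens} (hW : j ⁻¹ᵁ W = ⊤) (a : Γ(X, W)) (s : Γ(pR j, W)) :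
    toK j hW (a • s) = al j hW a * toK j hW s := by
  apply toK_eq
  rw [map_mul, kap_toK, kap_al]
  rfl

theorem toK_rt {W W' : X.Opens} (hW : j ⁻¹ᵁ W = ⊤) (hW' : j ⁻¹ᵁ W' = ⊤) (h : W' ≤ W)
    (s : Γ(pR j, W)) : toK j hW' (rt (pR j) h s) = toK j hW s := by
  apply toK_eq
  rw [toF_rt, ← kap_toK j hW, rf_kap j h]

theorem al_rf {W W' : X.Opens} (hW : j ⁻¹ᵁ W = ⊤) (hW' : j ⁻¹ᵁ W' = ⊤) (h : W' ≤ W)
    (a : Γ(X, W)) : al j hW' (rf h a) = al j hW a := by
  apply al_eq
  rw [app_rf j h, ← kap_al j hW, rf_kap j h]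

/-- the pushforward is localizing on affine opens with affine preimage -/
theorem locAt_pR {W : X.Opens} (hW : IsAffineOpen (j ⁻¹ᵁ W)) : LocAt (pR j) W := by
  have hb : ∀ f : Γ(X, W), j ⁻¹ᵁ X.basicOpen f = (Spec (.of K)).basicOpen ((j.app W).hom f) :=
    fun f => Scheme.preimage_basicOpen j f
  constructor
  · intro f s
    have hl := hW.isLocalization_basicOpen ((j.app W).hom f)
    obtain ⟨⟨t, ⟨_, n, rfl⟩⟩, ht⟩ := IsLocalization.surj
      (Submonoid.powers ((j.app W).hom f)) (rf (hb f).ge (toF j _ s))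
    refine ⟨n, ofF j W t, ?_⟩
    have e : rf ((Spec (.of K)).basicOpen_le ((j.app W).hom f)) t =
      rf (hb f).ge (toF j _ s) * rf ((Spec (.of K)).basicOpen_le ((j.app W).hom f))
        ((j.app W).hom f ^ n) := ht.symm
    have e2 := congrArg (rf (hb f).le) e
    rw [rf_rf, map_mul, rf_rf, rf_rf] at e2
    have e3 : rf ((hb f).le.trans (hb f).ge) (toF j _ s) = toF j _ s := by
      have : (Spec (.of K)).presheaf.map (homOfLE (le_refl (j ⁻¹ᵁ X.basicOpen f))).op = 𝟙 _ :=
        (Spec (.of K)).presheaf.map_id _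
      unfold rf
      rw [this]; rfl
    rw [e3, mul_comm, ← map_pow] at e2
    have e4 := app_rf j (X.basicOpen_le f) (f ^ n)
    have e5 : rf (j.preimage_mono (X.basicOpen_le f)) ((j.app W).hom (f ^ n)) * toF j _ s =
      toF j _ (rf (X.basicOpen_le f) (f ^ n) • s) := by
      rw [toF_smul, e4]
    exact e2.trans e5
  · intro f t ht
    have hl := hW.isLocalization_basicOpen ((j.app W).hom f)
    have h1 : rf ((Spec (.of K)).basicOpen_le ((j.app W).hom f)) (toF j W t) = 0 := by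
      have h2 : rf (j.preimage_mono (X.basicOpen_le f)) (toF j W t) = 0 := ht
      have h3 := congrArg (rf (hb f).ge) h2
      rw [rf_rf, map_zero] at h3
      exact h3
    have h4 : algebraMap Γ(Spec (.of K), j ⁻¹ᵁ W)
      Γ(Spec (.of K), (Spec (.of K)).basicOpen ((j.app W).hom f)) (toF j W t) =
      algebraMap Γ(Spec (.of K), j ⁻¹ᵁ W)
      Γ(Spec (.of K), (Spec (.of K)).basicOpen ((j.app W).hom f)) 0 := by
      rw [map_zero]; exact h1
    obtain ⟨⟨_, n, rfl⟩, hn⟩ := IsLocalization.exists_of_eq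
      (M := Submonoid.powers ((j.app W).hom f)) h4
    refine ⟨n, ?_⟩
    rw [mul_zero] at hn
    have h5 : toF j W (f ^ n • t) = (j.app W).hom f ^ n * toF j W t := by
      rw [toF_smul, map_pow]
    exact h5.trans hn

/-- on a chart whose ring maps to `K`, the functions are the elements of the chart ring -/
theorem al_chart' {A : Type} [CommRing A] [Algebra A K] (i : Spec (.of A) ⟶ X) [IsOpenImmersion i]
    (hj : j = Spec.map (CommRingCat.ofHom (algebraMap A K)) ≫ i) {W : X.Opens}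
    (hi : i.opensRange = W) (hW : j ⁻¹ᵁ W = ⊤) :
    ∃ e : A ≃+* Γ(X, W), (∀ a, al j hW (e a) = algebraMap A K a) ∧
      ∀ a, (i.app W).hom (e a) = kap i W a := by
  subst hi
  have hk : i ⁻¹ᵁ i.opensRange = ⊤ := i.preimage_opensRange
  have b1 : Function.Bijective (kap i i.opensRange) := kap_bij i hk
  have b2 : Function.Bijective (i.app i.opensRange).hom := by
    have : IsIso (i.app i.opensRange) := i.isIso_app _ le_rfl
    exact ConcreteCategory.bijective_of_isIso _
  let e1 := RingEquiv.ofBijective (kap i i.opensRange) b1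
  let e2 := RingEquiv.ofBijective (i.app i.opensRange).hom b2
  refine ⟨e1.trans e2.symm, fun a => ?_, fun a => e2.apply_symm_apply _⟩
  apply al_eq
  have h1 : (i.app i.opensRange).hom (e2.symm (e1 a)) = kap i i.opensRange a :=
    e2.apply_symm_apply _
  subst hj
  have h2 : ((Spec.map (CommRingCat.ofHom (algebraMap A K)) ≫ i).app i.opensRange).hom
      (e2.symm (e1 a)) = ((Spec.map (CommRingCat.ofHom (algebraMap A K))).app
        (i ⁻¹ᵁ i.opensRange)).hom ((i.app i.opensRange).hom (e2.symm (e1 a))) := rfl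
  refine Eq.trans ?_ h2.symm
  rw [h1]
  unfold kap
  rw [RingHom.comp_apply, RingHom.comp_apply]
  have h3 := app_rf (Spec.map (CommRingCat.ofHom (algebraMap A K)))
    (le_top : i ⁻¹ᵁ i.opensRange ≤ ⊤) ((Scheme.ΓSpecIso (.of A)).inv.hom a)
  refine Eq.trans ?_ h3.symm
  have h4 := Scheme.ΓSpecIso_inv_naturality (CommRingCat.ofHom (algebraMap A K))
  have h5 := congrArg (fun g => g.hom a) h4
  have h6 : (Scheme.ΓSpecIso (.of K)).inv.hom (algebraMap A K a) =
    ((Spec.map (CommRingCat.ofHom (algebraMap A K))).appTop).hom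
      ((Scheme.ΓSpecIso (.of A)).inv.hom a) := h5
  rw [h6]
  rfl

theorem al_chart {A : Type} [CommRing A] [Algebra A K] (i : Spec (.of A) ⟶ X) [IsOpenImmersion i]
    (hj : j = Spec.map (CommRingCat.ofHom (algebraMap A K)) ≫ i) {W : X.Opens}
    (hi : i.opensRange = W) (hW : j ⁻¹ᵁ W = ⊤) :
    ∃ e : A ≃+* Γ(X, W), ∀ a, al j hW (e a) = algebraMap A K a := by
  obtain ⟨e, he, -⟩ := al_chart' j i hj hi hW
  exact ⟨e, he⟩

/-- basic open subsets of charts -/
theorem chart_basicOpen {A : Type} [CommRing A] (i : Spec (.of A) ⟶ X) [IsOpenImmersion i]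
    {W : X.Opens} (f : Γ(X, W)) (a : A) (hf : (i.app W).hom f = kap i W a)
    (hW : i ⁻¹ᵁ W = ⊤) (p : Spec (.of A)) : i p ∈ X.basicOpen f ↔ a ∉ p.asIdeal := by
  have h1 : i p ∈ X.basicOpen f ↔ p ∈ i ⁻¹ᵁ X.basicOpen f := Iff.rfl
  have h2 : i ⁻¹ᵁ X.basicOpen f = (Spec (.of A)).basicOpen ((i.app W).hom f) :=
    Scheme.preimage_basicOpen i f
  rw [h1, h2, hf]
  have h3 : (Spec (.of A)).basicOpen (kap i W a) =
    i ⁻¹ᵁ W ⊓ (Spec (.of A)).basicOpen ((Scheme.ΓSpecIso (.of A)).inv a) :=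
    Scheme.basicOpen_res _ _ _
  rw [h3, hW, top_inf_eq]
  have h4 := basicOpen_eq_of_affine (R := .of A) a
  exact (SetLike.ext_iff.1 h4 p)

end general

end Run7.h109
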