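import Pool.Agent.Run7.h109.Alg3

set_option autoImplicit false

open LaurentPolynomial Pool.Agent.Helper395 AlgebraicGeometry CategoryTheory CategoryTheory.Limits

noncomputable section

namespace Run7.h109

variable (k : Type) [Field k] [CharZero k]

/-- the localization map of the first chart -/
abbrev rA : Spec (.of (K k)) ⟶ Spec (.of (A k)) :=
  Spec.map (CommRingCat.ofHom (algebraMap (A k) (K k)))

/-- the localization map of the second chart -/
abbrev rB : Spec (.of (K k)) ⟶ Spec (.of (B k)) :=
  Spec.map (CommRingCat.ofHom (algebraMap (B k) (K k)))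

instance : IsOpenImmersion (rA k) := IsOpenImmersion.of_isLocalization (xA k)
instance : IsOpenImmersion (rB k) := IsOpenImmersion.of_isLocalization (zB k)

/-- The curve. -/
def X : Scheme.{0} := pushout (rA k) (rB k)

/-- the first chart -/
def iA : Spec (.of (A k)) ⟶ X k := pushout.inl (rA k) (rB k)

/-- the second chart -/
def iB : Spec (.of (B k)) ⟶ X k := pushout.inr (rA k) (rB k)

/-- the intersection of the charts -/
def iK : Spec (.of (K k)) ⟶ X k := rA k ≫ iA k

instance : IsOpenImmersion (iA k) := inferInstanceAs (IsOpenImmersion (pushout.inl (rA k) (rB k)))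
instance : IsOpenImmersion (iB k) := inferInstanceAs (IsOpenImmersion (pushout.inr (rA k) (rB k)))
instance : IsOpenImmersion (iK k) := inferInstanceAs (IsOpenImmersion (rA k ≫ iA k))

theorem iK_eq : iK k = rB k ≫ iB k := pushout.condition

/-- the structure morphism -/
def fX : X k ⟶ Spec (.of k) :=
  pushout.desc (Spec.map (CommRingCat.ofHom (algebraMap k (A k))))
    (Spec.map (CommRingCat.ofHom (algebraMap k (B k)))) (by
      rw [← Spec.map_comp, ← Spec.map_comp]
      rfl)

theorem iA_f : iA k ≫ fX k = Spec.map (CommRingCat.ofHom (algebraMap k (A k))) :=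
  pushout.inl_desc _ _ _

theorem iB_f : iB k ≫ fX k = Spec.map (CommRingCat.ofHom (algebraMap k (B k))) :=
  pushout.inr_desc _ _ _

theorem xz : ((xA k : A k) : K k) * ((zB k : B k) : K k) = 1 := by
  ext1 i
  change (T 1 : L k) * T (-1) = 1
  rw [← T_add]
  simp

/-- the two charts -/
def charts : TwoCharts k (A k) (B k) (K k) where
  T := X k
  f := fX k
  ρ₁ := algebraMap k (A k)
  ρ₂ := algebraMap k (B k)
  ι₁ := algebraMap (A k) (K k)
  ι₂ := algebraMap (B k) (K k)
  x₁ := xA k
  x₂ := zB k
  inc₁ := iA k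
  inc₂ := iB k
  open₁ := inferInstance
  open₂ := inferInstance
  fac₁ := iA_f k
  fac₂ := iB_f k
  glue := iK_eq k
  surj := pushout_jointly_surjective (rA k) (rB k)
  inter := fun x y h => (pushout_eq_iff (rA k) (rB k) x y).1 h
  loc₁ := by
    have h : (algebraMap (A k) (K k)).toAlgebra = (inferInstance : Algebra (A k) (K k)) :=
      Algebra.algebra_ext _ _ (fun _ => rfl)
    rw [h]
    exact locA
  loc₂ := by
    have h : (algebraMap (B k) (K k)).toAlgebra = (inferInstance : Algebra (B k) (K k)) :=
      Algebra.algebra_ext _ _ (fun _ => rfl)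
    rw [h]
    exact locB
  hx := xz k
  val₁ := valA
  val₂ := valB

instance : IsProper (fX k) := (charts k).isProper
  (RingHom.finiteType_algebraMap.2 inferInstance) (RingHom.finiteType_algebraMap.2 inferInstance)

variable {k}

theorem X_surj (x : X k) : (∃ y, iA k y = x) ∨ ∃ y, iB k y = x :=
  pushout_jointly_surjective (rA k) (rB k) x

theorem X_inter {x : Spec (.of (A k))} {y : Spec (.of (B k))} (h : iA k x = iB k y) :
    ∃ z, rA k z = x ∧ rB k z = y := (pushout_eq_iff (rA k) (rB k) x y).1 h

variable (k)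

/-- the first affine open subset -/
def U : (X k).Opens := (iA k).opensRange

/-- the second affine open subset -/
def V : (X k).Opens := (iB k).opensRange

theorem affU : IsAffineOpen (U k) := isAffineOpen_opensRange _

theorem affV : IsAffineOpen (V k) := isAffineOpen_opensRange _

theorem UV_top : U k ⊔ V k = ⊤ := by
  rw [eq_top_iff]
  intro x _
  rcases X_surj x with ⟨y, hy⟩ | ⟨y, hy⟩
  · exact Or.inl ⟨y, hy⟩
  · exact Or.inr ⟨y, hy⟩

theorem UV_inf : U k ⊓ V k = (iK k).opensRange := by
  ext x
  constructor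
  · rintro ⟨⟨y, hy⟩, ⟨z, hz⟩⟩
    obtain ⟨w, hw, -⟩ := X_inter (hy.trans hz.symm)
    refine ⟨w, ?_⟩
    rw [← hy, ← hw]
    rfl
  · rintro ⟨w, rfl⟩
    refine ⟨⟨rA k w, rfl⟩, ⟨rB k w, ?_⟩⟩
    rw [iK_eq]
    rfl

end Run7.h109
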