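import Mathlib

set_option autoImplicit false

open AlgebraicGeometry CategoryTheory TopologicalSpace Opposite

noncomputable section

namespace Run7.h109

variable {X : Scheme.{0}}

/-- restriction of sections -/
def rt (M : X.Modules) {W W' : X.Opens} (h : W' ≤ W) : Γ(M, W) →+ Γ(M, W') :=
  (M.presheaf.map (homOfLE h).op).hom

theorem rt_rt (M : X.Modules) {W W' W'' : X.Opens} (h : W' ≤ W) (h' : W'' ≤ W') (s : Γ(M, W)) :
    rt M h' (rt M h s) = rt M (h'.trans h) s := by
  unfold rt
  change (M.presheaf.map _ ≫ M.presheaf.map _).hom s = _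
  rw [← M.presheaf.map_comp]
  rfl

theorem rt_self (M : X.Modules) {W : X.Opens} (h : W ≤ W) (s : Γ(M, W)) : rt M h s = s := by
  have : M.presheaf.map (homOfLE h).op = 𝟙 _ := M.presheaf.map_id _
  unfold rt
  rw [this]
  rfl

/-- restriction of functions -/
def rf {W W' : X.Opens} (h : W' ≤ W) : Γ(X, W) →+* Γ(X, W') :=
  (X.presheaf.map (homOfLE h).op).hom

theorem rt_smul (M : X.Modules) {W W' : X.Opens} (h : W' ≤ W) (a : Γ(X, W)) (s : Γ(M, W)) :
    rt M h (a • s) = rf h a • rt M h s :=
  M.map_smul (homOfLE h) a s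

/-- A family of submodules of the sections of `M`, defined by local conditions. -/
structure LocSub (M : X.Modules) where
  /-- the sections -/
  N : ∀ W : X.Opens, Submodule Γ(X, W) Γ(M, W)
  res : ∀ {W W' : X.Opens} (h : W' ≤ W) (s : Γ(M, W)), s ∈ N W → rt M h s ∈ N W'
  loc : ∀ (W : X.Opens) (s : Γ(M, W)),
    (∀ x ∈ W, ∃ (W' : X.Opens) (h : W' ≤ W), x ∈ W' ∧ rt M h s ∈ N W') → s ∈ N W

namespace LocSub

variable {M : X.Modules} (S : LocSub M)

/-- the presheaf of submodules -/
def pre : PresheafOfModules.Submodule M.val where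
  obj W := S.N W.unop
  map {W W'} f := by
    intro s hs
    have h1 := S.res (leOfHom f.unop) s hs
    exact h1

theorem isSheaf_pre : TopCat.Presheaf.IsSheaf (C := Ab) S.pre.toPresheafOfModules.presheaf := by
  rw [TopCat.Presheaf.isSheaf_iff_isSheafUniqueGluing]
  intro ι U sf hsf
  have hM := (TopCat.Presheaf.isSheaf_iff_isSheafUniqueGluing (C := Ab) M.presheaf).1 M.isSheaf
  obtain ⟨s, hs, hu⟩ := hM U (fun i => (sf i).1) (fun i j => congrArg Subtype.val (hsf i j))
  have hs' : s ∈ S.N (iSup U) := by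
    apply S.loc
    intro x hx
    obtain ⟨i, hi⟩ := Opens.mem_iSup.1 hx
    refine ⟨U i, le_iSup U i, hi, ?_⟩
    have h1 : rt M (le_iSup U i) s = (sf i).1 := hs i
    rw [h1]
    exact (sf i).2
  refine ⟨⟨s, hs'⟩, fun i => Subtype.ext (hs i), ?_⟩
  rintro ⟨t, ht⟩ htg
  apply Subtype.ext
  apply hu
  intro i
  exact congrArg Subtype.val (htg i)

/-- The sheaf of modules. -/
def sheaf : X.Modules := ⟨S.pre.toPresheafOfModules, S.isSheaf_pre⟩

/-- The value of a section of the subsheaf. -/
def val {W : X.Opens} (s : Γ(S.sheaf, W)) : Γ(M, W) := Subtype.val (p := fun x => x ∈ S.N W) s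

theorem val_mem {W : X.Opens} (s : Γ(S.sheaf, W)) : S.val s ∈ S.N W :=
  Subtype.property (p := fun x => x ∈ S.N W) s

/-- A section of the subsheaf. -/
def sec {W : X.Opens} (s : Γ(M, W)) (h : s ∈ S.N W) : Γ(S.sheaf, W) :=
  (⟨s, h⟩ : {x // x ∈ S.N W})

@[simp] theorem val_sec {W : X.Opens} (s : Γ(M, W)) (h : s ∈ S.N W) : S.val (S.sec s h) = s := rfl

theorem val_inj {W : X.Opens} {s t : Γ(S.sheaf, W)} (h : S.val s = S.val t) : s = t :=
  Subtype.ext h

@[simp] theorem val_add {W : X.Opens} (s t : Γ(S.sheaf, W)) : S.val (s + t) = S.val s + S.val t :=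
  rfl

@[simp] theorem val_zero {W : X.Opens} : S.val (0 : Γ(S.sheaf, W)) = 0 := rfl

@[simp] theorem val_smul {W : X.Opens} (a : Γ(X, W)) (s : Γ(S.sheaf, W)) :
    S.val (a • s) = a • S.val s := rfl

@[simp] theorem val_rt {W W' : X.Opens} (h : W' ≤ W) (s : Γ(S.sheaf, W)) :
    S.val (rt S.sheaf h s) = rt M h (S.val s) := rfl

/-- The inclusion. -/
def ι : S.sheaf ⟶ M := SheafOfModules.Hom.mk S.pre.ι

theorem ι_app {W : X.Opens} (s : Γ(S.sheaf, W)) : (S.ι.app W).hom s = S.val s := rfl

/-- Lifting a homomorphism to the subsheaf. -/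
def lift {F : X.Modules} (φ : F ⟶ M) (h : ∀ (W : X.Opens) (s : Γ(F, W)), (φ.app W).hom s ∈ S.N W) :
    F ⟶ S.sheaf :=
  SheafOfModules.Hom.mk (PresheafOfModules.homMk
    { app := fun W => AddCommGrpCat.ofHom
        { toFun := fun s => S.sec ((φ.app W.unop).hom s) (h W.unop s)
          map_zero' := by
            apply S.val_inj
            exact map_zero _
          map_add' := by
            intro s t
            apply S.val_inj
            exact map_add _ s t }
      naturality := by
        intro W W' f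
        ext s
        apply S.val_inj
        have h1 := congrArg (fun g => g.hom s) (φ.mapPresheaf.naturality f)
        exact h1 } (by
        intro W r s
        apply S.val_inj
        exact φ.app_smul r s))

theorem val_lift {F : X.Modules} (φ : F ⟶ M)
    (h : ∀ (W : X.Opens) (s : Γ(F, W)), (φ.app W).hom s ∈ S.N W) {W : X.Opens} (s : Γ(F, W)) :
    S.val (((S.lift φ h).app W).hom s) = (φ.app W).hom s := rfl

end LocSub

end Run7.h109
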