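import Pool.Agent.Run7.h109.Ker

set_option autoImplicit false
set_option linter.unusedSectionVars false

open AlgebraicGeometry CategoryTheory TopologicalSpace Opposite LaurentPolynomial

noncomputable section

namespace Run7.h109

variable {k : Type} [Field k] [CharZero k]

/-- A model of a sheaf. -/
structure Mdl (F : (X k).Modules) where
  /-- the embedding -/
  E : Emb F
  /-- the sections on the first chart -/
  MU : Set (K k)
  /-- the sections on the second chart -/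
  NV : Set (K k)
  hU1 : ∀ s, E.t (pU k) s ∈ MU
  hU2 : ∀ g ∈ MU, ∃ s, E.t (pU k) s = g
  hV1 : ∀ s, E.t (pV k) s ∈ NV
  hV2 : ∀ g ∈ NV, ∃ s, E.t (pV k) s = g
  hUV : Function.Surjective (E.t (pUV k))

variable (k) in
/-- the model of the structure sheaf -/
def mO : Mdl (strSheaf (crv k)) where
  E := strE
  MU := {g | g ∈ A k}
  NV := {g | g ∈ NB (k := k) ![0, 0, 0]}
  hU1 := str_mem_U
  hU2 := fun _ hg => str_exists_U hg
  hV1 := fun s i => by
    have h := str_mem_V s i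
    fin_cases i <;> exact h
  hV2 := fun g hg => str_exists_V (fun i => by
    have h := hg i
    fin_cases i <;> exact h)
  hUV := str_exists_UV

/-- the model of the sheaf of a pair -/
def mP (P : Pair k) : Mdl P.F where
  E := P.E
  MU := {g | g ∈ P.M}
  NV := {g | g ∈ P.N}
  hU1 := P.t_mem_U
  hU2 := fun _ hg => P.exists_U hg
  hV1 := P.t_mem_V
  hV2 := fun _ hg => P.exists_V hg
  hUV := P.exists_UV

theorem Mdl.dims' {F : (X k).Modules} (m : Mdl F)
    (Q : ∀ W, Submodule k (Sec (C := crv k) F W)) {r : ℕ} (p : K k →ₗ[k] (Fin r → L k))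
    (hp : Function.Surjective p) (P N : Fin r → ℤ)
    (hA : (∀ g ∈ m.MU, p g ∈ pr (fun i => lo k (P i))) ∧
      ∀ v ∈ pr (fun i => lo k (P i)), ∃ g ∈ m.MU, p g = v)
    (hB : (∀ g ∈ m.NV, p g ∈ pr (fun i => hi k (N i))) ∧
      ∀ v ∈ pr (fun i => hi k (N i)), ∃ g ∈ m.NV, p g = v)
    (hQU : ∀ s, s ∈ Q (U k) ↔ p (m.E.t (pU k) s) = 0)
    (hQV : ∀ s, s ∈ Q (V k) ↔ p (m.E.t (pV k) s) = 0)
    (hQW : ∀ s, s ∈ Q (U k ⊓ V k) ↔ p (m.E.t (pUV k) s) = 0) :
    (dimH0 (C := crv k) F Q = ∑ i, (N i + 1 - P i).toNat) ∧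
    dimH1 (C := crv k) F Q = ∑ i, (P i - N i - 1).toNat :=
  Run7.h109.dims' m.E m.hUV Q p hp P N (map_range_eq _ m.MU m.hU1 m.hU2 p _ hA.1 hA.2)
    (map_range_eq _ m.NV m.hV1 m.hV2 p _ hB.1 hB.2) hQU hQV hQW

/-- the cohomology of the sheaf itself -/
theorem Mdl.dims0 {F : (X k).Modules} (m : Mdl F) {r : ℕ} (p : K k →ₗ[k] (Fin r → L k))
    (hp : Function.Surjective p) (hk : ∀ g, p g = 0 ↔ g = 0) (P N : Fin r → ℤ)
    (hA : (∀ g ∈ m.MU, p g ∈ pr (fun i => lo k (P i))) ∧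
      ∀ v ∈ pr (fun i => lo k (P i)), ∃ g ∈ m.MU, p g = v)
    (hB : (∀ g ∈ m.NV, p g ∈ pr (fun i => hi k (N i))) ∧
      ∀ v ∈ pr (fun i => hi k (N i)), ∃ g ∈ m.NV, p g = v) :
    (h0 (C := crv k) F = ∑ i, (N i + 1 - P i).toNat) ∧
    h1 (C := crv k) F = ∑ i, (P i - N i - 1).toNat := by
  have key : ∀ {W : (X k).Opens} (hW : (iK k) ⁻¹ᵁ W = ⊤) (_ : Function.Injective (m.E.Φ W))
    (s : Sec (C := crv k) F W),
    s ∈ (⊥ : Submodule k (Sec (C := crv k) F W)) ↔ p (m.E.t hW s) = 0 := by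
    intro W hW hi s
    rw [hk, Submodule.mem_bot]
    constructor
    · rintro rfl
      exact map_zero _
    · intro h
      apply m.E.t_inj hW hi
      rw [h, map_zero]
  exact m.dims' (fun _ => ⊥) p hp P N hA hB (key (pU k) m.E.injU) (key (pV k) m.E.injV)
    (key (pUV k) (m.E.inj _ le_rfl))

/-! ### The structure sheaf -/

theorem chi_O1 (i : Fin 3) :
    chi (C := crv k) (strSheaf (crv k)) (kerRes (strSheaf (crv k)) true (sI k {i})) = 1 := by
  obtain ⟨e0, e1⟩ := (mO k).dims' (kerRes (C := crv k) (strSheaf (crv k)) true (sI k {i}))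
    (p1 i) (p1_surj i) ![0] ![0] (A1 i) (by
      have h := B1 (k := k) ![0, 0, 0] i
      have e : (![0, 0, 0] : Fin 3 → ℤ) i = 0 := by fin_cases i <;> rfl
      rw [e] at h
      exact h)
    (fun s => (ker_true strE (pU k) {i} s).trans (p1_ker i _).symm)
    (fun s => (ker_true strE (pV k) {i} s).trans (p1_ker i _).symm)
    (fun s => (ker_true strE (pUV k) {i} s).trans (p1_ker i _).symm)
  unfold chi
  rw [e0, e1]
  rfl

theorem chi_O2 {i j : Fin 3} (hij : i ≠ j)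
    (hA : (∀ g ∈ A k, p2 i j g ∈ pr (fun l => lo k ((![0, 3] : Fin 2 → ℤ) l))) ∧
    ∀ v ∈ pr (fun l => lo k ((![0, 3] : Fin 2 → ℤ) l)), ∃ g ∈ A k, p2 i j g = v) :
    chi (C := crv k) (strSheaf (crv k)) (kerRes (strSheaf (crv k)) true (sI k {i, j})) = -1 := by
  obtain ⟨e0, e1⟩ := (mO k).dims' (kerRes (C := crv k) (strSheaf (crv k)) true (sI k {i, j}))
    (p2 i j) (p2_surj hij) ![0, 3] ![0, 0] hA (by
      have e : ∀ l, (![0, 0, 0] : Fin 3 → ℤ) l = 0 := by intro l; fin_cases l <;> rfl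
      have h := B2 (k := k) ![0, 0, 0] i j hij ((e i).trans (e j).symm)
      rw [e] at h
      exact h)
    (fun s => (ker_true strE (pU k) {i, j} s).trans (p2_ker i j _).symm)
    (fun s => (ker_true strE (pV k) {i, j} s).trans (p2_ker i j _).symm)
    (fun s => (ker_true strE (pUV k) {i, j} s).trans (p2_ker i j _).symm)
  unfold chi
  rw [e0, e1]
  rfl

theorem chi_O : chi (C := crv k) (strSheaf (crv k)) (fun _ => ⊥) = -6 := by
  obtain ⟨e0, e1⟩ := (mO k).dims0 (p3 k) p3_surj p3_ker ![0, 3, 6] ![0, 0, 0] A3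
    (B3 _ 0 (by intro l; fin_cases l <;> rfl))
  have h : chi (C := crv k) (strSheaf (crv k)) (fun _ => ⊥) =
    (h0 (C := crv k) (strSheaf (crv k)) : ℤ) - (h1 (C := crv k) (strSheaf (crv k)) : ℤ) := rfl
  rw [h, e0, e1]
  rfl

theorem pa_crv : pa (crv k) = 7 := by
  rw [pa, chi_O]; rfl

/-! ### The dualizing sheaf -/

theorem chi_ω1 (τ : Bool) (i : Fin 3) :
    chi (C := crv k) (Pω k).F (kerRes (Pω k).F τ (sI k {i})) = 5 := by
  obtain ⟨e0, e1⟩ := (mP (Pω k)).dims' (kerRes (C := crv k) (Pω k).F τ (sI k {i}))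
    (p1 i) (p1_surj i) ![0] ![4] (A1 i) (by
      have h := B1 (k := k) ![4, 4, 4] i
      have e : (![4, 4, 4] : Fin 3 → ℤ) i = 4 := by fin_cases i <;> rfl
      rw [e] at h
      exact h)
    (fun s => (ker_ω_U τ s).trans (p1_ker i _).symm)
    (fun s => (ker_V (Pω k).E τ s).trans (p1_ker i _).symm)
    (fun s => (ker_UV (Pω k).E τ s).trans (p1_ker i _).symm)
  unfold chi
  rw [e0, e1]
  rfl

theorem chi_ω2 (τ : Bool) {i j : Fin 3} (hij : i ≠ j)
    (hA : (∀ g ∈ A k, p2 i j g ∈ pr (fun l => lo k ((![0, 3] : Fin 2 → ℤ) l))) ∧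
    ∀ v ∈ pr (fun l => lo k ((![0, 3] : Fin 2 → ℤ) l)), ∃ g ∈ A k, p2 i j g = v) :
    chi (C := crv k) (Pω k).F (kerRes (Pω k).F τ (sI k {i, j})) = 7 := by
  obtain ⟨e0, e1⟩ := (mP (Pω k)).dims' (kerRes (C := crv k) (Pω k).F τ (sI k {i, j}))
    (p2 i j) (p2_surj hij) ![0, 3] ![4, 4] hA (by
      have e : ∀ l, (![4, 4, 4] : Fin 3 → ℤ) l = 4 := by intro l; fin_cases l <;> rfl
      have h := B2 (k := k) ![4, 4, 4] i j hij ((e i).trans (e j).symm)
      rw [e] at h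
      exact h)
    (fun s => (ker_ω_U τ s).trans (p2_ker i j _).symm)
    (fun s => (ker_V (Pω k).E τ s).trans (p2_ker i j _).symm)
    (fun s => (ker_UV (Pω k).E τ s).trans (p2_ker i j _).symm)
  unfold chi
  rw [e0, e1]
  rfl

theorem deg_ω1 (τ : Bool) (i : Fin 3) : degRes (C := crv k) (Pω k).F τ (sI k {i}) = 4 := by
  unfold degRes
  rw [chi_ω1, chi_O1]
  rfl

/-! ### The first test sheaf -/

theorem chi_F1 (i : Fin 3) :
    chi (C := crv k) (PF k).F (kerRes (PF k).F true (sI k {i})) = (![5, 1, 1] : Fin 3 → ℤ) i := by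
  obtain ⟨e0, e1⟩ := (mP (PF k)).dims' (kerRes (C := crv k) (PF k).F true (sI k {i}))
    (p1 i) (p1_surj i) ![0] ![(![4, 0, 0] : Fin 3 → ℤ) i] (A'1 i) (B1 (k := k) ![4, 0, 0] i)
    (fun s => (ker_true (PF k).E (pU k) {i} s).trans (p1_ker i _).symm)
    (fun s => (ker_true (PF k).E (pV k) {i} s).trans (p1_ker i _).symm)
    (fun s => (ker_true (PF k).E (pUV k) {i} s).trans (p1_ker i _).symm)
  unfold chi
  rw [e0, e1]
  fin_cases i <;> rfl

theorem h_F : h0 (C := crv k) (PF k).F = 6 ∧ h1 (C := crv k) (PF k).F = 2 := by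
  obtain ⟨e0, e1⟩ := (mP (PF k)).dims0 (p4 k) p4_surj p4_ker ![0, 0, 3] ![4, 0, 0] A'4
    (B4 ![4, 0, 0] rfl)
  rw [e0, e1]
  constructor <;> rfl

theorem h_G : h0 (C := crv k) (PG k).F = 2 ∧ h1 (C := crv k) (PG k).F = 6 := by
  obtain ⟨e0, e1⟩ := (mP (PG k)).dims0 (p4 k) p4_surj p4_ker ![0, 0, 3] ![-6, 1, 1] A'4
    (B4 ![-6, 1, 1] rfl)
  rw [e0, e1]
  constructor <;> rfl

end Run7.h109
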