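import Pool.Agent.Run7.h109.TabG

set_option autoImplicit false
set_option linter.unusedSectionVars false

open AlgebraicGeometry CategoryTheory TopologicalSpace Opposite LaurentPolynomial

noncomputable section

namespace Run7.h109

variable {k : Type} [Field k] [CharZero k]

/-! ### Pairs of coordinates -/

/-- two coordinates -/
def q2 (i j : Fin 3) : K k →ₗ[k] (Fin 2 → L k) :=
  LinearMap.pi ![cd i, cd j]

theorem q2_apply (i j : Fin 3) (g : K k) : q2 i j g = ![g i, g j] := by
  ext1 l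
  fin_cases l <;> rfl

theorem q2_ker (i j : Fin 3) (g : K k) : q2 i j g = 0 ↔ ∀ l ∈ ({i, j} : Finset (Fin 3)), g l = 0 := by
  rw [q2_apply]
  constructor
  · intro h l hl
    have h0 : g i = 0 := congrFun h 0
    have h1 : g j = 0 := congrFun h 1
    rw [Finset.mem_insert, Finset.mem_singleton] at hl
    rcases hl with rfl | rfl
    · exact h0
    · exact h1
  · intro h
    have h0 : g i = 0 := h i (by simp)
    have h1 : g j = 0 := h j (by simp)
    ext1 l
    fin_cases l
    · exact h0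
    · exact h1

theorem q2_surj {i j : Fin 3} (hij : i ≠ j) : Function.Surjective (q2 (k := k) i j) := by
  intro v
  refine ⟨Pi.single i (v 0) + Pi.single j (v 1), ?_⟩
  rw [q2_apply]
  simp only [Pi.add_apply, Pi.single_eq_same, Pi.single_eq_of_ne hij, Pi.single_eq_of_ne hij.symm]
  ext1 l
  fin_cases l
  · change v 0 + 0 = v 0
    ring
  · change 0 + v 1 = v 1
    ring

theorem A'q (j : Fin 3) (hj : j ≠ 0) :
    (∀ g ∈ MA' k, q2 0 j g ∈ pr (fun l => lo k ((![0, 0] : Fin 2 → ℤ) l))) ∧
    ∀ v ∈ pr (fun l => lo k ((![0, 0] : Fin 2 → ℤ) l)), ∃ g ∈ MA' k, q2 0 j g = v := by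
  constructor
  · intro g hg
    rw [mem_pr2, q2_apply]
    exact ⟨hg.1 0, hg.1 j⟩
  · intro v hv
    obtain ⟨h0, h1⟩ := mem_pr2.1 hv
    refine ⟨![v 0, v 1, v 1], ⟨?_, ?_⟩, ?_⟩
    · intro i
      fin_cases i
      · exact h0
      · exact h1
      · exact h1
    · change v 1 - v 1 ∈ _
      rw [sub_self]; exact zero_mem _
    · rw [q2_apply]
      have : j = 1 ∨ j = 2 := by omega
      rcases this with rfl | rfl
      · ext1 l; fin_cases l <;> rfl
      · ext1 l; fin_cases l <;> rfl

theorem A'p : (∀ g ∈ MA' k, p2 1 2 g ∈ pr (fun l => lo k ((![0, 3] : Fin 2 → ℤ) l))) ∧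
    ∀ v ∈ pr (fun l => lo k ((![0, 3] : Fin 2 → ℤ) l)), ∃ g ∈ MA' k, p2 1 2 g = v := by
  constructor
  · intro g hg
    rw [mem_pr2, p2_apply]
    refine ⟨hg.1 1, ?_⟩
    have := neg_mem hg.2
    rw [neg_sub] at this
    exact this
  · intro v hv
    obtain ⟨g, hg, h⟩ := (A2_12 (k := k)).2 v hv
    exact ⟨g, MA_le hg, h⟩

theorem Bq (a : Fin 3 → ℤ) (i j : Fin 3) (hij : i ≠ j) :
    (∀ g ∈ NB (k := k) a, q2 i j g ∈ pr (fun l => hi k ((![a i, a j] : Fin 2 → ℤ) l))) ∧
    ∀ v ∈ pr (fun l => hi k ((![a i, a j] : Fin 2 → ℤ) l)), ∃ g ∈ NB (k := k) a, q2 i j g = v := by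
  constructor
  · intro g hg
    rw [mem_pr2, q2_apply]
    exact ⟨hg i, hg j⟩
  · intro v hv
    obtain ⟨h0, h1⟩ := mem_pr2.1 hv
    refine ⟨Pi.single i (v 0) + Pi.single j (v 1), ?_, ?_⟩
    · refine add_mem ?_ ?_
      · intro l
        by_cases h : l = i
        · subst h; rw [Pi.single_eq_same]; exact h0
        · rw [Pi.single_eq_of_ne h]; exact zero_mem _
      · intro l
        by_cases h : l = j
        · subst h; rw [Pi.single_eq_same]; exact h1
        · rw [Pi.single_eq_of_ne h]; exact zero_mem _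
    · rw [q2_apply]
      simp only [Pi.add_apply, Pi.single_eq_same, Pi.single_eq_of_ne hij,
        Pi.single_eq_of_ne hij.symm]
      ext1 l
      fin_cases l
      · change v 0 + 0 = v 0
        ring
      · change 0 + v 1 = v 1
        ring

/-! ### The whole curve -/

theorem p3_univ (g : K k) : p3 k g = 0 ↔ ∀ l ∈ (Finset.univ : Finset (Fin 3)), g l = 0 := by
  rw [p3_ker]
  constructor
  · rintro rfl l _; rfl
  · intro h; ext1 l; exact h l (Finset.mem_univ _)

theorem p4_univ (g : K k) : p4 k g = 0 ↔ ∀ l ∈ (Finset.univ : Finset (Fin 3)), g l = 0 := by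
  rw [p4_ker]
  constructor
  · rintro rfl l _; rfl
  · intro h; ext1 l; exact h l (Finset.mem_univ _)

theorem chi_O3 : chi (C := crv k) (strSheaf (crv k)) (kerRes (strSheaf (crv k)) true
    (sI k Finset.univ)) = -6 := by
  obtain ⟨e0, e1⟩ := (mO k).dims' (kerRes (C := crv k) (strSheaf (crv k)) true (sI k Finset.univ))
    (p3 k) p3_surj ![0, 3, 6] ![0, 0, 0] A3 (B3 _ 0 (by intro l; fin_cases l <;> rfl))
    (fun s => (ker_true strE (pU k) Finset.univ s).trans (p3_univ _).symm)
    (fun s => (ker_true strE (pV k) Finset.univ s).trans (p3_univ _).symm)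
    (fun s => (ker_true strE (pUV k) Finset.univ s).trans (p3_univ _).symm)
  unfold chi
  rw [e0, e1]
  rfl

theorem chi_ω3 (τ : Bool) :
    chi (C := crv k) (Pω k).F (kerRes (Pω k).F τ (sI k Finset.univ)) = 6 := by
  obtain ⟨e0, e1⟩ := (mP (Pω k)).dims' (kerRes (C := crv k) (Pω k).F τ (sI k Finset.univ))
    (p3 k) p3_surj ![0, 3, 6] ![4, 4, 4] A3 (B3 _ 4 (by intro l; fin_cases l <;> rfl))
    (fun s => (ker_ω_U τ s).trans (p3_univ _).symm)
    (fun s => (ker_V (Pω k).E τ s).trans (p3_univ _).symm)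
    (fun s => (ker_UV (Pω k).E τ s).trans (p3_univ _).symm)
  unfold chi
  rw [e0, e1]
  rfl

/-! ### The first test sheaf -/

theorem chi_F12 :
    chi (C := crv k) (PF k).F (kerRes (PF k).F true (sI k {1, 2})) = -1 := by
  obtain ⟨e0, e1⟩ := (mP (PF k)).dims' (kerRes (C := crv k) (PF k).F true (sI k {1, 2}))
    (p2 1 2) (p2_surj (by decide)) ![0, 3] ![0, 0] A'p (B2 (k := k) ![4, 0, 0] 1 2 (by decide) rfl)
    (fun s => (ker_true (PF k).E (pU k) {1, 2} s).trans (p2_ker 1 2 _).symm)
    (fun s => (ker_true (PF k).E (pV k) {1, 2} s).trans (p2_ker 1 2 _).symm)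
    (fun s => (ker_true (PF k).E (pUV k) {1, 2} s).trans (p2_ker 1 2 _).symm)
  unfold chi
  rw [e0, e1]
  rfl

theorem chi_F0 (j : Fin 3) (hj : j ≠ 0) :
    chi (C := crv k) (PF k).F (kerRes (PF k).F true (sI k {0, j})) = 6 := by
  have e : (![4, 0, 0] : Fin 3 → ℤ) j = 0 := by
    have : j = 1 ∨ j = 2 := by omega
    rcases this with rfl | rfl <;> rfl
  have hB := Bq (k := k) ![4, 0, 0] 0 j hj.symm
  rw [e] at hB
  obtain ⟨e0, e1⟩ := (mP (PF k)).dims' (kerRes (C := crv k) (PF k).F true (sI k {0, j}))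
    (q2 0 j) (q2_surj hj.symm) ![0, 0] ![4, 0] (A'q j hj) hB
    (fun s => (ker_true (PF k).E (pU k) {0, j} s).trans (q2_ker 0 j _).symm)
    (fun s => (ker_true (PF k).E (pV k) {0, j} s).trans (q2_ker 0 j _).symm)
    (fun s => (ker_true (PF k).E (pUV k) {0, j} s).trans (q2_ker 0 j _).symm)
  unfold chi
  rw [e0, e1]
  rfl

theorem chi_F3 :
    chi (C := crv k) (PF k).F (kerRes (PF k).F true (sI k Finset.univ)) = 4 := by
  obtain ⟨e0, e1⟩ := (mP (PF k)).dims' (kerRes (C := crv k) (PF k).F true (sI k Finset.univ))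
    (p4 k) p4_surj ![0, 0, 3] ![4, 0, 0] A'4 (B4 ![4, 0, 0] rfl)
    (fun s => (ker_true (PF k).E (pU k) Finset.univ s).trans (p4_univ _).symm)
    (fun s => (ker_true (PF k).E (pV k) Finset.univ s).trans (p4_univ _).symm)
    (fun s => (ker_true (PF k).E (pUV k) Finset.univ s).trans (p4_univ _).symm)
  unfold chi
  rw [e0, e1]
  rfl

/-! ### The second test sheaf -/

theorem coe_zero_iff {a b : ℤ} {p : L k} (hp : p ∈ lo k a) :
    coe k (Finset.Ico a b) p = 0 ↔ p ∈ lo k b := by
  constructor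
  · intro h e he
    by_cases h0 : e < a
    · exact hp e h0
    · exact congrFun h ⟨e, Finset.mem_Ico.2 ⟨by omega, he⟩⟩
  · intro h
    ext ⟨e, he⟩
    exact h e (Finset.mem_Ico.1 he).2

theorem coe_surj_lo' (a b : ℤ) (v : Finset.Ico a b → k) :
    ∃ p ∈ lo k a, coe k (Finset.Ico a b) p = v := by
  obtain ⟨p, hp, hp'⟩ := coe_surj' k _ v
  exact ⟨p, fun e he => hp' e (by rw [Finset.mem_Ico]; omega), hp⟩

theorem T6_cancel (p : L k) : T 6 * (T (-6) * p) = p := by
  rw [← mul_assoc, ← T_add, add_neg_cancel, T_zero, one_mul]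

/-- the torsion for the components 1 and 2 -/
theorem theta12 : Module.Finite k (↥(LinearMap.ker ((p2 1 2).comp ((PG k).E.t (pU k)))) ⧸
      (kerRes (C := crv k) (PG k).F false (sI k {1, 2}) (U k)).comap
        (LinearMap.ker ((p2 1 2).comp ((PG k).E.t (pU k)))).subtype) ∧
    Module.finrank k (↥(LinearMap.ker ((p2 1 2).comp ((PG k).E.t (pU k)))) ⧸
      (kerRes (C := crv k) (PG k).F false (sI k {1, 2}) (U k)).comap
        (LinearMap.ker ((p2 1 2).comp ((PG k).E.t (pU k)))).subtype) = 6 := by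
  have key := theta (PG k).E (p2 1 2) (kerRes (C := crv k) (PG k).F false (sI k {1, 2}) (U k))
    (Finset.Ico 0 (6 : ℕ)) ((coe k _).comp (cd 0)) ?_ ?_
  · exact key
  · intro s hs
    have hg : (PG k).E.t (pU k) s ∈ MA' k := (PG k).t_mem_U s
    set g := (PG k).E.t (pU k) s with hgs
    have hz := (p2_ker 1 2 g).1 hs
    have hg1 : g 1 = 0 := hz 1 (by simp)
    have hg2 : g 2 = 0 := hz 2 (by simp)
    constructor
    · intro h
      refine (coe_eq_zero_iff (hg.1 0)).2 ?_
      refine ker_false_ind (PG k).E (pU k) (I := {1, 2}) ((lo k 6).comap (cd 0)) ?_ h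
      intro a ha t
      have ha1 : al (iK k) (pU k) a 1 = 0 := ha 1 (by simp)
      have ha2 : al (iK k) (pU k) a 2 = 0 := ha 2 (by simp)
      have h1 := (al_mem a).2.2
      rw [ha1, ha2, add_zero, zero_sub, neg_mem_iff] at h1
      exact lo_mul' (two_smul_mem h1) (((PG k).t_mem_U t).1 0) (by norm_num)
    · intro h
      have hg0 : g 0 ∈ lo k 6 := (coe_eq_zero_iff (hg.1 0)).1 h
      have hx : (![T 6, 0, 0] : K k) ∈ A k := by
        have h6 : (T 6 : L k) ∈ lo k 6 := T_mem_lo le_rfl
        refine ⟨?_, ?_, ?_⟩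
        · intro i
          fin_cases i
          · exact lo_mono (by norm_num) h6
          · exact zero_mem _
          · exact zero_mem _
        · change (0 : L k) - 0 ∈ _
          rw [sub_zero]; exact zero_mem _
        · change 0 + 0 - 2 * T 6 ∈ _
          rw [add_zero, zero_sub, two_mul]
          exact neg_mem (add_mem h6 h6)
      obtain ⟨t, ht⟩ := (PG k).exists_U (g := ![T (-6) * g 0, 0, 0]) (by
        refine ⟨?_, ?_⟩
        · intro i
          fin_cases i
          · change T (-6) * g 0 ∈ _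
            rw [T_mul_mem_lo]; exact lo_mono (by norm_num) hg0
          · exact zero_mem _
          · exact zero_mem _
        · change (0 : L k) - 0 ∈ _
          rw [sub_self]; exact zero_mem _)
      have h1 : al (iK k) (pU k) (eU k ⟨_, hx⟩) = ![T 6, 0, 0] := al_eU k _
      apply ker_false_of (PG k).E (pU k) (PG k).E.injU (eU k ⟨_, hx⟩) _ s t
      · rw [ht]
        refine Eq.trans ?_ (congrArg (fun e => e * (![T (-6) * g 0, 0, 0] : K k)) h1.symm)
        ext1 i
        fin_cases i
        · change g 0 = T 6 * (T (-6) * g 0)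
          rw [T6_cancel]
        · change g 1 = 0 * 0
          rw [hg1, zero_mul]
        · change g 2 = 0 * 0
          rw [hg2, zero_mul]
      · intro i hi
        rw [Finset.mem_insert, Finset.mem_singleton] at hi
        rcases hi with rfl | rfl
        · exact congrFun h1 1
        · exact congrFun h1 2
  · intro v
    obtain ⟨p, hp, hv⟩ := coe_surj_lo 6 v
    obtain ⟨t, ht⟩ := (PG k).exists_U (g := ![p, 0, 0]) (by
        refine ⟨?_, ?_⟩
        · intro i
          fin_cases i
          · exact hp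
          · exact zero_mem _
          · exact zero_mem _
        · change (0 : L k) - 0 ∈ _
          rw [sub_self]; exact zero_mem _)
    refine ⟨t, ?_, ?_⟩
    · rw [ht, p2_ker]
      intro l hl
      rw [Finset.mem_insert, Finset.mem_singleton] at hl
      rcases hl with rfl | rfl <;> rfl
    · rw [ht]
      exact hv

/-- a pair of components with the component 0 -/
theorem theta0' (j l : Fin 3) (hjl : (j = 1 ∧ l = 2) ∨ (j = 2 ∧ l = 1)) :
    Module.Finite k (↥(LinearMap.ker ((q2 0 j).comp ((PG k).E.t (pU k)))) ⧸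
      (kerRes (C := crv k) (PG k).F false (sI k {0, j}) (U k)).comap
        (LinearMap.ker ((q2 0 j).comp ((PG k).E.t (pU k)))).subtype) ∧
    Module.finrank k (↥(LinearMap.ker ((q2 0 j).comp ((PG k).E.t (pU k)))) ⧸
      (kerRes (C := crv k) (PG k).F false (sI k {0, j}) (U k)).comap
        (LinearMap.ker ((q2 0 j).comp ((PG k).E.t (pU k)))).subtype) = 3 := by
  have hl0 : l ≠ 0 := by omega
  have hlj : l ≠ j := by omega
  have hcov : ∀ i : Fin 3, i = 0 ∨ i = j ∨ i = l := by omega
  -- the difference of the last two coordinates of a triple concentrated in `l`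
  have hdiff : ∀ (S : Submodule k (L k)) (p : L k), p ∈ S →
      (Pi.single l p : K k) 1 - (Pi.single l p : K k) 2 ∈ S := by
    intro S p hp
    rcases hjl with ⟨rfl, rfl⟩ | ⟨rfl, rfl⟩
    · change 0 - p ∈ S
      rw [zero_sub]; exact neg_mem hp
    · change p - 0 ∈ S
      rw [sub_zero]; exact hp
  have hsum : ∀ (g : K k), g 0 = 0 → g j = 0 → g 1 + g 2 - 2 * g 0 = g l := by
    intro g h0 hj
    rcases hjl with ⟨rfl, rfl⟩ | ⟨rfl, rfl⟩
    · rw [h0, hj]; ring
    · rw [h0, hj]; ring
  have hs0 : ∀ p : L k, (Pi.single l p : K k) 0 = 0 := by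
    intro p
    rw [Pi.single_eq_of_ne hl0.symm]
  have hsj : ∀ p : L k, (Pi.single l p : K k) j = 0 := by
    intro p
    rw [Pi.single_eq_of_ne hlj.symm]
  have key := theta (PG k).E (q2 0 j) (kerRes (C := crv k) (PG k).F false (sI k {0, j}) (U k))
    (Finset.Ico 3 6) ((coe k _).comp (cd l)) ?_ ?_
  · exact key
  · intro s hs
    have hg : (PG k).E.t (pU k) s ∈ MA' k := (PG k).t_mem_U s
    set g := (PG k).E.t (pU k) s with hgs
    have hz := (q2_ker 0 j g).1 hs
    have hg0 : g 0 = 0 := hz 0 (by simp)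
    have hgj : g j = 0 := hz j (by simp)
    have hgl : g l ∈ lo k 3 := by
      have h := hg.2
      rcases hjl with ⟨rfl, rfl⟩ | ⟨rfl, rfl⟩
      · rw [hgj, zero_sub, neg_mem_iff] at h; exact h
      · rw [hgj, sub_zero] at h; exact h
    constructor
    · intro h
      refine (coe_zero_iff hgl).2 ?_
      refine ker_false_ind (PG k).E (pU k) (I := {0, j}) ((lo k 6).comap (cd l)) ?_ h
      intro a ha t
      have ha0 : al (iK k) (pU k) a 0 = 0 := ha 0 (by simp)
      have haj : al (iK k) (pU k) a j = 0 := ha j (by simp)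
      have h1 := (al_mem a).2.2
      rw [hsum _ ha0 haj] at h1
      exact lo_mul' h1 (((PG k).t_mem_U t).1 l) (by norm_num)
    · intro h
      have hg6 : g l ∈ lo k 6 := (coe_zero_iff hgl).1 h
      have h6 : (T 6 : L k) ∈ lo k 6 := T_mem_lo le_rfl
      have hx : (Pi.single l (T 6) : K k) ∈ A k := by
        refine ⟨?_, ?_, ?_⟩
        · intro i
          by_cases hi : i = l
          · subst hi; rw [Pi.single_eq_same]; exact lo_mono (by norm_num) h6
          · rw [Pi.single_eq_of_ne hi]; exact zero_mem _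
        · exact hdiff _ _ (lo_mono (by norm_num) h6)
        · rw [hsum _ (hs0 _) (hsj _), Pi.single_eq_same]; exact h6
      set w := T (-6) * g l with hw
      have hw0 : w ∈ lo k 0 := by
        rw [hw, T_mul_mem_lo]; exact lo_mono (by norm_num) hg6
      obtain ⟨t, ht⟩ := (PG k).exists_U (g := ![0, w, w]) (by
        refine ⟨?_, ?_⟩
        · intro i
          fin_cases i
          · exact zero_mem _
          · exact hw0
          · exact hw0
        · change w - w ∈ _
          rw [sub_self]; exact zero_mem _)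
      have h1 : al (iK k) (pU k) (eU k ⟨_, hx⟩) = Pi.single l (T 6) := al_eU k _
      apply ker_false_of (PG k).E (pU k) (PG k).E.injU (eU k ⟨_, hx⟩) _ s t
      · rw [ht]
        refine Eq.trans ?_ (congrArg (fun e => e * (![0, w, w] : K k)) h1.symm)
        ext1 i
        change g i = (Pi.single l (T 6) : K k) i * (![0, w, w] : K k) i
        rcases hcov i with hi | hi | hi
        · rw [hi, hg0, hs0, zero_mul]
        · rw [hi, hgj, hsj, zero_mul]
        · rw [hi, Pi.single_eq_same]
          have hwl : (![0, w, w] : K k) l = w := by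
            rcases hjl with ⟨-, rfl⟩ | ⟨-, rfl⟩ <;> rfl
          rw [hwl, hw, T6_cancel]
      · intro i hi
        rw [Finset.mem_insert, Finset.mem_singleton] at hi
        rcases hi with rfl | rfl
        · exact (congrFun h1 0).trans (hs0 _)
        · exact (congrFun h1 i).trans (hsj _)
  · intro v
    obtain ⟨p, hp, hv⟩ := coe_surj_lo' 3 6 v
    obtain ⟨t, ht⟩ := (PG k).exists_U (g := Pi.single l p) (by
        refine ⟨?_, ?_⟩
        · intro i
          by_cases hi : i = l
          · subst hi; rw [Pi.single_eq_same]; exact lo_mono (by norm_num) hp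
          · rw [Pi.single_eq_of_ne hi]; exact zero_mem _
        · exact hdiff _ _ hp)
    refine ⟨t, ?_, ?_⟩
    · rw [ht, q2_ker]
      intro i hi
      rw [Finset.mem_insert, Finset.mem_singleton] at hi
      rcases hi with rfl | rfl
      · exact hs0 _
      · exact hsj _
    · rw [ht]
      change coe k _ ((Pi.single l p : K k) l) = v
      rw [Pi.single_eq_same]
      exact hv

theorem chi_G12 :
    chi (C := crv k) (PG k).F (kerRes (PG k).F false (sI k {1, 2})) = 7 := by
  obtain ⟨hf, hθ⟩ := theta12 (k := k)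
  obtain ⟨e0, e1⟩ := dims (PG k).E (PG k).exists_UV
    (kerRes (C := crv k) (PG k).F false (sI k {1, 2}))
    (p2 1 2) (p2_surj (by decide)) ![0, 3] ![1, 1]
    (map_range_eq _ {g | g ∈ (PG k).M} (PG k).t_mem_U (fun _ hg => (PG k).exists_U hg) _ _
      A'p.1 A'p.2)
    (map_range_eq _ {g | g ∈ (PG k).N} (PG k).t_mem_V (fun _ hg => (PG k).exists_V hg) _ _
      (B2 (k := k) ![-6, 1, 1] 1 2 (by decide) rfl).1
      (B2 (k := k) ![-6, 1, 1] 1 2 (by decide) rfl).2)
    (fun s hs => (p2_ker 1 2 _).2 (ker_false_sub (PG k).E (pU k) hs))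
    (fun s => (ker_V (PG k).E false s).trans (p2_ker 1 2 _).symm)
    (fun s => (ker_UV (PG k).E false s).trans (p2_ker 1 2 _).symm) hf
  rw [hθ] at e0
  unfold chi
  rw [e0, e1]
  rfl

theorem chi_G0 (j l : Fin 3) (hjl : (j = 1 ∧ l = 2) ∨ (j = 2 ∧ l = 1)) :
    chi (C := crv k) (PG k).F (kerRes (PG k).F false (sI k {0, j})) = 0 := by
  obtain ⟨hf, hθ⟩ := theta0' (k := k) j l hjl
  have hj : j ≠ 0 := by omega
  have e : (![-6, 1, 1] : Fin 3 → ℤ) j = 1 := by
    rcases hjl with ⟨rfl, -⟩ | ⟨rfl, -⟩ <;> rfl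
  have hB := Bq (k := k) ![-6, 1, 1] 0 j hj.symm
  rw [e] at hB
  obtain ⟨e0, e1⟩ := dims (PG k).E (PG k).exists_UV
    (kerRes (C := crv k) (PG k).F false (sI k {0, j}))
    (q2 0 j) (q2_surj hj.symm) ![0, 0] ![-6, 1]
    (map_range_eq _ {g | g ∈ (PG k).M} (PG k).t_mem_U (fun _ hg => (PG k).exists_U hg) _ _
      (A'q j hj).1 (A'q j hj).2)
    (map_range_eq _ {g | g ∈ (PG k).N} (PG k).t_mem_V (fun _ hg => (PG k).exists_V hg) _ _
      hB.1 hB.2)
    (fun s hs => (q2_ker 0 j _).2 (ker_false_sub (PG k).E (pU k) hs))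
    (fun s => (ker_V (PG k).E false s).trans (q2_ker 0 j _).symm)
    (fun s => (ker_UV (PG k).E false s).trans (q2_ker 0 j _).symm) hf
  rw [hθ] at e0
  unfold chi
  rw [e0, e1]
  rfl

theorem ker_G_U (s : Sec (C := crv k) (PG k).F (U k)) :
    s ∈ kerRes (C := crv k) (PG k).F false (sI k Finset.univ) (U k) ↔
      ∀ i ∈ (Finset.univ : Finset (Fin 3)), (PG k).E.t (pU k) s i = 0 := by
  refine ⟨ker_false_sub (PG k).E (pU k), fun h => ?_⟩
  have h1 : s = 0 := by
    apply (PG k).E.t_inj (pU k) (PG k).E.injU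
    rw [map_zero]
    ext1 i
    exact h i (Finset.mem_univ _)
  rw [h1]
  exact zero_mem _

theorem chi_G3 :
    chi (C := crv k) (PG k).F (kerRes (PG k).F false (sI k Finset.univ)) = -4 := by
  obtain ⟨e0, e1⟩ := (mP (PG k)).dims' (kerRes (C := crv k) (PG k).F false (sI k Finset.univ))
    (p4 k) p4_surj ![0, 0, 3] ![-6, 1, 1] A'4 (B4 ![-6, 1, 1] rfl)
    (fun s => (ker_G_U s).trans (p4_univ _).symm)
    (fun s => (ker_V (PG k).E false s).trans (p4_univ _).symm)
    (fun s => (ker_UV (PG k).E false s).trans (p4_univ _).symm)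
  unfold chi
  rw [e0, e1]
  rfl

end Run7.h109
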