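import Pool.Agent.Run7.h109.Tab

set_option autoImplicit false
set_option linter.unusedSectionVars false

open AlgebraicGeometry CategoryTheory TopologicalSpace Opposite LaurentPolynomial

noncomputable section

namespace Run7.h109

variable {k : Type} [Field k] [CharZero k]

/-! ### The second test sheaf -/

/-- the dimension of the torsion -/
theorem theta {F : (X k).Modules} (E : Emb F) {r : ℕ} (p : K k →ₗ[k] (Fin r → L k))
    (Q : Submodule k (Sec (C := crv k) F (U k))) (S : Finset ℤ) (c : K k →ₗ[k] (S → k))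
    (h1 : ∀ s, p (E.t (pU k) s) = 0 → (s ∈ Q ↔ c (E.t (pU k) s) = 0))
    (h2 : ∀ v : S → k, ∃ s, p (E.t (pU k) s) = 0 ∧ c (E.t (pU k) s) = v) :
    Module.Finite k (↥(LinearMap.ker (p.comp (E.t (pU k)))) ⧸
      Q.comap (LinearMap.ker (p.comp (E.t (pU k)))).subtype) ∧
    Module.finrank k (↥(LinearMap.ker (p.comp (E.t (pU k)))) ⧸
      Q.comap (LinearMap.ker (p.comp (E.t (pU k)))).subtype) = S.card := by
  let f : ↥(LinearMap.ker (p.comp (E.t (pU k)))) →ₗ[k] (S → k) :=
    (c.comp (E.t (pU k))).comp (LinearMap.ker (p.comp (E.t (pU k)))).subtype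
  have hf : Function.Surjective f := by
    intro v
    obtain ⟨s, hs, hv⟩ := h2 v
    exact ⟨⟨s, hs⟩, hv⟩
  have hk : LinearMap.ker f = Q.comap (LinearMap.ker (p.comp (E.t (pU k)))).subtype := by
    ext s
    exact (h1 s.1 s.2).symm
  rw [← hk]
  let e := f.quotKerEquivOfSurjective hf
  refine ⟨Module.Finite.equiv e.symm, ?_⟩
  rw [e.finrank_eq, Module.finrank_fintype_fun_eq_card, Fintype.card_coe]

theorem coe_eq_zero_iff {n : ℕ} {p : L k} (hp : p ∈ lo k 0) :
    coe k (Finset.Ico 0 (n : ℤ)) p = 0 ↔ p ∈ lo k n := by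
  constructor
  · intro h e he
    by_cases h0 : e < 0
    · exact hp e h0
    · exact congrFun h ⟨e, Finset.mem_Ico.2 ⟨by omega, he⟩⟩
  · intro h
    ext ⟨e, he⟩
    exact h e (Finset.mem_Ico.1 he).2

theorem coe_surj_lo (n : ℕ) (v : Finset.Ico 0 (n : ℤ) → k) :
    ∃ p ∈ lo k 0, coe k (Finset.Ico 0 (n : ℤ)) p = v := by
  obtain ⟨p, hp, hp'⟩ := coe_surj' k _ v
  exact ⟨p, fun e he => hp' e (by rw [Finset.mem_Ico]; omega), hp⟩

theorem T3_cancel (p : L k) : T 3 * (T (-3) * p) = p := by
  rw [← mul_assoc, ← T_add, add_neg_cancel, T_zero, one_mul]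

/-- the values of functions on the first chart -/
theorem al_mem (a : Fn (crv k) (U k)) : al (iK k) (pU k) a ∈ A k := al_U_mem k a

/-- the torsion for the component 1 -/
theorem theta1 : Module.Finite k (↥(LinearMap.ker ((p1 1).comp ((PG k).E.t (pU k)))) ⧸
      (kerRes (C := crv k) (PG k).F false (sI k {1}) (U k)).comap
        (LinearMap.ker ((p1 1).comp ((PG k).E.t (pU k)))).subtype) ∧
    Module.finrank k (↥(LinearMap.ker ((p1 1).comp ((PG k).E.t (pU k)))) ⧸
      (kerRes (C := crv k) (PG k).F false (sI k {1}) (U k)).comap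
        (LinearMap.ker ((p1 1).comp ((PG k).E.t (pU k)))).subtype) = 3 := by
  have key := theta (PG k).E (p1 1) (kerRes (C := crv k) (PG k).F false (sI k {1}) (U k))
    (Finset.Ico 0 (3 : ℕ)) ((coe k _).comp (cd 0)) ?_ ?_
  · exact key
  · intro s hs
    have hg : (PG k).E.t (pU k) s ∈ MA' k := (PG k).t_mem_U s
    set g := (PG k).E.t (pU k) s with hgs
    have hg1 : g 1 = 0 := congrFun hs 0
    have hg2 : g 2 ∈ lo k 3 := by
      have := hg.2
      rw [hg1, zero_sub, neg_mem_iff] at this
      exact this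
    constructor
    · intro h
      refine (coe_eq_zero_iff (hg.1 0)).2 ?_
      refine ker_false_ind (PG k).E (pU k) (I := {1}) ((lo k 3).comap (cd 0)) ?_ h
      intro a ha t
      have ha1 : al (iK k) (pU k) a 1 = 0 := ha 1 (Finset.mem_singleton_self _)
      have h1 := (A_diff (al_mem a)).1
      rw [ha1, zero_sub, neg_mem_iff] at h1
      exact lo_mul' h1 (((PG k).t_mem_U t).1 0) (by norm_num)
    · intro h
      have hg0 : g 0 ∈ lo k 3 := (coe_eq_zero_iff (hg.1 0)).1 h
      obtain ⟨w, hw, hw'⟩ := half_L (T (-3) * g 2)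
      have hw0 : w ∈ lo k 0 := hw' _ (by rw [T_mul_mem_lo]; exact lo_mono (by norm_num) hg2)
      have hx : (![T 3, 0, 2 * T 3] : K k) ∈ A k := by
        have h3 : (T 3 : L k) ∈ lo k 3 := T_mem_lo le_rfl
        refine ⟨?_, ?_, ?_⟩
        · intro i
          fin_cases i
          · exact lo_mono (by norm_num) h3
          · exact zero_mem _
          · change 2 * T 3 ∈ _
            rw [two_mul]
            exact lo_mono (by norm_num) (add_mem h3 h3)
        · change 0 - 2 * T 3 ∈ _
          rw [zero_sub, two_mul]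
          exact neg_mem (add_mem h3 h3)
        · change 0 + 2 * T 3 - 2 * T 3 ∈ _
          have : (0 + 2 * T 3 - 2 * T 3 : L k) = 0 := by ring
          rw [this]; exact zero_mem _
      obtain ⟨t, ht⟩ := (PG k).exists_U (g := ![T (-3) * g 0, w, w]) (by
        refine ⟨?_, ?_⟩
        · intro i
          fin_cases i
          · change T (-3) * g 0 ∈ _
            rw [T_mul_mem_lo]; exact lo_mono (by norm_num) hg0
          · exact hw0
          · exact hw0
        · change w - w ∈ _
          rw [sub_self]; exact zero_mem _)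
      have h1 : al (iK k) (pU k) (eU k ⟨_, hx⟩) = ![T 3, 0, 2 * T 3] := al_eU k _
      apply ker_false_of (PG k).E (pU k) (PG k).E.injU (eU k ⟨_, hx⟩) _ s t
      · rw [ht]
        refine Eq.trans ?_ (congrArg (fun e => e * (![T (-3) * g 0, w, w] : K k)) h1.symm)
        ext1 i
        fin_cases i
        · change g 0 = T 3 * (T (-3) * g 0)
          rw [T3_cancel]
        · change g 1 = 0 * w
          rw [hg1, zero_mul]
        · change g 2 = 2 * T 3 * w
          have := T3_cancel (g 2)
          rw [hw] at this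
          rw [← this]; ring
      · intro i hi
        rw [Finset.mem_singleton] at hi
        subst hi
        exact congrFun h1 1
  · intro v
    obtain ⟨p, hp, hv⟩ := coe_surj_lo 3 v
    obtain ⟨t, ht⟩ := (PG k).exists_U (g := ![p, 0, 0]) (by
        refine ⟨?_, ?_⟩
        · intro i
          fin_cases i
          · exact hp
          · exact zero_mem _
          · exact zero_mem _
        · change (0 : L k) - 0 ∈ _
          rw [sub_self]; exact zero_mem _)
    refine ⟨t, ?_, ?_⟩
    · rw [ht]
      ext1 j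
      rfl
    · rw [ht]
      exact hv

/-- the torsion for the component 2 -/
theorem theta2 : Module.Finite k (↥(LinearMap.ker ((p1 2).comp ((PG k).E.t (pU k)))) ⧸
      (kerRes (C := crv k) (PG k).F false (sI k {2}) (U k)).comap
        (LinearMap.ker ((p1 2).comp ((PG k).E.t (pU k)))).subtype) ∧
    Module.finrank k (↥(LinearMap.ker ((p1 2).comp ((PG k).E.t (pU k)))) ⧸
      (kerRes (C := crv k) (PG k).F false (sI k {2}) (U k)).comap
        (LinearMap.ker ((p1 2).comp ((PG k).E.t (pU k)))).subtype) = 3 := by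
  have key := theta (PG k).E (p1 2) (kerRes (C := crv k) (PG k).F false (sI k {2}) (U k))
    (Finset.Ico 0 (3 : ℕ)) ((coe k _).comp (cd 0)) ?_ ?_
  · exact key
  · intro s hs
    have hg : (PG k).E.t (pU k) s ∈ MA' k := (PG k).t_mem_U s
    set g := (PG k).E.t (pU k) s with hgs
    have hg1 : g 2 = 0 := congrFun hs 0
    have hg2 : g 1 ∈ lo k 3 := by
      have := hg.2
      rw [hg1, sub_zero] at this
      exact this
    constructor
    · intro h
      refine (coe_eq_zero_iff (hg.1 0)).2 ?_
      refine ker_false_ind (PG k).E (pU k) (I := {2}) ((lo k 3).comap (cd 0)) ?_ h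
      intro a ha t
      have ha1 : al (iK k) (pU k) a 2 = 0 := ha 2 (Finset.mem_singleton_self _)
      have h1 := (A_diff (al_mem a)).2
      rw [ha1, zero_sub, neg_mem_iff] at h1
      exact lo_mul' h1 (((PG k).t_mem_U t).1 0) (by norm_num)
    · intro h
      have hg0 : g 0 ∈ lo k 3 := (coe_eq_zero_iff (hg.1 0)).1 h
      obtain ⟨w, hw, hw'⟩ := half_L (T (-3) * g 1)
      have hw0 : w ∈ lo k 0 := hw' _ (by rw [T_mul_mem_lo]; exact lo_mono (by norm_num) hg2)
      have hx : (![T 3, 2 * T 3, 0] : K k) ∈ A k := by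
        have h3 : (T 3 : L k) ∈ lo k 3 := T_mem_lo le_rfl
        refine ⟨?_, ?_, ?_⟩
        · intro i
          fin_cases i
          · exact lo_mono (by norm_num) h3
          · change 2 * T 3 ∈ _
            rw [two_mul]
            exact lo_mono (by norm_num) (add_mem h3 h3)
          · exact zero_mem _
        · change 2 * T 3 - 0 ∈ _
          rw [sub_zero, two_mul]
          exact add_mem h3 h3
        · change 2 * T 3 + 0 - 2 * T 3 ∈ _
          have : (2 * T 3 + 0 - 2 * T 3 : L k) = 0 := by ring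
          rw [this]; exact zero_mem _
      obtain ⟨t, ht⟩ := (PG k).exists_U (g := ![T (-3) * g 0, w, w]) (by
        refine ⟨?_, ?_⟩
        · intro i
          fin_cases i
          · change T (-3) * g 0 ∈ _
            rw [T_mul_mem_lo]; exact lo_mono (by norm_num) hg0
          · exact hw0
          · exact hw0
        · change w - w ∈ _
          rw [sub_self]; exact zero_mem _)
      have h1 : al (iK k) (pU k) (eU k ⟨_, hx⟩) = ![T 3, 2 * T 3, 0] := al_eU k _
      apply ker_false_of (PG k).E (pU k) (PG k).E.injU (eU k ⟨_, hx⟩) _ s t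
      · rw [ht]
        refine Eq.trans ?_ (congrArg (fun e => e * (![T (-3) * g 0, w, w] : K k)) h1.symm)
        ext1 i
        fin_cases i
        · change g 0 = T 3 * (T (-3) * g 0)
          rw [T3_cancel]
        · change g 1 = 2 * T 3 * w
          have := T3_cancel (g 1)
          rw [hw] at this
          rw [← this]; ring
        · change g 2 = 0 * w
          rw [hg1, zero_mul]
      · intro i hi
        rw [Finset.mem_singleton] at hi
        subst hi
        exact congrFun h1 2
  · intro v
    obtain ⟨p, hp, hv⟩ := coe_surj_lo 3 v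
    obtain ⟨t, ht⟩ := (PG k).exists_U (g := ![p, 0, 0]) (by
        refine ⟨?_, ?_⟩
        · intro i
          fin_cases i
          · exact hp
          · exact zero_mem _
          · exact zero_mem _
        · change (0 : L k) - 0 ∈ _
          rw [sub_self]; exact zero_mem _)
    refine ⟨t, ?_, ?_⟩
    · rw [ht]
      ext1 j
      rfl
    · rw [ht]
      exact hv

/-- the torsion for the component 0 -/
theorem theta0 : Module.Finite k (↥(LinearMap.ker ((p1 0).comp ((PG k).E.t (pU k)))) ⧸
      (kerRes (C := crv k) (PG k).F false (sI k {0}) (U k)).comap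
        (LinearMap.ker ((p1 0).comp ((PG k).E.t (pU k)))).subtype) ∧
    Module.finrank k (↥(LinearMap.ker ((p1 0).comp ((PG k).E.t (pU k)))) ⧸
      (kerRes (C := crv k) (PG k).F false (sI k {0}) (U k)).comap
        (LinearMap.ker ((p1 0).comp ((PG k).E.t (pU k)))).subtype) = 6 := by
  have key := theta (PG k).E (p1 0) (kerRes (C := crv k) (PG k).F false (sI k {0}) (U k))
    (Finset.Ico 0 (6 : ℕ)) ((coe k _).comp (cd 1 + cd 2)) ?_ ?_
  · exact key
  · intro s hs
    have hg : (PG k).E.t (pU k) s ∈ MA' k := (PG k).t_mem_U s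
    set g := (PG k).E.t (pU k) s with hgs
    have hg0 : g 0 = 0 := congrFun hs 0
    constructor
    · intro h
      refine (coe_eq_zero_iff (add_mem (hg.1 1) (hg.1 2))).2 ?_
      refine ker_false_ind (PG k).E (pU k) (I := {0}) ((lo k 6).comap (cd 1 + cd 2)) ?_ h
      intro a ha t
      have ha0 : al (iK k) (pU k) a 0 = 0 := ha 0 (Finset.mem_singleton_self _)
      have haA := al_mem a
      have ht : (PG k).E.t (pU k) t ∈ MA' k := (PG k).t_mem_U t
      set α := al (iK k) (pU k) a with hα
      set β := (PG k).E.t (pU k) t with hβ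
      have h6 := haA.2.2
      rw [ha0, mul_zero, sub_zero] at h6
      have h2 := (A_diff haA).2
      rw [ha0, sub_zero] at h2
      change α 1 * β 1 + α 2 * β 2 ∈ lo k 6
      have e : α 1 * β 1 + α 2 * β 2 = (α 1 + α 2) * β 1 - α 2 * (β 1 - β 2) := by ring
      rw [e]
      exact sub_mem (lo_mul' h6 (ht.1 1) (by norm_num)) (lo_mul' h2 ht.2 (by norm_num))
    · intro h
      have h6 : g 1 + g 2 ∈ lo k 6 := (coe_eq_zero_iff (add_mem (hg.1 1) (hg.1 2))).1 h
      have h6' := lo_mono (k := k) (show (3 : ℤ) ≤ 6 by norm_num) h6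
      have hg1 : g 1 ∈ lo k 3 := by
        apply two_smul_mem
        have e : 2 * g 1 = (g 1 + g 2) + (g 1 - g 2) := by ring
        rw [e]; exact add_mem h6' hg.2
      have hg2 : g 2 ∈ lo k 3 := by
        apply two_smul_mem
        have e : 2 * g 2 = (g 1 + g 2) - (g 1 - g 2) := by ring
        rw [e]; exact sub_mem h6' hg.2
      obtain ⟨t, ht⟩ := (PG k).exists_U (g := ![0, T (-3) * g 1, - (T (-3) * g 2)]) (by
        refine ⟨?_, ?_⟩
        · intro i
          fin_cases i
          · exact zero_mem _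
          · change T (-3) * g 1 ∈ _
            rw [T_mul_mem_lo]; exact lo_mono (by norm_num) hg1
          · change - (T (-3) * g 2) ∈ _
            rw [neg_mem_iff, T_mul_mem_lo]; exact lo_mono (by norm_num) hg2
        · change T (-3) * g 1 - (- (T (-3) * g 2)) ∈ _
          rw [sub_neg_eq_add, ← mul_add, T_mul_mem_lo]
          exact lo_mono (by norm_num) h6)
      have h1 : al (iK k) (pU k) (eU k (yA k)) = ![0, T 3, - T 3] := al_eU k _
      apply ker_false_of (PG k).E (pU k) (PG k).E.injU (eU k (yA k)) _ s t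
      · rw [ht]
        refine Eq.trans ?_ (congrArg
          (fun e => e * (![0, T (-3) * g 1, - (T (-3) * g 2)] : K k)) h1.symm)
        ext1 i
        fin_cases i
        · change g 0 = 0 * 0
          rw [hg0, zero_mul]
        · change g 1 = T 3 * (T (-3) * g 1)
          rw [T3_cancel]
        · change g 2 = - T 3 * (- (T (-3) * g 2))
          rw [neg_mul_neg, T3_cancel]
      · intro i hi
        rw [Finset.mem_singleton] at hi
        subst hi
        exact congrFun h1 0
  · intro v
    obtain ⟨p, hp, hv⟩ := coe_surj_lo 6 v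
    obtain ⟨w, hw, hw'⟩ := half_L p
    have hw0 : w ∈ lo k 0 := hw' _ hp
    obtain ⟨t, ht⟩ := (PG k).exists_U (g := ![0, w, w]) (by
        refine ⟨?_, ?_⟩
        · intro i
          fin_cases i
          · exact zero_mem _
          · exact hw0
          · exact hw0
        · change w - w ∈ _
          rw [sub_self]; exact zero_mem _)
    refine ⟨t, ?_, ?_⟩
    · rw [ht]
      ext1 j
      rfl
    · rw [ht]
      change coe k _ (w + w) = v
      rw [← two_mul, ← hw]
      exact hv

theorem chi_G1 (i : Fin 3) :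
    chi (C := crv k) (PG k).F (kerRes (PG k).F false (sI k {i})) = (![1, 5, 5] : Fin 3 → ℤ) i := by
  have hth : ∃ θ : ℕ, θ = (![6, 3, 3] : Fin 3 → ℕ) i ∧
    Module.Finite k (↥(LinearMap.ker ((p1 i).comp ((PG k).E.t (pU k)))) ⧸
      (kerRes (C := crv k) (PG k).F false (sI k {i}) (U k)).comap
        (LinearMap.ker ((p1 i).comp ((PG k).E.t (pU k)))).subtype) ∧
    Module.finrank k (↥(LinearMap.ker ((p1 i).comp ((PG k).E.t (pU k)))) ⧸
      (kerRes (C := crv k) (PG k).F false (sI k {i}) (U k)).comap
        (LinearMap.ker ((p1 i).comp ((PG k).E.t (pU k)))).subtype) = θ := by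
    fin_cases i
    · exact ⟨6, rfl, theta0⟩
    · exact ⟨3, rfl, theta1⟩
    · exact ⟨3, rfl, theta2⟩
  obtain ⟨θ, hθ, hf, hθ'⟩ := hth
  have m := mP (PG k)
  obtain ⟨e0, e1⟩ := dims (PG k).E (PG k).exists_UV
    (kerRes (C := crv k) (PG k).F false (sI k {i}))
    (p1 i) (p1_surj i) ![0] ![(![-6, 1, 1] : Fin 3 → ℤ) i]
    (map_range_eq _ {g | g ∈ (PG k).M} (PG k).t_mem_U (fun _ hg => (PG k).exists_U hg) _ _
      (A'1 i).1 (A'1 i).2)
    (map_range_eq _ {g | g ∈ (PG k).N} (PG k).t_mem_V (fun _ hg => (PG k).exists_V hg) _ _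
      (B1 (k := k) ![-6, 1, 1] i).1 (B1 (k := k) ![-6, 1, 1] i).2)
    (fun s hs => (p1_ker i _).2 (ker_false_sub (PG k).E (pU k) hs))
    (fun s => (ker_V (PG k).E false s).trans (p1_ker i _).symm)
    (fun s => (ker_UV (PG k).E false s).trans (p1_ker i _).symm) hf
  rw [hθ', hθ] at e0
  unfold chi
  rw [e0, e1]
  fin_cases i <;> rfl

end Run7.h109
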